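import Pool.Agent.R685.PS.Stm

/-!
# MP_fee052_al, piece PS-ACT: the action of the free group on infinite reduced words
-/

set_option linter.unusedSimpArgs false

open MeasureTheory Filter Topology Set

namespace Pool.Agent.R685.PS.Act

variable {N : ℕ}

theorem lt_mul_linv (a : Letter N) : lt a * lt (linv a) = 1 := by
  rw [lt, lt, FreeGroup.mul_mk, FreeGroup.one_eq_mk, linv]
  apply Quot.sound
  exact FreeGroup.Red.Step.cons_not

theorem letter_smul (a : Letter N) (ξ : Bd N) : lt a • ξ = lmul a ξ := by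
  obtain ⟨i, b⟩ := a
  have h1 : actHom N (FreeGroup.of i) = letterPerm i := FreeGroup.lift_apply_of
  cases b with
  | true =>
    show actHom N (FreeGroup.of i) ξ = lmul (i, true) ξ
    rw [h1]
    rfl
  | false =>
    have h2 : lt (i, false) = (FreeGroup.of i : F N)⁻¹ := by
      rw [FreeGroup.of, FreeGroup.inv_mk]
      rfl
    rw [h2]
    show actHom N (FreeGroup.of i)⁻¹ ξ = lmul (i, false) ξ
    rw [map_inv, h1]
    rfl

theorem mk_cons (a : Letter N) (L : List (Letter N)) :
    (FreeGroup.mk (a :: L) : F N) = lt a * FreeGroup.mk L := by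
  rw [lt, FreeGroup.mul_mk]
  rfl

theorem ind {C : F N → Prop} (h1 : C 1) (h2 : ∀ (a : Letter N) (g : F N), C g → C (lt a * g))
    (g : F N) : C g := by
  have : ∀ L : List (Letter N), C (FreeGroup.mk L) := by
    intro L
    induction L with
    | nil => exact h1
    | cons a L ih =>
      rw [mk_cons]
      exact h2 a _ ih
  rw [← FreeGroup.mk_toWord (x := g)]
  exact this _

theorem meas_coord (n : ℕ) : Measurable fun ξ : Bd N => ξ.1 n :=
  (measurable_pi_apply n).comp measurable_subtype_coe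

theorem lmul_coord (a : Letter N) (ξ : Bd N) (n : ℕ) :
    (lmul a ξ).1 n = if ξ.1 0 = linv a then ξ.1 (n + 1) else (if n = 0 then a else ξ.1 (n - 1)) := by
  unfold lmul
  by_cases h : ξ.1 0 = linv a
  · rw [dif_pos h, if_pos h]
    rfl
  · rw [dif_neg h, if_neg h]
    cases n with
    | zero => rfl
    | succ k => rfl

theorem meas_lmul (a : Letter N) : Measurable fun ξ : Bd N => lmul a ξ := by
  have h : Measurable fun ξ : Bd N => fun n => (lmul a ξ).1 n := by
    rw [measurable_pi_iff]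
    intro n
    have e : (fun ξ : Bd N => (lmul a ξ).1 n) = fun ξ : Bd N =>
        if ξ.1 0 = linv a then ξ.1 (n + 1) else (if n = 0 then a else ξ.1 (n - 1)) := by
      funext ξ
      exact lmul_coord a ξ n
    rw [e]
    apply Measurable.ite
    · exact meas_coord 0 (measurableSet_singleton (linv a))
    · exact meas_coord (n + 1)
    · by_cases hn : n = 0
      · simp only [if_pos hn]
        exact measurable_const
      · simp only [if_neg hn]
        exact meas_coord (n - 1)
  exact h.subtype_mk (h := fun ξ => (lmul a ξ).2)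

theorem meas_smul (g : F N) : Measurable fun ξ : Bd N => g • ξ := by
  refine ind (C := fun g : F N => Measurable fun ξ : Bd N => g • ξ) ?_ ?_ g
  · simp only [one_smul]
    exact measurable_id
  · intro a g hg
    have e : (fun ξ : Bd N => (lt a * g) • ξ) = fun ξ : Bd N => lmul a (g • ξ) := by
      funext ξ
      rw [mul_smul, letter_smul]
    rw [e]
    exact (meas_lmul a).comp hg

theorem pre_zero (ξ : Bd N) : pre ξ 0 = 1 := rfl

theorem pre_succ (ξ : Bd N) (n : ℕ) : pre ξ (n + 1) = pre ξ n * lt (ξ.1 n) := rfl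

theorem pre_cancel (a : Letter N) (ξ : Bd N) (h : ξ.1 0 = linv a) (n : ℕ) :
    pre (lmul a ξ) n = lt a * pre ξ (n + 1) := by
  induction n with
  | zero => rw [pre_succ, pre_zero, pre_zero, one_mul, h, lt_mul_linv]
  | succ n ih =>
    rw [pre_succ, ih, pre_succ ξ (n + 1), lmul_coord, if_pos h, mul_assoc]

theorem pre_cons (a : Letter N) (ξ : Bd N) (h : ξ.1 0 ≠ linv a) (n : ℕ) :
    pre (lmul a ξ) (n + 1) = lt a * pre ξ n := by
  induction n with
  | zero => rw [pre_succ, pre_zero, pre_zero, one_mul, lmul_coord, if_neg h, if_pos rfl, mul_one]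
  | succ n ih =>
    rw [pre_succ, ih, pre_succ ξ n, lmul_coord, if_neg h, if_neg (Nat.succ_ne_zero n), mul_assoc]
    rfl

theorem pre_smul (g : F N) (ξ : Bd N) : ∃ k m : ℕ, ∀ n, pre (g • ξ) (n + k) = g * pre ξ (n + m) := by
  refine ind (C := fun g : F N => ∃ k m : ℕ, ∀ n, pre (g • ξ) (n + k) = g * pre ξ (n + m)) ?_ ?_ g
  · exact ⟨0, 0, fun n => by rw [one_smul, one_mul]⟩
  · rintro a g ⟨k, m, h⟩
    by_cases hc : (g • ξ).1 0 = linv a
    · refine ⟨k, m + 1, fun n => ?_⟩
      rw [mul_smul, letter_smul, pre_cancel a _ hc]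
      have e1 : n + k + 1 = (n + 1) + k := by ring
      have e2 : n + (m + 1) = (n + 1) + m := by ring
      rw [e1, h, e2, mul_assoc]
    · refine ⟨k + 1, m, fun n => ?_⟩
      rw [mul_smul, letter_smul, ← add_assoc, pre_cons a _ hc, h, mul_assoc]

theorem pre_ofFn (ξ : Bd N) (n : ℕ) :
    pre ξ n = FreeGroup.mk (List.ofFn fun i : Fin n => ξ.1 i.1) := by
  induction n with
  | zero => rfl
  | succ n ih =>
    rw [pre_succ, ih, List.ofFn_succ', lt, FreeGroup.mul_mk]
    rw [List.concat_eq_append]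
    rfl

theorem pre_reduced (ξ : Bd N) (n : ℕ) :
    FreeGroup.IsReduced (List.ofFn fun i : Fin n => ξ.1 i.1) := by
  rw [FreeGroup.IsReduced, List.isChain_ofFn]
  intro i hi h
  have h1 := ξ.2 i
  by_contra h2
  apply h1
  apply Prod.ext
  · exact h.symm
  · show (ξ.1 (i + 1)).2 = !(ξ.1 i).2
    have h3 : (ξ.1 i).2 ≠ (ξ.1 (i + 1)).2 := h2
    generalize (ξ.1 i).2 = x at h3 ⊢
    generalize (ξ.1 (i + 1)).2 = y at h3 ⊢
    revert h3
    cases x <;> cases y <;> simp

theorem norm_pre (ξ : Bd N) (n : ℕ) : (pre ξ n).toWord.length = n := by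
  rw [pre_ofFn, FreeGroup.toWord_mk, (pre_reduced ξ n).reduce_eq, List.length_ofFn]

theorem avoid (X : Set (F N)) (hX : X.Finite) :
    ∃ n0 : ℕ, ∀ (ξ : Bd N) (n : ℕ), n0 ≤ n → pre ξ n ∉ X := by
  obtain ⟨B, hB⟩ := (hX.image fun g => g.toWord.length).bddAbove
  refine ⟨B + 1, fun ξ n hn h => ?_⟩
  have := hB (Set.mem_image_of_mem _ h)
  simp only [norm_pre] at this
  omega

theorem meas_pre (n : ℕ) (X : Set (F N)) : MeasurableSet {ξ : Bd N | pre ξ n ∈ X} := by
  have h : Measurable fun ξ : Bd N => fun i : Fin n => ξ.1 i.1 := by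
    rw [measurable_pi_iff]
    intro i
    exact meas_coord i.1
  have e : {ξ : Bd N | pre ξ n ∈ X} = (fun ξ : Bd N => fun i : Fin n => ξ.1 i.1) ⁻¹'
      {w : Fin n → Letter N | FreeGroup.mk (List.ofFn w) ∈ X} := by
    ext ξ
    show pre ξ n ∈ X ↔ FreeGroup.mk (List.ofFn fun i : Fin n => ξ.1 i.1) ∈ X
    rw [pre_ofFn]
  rw [e]
  exact h (Set.toFinite _).measurableSet

theorem main : S_ACT := fun _ =>
  ⟨letter_smul, meas_smul, pre_smul, avoid, meas_pre⟩

end Pool.Agent.R685.PS.Act
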