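import Pool.Agent.R685.PS.Stm

/-!
# MP_fee052_al, piece PS-BBT: bounded backtracking
-/

set_option autoImplicit false

open MeasureTheory Filter Topology Set
open scoped ENNReal NNReal

namespace Pool.Agent.R685.PS.BBT

open Pool.Agent.R685.PS

variable {N : ℕ}

section tree

variable (T : CV N)

lemma smul_src (g : F N) (e : T.D) : T.src (g • e) = g • T.src e := rfl

lemma smul_tgt (g : F N) (e : T.D) : T.tgt (g • e) = g • T.tgt e := rfl

lemma smul_ell (g : F N) (e : T.D) : T.ell (g • e) = T.ell e := T.len_smul g e.1.1 e.1.2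

lemma ell_pos (e : T.D) : 0 < T.ell e := T.len_pos _ _ e.2

lemma inj_V (v : T.V) : Function.Injective (fun g : F N => g • v) := by
  intro g h hgh
  have h1 : g • v = h • v := hgh
  have h2 : (h⁻¹ * g) • v = v := by
    rw [mul_smul, h1, inv_smul_smul]
  have h3 := T.free _ _ h2
  exact (inv_mul_eq_one.1 h3).symm

lemma inj_D (e : T.D) : Function.Injective (fun g : F N => g • e) := by
  intro g h hgh
  have h1 : g • e = h • e := hgh
  apply inj_V T (T.src e)
  show g • T.src e = h • T.src e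
  rw [← smul_src, ← smul_src, h1]

/-- the vertices between `p` and `q` -/
def Btw (p q : T.V) : Set T.V := {v | ∀ f : T.D, p ∈ T.H f → q ∈ T.H f → v ∈ T.H f}

variable {T}

lemma src_notMem (hW : T.Walls) (e : T.D) : T.src e ∉ T.H e := ((hW.cross e e).2 rfl).1

lemma tgt_mem (hW : T.Walls) (e : T.D) : T.tgt e ∈ T.H e := ((hW.cross e e).2 rfl).2

lemma exists_cross (hT : S_TEL) (hW : T.Walls) (x y : T.V) (P : Set T.V) (h : ¬ (x ∈ P ↔ y ∈ P)) :
    ∃ d ∈ T.sep x y, ¬ (T.src d ∈ P ↔ T.tgt d ∈ P) := by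
  classical
  by_contra hc
  push Not at hc
  have h1 := hT N T hW x y (P.indicator (fun _ => (1 : ℝ)))
  have h2 : ∑ᶠ e ∈ T.sep x y, (P.indicator (fun _ => (1 : ℝ)) (T.tgt e) - P.indicator (fun _ => (1 : ℝ)) (T.src e)) = 0 := by
    apply finsum_mem_eq_zero_of_forall_eq_zero
    intro e he
    have h3 := hc e he
    by_cases h4 : T.src e ∈ P
    · rw [indicator_of_mem h4, indicator_of_mem (h3.1 h4)]
      ring
    · rw [indicator_of_notMem h4, indicator_of_notMem (fun h5 => h4 (h3.2 h5))]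
      ring
  rw [h2] at h1
  by_cases h4 : x ∈ P
  · by_cases h5 : y ∈ P
    · exact h ⟨fun _ => h5, fun _ => h4⟩
    · rw [indicator_of_mem h4, indicator_of_notMem h5] at h1
      norm_num at h1
  · by_cases h5 : y ∈ P
    · rw [indicator_of_notMem h4, indicator_of_mem h5] at h1
      norm_num at h1
    · exact h ⟨fun h6 => absurd h6 h4, fun h6 => absurd h6 h5⟩

lemma btw_finite (hT : S_TEL) (hW : T.Walls) (p q : T.V) : (Btw T p q).Finite := by
  apply (((hW.finite p q).image T.tgt).insert p).subset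
  intro v hv
  by_cases h : v = p
  · exact Or.inl h
  · right
    obtain ⟨d, hd, hd2⟩ := exists_cross hT hW p v {v} (by
      rw [mem_singleton_iff, mem_singleton_iff]
      intro h1
      exact h (h1.2 rfl).symm)
    rw [mem_singleton_iff, mem_singleton_iff] at hd2
    have hd' : p ∉ T.H d ∧ v ∈ T.H d := hd
    have h1 : T.src d ≠ v := by
      intro h1
      apply src_notMem hW d
      rw [h1]
      exact hd'.2
    have h2 : T.tgt d = v := by
      by_contra h2
      exact hd2 ⟨fun h3 => absurd h3 h1, fun h3 => absurd h3 h2⟩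
    refine ⟨d, ⟨hd'.1, ?_⟩, h2⟩
    by_contra h3
    have h4 := hv (T.rev d) ((hW.compl d p).2 hd'.1) ((hW.compl d q).2 h3)
    exact (hW.compl d v).1 h4 hd'.2

lemma btw_smul (hW : T.Walls) (g : F N) (p q v : T.V) (hv : v ∈ Btw T p q) : g • v ∈ Btw T (g • p) (g • q) := by
  intro f hp hq
  have e : f = g • (g⁻¹ • f) := (smul_inv_smul g f).symm
  rw [e, hW.smul] at hp hq ⊢
  exact hv _ hp hq

lemma btw_sub (hW : T.Walls) (x y z : T.V) (hy : y ∈ Btw T x z) (d d' : T.D) (hd : d ∈ T.sep x y)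
    (hd' : d' ∈ T.sep y z) : y ∈ Btw T (T.tgt d) (T.src d') := by
  intro f h1 h2
  by_contra h3
  have h3' := (hW.compl f y).2 h3
  by_cases hx : x ∈ T.H f
  · by_cases hz : z ∈ T.H f
    · exact h3 (hy f hx hz)
    · have hz' := (hW.compl f z).2 hz
      have := (hW.convex d' (T.rev f) y z h3' hz' hd'.1 hd'.2).1
      exact (hW.compl f _).1 this h2
  · have hx' := (hW.compl f x).2 hx
    have := (hW.convex d (T.rev f) x y hx' h3' hd.1 hd.2).2
    exact (hW.compl f _).1 this h1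

end tree

section two

variable (T S : CV N) (φ : T.V → S.V)

/-- the darts of `T` whose images cross the wall `k` of `S` -/
def X (k : S.D) : Set T.D := {d | ¬ (φ (T.src d) ∈ S.H k ↔ φ (T.tgt d) ∈ S.H k)}

/-- the walls of `S` which are crossed on both sides of `v` -/
def Nb (v : T.V) : Set S.D := {k | ∃ d ∈ X T S φ k, ∃ d' ∈ X T S φ k, v ∈ Btw T (T.tgt d) (T.src d')}

variable {T S φ}

lemma X_smul (hφ : ∀ (g : F N) (x : T.V), φ (g • x) = g • φ x) (hS : S.Walls) (g : F N) (k : S.D) (d : T.D) :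
    g • d ∈ X T S φ (g • k) ↔ d ∈ X T S φ k := by
  change ¬ (φ (T.src (g • d)) ∈ S.H (g • k) ↔ φ (T.tgt (g • d)) ∈ S.H (g • k)) ↔
    ¬ (φ (T.src d) ∈ S.H k ↔ φ (T.tgt d) ∈ S.H k)
  rw [smul_src, smul_tgt, hφ, hφ, hS.smul, hS.smul]

lemma X_finite (hφ : ∀ (g : F N) (x : T.V), φ (g • x) = g • φ x) (hC : T.Cofin) (hS : S.Walls) (k : S.D) :
    (X T S φ k).Finite := by
  obtain ⟨s, hs, hs2⟩ := hC.edge
  have hfin : ∀ d0 : T.D, {g : F N | g⁻¹ • k ∈ S.sep (φ (T.src d0)) (φ (T.tgt d0)) ∪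
      S.sep (φ (T.tgt d0)) (φ (T.src d0))}.Finite := by
    intro d0
    have h1 := (hS.finite (φ (T.src d0)) (φ (T.tgt d0))).union (hS.finite (φ (T.tgt d0)) (φ (T.src d0)))
    apply Finite.preimage _ h1
    intro g _ h _ hgh
    exact inv_injective (inj_D S k hgh)
  apply (hs.biUnion (fun d0 _ => (hfin d0).image (fun g => g • d0))).subset
  intro d hd
  obtain ⟨g, d0, hd0, rfl⟩ := hs2 d
  rw [mem_iUnion₂]
  refine ⟨d0, hd0, g, ?_, rfl⟩
  have e : k = g • (g⁻¹ • k) := (smul_inv_smul g k).symm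
  rw [e, X_smul hφ hS] at hd
  have hd' : ¬ (φ (T.src d0) ∈ S.H (g⁻¹ • k) ↔ φ (T.tgt d0) ∈ S.H (g⁻¹ • k)) := hd
  by_cases h1 : φ (T.src d0) ∈ S.H (g⁻¹ • k)
  · by_cases h2 : φ (T.tgt d0) ∈ S.H (g⁻¹ • k)
    · exact absurd ⟨fun _ => h2, fun _ => h1⟩ hd'
    · exact Or.inr ⟨h2, h1⟩
  · by_cases h2 : φ (T.tgt d0) ∈ S.H (g⁻¹ • k)
    · exact Or.inl ⟨h1, h2⟩
    · exact absurd ⟨fun h => absurd h h1, fun h => absurd h h2⟩ hd'

lemma Nb_smul (hφ : ∀ (g : F N) (x : T.V), φ (g • x) = g • φ x) (hT : T.Walls) (hS : S.Walls) (g : F N)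
    (v : T.V) (k : S.D) (hk : k ∈ Nb T S φ v) : g • k ∈ Nb T S φ (g • v) := by
  obtain ⟨d, hd, d', hd', hv⟩ := hk
  refine ⟨g • d, (X_smul hφ hS g k d).2 hd, g • d', (X_smul hφ hS g k d').2 hd', ?_⟩
  exact btw_smul hT g _ _ _ hv

lemma Nb_finite (hTEL : S_TEL) (hφ : ∀ (g : F N) (x : T.V), φ (g • x) = g • φ x) (hT : T.Walls) (hC : T.Cofin)
    (hS : S.Walls) (hCS : S.Cofin) (v : T.V) : (Nb T S φ v).Finite := by
  obtain ⟨s, hs, hs2⟩ := hCS.edge
  have hfin : ∀ k0 : S.D, {g : F N | g⁻¹ • v ∈ ⋃ d ∈ X T S φ k0, ⋃ d' ∈ X T S φ k0, Btw T (T.tgt d) (T.src d')}.Finite := by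
    intro k0
    have h0 := X_finite hφ hC hS k0
    have h1 : (⋃ d ∈ X T S φ k0, ⋃ d' ∈ X T S φ k0, Btw T (T.tgt d) (T.src d')).Finite :=
      h0.biUnion (fun d _ => h0.biUnion (fun d' _ => btw_finite hTEL hT _ _))
    apply Finite.preimage _ h1
    intro g _ h _ hgh
    exact inv_injective (inj_V T v hgh)
  apply (hs.biUnion (fun k0 _ => (hfin k0).image (fun g => g • k0))).subset
  intro k hk
  obtain ⟨g, k0, hk0, rfl⟩ := hs2 k
  rw [mem_iUnion₂]
  refine ⟨k0, hk0, g, ?_, rfl⟩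
  have h1 := Nb_smul hφ hT hS g⁻¹ v _ hk
  rw [inv_smul_smul] at h1
  obtain ⟨d, hd, d', hd', hv⟩ := h1
  exact mem_iUnion₂.2 ⟨d, hd, mem_iUnion₂.2 ⟨d', hd', hv⟩⟩

lemma mem_Nb (hTEL : S_TEL) (hT : T.Walls) (x y z : T.V) (k : S.D) (hy : y ∈ Btw T x z)
    (h1 : ¬ (φ x ∈ S.H k ↔ φ y ∈ S.H k)) (h2 : ¬ (φ y ∈ S.H k ↔ φ z ∈ S.H k)) : k ∈ Nb T S φ y := by
  obtain ⟨d, hd, hd2⟩ := exists_cross hTEL hT x y (φ ⁻¹' S.H k) h1
  obtain ⟨d', hd', hd2'⟩ := exists_cross hTEL hT y z (φ ⁻¹' S.H k) h2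
  exact ⟨d, hd2, d', hd2', btw_sub hT x y z hy d d' hd hd'⟩

/-- the total length of the walls around a vertex is bounded -/
lemma wt_bdd (hTEL : S_TEL) (hφ : ∀ (g : F N) (x : T.V), φ (g • x) = g • φ x) (hT : T.Walls) (hC : T.Cofin)
    (hS : S.Walls) (hCS : S.Cofin) : ∃ C : ℝ, 0 ≤ C ∧ ∀ (v : T.V) (A : Finset S.D), (∀ k ∈ A, k ∈ Nb T S φ v) →
    ∑ k ∈ A, S.ell k ≤ C := by
  classical
  have hw : ∀ v : T.V, ∃ C : ℝ, 0 ≤ C ∧ ∀ A : Finset S.D, (∀ k ∈ A, k ∈ Nb T S φ v) → ∑ k ∈ A, S.ell k ≤ C := by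
    intro v
    refine ⟨∑ k ∈ (Nb_finite hTEL hφ hT hC hS hCS v).toFinset, S.ell k,
      Finset.sum_nonneg (fun k _ => (ell_pos S k).le), fun A hA => ?_⟩
    apply Finset.sum_le_sum_of_subset_of_nonneg
    · intro k hk
      rw [Finite.mem_toFinset]
      exact hA k hk
    · intro k _ _
      exact (ell_pos S k).le
  choose w hw0 hw1 using hw
  obtain ⟨s, hs, hs2⟩ := hC.vert
  refine ⟨∑ v ∈ hs.toFinset, w v, Finset.sum_nonneg (fun v _ => hw0 v), fun v A hA => ?_⟩
  obtain ⟨g, v0, hv0, rfl⟩ := hs2 v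
  have h1 : ∑ k ∈ A, S.ell k = ∑ k ∈ A.image (fun k => g⁻¹ • k), S.ell k := by
    rw [Finset.sum_image (fun a _ b _ h => MulAction.injective g⁻¹ h)]
    apply Finset.sum_congr rfl
    intro k _
    exact (smul_ell S g⁻¹ k).symm
  rw [h1]
  refine (hw1 v0 _ ?_).trans ?_
  · intro k hk
    rw [Finset.mem_image] at hk
    obtain ⟨k', hk', rfl⟩ := hk
    have := Nb_smul hφ hT hS g⁻¹ _ _ (hA k' hk')
    rwa [inv_smul_smul] at this
  · exact Finset.single_le_sum (f := w) (fun v _ => hw0 v) ((Finite.mem_toFinset hs).2 hv0)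

lemma ev_iff (hW : S.Walls) (hB : S.Bdry) (ξ : Bd N) (k : S.D) (x : S.V) :
    ∀ᶠ n in atTop, (pre ξ n • x ∈ S.H k ↔ ξ ∈ S.Sh k) := by
  by_cases h : ξ ∈ S.Sh k
  · filter_upwards [h x] with n hn
    exact ⟨fun _ => h, fun _ => hn⟩
  · have h1 := (hB.compl k ξ).2 h
    filter_upwards [h1 x] with n hn
    rw [hW.compl] at hn
    exact ⟨fun h2 => absurd h2 hn, fun h2 => absurd h2 h⟩

end two

theorem main (hTEL : S_TEL) (hD : S_DIST) : S_BBT := by
  classical
  intro N T S φ hφ hT hC hB hS hCS hBS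
  obtain ⟨C, hC0, hCb⟩ := wt_bdd hTEL hφ hT hC hS hCS
  refine ⟨3 * C, by linarith, fun e f ω hω h2 h3 h4 => ?_⟩
  rcases h4 with h4 | h4
  · rw [h4, hD N S hS]
    have h5 : S.sep (φ (T.tgt f)) (φ (T.tgt f)) = ∅ := by
      ext k
      constructor
      · rintro ⟨h6, h7⟩
        exact absurd h7 h6
      · intro h6
        exact absurd h6 (notMem_empty k)
    rw [h5, finsum_mem_empty]
    have h6 : S.xng (φ (T.tgt f)) (φ (T.tgt f)) ω = 0 := by
      unfold CV.xng
      simp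
    rw [h6]
    linarith
  · obtain ⟨hξ, hζ⟩ := hω
    have hξ' : ω.1 ∈ T.Sh (T.rev e) := hξ
    have hζ' : ω.2 ∈ T.Sh e := hζ
    set x := T.tgt e with hx
    set y := T.tgt f with hy
    have key1 : ∀ k : S.D, ¬ (φ x ∈ S.H k ↔ φ y ∈ S.H k) → ¬ (φ y ∈ S.H k ↔ ω.2 ∈ S.Sh k) → k ∈ Nb T S φ y := by
      intro k k1 k2
      obtain ⟨n, hn1, hn2⟩ := ((ev_iff hS hBS ω.2 k (φ y)).and (h2 y)).exists
      apply mem_Nb hTEL hT x y (pre ω.2 n • y) k _ k1
      · rw [hφ, hn1]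
        exact k2
      · intro f' hf1 hf2
        exact (hT.convex f f' x (pre ω.2 n • y) hf1 hf2 h4 hn2).2
    have key2 : ∀ k : S.D, ¬ (φ x ∈ S.H k ↔ φ y ∈ S.H k) → ¬ (φ x ∈ S.H k ↔ ω.1 ∈ S.Sh k) → k ∈ Nb T S φ x := by
      intro k k1 k2
      obtain ⟨n, hn1, hn2⟩ := ((ev_iff hS hBS ω.1 k (φ x)).and (hξ' x)).exists
      apply mem_Nb hTEL hT (pre ω.1 n • x) x y k _ _ k1
      · intro f' hf1 hf2
        exact (hT.convex e f' (pre ω.1 n • x) y hf1 hf2 ((hT.compl e _).1 hn2) h3).2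
      · rw [hφ, hn1]
        intro h5
        exact k2 h5.symm
    set A := (hS.finite (φ x) (φ y)).toFinset with hA
    set A' := (hS.finite (φ y) (φ x)).toFinset with hA'
    have memA : ∀ k, k ∈ A ↔ (φ x ∉ S.H k ∧ φ y ∈ S.H k) := fun k => by
      rw [hA, Finite.mem_toFinset]; rfl
    have memA' : ∀ k, k ∈ A' ↔ (φ y ∉ S.H k ∧ φ x ∈ S.H k) := fun k => by
      rw [hA', Finite.mem_toFinset]; rfl
    have hdist : S.dist (φ x) (φ y) = ∑ k ∈ A, S.ell k := by
      rw [hD N S hS, finsum_mem_eq_finite_toFinset_sum]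
    have hdisj : Disjoint A A' := by
      rw [Finset.disjoint_left]
      intro k h5 h6
      exact ((memA k).1 h5).1 ((memA' k).1 h6).2
    have hxng : S.xng (φ x) (φ y) ω = ∑ k ∈ A, S.ell k * (S.Cyl k).indicator 1 ω -
        ∑ k ∈ A', S.ell k * (S.Cyl k).indicator 1 ω := by
      unfold CV.xng
      rw [finsum_eq_sum_of_support_subset (s := A ∪ A')]
      · rw [Finset.sum_union hdisj, sub_eq_add_neg, ← Finset.sum_neg_distrib]
        congr 1
        · apply Finset.sum_congr rfl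
          intro k hk
          rw [memA] at hk
          rw [indicator_of_mem hk.2, indicator_of_notMem hk.1]
          simp
        · apply Finset.sum_congr rfl
          intro k hk
          rw [memA'] at hk
          rw [indicator_of_mem hk.2, indicator_of_notMem hk.1]
          simp
      · intro k hk
        rw [Finset.coe_union]
        by_contra h5
        apply hk
        show S.ell k * (S.Cyl k).indicator 1 ω * ((S.H k).indicator (1 : S.V → ℝ) (φ y) - (S.H k).indicator (1 : S.V → ℝ) (φ x)) = 0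
        rw [mem_union, not_or, Finset.mem_coe, Finset.mem_coe, memA, memA'] at h5
        by_cases h6 : φ x ∈ S.H k
        · have h7 : φ y ∈ S.H k := by
            by_contra h7
            exact h5.2 ⟨h7, h6⟩
          rw [indicator_of_mem h6, indicator_of_mem h7]
          simp
        · have h7 : φ y ∉ S.H k := fun h7 => h5.1 ⟨h6, h7⟩
          rw [indicator_of_notMem h6, indicator_of_notMem h7]
          simp
    have hb : ∀ (v : T.V) (B : Finset S.D), ∑ k ∈ B, (if k ∈ Nb T S φ v then S.ell k else 0) ≤ C := by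
      intro v B
      rw [← Finset.sum_filter]
      apply hCb v
      intro k hk
      exact (Finset.mem_filter.1 hk).2
    have s1 : ∑ k ∈ A, S.ell k * (1 - (S.Cyl k).indicator 1 ω) ≤
        ∑ k ∈ A, (if k ∈ Nb T S φ x then S.ell k else 0) + ∑ k ∈ A, (if k ∈ Nb T S φ y then S.ell k else 0) := by
      rw [← Finset.sum_add_distrib]
      apply Finset.sum_le_sum
      intro k hk
      rw [memA] at hk
      have hp := ell_pos S k
      have hx0 : 0 ≤ (if k ∈ Nb T S φ x then S.ell k else 0) := by split_ifs <;> linarith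
      have hy0 : 0 ≤ (if k ∈ Nb T S φ y then S.ell k else 0) := by split_ifs <;> linarith
      have hne : ¬ (φ x ∈ S.H k ↔ φ y ∈ S.H k) := fun h5 => hk.1 (h5.2 hk.2)
      by_cases h5 : ω ∈ S.Cyl k
      · rw [indicator_of_mem h5]
        simp only [Pi.one_apply, sub_self, mul_zero]
        linarith
      · rw [indicator_of_notMem h5, sub_zero, mul_one]
        by_cases h6 : ω.2 ∈ S.Sh k
        · have h7 : ω.1 ∈ S.Sh k := by
            by_contra h7
            exact h5 ⟨(hBS.compl k _).2 h7, h6⟩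
          rw [if_pos (key2 k hne (fun h8 => hk.1 (h8.2 h7)))]
          linarith
        · have := key1 k hne (fun h8 => h6 (h8.1 hk.2))
          rw [if_pos this]
          linarith
    have s2 : ∑ k ∈ A', S.ell k * (S.Cyl k).indicator 1 ω ≤ ∑ k ∈ A', (if k ∈ Nb T S φ y then S.ell k else 0) := by
      apply Finset.sum_le_sum
      intro k hk
      rw [memA'] at hk
      have hp := ell_pos S k
      have hy0 : 0 ≤ (if k ∈ Nb T S φ y then S.ell k else 0) := by split_ifs <;> linarith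
      have hne : ¬ (φ x ∈ S.H k ↔ φ y ∈ S.H k) := fun h5 => hk.1 (h5.1 hk.2)
      by_cases h5 : ω ∈ S.Cyl k
      · rw [indicator_of_mem h5, if_pos (key1 k hne (fun h8 => hk.1 (h8.2 h5.2)))]
        simp
      · rw [indicator_of_notMem h5, mul_zero]
        exact hy0
    have s3 : ∑ k ∈ A, S.ell k * (1 - (S.Cyl k).indicator 1 ω) = ∑ k ∈ A, S.ell k - ∑ k ∈ A, S.ell k * (S.Cyl k).indicator 1 ω := by
      rw [← Finset.sum_sub_distrib]
      apply Finset.sum_congr rfl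
      intro k _
      ring
    have b1 := hb x A
    have b2 := hb y A
    have b3 := hb y A'
    rw [hdist, hxng]
    linarith

end Pool.Agent.R685.PS.BBT
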