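import Pool.Agent.R685.PS.Stm

/-! PS-BDRY: shadows of half trees in the boundary. -/

open MeasureTheory Filter Topology Set
open scoped ENNReal NNReal

namespace Pool.Agent.R685.PS.BdryP

open CV Classical

variable {N : ℕ} {T : CV N}

theorem src_smul (g : F N) (e : T.D) : T.src (g • e) = g • T.src e := rfl

theorem tgt_smul (g : F N) (e : T.D) : T.tgt (g • e) = g • T.tgt e := rfl

theorem smul_inj {g h : F N} {v : T.V} (hgh : g • v = h • v) : g = h := by
  have : (h⁻¹ * g) • v = v := by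
    rw [mul_smul, hgh, inv_smul_smul]
  have := T.free _ _ this
  rw [inv_mul_eq_one] at this
  exact this.symm

theorem tgt_mem (W : T.Walls) (e : T.D) : T.src e ∉ T.H e ∧ T.tgt e ∈ T.H e :=
  (W.cross e e).2 rfl

theorem cross_fin (W : T.Walls) (e : T.D) (x y : T.V) :
    {g : F N | g • x ∉ T.H e ∧ g • y ∈ T.H e}.Finite := by
  have hinj : Function.Injective (fun g : F N => g⁻¹ • e) := by
    intro g h hgh
    have h1 : T.src (g⁻¹ • e) = T.src (h⁻¹ • e) := by
      have : g⁻¹ • e = h⁻¹ • e := hgh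
      rw [this]
    rw [src_smul, src_smul] at h1
    exact inv_injective (smul_inj h1)
  refine ((W.finite x y).preimage (hinj.injOn)).subset ?_
  intro g hg
  have hh : ∀ z : T.V, g • z ∈ T.H e ↔ z ∈ T.H (g⁻¹ • e) := by
    intro z
    have := W.smul g (g⁻¹ • e) z
    rw [smul_inv_smul] at this
    exact this
  refine ⟨?_, ?_⟩
  · rw [← hh x]; exact hg.1
  · rw [← hh y]; exact hg.2

theorem stab (hA : S_ACT) (W : T.Walls) (e : T.D) (x : T.V) : ∃ n0 : ℕ, ∀ (ξ : Bd N) (n : ℕ),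
    n0 ≤ n → (pre ξ n • x ∈ T.H e ↔ pre ξ n0 • x ∈ T.H e) := by
  have hfin : (⋃ a : Letter N, ({g : F N | g • x ∉ T.H e ∧ g • (lt a • x) ∈ T.H e} ∪
      {g : F N | g • (lt a • x) ∉ T.H e ∧ g • x ∈ T.H e})).Finite :=
    Set.finite_iUnion fun a => (cross_fin W e x (lt a • x)).union (cross_fin W e (lt a • x) x)
  obtain ⟨n0, hn0⟩ := (hA N).2.2.2.1 _ hfin
  refine ⟨n0, fun ξ n hn => ?_⟩
  induction n, hn using Nat.le_induction with
  | base => exact Iff.rfl
  | succ k hk ih =>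
    rw [← ih]
    have hX := hn0 ξ k hk
    rw [Set.mem_iUnion] at hX
    push Not at hX
    have h1 := hX (ξ.1 k)
    have h2 : pre ξ (k + 1) • x = pre ξ k • (lt (ξ.1 k) • x) := by
      rw [← mul_smul]; rfl
    rw [h2]
    constructor
    · intro h
      by_contra hcon
      exact h1 (Or.inl ⟨hcon, h⟩)
    · intro h
      by_contra hcon
      exact h1 (Or.inr ⟨hcon, h⟩)

theorem base (hA : S_ACT) (W : T.Walls) (e : T.D) (x : T.V) (ξ : Bd N)
    (h : ∃ᶠ n in atTop, pre ξ n • x ∈ T.H e) : ξ ∈ T.Sh e := by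
  obtain ⟨n0, hn0⟩ := stab hA W e x
  obtain ⟨m, hm, hmx⟩ := (Filter.frequently_atTop.1 h) n0
  have hall : ∀ n, n0 ≤ n → pre ξ n • x ∈ T.H e := fun n hn =>
    (hn0 ξ n hn).2 ((hn0 ξ m hm).1 hmx)
  intro y
  obtain ⟨n1, hn1⟩ := (hA N).2.2.2.1 _ (cross_fin W e y x)
  refine Filter.eventually_atTop.2 ⟨max n0 n1, fun n hn => ?_⟩
  by_contra hcon
  exact hn1 ξ n (le_trans (le_max_right _ _) hn) ⟨hcon, hall n (le_trans (le_max_left _ _) hn)⟩

theorem sh_iff (hA : S_ACT) (W : T.Walls) (e : T.D) (x : T.V) (ξ : Bd N) :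
    ξ ∈ T.Sh e ↔ ∀ᶠ n in atTop, pre ξ n • x ∈ T.H e :=
  ⟨fun h => h x, fun h => base hA W e x ξ h.frequently⟩

theorem compl (hA : S_ACT) (W : T.Walls) (e : T.D) (ξ : Bd N) :
    ξ ∈ T.Sh (T.rev e) ↔ ξ ∉ T.Sh e := by
  constructor
  · intro h1 h2
    obtain ⟨n, hn⟩ := ((h1 (T.src e)).and (h2 (T.src e))).exists
    exact (W.compl e _).1 hn.1 hn.2
  · intro h
    have h1 : ∀ᶠ n in atTop, ¬ (pre ξ n • T.src e ∈ T.H e) := by
      rw [← Filter.not_frequently]
      exact fun hf => h (base hA W e (T.src e) ξ hf)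
    rw [sh_iff hA W (T.rev e) (T.src e)]
    filter_upwards [h1] with n hn
    exact (W.compl e _).2 hn

theorem meas (hA : S_ACT) (W : T.Walls) (e : T.D) : MeasurableSet (T.Sh e) := by
  obtain ⟨n0, hn0⟩ := stab hA W e (T.src e)
  have : T.Sh e = {ξ : Bd N | pre ξ n0 ∈ {g : F N | g • T.src e ∈ T.H e}} := by
    ext ξ
    rw [sh_iff hA W e (T.src e)]
    constructor
    · intro h
      obtain ⟨m, hm⟩ := Filter.eventually_atTop.1 h
      exact (hn0 ξ (max m n0) (le_max_right _ _)).1 (hm _ (le_max_left _ _))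
    · intro h
      exact Filter.eventually_atTop.2 ⟨n0, fun n hn => (hn0 ξ n hn).2 h⟩
  rw [this]
  exact (hA N).2.2.2.2 n0 _

theorem ev_shift (p : ℕ → Prop) (k : ℕ) : (∀ᶠ n in atTop, p (n + k)) ↔ ∀ᶠ n in atTop, p n := by
  conv_rhs => rw [← Filter.map_add_atTop_eq_nat k]
  rfl

theorem smul' (hA : S_ACT) (W : T.Walls) (g : F N) (e : T.D) (ξ : Bd N) :
    g • ξ ∈ T.Sh (g • e) ↔ ξ ∈ T.Sh e := by
  obtain ⟨k, m, hkm⟩ := (hA N).2.2.1 g ξ
  rw [sh_iff hA W (g • e) (T.src e), sh_iff hA W e (T.src e),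
    ← ev_shift (fun n => pre (g • ξ) n • T.src e ∈ T.H (g • e)) k,
    ← ev_shift (fun n => pre ξ n • T.src e ∈ T.H e) m]
  have : ∀ n, (pre (g • ξ) (n + k) • T.src e ∈ T.H (g • e)) ↔
      (pre ξ (n + m) • T.src e ∈ T.H e) := by
    intro n
    rw [hkm n, mul_smul]
    exact W.smul g e _
  simp only [this]

theorem disj (W : T.Walls) {f f' : T.D} (hs : T.src f = T.src f') (hne : f ≠ f') (w : T.V)
    (h1 : w ∈ T.H f) (h2 : w ∈ T.H f') : False := by
  have t1 : T.tgt f' ∉ T.H f := by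
    intro h
    refine hne ((W.cross f' f).1 ⟨?_, h⟩)
    rw [← hs]
    exact (tgt_mem W f).1
  have := (W.convex f f' (T.tgt f') w (tgt_mem W f').2 h2 t1 h1).1
  rw [hs] at this
  exact (tgt_mem W f').1 this

theorem star_fin (C : T.Cofin) (v : T.V) : {f : T.D | T.src f = v}.Finite := by
  obtain ⟨s, hs, hcov⟩ := C.edge
  have hfin : (⋃ f ∈ s, (fun g : F N => g • f) '' {g : F N | g • T.src f = v}).Finite := by
    refine hs.biUnion fun f _ => Set.Finite.image _ ?_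
    refine Set.Subsingleton.finite ?_
    intro g hg h hh
    exact smul_inj (hg.trans hh.symm)
  refine hfin.subset ?_
  intro f' hf'
  obtain ⟨g, f, hf, rfl⟩ := hcov f'
  rw [Set.mem_iUnion₂]
  exact ⟨f, hf, g, hf', rfl⟩

theorem exists_dart (hT : S_TEL) (W : T.Walls) (v w : T.V) (hvw : w ≠ v) :
    ∃ f : T.D, T.src f = v ∧ w ∈ T.H f := by
  have htel := hT N T W v w (fun u => if u = v then 1 else 0)
  have hne : ∃ f ∈ T.sep v w, ((if T.tgt f = v then (1 : ℝ) else 0) - (if T.src f = v then 1 else 0)) ≠ 0 := by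
    by_contra hcon
    push Not at hcon
    have hz : ∑ᶠ e ∈ T.sep v w, ((if T.tgt e = v then (1 : ℝ) else 0) - (if T.src e = v then 1 else 0)) = 0 := by
      refine finsum_mem_eq_zero_of_forall_eq_zero ?_
      intro f hf
      exact hcon f hf
    simp only [] at htel
    rw [hz] at htel
    simp [hvw] at htel
  obtain ⟨f, hf, hfne⟩ := hne
  have h1 : T.tgt f ≠ v := by
    intro h
    apply hf.1
    rw [← h]
    exact (tgt_mem W f).2
  rw [if_neg h1] at hfne
  by_cases h2 : T.src f = v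
  · exact ⟨f, h2, hf.2⟩
  · rw [if_neg h2] at hfne
    simp at hfne

theorem next (hA : S_ACT) (hT : S_TEL) (W : T.Walls) (C : T.Cofin) (e : T.D) (ξ : Bd N)
    (hξ : ξ ∈ T.Sh e) : ∃! f : T.D, T.src f = T.tgt e ∧ f ≠ T.rev e ∧ ξ ∈ T.Sh f := by
  have hex : ∃ f : T.D, T.src f = T.tgt e ∧ f ≠ T.rev e ∧ ξ ∈ T.Sh f := by
    by_contra hcon
    push Not at hcon
    have hD : {f : T.D | T.src f = T.tgt e ∧ f ≠ T.rev e}.Finite :=
      (star_fin C (T.tgt e)).subset fun f hf => hf.1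
    have hev : ∀ᶠ n in atTop, ∀ f ∈ {f : T.D | T.src f = T.tgt e ∧ f ≠ T.rev e},
        ¬ (pre ξ n • T.src e ∈ T.H f) := by
      rw [Filter.eventually_all_finite hD]
      intro f hf
      rw [← Filter.not_frequently]
      exact fun hfr => hcon f hf.1 hf.2 (base hA W f (T.src e) ξ hfr)
    have hfin : {g : F N | g • T.src e = T.tgt e}.Finite := by
      refine Set.Subsingleton.finite ?_
      intro g hg h hh
      exact smul_inj (hg.trans hh.symm)
    obtain ⟨n1, hn1⟩ := (hA N).2.2.2.1 _ hfin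
    have hev2 : ∀ᶠ n in atTop, pre ξ n • T.src e ≠ T.tgt e :=
      Filter.eventually_atTop.2 ⟨n1, fun n hn h => hn1 ξ n hn h⟩
    obtain ⟨n, hn⟩ := ((hev.and hev2).and (hξ (T.src e))).exists
    obtain ⟨f, hf1, hf2⟩ := exists_dart hT W (T.tgt e) (pre ξ n • T.src e) hn.1.2
    refine hn.1.1 f ⟨hf1, ?_⟩ hf2
    rintro rfl
    exact (W.compl e _).1 hf2 hn.2
  obtain ⟨f, hf1, hf2, hf3⟩ := hex
  refine ⟨f, ⟨hf1, hf2, hf3⟩, ?_⟩
  rintro f' ⟨hf1', hf2', hf3'⟩
  by_contra hne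
  obtain ⟨n, hn⟩ := ((hf3 (T.src e)).and (hf3' (T.src e))).exists
  exact disj W (hf1'.trans hf1.symm) hne _ hn.2 hn.1

theorem main (hA : S_ACT) (hT : S_TEL) : S_BDRY := by
  intro N T W C
  refine ⟨stab hA W, base hA W, compl hA W, meas hA W, smul' hA W, next hA hT W C, ?_⟩
  intro e f hsf hne ξ hξ x
  filter_upwards [hξ x] with n hn
  by_contra hcon
  exact disj W (f := f) (f' := T.rev e) hsf hne _ hn ((W.compl e _).2 hcon)

end Pool.Agent.R685.PS.BdryP
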