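import Pool.Agent.R685.PS.Stm

/-! # MP_fee052_al: PS-COF, a minimal action of a finitely generated group is cocompact -/

open MeasureTheory Filter Topology Set
open scoped ENNReal NNReal

namespace Pool.Agent.R685.PS.Cof

variable {N : ℕ} (T : CV N)

/-- the graph formed by the translates of the pairs in `S` -/
def G1 (S : Set (T.V × T.V)) (hS : ∀ d ∈ S, (d.2, d.1) ∈ S) : SimpleGraph T.V where
  Adj u v := T.G.Adj u v ∧ ∃ g : F N, ∃ d ∈ S, u = g • d.1 ∧ v = g • d.2
  symm := ⟨fun u v h => by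
    obtain ⟨h1, g, d, hd, hu, hv⟩ := h
    exact ⟨h1.symm, g, (d.2, d.1), hS d hd, hv, hu⟩⟩
  loopless := ⟨fun u h => T.G.loopless.irrefl u h.1⟩

lemma G1_smul {S : Set (T.V × T.V)} {hS : ∀ d ∈ S, (d.2, d.1) ∈ S} (g : F N) {u v : T.V}
    (h : (G1 T S hS).Adj u v) : (G1 T S hS).Adj (g • u) (g • v) := by
  obtain ⟨h1, g', d, hd, hu, hv⟩ := h
  refine ⟨T.adj_smul g u v h1, g * g', d, hd, ?_, ?_⟩
  · rw [hu, mul_smul]
  · rw [hv, mul_smul]

lemma G1_reach_smul {S : Set (T.V × T.V)} {hS : ∀ d ∈ S, (d.2, d.1) ∈ S} (g : F N) {u v : T.V}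
    (h : (G1 T S hS).Reachable u v) : (G1 T S hS).Reachable (g • u) (g • v) := by
  obtain ⟨p⟩ := h
  induction p with
  | nil => exact SimpleGraph.Reachable.refl _
  | cons h p ih => exact (G1_smul T g h).reachable.trans ih

lemma reach_of_darts {S : Set (T.V × T.V)} {hS : ∀ d ∈ S, (d.2, d.1) ∈ S} {u v : T.V}
    (p : T.G.Walk u v) (hp : ∀ d ∈ p.darts, (d.fst, d.snd) ∈ S) :
    (G1 T S hS).Reachable u v := by
  induction p with
  | nil => exact SimpleGraph.Reachable.refl _
  | cons h p ih =>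
    rename_i a b c
    have h1 : (G1 T S hS).Adj a b := by
      refine ⟨h, 1, (a, b), ?_, by simp, by simp⟩
      have := hp ⟨(a, b), h⟩ (by simp)
      exact this
    exact h1.reachable.trans (ih (fun d hd => hp d (by
      rw [SimpleGraph.Walk.darts_cons]
      exact List.mem_cons_of_mem _ hd)))

theorem main : S_COF := by
  intro N T hW
  classical
  have hne : Nonempty T.V := T.isTree.isConnected.nonempty
  obtain ⟨o⟩ := hne
  have hwalk : ∀ i : Fin N, Nonempty (T.G.Walk o (FreeGroup.of i • o)) := fun i =>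
    T.isTree.isConnected.preconnected o (FreeGroup.of i • o)
  obtain ⟨p, -⟩ : ∃ p : ∀ i : Fin N, T.G.Walk o (FreeGroup.of i • o), True :=
    ⟨fun i => (hwalk i).some, trivial⟩
  obtain ⟨S, hSdef⟩ : ∃ S : Set (T.V × T.V), S = ⋃ i : Fin N,
      (((fun d : T.G.Dart => (d.fst, d.snd)) '' {d | d ∈ (p i).darts}) ∪
        ((fun d : T.G.Dart => (d.snd, d.fst)) '' {d | d ∈ (p i).darts})) := ⟨_, rfl⟩
  have hSfin : S.Finite := by
    rw [hSdef]
    apply Set.finite_iUnion
    intro i
    have : {d : T.G.Dart | d ∈ (p i).darts}.Finite := List.finite_toSet _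
    exact (this.image _).union (this.image _)
  have hSsymm : ∀ d ∈ S, (d.2, d.1) ∈ S := by
    intro d hd
    rw [hSdef] at hd ⊢
    rw [Set.mem_iUnion] at hd ⊢
    obtain ⟨i, hi⟩ := hd
    refine ⟨i, ?_⟩
    rcases hi with ⟨x, hx, rfl⟩ | ⟨x, hx, rfl⟩
    · exact Or.inr ⟨x, hx, rfl⟩
    · exact Or.inl ⟨x, hx, rfl⟩
  have hmemS : ∀ i, ∀ d ∈ (p i).darts, (d.fst, d.snd) ∈ S := by
    intro i d hd
    rw [hSdef, Set.mem_iUnion]
    exact ⟨i, Or.inl ⟨d, hd, rfl⟩⟩
  have hgen : ∀ i : Fin N, (G1 T S hSsymm).Reachable o (FreeGroup.of i • o) := fun i =>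
    reach_of_darts T (p i) (hmemS i)
  have hall : ∀ g : F N, (G1 T S hSsymm).Reachable o (g • o) := by
    intro g
    induction g using FreeGroup.induction_on with
    | C1 => simp
    | of i => exact hgen i
    | inv_of i h =>
      have h1 := G1_reach_smul T (FreeGroup.of i)⁻¹ h
      have h2 : (FreeGroup.of i)⁻¹ • (FreeGroup.of i • o) = o := inv_smul_smul _ _
      rw [h2] at h1
      exact h1.symm
    | mul x y hx hy =>
      have h1 := G1_reach_smul T x hy
      rw [mul_smul]
      exact hx.trans h1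
  obtain ⟨W, hWdef⟩ : ∃ W : Set T.V, W = {v | (G1 T S hSsymm).Reachable o v} := ⟨_, rfl⟩
  have hWinv : ∀ (g : F N), ∀ w ∈ W, g • w ∈ W := by
    intro g w hw
    rw [hWdef] at hw ⊢
    exact (hall g).trans (G1_reach_smul T g hw)
  have hoW : o ∈ W := by rw [hWdef]; exact SimpleGraph.Reachable.refl _
  have hconn : (T.G.induce W).Connected := by
    rw [SimpleGraph.connected_iff_exists_forall_reachable]
    refine ⟨⟨o, hoW⟩, ?_⟩
    have key : ∀ (u v : T.V) (_ : (G1 T S hSsymm).Walk u v) (hu : u ∈ W),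
        ∃ hv : v ∈ W, (T.G.induce W).Reachable ⟨u, hu⟩ ⟨v, hv⟩ := by
      intro u v q
      induction q with
      | nil => intro hu; exact ⟨hu, SimpleGraph.Reachable.refl _⟩
      | cons h q ih =>
        rename_i a b c
        intro hu
        have hb : b ∈ W := by
          rw [hWdef] at hu ⊢
          exact SimpleGraph.Reachable.trans hu h.reachable
        obtain ⟨hv, hr⟩ := ih hb
        refine ⟨hv, SimpleGraph.Reachable.trans (SimpleGraph.Adj.reachable ?_) hr⟩
        show T.G.Adj a b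
        exact h.1
    rintro ⟨v, hv⟩
    have hv' := hv
    rw [hWdef] at hv'
    obtain ⟨q⟩ := hv'
    obtain ⟨_, hr⟩ := key o v q hoW
    exact hr
  have hWuniv := T.minimal W hWinv hconn
  have hreach : ∀ v, (G1 T S hSsymm).Reachable o v := by
    intro v
    have : v ∈ W := by rw [hWuniv]; trivial
    rw [hWdef] at this
    exact this
  constructor
  · refine ⟨{o} ∪ Prod.snd '' S, (Set.finite_singleton o).union (hSfin.image _), ?_⟩
    intro v
    by_cases hvo : v = o
    · exact ⟨1, o, Or.inl rfl, by rw [hvo, one_smul]⟩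
    · obtain ⟨q⟩ := (hreach v).symm
      cases q with
      | nil => exact absurd rfl hvo
      | cons h q =>
        obtain ⟨-, g, d, hd, hu, hv⟩ := h
        exact ⟨g, d.1, Or.inr ⟨(d.2, d.1), hSsymm d hd, rfl⟩, hu.symm⟩
  · refine ⟨{f : T.D | f.1 ∈ S}, ?_, ?_⟩
    · exact hSfin.preimage (f := fun f : T.D => f.1) (Subtype.val_injective.injOn)
    · intro e
      by_contra hcon
      push Not at hcon
      have hnot : ¬ (G1 T S hSsymm).Adj e.1.1 e.1.2 := by
        rintro ⟨h1, g, d, hd, hu, hv⟩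
        have hadj : T.G.Adj d.1 d.2 := by
          have := T.adj_smul g⁻¹ _ _ h1
          rw [hu, hv, inv_smul_smul, inv_smul_smul] at this
          exact this
        refine hcon g ⟨d, hadj⟩ hd ?_
        apply Subtype.ext
        show (g • d.1, g • d.2) = e.1
        rw [← hu, ← hv]
      have hle : G1 T S hSsymm ≤ T.G.deleteEdges {s(e.1.1, e.1.2)} := by
        intro u v huv
        rw [SimpleGraph.deleteEdges_adj]
        refine ⟨huv.1, ?_⟩
        intro hmem
        rw [Set.mem_singleton_iff, Sym2.eq_iff] at hmem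
        rcases hmem with ⟨h1, h2⟩ | ⟨h1, h2⟩
        · rw [h1, h2] at huv; exact hnot huv
        · rw [h1, h2] at huv; exact hnot huv.symm
      have h1 : (T.G.deleteEdges {s(e.1.1, e.1.2)}).Reachable e.1.2 e.1.1 :=
        (((hreach e.1.2).symm).trans (hreach e.1.1)).mono hle
      have h2 := (hW.cross e e).mpr rfl
      exact h2.1 h1

end Pool.Agent.R685.PS.Cof
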