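import Pool.Agent.R685.PS.Stm

/-!
# MP_fee052_al, pieces PS-CURR and PS-INV
-/

set_option autoImplicit false

open MeasureTheory Filter Topology Set
open scoped ENNReal NNReal

namespace Pool.Agent.R685.PS.CurrP

theorem busemann_self {N : ℕ} {T : CV N} (hH : T.Horo) (ξ : Bd N) (x : T.V) :
    T.busemann ξ x x = 0 := by
  have := hH.add ξ x x x
  linarith

theorem busemann_swap {N : ℕ} {T : CV N} (hH : T.Horo) (ξ : Bd N) (x y : T.V) :
    T.busemann ξ y x = - T.busemann ξ x y := by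
  have h1 := hH.add ξ x y x
  have h2 := busemann_self hH ξ x
  linarith

theorem main (_hA : S_ACT) : S_CURR := by
  intro N T ν x c μ _hW _hC hB hH hν hμ
  haveI := hν.finite
  refine ⟨c, fun e => ?_⟩
  set v := T.tgt e with hv
  have mA : MeasurableSet (T.Sh (T.rev e)) := hB.meas _
  have mB : MeasurableSet (T.Sh e) := hB.meas _
  have mAB : MeasurableSet (T.Cyl e) := mA.prod mB
  let g : Bd N → ℝ≥0∞ := fun ξ => ENNReal.ofReal (Real.exp (-T.critExp * T.busemann ξ v x))
  have hg : Measurable g := by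
    have h1 := hH.meas v x
    exact ENNReal.measurable_ofReal.comp (Real.measurable_exp.comp (h1.const_mul _))
  have hνv : ν v = (ν x).withDensity g := hν.conformal v x
  have hsub : T.Cyl e ∩ {p : Bd N × Bd N | p.1 ≠ p.2} = T.Cyl e := by
    refine Set.inter_eq_left.2 ?_
    rintro ⟨ξ, ζ⟩ ⟨h1, h2⟩ (h3 : ξ = ζ)
    subst h3
    exact (hB.compl e ξ).1 h1 h2
  -- right hand side
  have hR : ((ν v).restrict (T.Sh (T.rev e))).prod ((ν v).restrict (T.Sh e)) =
      (((ν x).prod (ν x)).restrict (T.Cyl e)).withDensity (fun p => g p.1 * g p.2) := by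
    rw [hνv, restrict_withDensity mA, restrict_withDensity mB,
      prod_withDensity hg hg, Measure.prod_restrict]
    rfl
  rw [hR, hμ, Measure.restrict_smul, restrict_withDensity mAB, Measure.restrict_restrict mAB, hsub]
  congr 1
  refine withDensity_congr_ae ?_
  refine (ae_restrict_iff' mAB).2 (Filter.Eventually.of_forall ?_)
  rintro ⟨ξ, ζ⟩ ⟨h1, h2⟩
  show ENNReal.ofReal (Real.exp (2 * T.critExp * T.gromov x ξ ζ)) =
    ENNReal.ofReal (Real.exp (-T.critExp * T.busemann ξ v x)) *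
      ENNReal.ofReal (Real.exp (-T.critExp * T.busemann ζ v x))
  rw [← ENNReal.ofReal_mul (Real.exp_pos _).le, ← Real.exp_add]
  congr 2
  have h3 := hH.gro e ξ ζ x h1 h2
  have h4 := busemann_swap hH ξ x v
  have h5 := busemann_swap hH ζ x v
  rw [h4, h5]
  have : 2 * T.critExp * T.gromov x ξ ζ = T.critExp * (2 * T.gromov x ξ ζ) := by ring
  rw [this, h3]
  ring

theorem inv (hA : S_ACT) : S_INV := by
  intro N T h ν μ _hW _hC hB hD hcur
  haveI := hD.fin
  obtain ⟨c, hc⟩ := hcur.prod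
  have hmap : ∀ (g : F N) (e : T.D) (v : T.V), ((ν v).restrict (T.Sh e)).map (fun ξ => g • ξ) =
      (ν (g • v)).restrict (T.Sh (g • e)) := by
    intro g e v
    have mg : Measurable fun ξ : Bd N => g • ξ := (hA N).2.1 g
    ext A hAm
    rw [Measure.map_apply mg hAm, Measure.restrict_apply (mg hAm), Measure.restrict_apply hAm,
      hD.equi g v _ (hAm.inter (hB.meas _))]
    congr 1
    ext ξ
    show (g • ξ ∈ A ∧ ξ ∈ T.Sh e) ↔ (g • ξ ∈ A ∧ g • ξ ∈ T.Sh (g • e))
    rw [hB.smul]
  refine ⟨fun e => ?_, fun g e => ?_⟩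
  · have h1 : μ (T.Cyl e) = (μ.restrict (T.Cyl e)) univ := by
      rw [Measure.restrict_apply_univ]
    rw [h1, hc e, Measure.smul_apply, smul_eq_mul]
    exact ENNReal.mul_lt_top ENNReal.coe_lt_top (measure_lt_top _ _)
  · rw [hc e, hc (g • e)]
    have mg : Measurable fun ξ : Bd N => g • ξ := (hA N).2.1 g
    have e1 : (fun p : Bd N × Bd N => (g • p.1, g • p.2)) =
        Prod.map (fun ξ : Bd N => g • ξ) (fun ξ : Bd N => g • ξ) := rfl
    rw [e1, Measure.map_smul, ← Measure.map_prod_map _ _ mg mg, hmap, hmap]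
    rfl

end Pool.Agent.R685.PS.CurrP
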