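import Pool.Agent.R685.PS.Stm

/-!
# MP_fee052_al, piece PS-DENS: facts on conformal densities
-/

open MeasureTheory Filter Topology Set
open scoped ENNReal NNReal

namespace Pool.Agent.R685.PS.DensP

theorem main (hA : S_ACT) (hP : S_POS) : S_DENS := by
  intro N T ν hN hW hC hB hH hc hν
  have hA2 : ∀ g : F N, Measurable fun ξ : Bd N => g • ξ := (hA N).2.1
  have hequi : ∀ (g : F N) (x : T.V) (A : Set (Bd N)), MeasurableSet A →
      ν (g • x) A = ν x {ξ | g • ξ ∈ A} := by
    intro g x A hAm
    rw [hν.equivariant g x, Measure.map_apply (hA2 g) hAm]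
    rfl
  refine ⟨hν.finite, ?_, ?_, hequi, ?_⟩
  · intro x y A hAm
    rw [hν.conformal x y, withDensity_apply _ hAm]
    rw [← setLIntegral_const]
    apply lintegral_mono
    intro ξ
    apply ENNReal.ofReal_le_ofReal
    apply Real.exp_le_exp.2
    have := mul_le_mul_of_nonneg_left (hH.le ξ x y) hc.le
    linarith
  · intro e A hAm hsub
    rw [hν.conformal (T.src e) (T.tgt e), withDensity_apply _ hAm]
    rw [← setLIntegral_const]
    apply setLIntegral_congr_fun hAm
    intro ξ hξ
    simp only
    rw [hH.ell e ξ (hsub hξ)]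
  · intro x ξ n
    apply hP N hN (ν x) (hν.nonzero x)
    intro g A hAm h0
    rw [← hequi g x A hAm, hν.conformal (g • x) x]
    exact withDensity_absolutelyContinuous _ _ h0

end Pool.Agent.R685.PS.DensP
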