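import Pool.Agent.R685.PS.Stm

/-!
# MP_fee052_al, piece PS-DIST: the length metric of a tree is the sum over the separating edges
-/

open MeasureTheory Filter Topology Set
open scoped ENNReal NNReal

namespace Pool.Agent.R685.PS.DistP

variable {N : ℕ}

/-- The length of a walk. -/
def wl (T : CV N) {x y : T.V} (p : T.G.Walk x y) : ℝ :=
  (p.darts.map fun d => T.len d.fst d.snd).sum

theorem sep_self (T : CV N) (x : T.V) : T.sep x x = ∅ := by
  ext e
  simp [CV.sep]

theorem sep_subset (T : CV N) (hW : T.Walls) {x z y : T.V} (h : T.G.Adj x z) :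
    T.sep x y ⊆ insert (⟨(x, z), h⟩ : T.D) (T.sep z y) := by
  intro e he
  by_cases hz : z ∈ T.H e
  · left
    exact (hW.cross ⟨(x, z), h⟩ e).1 ⟨he.1, hz⟩
  · right
    exact ⟨hz, he.2⟩

theorem ell_nonneg (T : CV N) (e : T.D) : 0 ≤ T.ell e := (T.len_pos _ _ e.2).le

theorem lower (T : CV N) (hW : T.Walls) {x y : T.V} (p : T.G.Walk x y) :
    ∑ᶠ e ∈ T.sep x y, T.ell e ≤ wl T p := by
  induction p with
  | nil =>
    rename_i u
    rw [sep_self]
    simp [wl]
  | cons h p ih =>
    rename_i u v w
    set d : T.D := ⟨(u, v), h⟩ with hd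
    have h1 : ∑ᶠ e ∈ T.sep u w, T.ell e ≤ ∑ᶠ e ∈ insert d (T.sep v w), T.ell e := by
      have hf1 := hW.finite u w
      have hf2 := (hW.finite v w).insert d
      rw [finsum_mem_eq_finite_toFinset_sum _ hf1, finsum_mem_eq_finite_toFinset_sum _ hf2]
      apply Finset.sum_le_sum_of_subset_of_nonneg
      · intro e he
        rw [Set.Finite.mem_toFinset] at he ⊢
        exact sep_subset T hW h he
      · intro e _ _
        exact ell_nonneg T e
    have h2 : ∑ᶠ e ∈ insert d (T.sep v w), T.ell e ≤ T.ell d + ∑ᶠ e ∈ T.sep v w, T.ell e := by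
      by_cases hm : d ∈ T.sep v w
      · rw [Set.insert_eq_of_mem hm]
        have := ell_nonneg T d
        linarith
      · rw [finsum_mem_insert _ hm (hW.finite v w)]
    have h3 : wl T (SimpleGraph.Walk.cons h p) = T.ell d + wl T p := by
      simp [wl, CV.ell, hd]
    rw [h3]
    linarith

theorem exact_path (T : CV N) (hW : T.Walls) {x y : T.V} (p : T.G.Walk x y) (hp : p.IsPath) :
    wl T p = ∑ᶠ e ∈ T.sep x y, T.ell e := by
  induction p with
  | nil =>
    rename_i u
    rw [sep_self]
    simp [wl]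
  | cons h p ih =>
    rename_i u v w
    set d : T.D := ⟨(u, v), h⟩ with hd
    rw [SimpleGraph.Walk.cons_isPath_iff] at hp
    have hw : w ∈ T.H d := by
      have hne : ∀ e ∈ p.edges, e ∉ ({s(u, v)} : Set (Sym2 T.V)) := by
        intro e he he2
        rw [Set.mem_singleton_iff] at he2
        subst he2
        exact hp.2 (SimpleGraph.Walk.fst_mem_support_of_mem_edges _ he)
      exact ⟨p.toDeleteEdges _ hne⟩
    have hdd := (hW.cross d d).2 rfl
    have hm : d ∉ T.sep v w := fun hh => hh.1 hdd.2
    have hs : T.sep u w = insert d (T.sep v w) := by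
      apply Set.Subset.antisymm (sep_subset T hW h)
      intro e he
      rcases he with rfl | he
      · exact ⟨hdd.1, hw⟩
      · refine ⟨fun hu => ?_, he.2⟩
        have hr := (hW.cross (T.rev d) e).1 ⟨he.1, hu⟩
        have := he.2
        rw [hr] at this
        exact ((hW.compl d w).1 this) hw
    rw [hs, finsum_mem_insert _ hm (hW.finite v w), ← ih hp.1]
    simp [wl, CV.ell, hd]

theorem main : S_DIST := by
  intro N T hW x y
  unfold CV.dist
  have hc := T.isTree.1
  have : Nonempty (T.G.Walk x y) := hc.preconnected x y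
  classical
  obtain ⟨p0⟩ := hc.preconnected x y
  have hp := p0.bypass_isPath
  apply le_antisymm
  · rw [← exact_path T hW p0.bypass hp]
    apply ciInf_le
    refine ⟨∑ᶠ e ∈ T.sep x y, T.ell e, ?_⟩
    rintro _ ⟨p, rfl⟩
    exact lower T hW p
  · apply le_ciInf
    intro p
    exact lower T hW p

end Pool.Agent.R685.PS.DistP
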