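import Pool.Agent.R685.PS.Stm

/-! PS-HORO: Busemann functions and Gromov products. -/

open MeasureTheory Filter Topology Set
open scoped ENNReal NNReal

namespace Pool.Agent.R685.PS.HoroP

open CV Classical

variable {N : ℕ} {T : CV N}

/-- indicator of a half tree -/
noncomputable def chi (T : CV N) (g : T.D) (w : T.V) : ℝ := if w ∈ T.H g then 1 else 0

/-- indicator of a shadow -/
noncomputable def sg (T : CV N) (g : T.D) (ξ : Bd N) : ℝ := if ξ ∈ T.Sh g then 1 else 0

theorem ell_pos (g : T.D) : 0 < T.ell g := T.len_pos _ _ g.2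

theorem ell_rev (g : T.D) : T.ell (T.rev g) = T.ell g := T.len_symm _ _

theorem dist_eq (hD : S_DIST) (W : T.Walls) (x w : T.V) (A : Finset T.D)
    (hA : ∀ g ∈ T.sep x w, g ∈ A) :
    T.dist x w = ∑ g ∈ A, T.ell g * ((1 - chi T g x) * chi T g w) := by
  rw [hD N T W x w, finsum_mem_eq_finite_toFinset_sum _ (W.finite x w)]
  rw [← Finset.sum_subset (s₁ := (W.finite x w).toFinset) (s₂ := A)]
  · refine Finset.sum_congr rfl fun g hg => ?_
    rw [Set.Finite.mem_toFinset] at hg
    have h1 : x ∉ T.H g := hg.1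
    have h2 : w ∈ T.H g := hg.2
    simp [chi, h1, h2]
  · intro g hg
    rw [Set.Finite.mem_toFinset] at hg
    exact hA g hg
  · intro g _ hg
    rw [Set.Finite.mem_toFinset] at hg
    by_cases h1 : x ∈ T.H g
    · simp [chi, h1]
    · by_cases h2 : w ∈ T.H g
      · exact absurd ⟨h1, h2⟩ hg
      · simp [chi, h2]

theorem diff_eq (hD : S_DIST) (W : T.Walls) (x y w : T.V) (A : Finset T.D)
    (hA : ∀ g ∈ T.sep x y, g ∈ A) (hA' : ∀ g ∈ T.sep y x, g ∈ A) :
    T.dist x w - T.dist y w = ∑ g ∈ A, T.ell g * (chi T g w * (chi T g y - chi T g x)) := by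
  set B : Finset T.D := A ∪ ((W.finite x w).toFinset ∪ (W.finite y w).toFinset) with hB
  have h1 := dist_eq hD W x w B (fun g hg => by
    rw [hB, Finset.mem_union, Finset.mem_union, Set.Finite.mem_toFinset]
    exact Or.inr (Or.inl hg))
  have h2 := dist_eq hD W y w B (fun g hg => by
    rw [hB, Finset.mem_union, Finset.mem_union, Set.Finite.mem_toFinset, Set.Finite.mem_toFinset]
    exact Or.inr (Or.inr hg))
  rw [h1, h2, ← Finset.sum_sub_distrib]
  rw [← Finset.sum_subset (s₁ := A) (s₂ := B)]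
  · refine Finset.sum_congr rfl fun g _ => ?_
    ring
  · intro g hg
    exact Finset.mem_union_left _ hg
  · intro g _ hg
    have n1 : g ∉ T.sep x y := fun h => hg (hA g h)
    have n2 : g ∉ T.sep y x := fun h => hg (hA' g h)
    have : chi T g x = chi T g y := by
      unfold chi
      by_cases hx : x ∈ T.H g
      · by_cases hy : y ∈ T.H g
        · rw [if_pos hx, if_pos hy]
        · exact absurd ⟨hy, hx⟩ n2
      · by_cases hy : y ∈ T.H g
        · exact absurd ⟨hx, hy⟩ n1
        · rw [if_neg hx, if_neg hy]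
    rw [this]
    ring

theorem ev_chi (B : T.Bdry) (g : T.D) (ξ : Bd N) (z : T.V) :
    ∀ᶠ n in atTop, chi T g (pre ξ n • z) = sg T g ξ := by
  by_cases h : ξ ∈ T.Sh g
  · filter_upwards [h z] with n hn
    unfold chi sg
    rw [if_pos hn, if_pos h]
  · have : ∀ᶠ n in atTop, ¬ (pre ξ n • z ∈ T.H g) := by
      rw [← Filter.not_frequently]
      exact fun hf => h (B.base g z ξ hf)
    filter_upwards [this] with n hn
    unfold chi sg
    rw [if_neg hn, if_neg h]

/-- the value of the Busemann function -/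
noncomputable def val (T : CV N) (A : Finset T.D) (ξ : Bd N) (x y : T.V) : ℝ :=
  ∑ g ∈ A, T.ell g * (sg T g ξ * (chi T g y - chi T g x))

theorem ev_diff (hD : S_DIST) (W : T.Walls) (B : T.Bdry) (ξ : Bd N) (x y z : T.V) (A : Finset T.D)
    (hA : ∀ g ∈ T.sep x y, g ∈ A) (hA' : ∀ g ∈ T.sep y x, g ∈ A) :
    ∀ᶠ n in atTop, T.dist x (pre ξ n • z) - T.dist y (pre ξ n • z) = val T A ξ x y := by
  have h : ∀ᶠ n in atTop, ∀ g ∈ A, chi T g (pre ξ n • z) = sg T g ξ :=
    (Filter.eventually_all_finset A).2 fun g _ => ev_chi B g ξ z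
  filter_upwards [h] with n hn
  rw [diff_eq hD W x y _ A hA hA']
  unfold val
  refine Finset.sum_congr rfl fun g hg => ?_
  rw [hn g hg]

theorem lim_of_ev {u : ℕ → ℝ} {a : ℝ} (h : ∀ᶠ n in atTop, u n = a) : limUnder atTop u = a := by
  refine Tendsto.limUnder_eq ?_
  refine tendsto_const_nhds.congr' ?_
  filter_upwards [h] with n hn
  exact hn.symm

theorem bus_eq (hD : S_DIST) (W : T.Walls) (B : T.Bdry) (ξ : Bd N) (x y : T.V) (A : Finset T.D)
    (hA : ∀ g ∈ T.sep x y, g ∈ A) (hA' : ∀ g ∈ T.sep y x, g ∈ A) :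
    T.busemann ξ x y = val T A ξ x y :=
  lim_of_ev (ev_diff hD W B ξ x y x A hA hA')

/-- a common finite set of walls -/
noncomputable def fs (W : T.Walls) (x y : T.V) : Finset T.D :=
  (W.finite x y).toFinset ∪ (W.finite y x).toFinset

theorem mem_fs (W : T.Walls) (x y : T.V) : ∀ g ∈ T.sep x y, g ∈ fs W x y := by
  intro g hg
  rw [fs, Finset.mem_union, Set.Finite.mem_toFinset]
  exact Or.inl hg

theorem mem_fs' (W : T.Walls) (x y : T.V) : ∀ g ∈ T.sep y x, g ∈ fs W x y := by
  intro g hg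
  rw [fs, Finset.mem_union, Set.Finite.mem_toFinset, Set.Finite.mem_toFinset]
  exact Or.inr hg

theorem tgt_mem (W : T.Walls) (e : T.D) : T.src e ∉ T.H e ∧ T.tgt e ∈ T.H e :=
  (W.cross e e).2 rfl

theorem rev_ne (W : T.Walls) (e : T.D) : e ≠ T.rev e := by
  intro h
  have h1 := (tgt_mem W e).2
  have h2 := (W.compl e (T.tgt e)).1 (by rw [← h]; exact h1)
  exact h2 h1

theorem dist_symm (hD : S_DIST) (W : T.Walls) (x y : T.V) : T.dist x y = T.dist y x := by
  rw [hD N T W x y, hD N T W y x]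
  refine finsum_mem_eq_of_bijOn (fun g => T.rev g) ⟨?_, ?_, ?_⟩ ?_
  · intro g hg
    refine ⟨?_, ?_⟩
    · rw [W.compl g y]
      exact fun h => h hg.2
    · rw [W.compl g x]
      exact hg.1
  · intro g _ h _ heq
    have := congrArg T.rev heq
    exact this
  · intro g hg
    refine ⟨T.rev g, ⟨?_, ?_⟩, rfl⟩
    · rw [W.compl g x]
      exact fun h => h hg.2
    · rw [W.compl g y]
      exact hg.1
  · intro g _
    exact (ell_rev g).symm

theorem dist_add (hD : S_DIST) (W : T.Walls) (e : T.D) (p q : T.V) (hp : p ∉ T.H e)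
    (hq : q ∈ T.H e) : T.dist p q = T.dist (T.tgt e) p + T.dist (T.tgt e) q := by
  rw [dist_symm hD W (T.tgt e) p]
  set v := T.tgt e with hv
  set A : Finset T.D := fs W p q ∪ (fs W p v ∪ fs W v q) with hA
  rw [dist_eq hD W p q A (fun g hg => by
      rw [hA]; exact Finset.mem_union_left _ (mem_fs W p q g hg)),
    dist_eq hD W p v A (fun g hg => by
      rw [hA]; exact Finset.mem_union_right _ (Finset.mem_union_left _ (mem_fs W p v g hg))),
    dist_eq hD W v q A (fun g hg => by
      rw [hA]; exact Finset.mem_union_right _ (Finset.mem_union_right _ (mem_fs W v q g hg))),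
    ← Finset.sum_add_distrib]
  refine Finset.sum_congr rfl fun g _ => ?_
  have c1 : p ∈ T.H g → q ∈ T.H g → v ∈ T.H g := fun h1 h2 => (W.convex e g p q h1 h2 hp hq).2
  have c2 : p ∉ T.H g → q ∉ T.H g → v ∉ T.H g := fun h1 h2 => by
    have := (W.convex e (T.rev g) p q ((W.compl g p).2 h1) ((W.compl g q).2 h2) hp hq).2
    exact (W.compl g v).1 this
  unfold chi
  by_cases hpg : p ∈ T.H g <;> by_cases hqg : q ∈ T.H g
  · simp [hpg, hqg, c1 hpg hqg]
  · by_cases hvg : v ∈ T.H g <;> simp [hpg, hqg, hvg]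
  · by_cases hvg : v ∈ T.H g <;> simp [hpg, hqg, hvg]
  · simp [hpg, hqg, c2 hpg hqg]

theorem main (hD : S_DIST) : S_HORO := by
  intro N T W _ B
  refine ⟨?_, ?_, ?_, ?_, ?_⟩
  · -- ell
    intro e ξ hξ
    rw [bus_eq hD W B ξ _ _ {e, T.rev e}
      (fun g hg => by
        have := (W.cross e g).1 hg
        simp [this])
      (fun g hg => by
        have := (W.cross (T.rev e) g).1 hg
        simp [this])]
    unfold val
    rw [Finset.sum_pair (rev_ne W e)]
    have h1 := tgt_mem W e
    have h2 : ξ ∉ T.Sh (T.rev e) := fun h => (B.compl e ξ).1 h hξ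
    simp [sg, chi, hξ, h2, h1.1, h1.2]
  · -- add
    intro ξ x y z
    set A : Finset T.D := fs W x z ∪ (fs W x y ∪ fs W y z) with hA
    rw [bus_eq hD W B ξ x z A
        (fun g hg => by rw [hA]; exact Finset.mem_union_left _ (mem_fs W x z g hg))
        (fun g hg => by rw [hA]; exact Finset.mem_union_left _ (mem_fs' W x z g hg)),
      bus_eq hD W B ξ x y A
        (fun g hg => by
          rw [hA]; exact Finset.mem_union_right _ (Finset.mem_union_left _ (mem_fs W x y g hg)))
        (fun g hg => by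
          rw [hA]; exact Finset.mem_union_right _ (Finset.mem_union_left _ (mem_fs' W x y g hg))),
      bus_eq hD W B ξ y z A
        (fun g hg => by
          rw [hA]; exact Finset.mem_union_right _ (Finset.mem_union_right _ (mem_fs W y z g hg)))
        (fun g hg => by
          rw [hA]; exact Finset.mem_union_right _ (Finset.mem_union_right _ (mem_fs' W y z g hg)))]
    unfold val
    rw [← Finset.sum_add_distrib]
    refine Finset.sum_congr rfl fun g _ => ?_
    ring
  · -- le
    intro ξ x y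
    rw [bus_eq hD W B ξ x y (fs W x y) (mem_fs W x y) (mem_fs' W x y),
      dist_eq hD W x y (fs W x y) (mem_fs W x y)]
    unfold val
    refine Finset.sum_le_sum fun g _ => ?_
    refine mul_le_mul_of_nonneg_left ?_ (ell_pos g).le
    unfold sg chi
    by_cases h1 : ξ ∈ T.Sh g <;> by_cases h2 : x ∈ T.H g <;> by_cases h3 : y ∈ T.H g <;>
      simp [h1, h2, h3]
  · -- meas
    intro x y
    have : (fun ξ : Bd N => T.busemann ξ x y) = fun ξ => val T (fs W x y) ξ x y := by
      funext ξ
      exact bus_eq hD W B ξ x y (fs W x y) (mem_fs W x y) (mem_fs' W x y)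
    rw [this]
    unfold val
    refine Finset.measurable_sum _ fun g _ => ?_
    refine Measurable.const_mul (Measurable.mul_const ?_ _) _
    unfold sg
    exact Measurable.ite (B.meas g) measurable_const measurable_const
  · -- gro
    intro e ξ ζ x hξ hζ
    have e1 := ev_diff hD W B ξ x (T.tgt e) x (fs W x (T.tgt e)) (mem_fs W _ _) (mem_fs' W _ _)
    have e2 := ev_diff hD W B ζ x (T.tgt e) x (fs W x (T.tgt e)) (mem_fs W _ _) (mem_fs' W _ _)
    have hg : T.gromov x ξ ζ = (val T (fs W x (T.tgt e)) ξ x (T.tgt e) +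
        val T (fs W x (T.tgt e)) ζ x (T.tgt e)) / 2 := by
      unfold CV.gromov
      refine lim_of_ev ?_
      filter_upwards [e1, e2, hξ x, hζ x] with n h1 h2 h3 h4
      have h5 : pre ξ n • x ∉ T.H e := (W.compl e _).1 h3
      rw [dist_add hD W e _ _ h5 h4, ← h1, ← h2]
      ring
    rw [hg, bus_eq hD W B ξ x (T.tgt e) (fs W x (T.tgt e)) (mem_fs W _ _) (mem_fs' W _ _),
      bus_eq hD W B ζ x (T.tgt e) (fs W x (T.tgt e)) (mem_fs W _ _) (mem_fs' W _ _)]
    ring

end Pool.Agent.R685.PS.HoroP
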