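import Pool.Agent.R685.PS.Stm

/-! # MP_fee052_al: PS-MT, mass transport for two free actions -/

open MeasureTheory Filter Topology Set
open scoped ENNReal NNReal

namespace Pool.Agent.R685.PS.MT

lemma key (G Y : Type) [Group G] [MulAction G Y] (hY : ∀ (g : G) (y : Y), g • y = y → g = 1)
    (F : Y → ℝ) (hF : {y | F y ≠ 0}.Finite) :
    ∑ᶠ y : Y, F y = ∑ᶠ r : MulAction.orbitRel.Quotient G Y, ∑ᶠ g : G, F (g • r.out) := by
  classical
  have hbij : Function.Bijective (fun p : MulAction.orbitRel.Quotient G Y × G => p.2 • p.1.out) := by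
    constructor
    · rintro ⟨r, g⟩ ⟨r', g'⟩ h
      simp only at h
      have hr : r = r' := by
        have h1 : (⟦r.out⟧ : MulAction.orbitRel.Quotient G Y) = ⟦r'.out⟧ := by
          apply Quotient.sound
          show MulAction.orbitRel G Y _ _
          rw [MulAction.orbitRel_apply]
          refine ⟨g⁻¹ * g', ?_⟩
          simp only
          rw [mul_smul, ← h, inv_smul_smul]
        rw [Quotient.out_eq, Quotient.out_eq] at h1
        exact h1
      subst hr
      have h2 : g'⁻¹ * g = 1 := by
        apply hY _ r.out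
        rw [mul_smul, h, inv_smul_smul]
      have h3 : g = g' := by
        rw [inv_mul_eq_one] at h2
        exact h2.symm
      rw [h3]
    · intro y
      have h1 : MulAction.orbitRel G Y y (⟦y⟧ : MulAction.orbitRel.Quotient G Y).out := by
        have := Quotient.mk_out (s := MulAction.orbitRel G Y) y
        exact (MulAction.orbitRel G Y).symm this
      rw [MulAction.orbitRel_apply] at h1
      obtain ⟨g, hg⟩ := h1
      exact ⟨(⟦y⟧, g), hg⟩
  let e := Equiv.ofBijective _ hbij
  rw [← finsum_comp_equiv e]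
  rw [finsum_curry]
  · rfl
  · have : Function.support (fun p => F (e p)) = e ⁻¹' {y | F y ≠ 0} := rfl
    show (Function.support (fun p => F (e p))).Finite
    rw [this]
    exact hF.preimage e.injective.injOn

theorem main : S_MT := by
  intro G X Y _ _ _ hX hY hfX hfY Φ hinv hΦ1 hΦ2
  classical
  have hfX' := Fintype.ofFinite (MulAction.orbitRel.Quotient G X)
  have hfY' := Fintype.ofFinite (MulAction.orbitRel.Quotient G Y)
  have h1 : ∀ q : MulAction.orbitRel.Quotient G X, ∑ᶠ y : Y, Φ q.out y =
      ∑ r : MulAction.orbitRel.Quotient G Y, ∑ᶠ g : G, Φ q.out (g • r.out) := by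
    intro q
    rw [key G Y hY _ (hΦ1 q.out), finsum_eq_sum_of_fintype]
  have h2 : ∀ r : MulAction.orbitRel.Quotient G Y, ∑ᶠ x : X, Φ x r.out =
      ∑ q : MulAction.orbitRel.Quotient G X, ∑ᶠ g : G, Φ (g • q.out) r.out := by
    intro r
    rw [key G X hX (fun x => Φ x r.out) (hΦ2 r.out), finsum_eq_sum_of_fintype]
  simp only [h1, h2]
  rw [finsum_eq_sum_of_fintype, finsum_eq_sum_of_fintype, Finset.sum_comm]
  apply Finset.sum_congr rfl
  intro r _
  apply Finset.sum_congr rfl
  intro q _
  rw [← finsum_comp_equiv (Equiv.inv G)]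
  apply finsum_congr
  intro g
  have h3 := hinv g q.out (g⁻¹ • r.out)
  rw [smul_inv_smul] at h3
  rw [h3]
  rfl

end Pool.Agent.R685.PS.MT
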