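import Pool.Agent.R685.PS.Klb

open MeasureTheory Filter Topology Set
open scoped ENNReal NNReal

namespace Pool.Agent.R685.PS.Main1

variable {N : ℕ} {T S : CV N}

theorem measurable_Lg (hTC : T.Cofin) (hN : NX T) {φ : T.V → S.V} {ν : T.V → Measure (Bd N)}
    {ν' : S.V → Measure (Bd N)} (n : ℕ) (e : T.D) :
    Measurable fun ζ : Bd N => Lg T S φ ν ν' n e ζ := by
  have : Countable T.D := Main2.countableD hTC
  let _ : MeasurableSpace T.D := ⊤
  have h1 : Measurable fun ζ : Bd N => (T.nx ζ)^[n] e := by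
    refine measurable_to_countable' fun k => ?_
    exact hN.meas n e k
  have h2 : Measurable fun f : T.D => Real.log ((ν (T.tgt e)).real (T.Sh f))
      - Real.log ((ν' (φ (T.tgt e))).real (T.Sh f)) := measurable_from_top
  exact h2.comp h1

theorem gibbs_cyl (hG : S_GIBBS) {φ : T.V → S.V} {h h' : ℝ} {ν : T.V → Measure (Bd N)}
    {ν' : S.V → Measure (Bd N)} {μ : Measure (Bd N × Bd N)}
    (hTC : T.Cofin) (hTB : T.Bdry) (hN : NX T) (hTD : T.Dens h ν) (hCu : T.Curr ν μ)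
    (hSD : S.Dens h' ν') (n : ℕ) (e : T.D) :
    0 ≤ ∫ ω in T.Cyl e, (Lg T S φ ν ν' n e ω.2 - Lg T S φ ν ν' 0 e ω.2) ∂μ := by
  obtain ⟨c, hc⟩ := hCu.prod
  have := hTD.fin (T.tgt e)
  have := hSD.fin (φ (T.tgt e))
  have hm : Measurable fun ζ : Bd N => Lg T S φ ν ν' n e ζ - Lg T S φ ν ν' 0 e ζ :=
    (measurable_Lg hTC hN n e).sub (measurable_Lg hTC hN 0 e)
  have hg := hG (Bd N) T.D (ν (T.tgt e)) (ν' (φ (T.tgt e))) (T.Sh e) (hTB.meas e)
    (fun ζ => (T.nx ζ)^[n] e) (hN.fin n e) (fun d => (hTB.meas e).inter (hN.meas n e d))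
    (fun ζ hζ => by
      rw [hN.cell n e ζ hζ]
      exact Klb.sh_real_pos hTB (hN.sh n e ζ hζ) (hSD.fin _) fun k => hSD.pos _ ζ k)
  have hg2 : 0 ≤ ∫ ζ in T.Sh e, (Lg T S φ ν ν' n e ζ - Lg T S φ ν ν' 0 e ζ) ∂(ν (T.tgt e)) := by
    refine hg.trans (le_of_eq ?_)
    refine setIntegral_congr_fun (hTB.meas e) fun ζ hζ => ?_
    have hcell := hN.cell n e ζ hζ
    simp only [hcell]
    unfold Lg
    simp only [Function.iterate_zero, id_eq]
    ring
  rw [hc e, integral_smul_measure]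
  refine smul_nonneg ENNReal.toReal_nonneg ?_
  have h1 : ∫ ω : Bd N × Bd N, (Lg T S φ ν ν' n e ω.2 - Lg T S φ ν ν' 0 e ω.2)
      ∂(((ν (T.tgt e)).restrict (T.Sh (T.rev e))).prod ((ν (T.tgt e)).restrict (T.Sh e))) =
      ∫ ζ, (Lg T S φ ν ν' n e ζ - Lg T S φ ν ν' 0 e ζ)
        ∂((((ν (T.tgt e)).restrict (T.Sh (T.rev e))).prod
          ((ν (T.tgt e)).restrict (T.Sh e))).map Prod.snd) := by
    rw [integral_map measurable_snd.aemeasurable hm.aestronglyMeasurable]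
  rw [h1, Measure.map_snd_prod, integral_smul_measure]
  exact smul_nonneg ENNReal.toReal_nonneg hg2

theorem main (hG : S_GIBBS) : S_MAIN1 := by
  intro N T S φ h h' ν ν' μ hφ hTW hTC hTB hN hSW hSC hSB hTD hCu hI hSD hh' n e
  refine (gibbs_cyl hG (φ := φ) hTC hTB hN hTD hCu hSD n e).trans ?_
  have hint : ∀ k : ℕ, IntegrableOn (fun ω : Bd N × Bd N => Lg T S φ ν ν' k e ω.2) (T.Cyl e) μ :=
    fun k => Main2.integrable_iter hTC hTB hN hI
      (c := fun f _ => Real.log ((ν (T.tgt e)).real (T.Sh f))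
        - Real.log ((ν' (φ (T.tgt e))).real (T.Sh f)))
      (fun _ => measurable_const) (fun _ => ⟨_, fun ω _ => le_rfl⟩) k e
  have hI1 : IntegrableOn (fun _ : Bd N × Bd N => Real.log ((ν (T.tgt e)).real (T.Sh e))
        - Real.log ((ν' (φ (T.tgt e))).real (T.Sh e))) (T.Cyl e) μ :=
    integrableOn_const (hI.fin e).ne
  have hIl : IntegrableOn (fun ω : Bd N × Bd N =>
      ∑ i ∈ Finset.range n, T.ell ((T.nx ω.2)^[i + 1] e)) (T.Cyl e) μ :=
    integrable_finsetSum _ fun i _ => Main2.integrable_iter hTC hTB hN hI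
      (c := fun f _ => T.ell f) (fun _ => measurable_const) (fun _ => ⟨_, fun ω _ => le_rfl⟩)
      (i + 1) e
  have hId : IntegrableOn (fun ω : Bd N × Bd N =>
      S.dist (φ (T.tgt e)) (φ (T.tgt ((T.nx ω.2)^[n] e)))) (T.Cyl e) μ :=
    Main2.integrable_iter hTC hTB hN hI
      (c := fun f _ => S.dist (φ (T.tgt e)) (φ (T.tgt f)))
      (fun _ => measurable_const) (fun _ => ⟨_, fun ω _ => le_rfl⟩) n e
  have hIc : IntegrableOn (fun ω : Bd N × Bd N =>
      (Real.log ((ν (T.tgt ((T.nx ω.2)^[n] e))).real (T.Sh ((T.nx ω.2)^[n] e)))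
        - Real.log ((ν' (φ (T.tgt ((T.nx ω.2)^[n] e)))).real (T.Sh ((T.nx ω.2)^[n] e)))))
      (T.Cyl e) μ :=
    Main2.integrable_iter hTC hTB hN hI
      (c := fun f _ => Real.log ((ν (T.tgt f)).real (T.Sh f))
        - Real.log ((ν' (φ (T.tgt f))).real (T.Sh f)))
      (fun _ => measurable_const) (fun _ => ⟨_, fun ω _ => le_rfl⟩) n e
  refine setIntegral_mono_on ((hint n).sub (hint 0))
    ((((hIl.const_mul _).add (hId.const_mul _)).add hIc).sub hI1)
    ((hTB.meas _).prod (hTB.meas _)) fun ω hω => ?_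
  have h1 := Klb.pointwise (φ := φ) hTB hN hTD hSD hω.2 n
  have h2 : Lg T S φ ν ν' 0 e ω.2 = Real.log ((ν (T.tgt e)).real (T.Sh e))
        - Real.log ((ν' (φ (T.tgt e))).real (T.Sh e)) := rfl
  rw [h2]
  linarith

end Pool.Agent.R685.PS.Main1
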