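import Pool.Agent.R685.PS.Stm

/-!
# PS-NX: the next edge map (helper806)
-/

set_option autoImplicit false
set_option linter.unusedVariables false

open MeasureTheory Filter Topology Set
open scoped ENNReal NNReal

namespace Pool.Agent.R685.PS.NXP

open Pool.Agent.R685.PS

variable {N : ℕ} {T : CV N}

theorem nx_spec (hB : T.Bdry) {ζ : Bd N} {e : T.D} (h : ζ ∈ T.Sh e) :
    T.src (T.nx ζ e) = T.tgt e ∧ T.nx ζ e ≠ T.rev e ∧ ζ ∈ T.Sh (T.nx ζ e) := by
  obtain ⟨f, hf, -⟩ := hB.next e ζ h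
  have hex : ∃ f : T.D, T.src f = T.tgt e ∧ f ≠ T.rev e ∧ ζ ∈ T.Sh f := ⟨f, hf⟩
  unfold CV.nx
  rw [dif_pos hex]
  exact hex.choose_spec

theorem nx_eq (hB : T.Bdry) {ζ : Bd N} {e f : T.D} (h1 : T.src f = T.tgt e) (h2 : f ≠ T.rev e)
    (h3 : ζ ∈ T.Sh f) : T.nx ζ e = f := by
  have h : ζ ∈ T.Sh e := hB.sub e f h1 h2 h3
  exact (hB.next e ζ h).unique (nx_spec hB h) ⟨h1, h2, h3⟩

theorem nx_not (hB : T.Bdry) {ζ : Bd N} {e : T.D} (h : ζ ∉ T.Sh e) : T.nx ζ e = e := by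
  unfold CV.nx
  rw [dif_neg]
  rintro ⟨f, h1, h2, h3⟩
  exact h (hB.sub e f h1 h2 h3)

theorem nx_not_iter (hB : T.Bdry) {ζ : Bd N} {e : T.D} (h : ζ ∉ T.Sh e) (n : ℕ) :
    (T.nx ζ)^[n] e = e := Function.iterate_fixed (nx_not hB h) n

theorem sh_iter (hB : T.Bdry) (n : ℕ) (e : T.D) (ζ : Bd N) (h : ζ ∈ T.Sh e) :
    ζ ∈ T.Sh ((T.nx ζ)^[n] e) := by
  induction n with
  | zero => exact h
  | succ n ih =>
    rw [Function.iterate_succ_apply']
    exact (nx_spec hB ih).2.2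

theorem half_sub (hW : T.Walls) {e f : T.D} (h1 : T.src f = T.tgt e) (h2 : f ≠ T.rev e) :
    T.H f ⊆ T.H e := by
  intro w hw
  by_contra hwe
  have hw' : w ∈ T.H (T.rev e) := (hW.compl e w).2 hwe
  have c1 := (hW.cross f f).2 rfl
  have c2 := (hW.cross (T.rev e) (T.rev e)).2 rfl
  have hs : T.src (T.rev e) = T.tgt e := rfl
  have h3 : T.tgt (T.rev e) ∉ T.H f := by
    intro h
    apply h2
    exact (hW.cross (T.rev e) f).1 ⟨by rw [hs, ← h1]; exact c1.1, h⟩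
  have h4 := hW.convex f (T.rev e) (T.tgt (T.rev e)) w c2.2 hw' h3 hw
  apply c2.1
  rw [hs, ← h1]
  exact h4.1

theorem sub_iter (hW : T.Walls) (hB : T.Bdry) (n : ℕ) (e : T.D) (ζ : Bd N) (h : ζ ∈ T.Sh e) :
    T.H ((T.nx ζ)^[n] e) ⊆ T.H e := by
  induction n with
  | zero => exact Subset.rfl
  | succ n ih =>
    rw [Function.iterate_succ_apply']
    have h1 := nx_spec hB (sh_iter hB n e ζ h)
    exact (half_sub hW h1.1 h1.2.1).trans ih

theorem fin_src (hC : T.Cofin) (v : T.V) : {f : T.D | T.src f = v}.Finite := by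
  classical
  obtain ⟨s, hs, hse⟩ := hC.edge
  choose g f0 hf0 hg using hse
  refine Set.Finite.of_finite_image (f := f0) (hs.subset ?_) ?_
  · rintro _ ⟨f, -, rfl⟩
    exact hf0 f
  · intro f hf f' hf' h
    have e1 : g f • T.src (f0 f) = v := by
      have h1 : T.src (g f • f0 f) = v := by
        rw [hg f]
        exact hf
      exact h1
    have e2 : g f' • T.src (f0 f) = v := by
      have h1 : T.src (g f' • f0 f') = v := by
        rw [hg f']
        exact hf'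
      rw [h]
      exact h1
    have e3 : ((g f')⁻¹ * g f) • T.src (f0 f) = T.src (f0 f) := by
      rw [mul_smul, e1, ← e2, inv_smul_smul]
    have e4 : g f = g f' := by
      have := T.free _ _ e3
      exact (inv_mul_eq_one.1 this).symm
    rw [← hg f, ← hg f', e4, h]

theorem fin_iter (hC : T.Cofin) (hB : T.Bdry) (n : ℕ) (e : T.D) :
    ((fun ζ => (T.nx ζ)^[n] e) '' T.Sh e).Finite := by
  induction n with
  | zero =>
    refine (Set.finite_singleton e).subset ?_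
    rintro _ ⟨ζ, -, rfl⟩
    rfl
  | succ n ih =>
    refine (ih.biUnion (t := fun d => {f : T.D | T.src f = T.tgt d}) fun d _ =>
      fin_src hC _).subset ?_
    rintro _ ⟨ζ, hζ, rfl⟩
    refine Set.mem_biUnion (x := (T.nx ζ)^[n] e) ⟨ζ, hζ, rfl⟩ ?_
    change T.src ((T.nx ζ)^[n + 1] e) = T.tgt ((T.nx ζ)^[n] e)
    rw [Function.iterate_succ_apply']
    exact (nx_spec hB (sh_iter hB n e ζ hζ)).1

theorem cell_aux (hB : T.Bdry) (n : ℕ) (e : T.D) (ζ : Bd N) (h : ζ ∈ T.Sh e) (ζ' : Bd N)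
    (h' : ζ' ∈ T.Sh ((T.nx ζ)^[n] e)) :
    ζ' ∈ T.Sh e ∧ (T.nx ζ')^[n] e = (T.nx ζ)^[n] e := by
  induction n with
  | zero => exact ⟨h', rfl⟩
  | succ n ih =>
    rw [Function.iterate_succ_apply'] at h'
    have h1 := nx_spec hB (sh_iter hB n e ζ h)
    have h2 := hB.sub _ _ h1.1 h1.2.1 h'
    obtain ⟨h3, h4⟩ := ih h2
    refine ⟨h3, ?_⟩
    rw [Function.iterate_succ_apply', Function.iterate_succ_apply', h4]
    exact nx_eq hB h1.1 h1.2.1 h'

theorem cell (hB : T.Bdry) (n : ℕ) (e : T.D) (ζ : Bd N) (h : ζ ∈ T.Sh e) :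
    T.Sh e ∩ {ζ' | (T.nx ζ')^[n] e = (T.nx ζ)^[n] e} = T.Sh ((T.nx ζ)^[n] e) := by
  ext ζ'
  constructor
  · rintro ⟨h1, h2⟩
    have h2' : (T.nx ζ')^[n] e = (T.nx ζ)^[n] e := h2
    rw [← h2']
    exact sh_iter hB n e ζ' h1
  · intro h1
    exact cell_aux hB n e ζ h ζ' h1

theorem meas (hB : T.Bdry) (n : ℕ) (e d : T.D) :
    MeasurableSet {ζ : Bd N | (T.nx ζ)^[n] e = d} := by
  have h0 : {ζ : Bd N | (T.nx ζ)^[n] e = d} =
      (T.Sh e ∩ {ζ | (T.nx ζ)^[n] e = d}) ∪ ((T.Sh e)ᶜ ∩ {ζ | (T.nx ζ)^[n] e = d}) := by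
    rw [← union_inter_distrib_right, union_compl_self, univ_inter]
  rw [h0]
  refine MeasurableSet.union ?_ ?_
  · by_cases h : ∃ ζ ∈ T.Sh e, (T.nx ζ)^[n] e = d
    · obtain ⟨ζ, hζ, rfl⟩ := h
      rw [cell hB n e ζ hζ]
      exact hB.meas _
    · have h1 : T.Sh e ∩ {ζ | (T.nx ζ)^[n] e = d} = ∅ := by
        rw [eq_empty_iff_forall_notMem]
        rintro ζ ⟨h2, h3⟩
        exact h ⟨ζ, h2, h3⟩
      rw [h1]
      exact MeasurableSet.empty
  · by_cases h : e = d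
    · have h1 : (T.Sh e)ᶜ ∩ {ζ | (T.nx ζ)^[n] e = d} = (T.Sh e)ᶜ := by
        rw [inter_eq_left]
        intro ζ hζ
        change (T.nx ζ)^[n] e = d
        rw [nx_not_iter hB hζ n, h]
      rw [h1]
      exact (hB.meas e).compl
    · have h1 : (T.Sh e)ᶜ ∩ {ζ | (T.nx ζ)^[n] e = d} = ∅ := by
        rw [eq_empty_iff_forall_notMem]
        rintro ζ ⟨h2, h3⟩
        apply h
        have h3' : (T.nx ζ)^[n] e = d := h3
        rw [← h3', nx_not_iter hB h2 n]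
      rw [h1]
      exact MeasurableSet.empty

theorem nx_smul (hB : T.Bdry) (g : F N) (ζ : Bd N) (e : T.D) :
    T.nx (g • ζ) (g • e) = g • T.nx ζ e := by
  by_cases h : ζ ∈ T.Sh e
  · obtain ⟨h1, h2, h3⟩ := nx_spec hB h
    refine nx_eq hB ?_ ?_ ((hB.smul g _ ζ).2 h3)
    · change g • T.src (T.nx ζ e) = g • T.tgt e
      rw [h1]
    · intro h4
      apply h2
      have h5 : g • T.nx ζ e = g • T.rev e := h4
      exact smul_left_cancel g h5
  · rw [nx_not hB h, nx_not hB fun h' => h ((hB.smul g e ζ).1 h')]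

theorem main (hA : S_ACT) : S_NX := by
  intro N T hW hC hB
  refine ⟨fun e ζ h => ⟨(nx_spec hB h).1, (nx_spec hB h).2.1⟩, ?_, sh_iter hB, sub_iter hW hB, ?_,
    fin_iter hC hB, cell hB, meas hB, nx_smul hB⟩
  · rintro n e ω ⟨h1, h2⟩
    refine ⟨?_, sh_iter hB n e ω.2 h2⟩
    rw [hB.compl] at h1 ⊢
    intro h3
    exact h1 (cell_aux hB n e ω.2 h2 ω.1 h3).1
  · intro n e ζ h
    cases n with
    | zero => exact Or.inl rfl
    | succ n =>
      right
      rw [Function.iterate_succ_apply]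
      obtain ⟨h1, h2, h3⟩ := nx_spec hB h
      intro h4
      have h5 := sub_iter hW hB n (T.nx ζ e) ζ h3 h4
      rw [← h1] at h5
      exact ((hW.cross _ _).2 rfl).1 h5

end Pool.Agent.R685.PS.NXP
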