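import Pool.Agent.R685.PS.Stm

/-!
# MP_fee052_al: pieces PS-POS and PS-HPOS

A nonzero quasi-invariant measure on the boundary of the free group charges every cylinder, and
the critical exponent of a point of Outer space which has a Patterson-Sullivan density is positive.
-/

open MeasureTheory Filter Topology Set
open scoped ENNReal NNReal

namespace Pool.Agent.R685.PS.Pos

variable {N : ℕ}

/-- the cylinder of a letter -/
def Cl (a : Letter N) : Set (Bd N) := {ζ | ζ.1 0 = a}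

theorem meas_coord (n : ℕ) : Measurable fun ζ : Bd N => ζ.1 n :=
  (measurable_pi_apply n).comp (measurable_subtype_coe
    (p := fun ξ : ℕ → Letter N => ∀ n, ξ (n + 1) ≠ linv (ξ n)))

theorem meas_eq (n : ℕ) (a : Letter N) : MeasurableSet {ζ : Bd N | ζ.1 n = a} :=
  meas_coord n (measurableSet_singleton a)

theorem meas_Cl (a : Letter N) : MeasurableSet (Cl a) := meas_eq 0 a

theorem meas_cyl (ξ : Bd N) (n : ℕ) : MeasurableSet {ζ : Bd N | ∀ i < n, ζ.1 i = ξ.1 i} := by
  have h : {ζ : Bd N | ∀ i < n, ζ.1 i = ξ.1 i} = ⋂ i ∈ Finset.range n, {ζ : Bd N | ζ.1 i = ξ.1 i} := by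
    ext ζ
    simp
  rw [h]
  exact Finset.measurableSet_biInter _ fun i _ => meas_eq i _

theorem linv_ne (a : Letter N) : linv a ≠ a := by
  intro h
  have h2 := congrArg Prod.snd h
  simp [linv] at h2

theorem linv_inj {a b : Letter N} (h : linv a = linv b) : a = b := by
  rw [← linv_linv a, h, linv_linv]

theorem exists_other (hN : 2 ≤ N) (a : Letter N) : ∃ b : Letter N, b ≠ a ∧ b ≠ linv a := by
  have h0 : 0 < N := by omega
  have h1 : 1 < N := by omega
  by_cases ha : a.1 = ⟨0, h0⟩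
  · refine ⟨(⟨1, h1⟩, true), ?_, ?_⟩
    · intro h
      have h2 : (⟨1, h1⟩ : Fin N) = a.1 := congrArg Prod.fst h
      rw [ha] at h2
      simp at h2
    · intro h
      have h2 : (⟨1, h1⟩ : Fin N) = a.1 := congrArg Prod.fst h
      rw [ha] at h2
      simp at h2
  · refine ⟨(⟨0, h0⟩, true), ?_, ?_⟩
    · intro h
      exact ha (congrArg Prod.fst h).symm
    · intro h
      exact ha (congrArg Prod.fst h).symm

theorem mem_Cl_of_ne (hA : S_ACT) {a : Letter N} {ζ : Bd N} (h : ζ.1 0 ≠ linv a) :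
    lt a • ζ ∈ Cl a := by
  rw [(hA N).1 a ζ]
  unfold lmul
  rw [dif_neg h]
  rfl

theorem mem_Cl_iff (hA : S_ACT) {a : Letter N} {ζ : Bd N} :
    lt a • ζ ∈ Cl a ↔ ζ.1 0 ≠ linv a := by
  refine ⟨?_, mem_Cl_of_ne hA⟩
  intro h h0
  rw [(hA N).1 a ζ] at h
  unfold lmul at h
  rw [dif_pos h0] at h
  have h1 : ζ.1 1 = a := h
  have h2 := ζ.2 0
  apply h2
  rw [h0, linv_linv]
  exact h1

theorem coord_lmul_zero (a : Letter N) (ζ : Bd N) (h : ζ.1 0 ≠ linv a) :
    (lmul a ζ).1 0 = a := by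
  unfold lmul
  rw [dif_neg h]
  rfl

theorem coord_lmul_succ (a : Letter N) (ζ : Bd N) (h : ζ.1 0 ≠ linv a) (i : ℕ) :
    (lmul a ζ).1 (i + 1) = ζ.1 i := by
  unfold lmul
  rw [dif_neg h]
  rfl

theorem exists_letter (hA : S_ACT) {ν : Measure (Bd N)}
    (hq : ∀ (g : F N) (A : Set (Bd N)), MeasurableSet A → ν A = 0 → ν {ξ | g • ξ ∈ A} = 0) :
    ∀ (n : ℕ) (ξ : Bd N), ν {ζ | ∀ i < n + 1, ζ.1 i = ξ.1 i} = 0 → ∃ a : Letter N, ν (Cl a) = 0 := by
  intro n
  induction n with
  | zero =>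
    intro ξ h
    refine ⟨ξ.1 0, ?_⟩
    refine measure_mono_null ?_ h
    intro ζ hζ i hi
    have hi0 : i = 0 := by omega
    subst hi0
    exact hζ
  | succ n ih =>
    intro ξ h
    apply ih ξ.tail
    have h1 := hq (lt (ξ.1 0)) _ (meas_cyl ξ (n + 1 + 1)) h
    refine measure_mono_null ?_ h1
    intro ζ hζ
    have h0 : ζ.1 0 = ξ.1 1 := hζ 0 (by omega)
    have hne : ζ.1 0 ≠ linv (ξ.1 0) := by
      rw [h0]
      exact ξ.2 0
    show lt (ξ.1 0) • ζ ∈ {ζ : Bd N | ∀ i < n + 1 + 1, ζ.1 i = ξ.1 i}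
    rw [(hA N).1]
    intro i hi
    cases i with
    | zero => exact coord_lmul_zero _ _ hne
    | succ k =>
      rw [coord_lmul_succ _ _ hne]
      exact hζ k (by omega)

theorem spread (hA : S_ACT) {ν : Measure (Bd N)}
    (hq : ∀ (g : F N) (A : Set (Bd N)), MeasurableSet A → ν A = 0 → ν {ξ | g • ξ ∈ A} = 0)
    {a : Letter N} (ha : ν (Cl a) = 0) {c : Letter N} (hc : c ≠ linv a) : ν (Cl c) = 0 := by
  have h1 := hq (lt a) _ (meas_Cl a) ha
  refine measure_mono_null ?_ h1
  intro ζ hζ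
  have h0 : ζ.1 0 = c := hζ
  exact mem_Cl_of_ne hA (by rw [h0]; exact hc)

theorem main (hA : S_ACT) : S_POS := by
  intro N hN ν hν hq ξ n hzero
  apply hν
  have key : (∃ a : Letter N, ν (Cl a) = 0) → ν = 0 := by
    rintro ⟨a, ha⟩
    obtain ⟨b, hb1, hb2⟩ := exists_other hN a
    have hb : ν (Cl b) = 0 := spread hA hq ha hb2
    have hall : ∀ c : Letter N, ν (Cl c) = 0 := by
      intro c
      by_cases hc : c = linv a
      · refine spread hA hq hb ?_
        rw [hc]
        intro h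
        exact hb1 (linv_inj h).symm
      · exact spread hA hq ha hc
    rw [← Measure.measure_univ_eq_zero]
    have hU : (univ : Set (Bd N)) = ⋃ c : Letter N, Cl c := by
      ext ζ
      simp only [mem_univ, mem_iUnion, true_iff]
      exact ⟨ζ.1 0, rfl⟩
    rw [hU]
    exact measure_iUnion_null hall
  cases n with
  | zero =>
    rw [← Measure.measure_univ_eq_zero]
    convert hzero using 2
    ext ζ
    simp
  | succ n => exact key (exists_letter hA hq n ξ hzero)

theorem hpos (hA : S_ACT) : S_HPOS := by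
  intro N T ν hN hPS
  have hne : Nonempty T.V := T.isTree.1.nonempty
  obtain ⟨x₀⟩ := hne
  have hN0 : 0 < N := by omega
  have hinf : Infinite (F N) := by
    have : Nonempty (Fin N) := ⟨⟨0, hN0⟩⟩
    infer_instance
  have hdist : ∀ x y : T.V, 0 ≤ T.dist x y := by
    intro x y
    refine Real.iInf_nonneg fun p => ?_
    refine List.sum_nonneg ?_
    intro r hr
    obtain ⟨d, _, rfl⟩ := List.mem_map.1 hr
    exact (T.len_pos _ _ d.adj).le
  have hge : 0 ≤ T.critExp := by
    refine Real.sInf_nonneg fun s hs => ?_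
    by_contra hneg
    push Not at hneg
    have h1 := hs x₀ x₀
    have h2 := h1.tendsto_cofinite_zero
    have h3 : ∀ᶠ g : F N in cofinite, Real.exp (-s * T.dist x₀ (g • x₀)) < 1 :=
      h2.eventually (gt_mem_nhds one_pos)
    obtain ⟨g, hg⟩ := h3.exists
    have h4 : 0 ≤ -s * T.dist x₀ (g • x₀) := mul_nonneg (by linarith) (hdist _ _)
    have h5 := Real.one_le_exp h4
    linarith
  rcases hge.lt_or_eq with h | h
  · exact h
  exfalso
  have hconst : ∀ x y : T.V, ν x = ν y := by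
    intro x y
    rw [hPS.conformal x y, ← h]
    simp
  have hinv : ∀ (g : F N) (A : Set (Bd N)), MeasurableSet A →
      ν x₀ {ξ | g • ξ ∈ A} = ν x₀ A := by
    intro g A hAm
    have h1 := hPS.equivariant g x₀
    rw [hconst (g • x₀) x₀] at h1
    conv_rhs => rw [h1]
    rw [Measure.map_apply ((hA N).2.1 g) hAm]
    rfl
  have hfin : IsFiniteMeasure (ν x₀) := hPS.finite x₀
  have hpair : ∀ a : Letter N, ν x₀ (Cl a ∪ Cl (linv a)) = ν x₀ univ := by
    intro a
    have hdisj : Disjoint (Cl a) (Cl (linv a)) := by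
      rw [Set.disjoint_left]
      intro ζ h1 h2
      have h3 : ζ.1 0 = a := h1
      have h4 : ζ.1 0 = linv a := h2
      exact linv_ne a (h4.symm.trans h3)
    rw [measure_union hdisj (meas_Cl _), ← hinv (lt a) (Cl a) (meas_Cl a)]
    have h5 : {ξ : Bd N | lt a • ξ ∈ Cl a} = (Cl (linv a))ᶜ := by
      ext ζ
      exact mem_Cl_iff hA
    rw [h5, add_comm]
    exact measure_add_measure_compl (meas_Cl _)
  let a : Letter N := (⟨0, hN0⟩, true)
  obtain ⟨b, hb1, hb2⟩ := exists_other hN a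
  have hd2 : Disjoint (Cl a ∪ Cl (linv a)) (Cl b ∪ Cl (linv b)) := by
    rw [Set.disjoint_left]
    intro ζ h1 h2
    rcases h1 with h1 | h1 <;> rcases h2 with h2 | h2
    · exact hb1 (h2.symm.trans h1)
    · have h3 : linv b = a := Eq.trans (Eq.symm h2) h1
      apply hb2
      rw [← h3, linv_linv]
    · exact hb2 (Eq.trans (Eq.symm h2) h1)
    · have h3 : linv b = linv a := Eq.trans (Eq.symm h2) h1
      exact hb1 (linv_inj h3)
  have hle : ν x₀ univ + ν x₀ univ ≤ ν x₀ univ := by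
    calc ν x₀ univ + ν x₀ univ
        = ν x₀ (Cl a ∪ Cl (linv a)) + ν x₀ (Cl b ∪ Cl (linv b)) := by rw [hpair, hpair]
      _ = ν x₀ ((Cl a ∪ Cl (linv a)) ∪ (Cl b ∪ Cl (linv b))) := by
          rw [measure_union hd2 ((meas_Cl _).union (meas_Cl _))]
      _ ≤ ν x₀ univ := measure_mono (subset_univ _)
  have hfin2 : ν x₀ univ ≠ ∞ := measure_ne_top _ _
  have hz : ν x₀ univ = 0 := by
    have h6 : ν x₀ univ + ν x₀ univ ≤ ν x₀ univ + 0 := by rw [add_zero]; exact hle
    exact le_antisymm ((ENNReal.add_le_add_iff_left hfin2).1 h6) zero_le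
  exact hPS.nonzero x₀ (Measure.measure_univ_eq_zero.1 hz)

end Pool.Agent.R685.PS.Pos
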