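import Pool.Agent.R685.PS.Defs

/-!
# MP_fee052_al: statements of the pieces.  Proofs in `notes.md`.
-/

open MeasureTheory Filter Topology Set
open scoped ENNReal NNReal

namespace Pool.Agent.R685.PS

/-- PS-ACT: the action of `F_N` on infinite reduced words. -/
def S_ACT : Prop := ∀ N : ℕ,
  (∀ (a : Letter N) (ξ : Bd N), lt a • ξ = lmul a ξ) ∧
  (∀ g : F N, Measurable fun ξ : Bd N => g • ξ) ∧
  (∀ (g : F N) (ξ : Bd N), ∃ k m : ℕ, ∀ n, pre (g • ξ) (n + k) = g * pre ξ (n + m)) ∧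
  (∀ X : Set (F N), X.Finite → ∃ n0 : ℕ, ∀ (ξ : Bd N) (n : ℕ), n0 ≤ n → pre ξ n ∉ X) ∧
  (∀ (n : ℕ) (X : Set (F N)), MeasurableSet {ξ : Bd N | pre ξ n ∈ X})

/-- PS-WALLS: the half trees of a tree. -/
def S_WALLS : Prop := ∀ (N : ℕ) (T : CV N), T.Walls

/-- PS-TEL: telescoping along the path from `x` to `y`. -/
def S_TEL : Prop := ∀ (N : ℕ) (T : CV N), T.Walls → ∀ (x y : T.V) (φ : T.V → ℝ),
  ∑ᶠ e ∈ T.sep x y, (φ (T.tgt e) - φ (T.src e)) = φ y - φ x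

/-- PS-DIST: the length metric is the sum of the lengths of the separating edges. -/
def S_DIST : Prop := ∀ (N : ℕ) (T : CV N), T.Walls → ∀ x y : T.V,
  T.dist x y = ∑ᶠ e ∈ T.sep x y, T.ell e

/-- PS-COF: a minimal action of a finitely generated group is cocompact. -/
def S_COF : Prop := ∀ (N : ℕ) (T : CV N), T.Walls → T.Cofin

/-- PS-BDRY -/
def S_BDRY : Prop := ∀ (N : ℕ) (T : CV N), T.Walls → T.Cofin → T.Bdry

/-- PS-HORO -/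
def S_HORO : Prop := ∀ (N : ℕ) (T : CV N), T.Walls → T.Cofin → T.Bdry → T.Horo

/-- PS-POS: a nonzero quasi-invariant measure on `∂F_N` charges every cylinder. -/
def S_POS : Prop := ∀ (N : ℕ), 2 ≤ N → ∀ ν : Measure (Bd N), ν ≠ 0 →
  (∀ (g : F N) (A : Set (Bd N)), MeasurableSet A → ν A = 0 → ν {ξ | g • ξ ∈ A} = 0) →
  ∀ (ξ : Bd N) (n : ℕ), ν {ζ | ∀ i < n, ζ.1 i = ξ.1 i} ≠ 0

/-- PS-HPOS: the critical exponent is positive. -/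
def S_HPOS : Prop := ∀ (N : ℕ) (T : CV N) (ν : T.V → Measure (Bd N)), 2 ≤ N →
  T.IsPSDensity ν → 0 < T.critExp

/-- PS-DENS -/
def S_DENS : Prop := ∀ (N : ℕ) (T : CV N) (ν : T.V → Measure (Bd N)), 2 ≤ N →
  T.Walls → T.Cofin → T.Bdry → T.Horo → 0 < T.critExp → T.IsPSDensity ν → T.Dens T.critExp ν

/-- PS-CURR -/
def S_CURR : Prop := ∀ (N : ℕ) (T : CV N) (ν : T.V → Measure (Bd N)) (x : T.V) (c : ℝ≥0)
  (μ : Measure (Bd N × Bd N)), T.Walls → T.Cofin → T.Bdry → T.Horo → T.IsPSDensity ν →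
  μ = (c : ℝ≥0∞) • ((((ν x).prod (ν x)).restrict {p | p.1 ≠ p.2}).withDensity
      fun p => ENNReal.ofReal (Real.exp (2 * T.critExp * T.gromov x p.1 p.2))) →
  T.Curr ν μ

/-- PS-INV -/
def S_INV : Prop := ∀ (N : ℕ) (T : CV N) (h : ℝ) (ν : T.V → Measure (Bd N))
  (μ : Measure (Bd N × Bd N)), T.Walls → T.Cofin → T.Bdry → T.Dens h ν → T.Curr ν μ → T.Inv μ

/-- PS-MT: mass transport for two free actions with finitely many orbits. -/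
def S_MT : Prop := ∀ (G X Y : Type) [Group G] [MulAction G X] [MulAction G Y],
  (∀ (g : G) (x : X), g • x = x → g = 1) → (∀ (g : G) (y : Y), g • y = y → g = 1) →
  Finite (MulAction.orbitRel.Quotient G X) → Finite (MulAction.orbitRel.Quotient G Y) →
  ∀ Φ : X → Y → ℝ, (∀ (g : G) (x : X) (y : Y), Φ (g • x) (g • y) = Φ x y) →
  (∀ x : X, {y | Φ x y ≠ 0}.Finite) → (∀ y : Y, {x | Φ x y ≠ 0}.Finite) →
  ∑ᶠ q : MulAction.orbitRel.Quotient G X, ∑ᶠ y : Y, Φ q.out y =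
    ∑ᶠ q : MulAction.orbitRel.Quotient G Y, ∑ᶠ x : X, Φ x q.out

/-- Facts on the next edge map (piece PS-NX proves it). -/
structure NX {N : ℕ} (T : CV N) : Prop where
  step : ∀ (e : T.D) (ζ : Bd N), ζ ∈ T.Sh e →
    T.src (T.nx ζ e) = T.tgt e ∧ T.nx ζ e ≠ T.rev e
  cyl : ∀ (n : ℕ) (e : T.D) (ω : Bd N × Bd N), ω ∈ T.Cyl e → ω ∈ T.Cyl ((T.nx ω.2)^[n] e)
  sh : ∀ (n : ℕ) (e : T.D) (ζ : Bd N), ζ ∈ T.Sh e → ζ ∈ T.Sh ((T.nx ζ)^[n] e)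
  sub : ∀ (n : ℕ) (e : T.D) (ζ : Bd N), ζ ∈ T.Sh e → T.H ((T.nx ζ)^[n] e) ⊆ T.H e
  out : ∀ (n : ℕ) (e : T.D) (ζ : Bd N), ζ ∈ T.Sh e →
    n = 0 ∨ T.tgt e ∉ T.H ((T.nx ζ)^[n] e)
  fin : ∀ (n : ℕ) (e : T.D), ((fun ζ => (T.nx ζ)^[n] e) '' T.Sh e).Finite
  cell : ∀ (n : ℕ) (e : T.D) (ζ : Bd N), ζ ∈ T.Sh e →
    T.Sh e ∩ {ζ' | (T.nx ζ')^[n] e = (T.nx ζ)^[n] e} = T.Sh ((T.nx ζ)^[n] e)
  meas : ∀ (n : ℕ) (e d : T.D), MeasurableSet {ζ : Bd N | (T.nx ζ)^[n] e = d}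
  smul : ∀ (g : F N) (ζ : Bd N) (e : T.D), T.nx (g • ζ) (g • e) = g • T.nx ζ e

/-- PS-NX -/
def S_NX : Prop := ∀ (N : ℕ) (T : CV N), T.Walls → T.Cofin → T.Bdry → NX T

/-- PS-STAT: stationarity of the flow. -/
def S_STAT : Prop := ∀ (N : ℕ) (T : CV N) (μ : Measure (Bd N × Bd N)),
  T.Walls → T.Cofin → T.Bdry → NX T → T.Inv μ →
  ∀ c : T.D → Bd N × Bd N → ℝ, (∀ e, Measurable (c e)) →
  (∀ e, ∃ K : ℝ, ∀ ω ∈ T.Cyl e, |c e ω| ≤ K) →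
  (∀ (g : F N) (e : T.D) (ω : Bd N × Bd N), c (g • e) (g • ω.1, g • ω.2) = c e ω) →
  ∀ n : ℕ, T.flow μ (fun e ω => c ((T.nx ω.2)^[n] e) ω) = T.flow μ c

/-- PS-PHI: there is an equivariant map between the vertex sets. -/
def S_PHI : Prop := ∀ (N : ℕ) (T S : CV N), ∃ φ : T.V → S.V, ∀ (g : F N) (x : T.V),
  φ (g • x) = g • φ x

/-- Facts on `xng` (piece PS-XNG proves it). -/
structure XNG {N : ℕ} (S : CV N) : Prop where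
  add : ∀ (a b c : S.V) (ω : Bd N × Bd N), S.xng a c ω = S.xng a b ω + S.xng b c ω
  meas : ∀ a b : S.V, Measurable (S.xng a b)
  bdd : ∀ a b : S.V, ∃ K : ℝ, ∀ ω : Bd N × Bd N, |S.xng a b ω| ≤ K
  smul : ∀ (g : F N) (a b : S.V) (ω : Bd N × Bd N),
    S.xng (g • a) (g • b) (g • ω.1, g • ω.2) = S.xng a b ω

/-- PS-XNG -/
def S_XNG : Prop := ∀ (N : ℕ) (S : CV N), S.Walls → S.Cofin → S.Bdry → XNG S

/-- PS-BBT: bounded backtracking. -/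
def S_BBT : Prop := ∀ (N : ℕ) (T S : CV N) (φ : T.V → S.V),
  (∀ (g : F N) (x : T.V), φ (g • x) = g • φ x) →
  T.Walls → T.Cofin → T.Bdry → S.Walls → S.Cofin → S.Bdry →
  ∃ C : ℝ, 0 ≤ C ∧ ∀ (e f : T.D) (ω : Bd N × Bd N), ω ∈ T.Cyl e → ω.2 ∈ T.Sh f →
    T.tgt f ∈ T.H e → (T.tgt e = T.tgt f ∨ T.tgt e ∉ T.H f) →
    S.dist (φ (T.tgt e)) (φ (T.tgt f)) ≤ S.xng (φ (T.tgt e)) (φ (T.tgt f)) ω + C

/-- PS-UNF: unfolding of the intersection number with `S` over the flow of `T`. -/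
def S_UNF : Prop := ∀ (N : ℕ) (T S : CV N) (φ : T.V → S.V) (μ : Measure (Bd N × Bd N)),
  (∀ (g : F N) (x : T.V), φ (g • x) = g • φ x) →
  T.Walls → T.Cofin → T.Bdry → S.Walls → S.Cofin → S.Bdry → T.Inv μ →
  S.inter μ < ∞ ∧
  T.flow μ (fun f ω => S.xng (φ (T.src f)) (φ (T.tgt f)) ω) = 2 * (S.inter μ).toReal

/-- PS-GIBBS: Gibbs inequality for two finite measures and a finite partition of `A`. -/
def S_GIBBS : Prop := ∀ (Ω D : Type) [MeasurableSpace Ω] (ν ν' : Measure Ω)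
  [IsFiniteMeasure ν] [IsFiniteMeasure ν'] (A : Set Ω), MeasurableSet A →
  ∀ p : Ω → D, (p '' A).Finite → (∀ d : D, MeasurableSet (A ∩ {ω | p ω = d})) →
  (∀ ω ∈ A, 0 < ν'.real (A ∩ {ω' | p ω' = p ω})) →
  0 ≤ ∫ ω in A, (Real.log (ν.real (A ∩ {ω' | p ω' = p ω})) - Real.log (ν.real A)
    - Real.log (ν'.real (A ∩ {ω' | p ω' = p ω})) + Real.log (ν'.real A)) ∂ν

/-- PS-MAIN1: the Gibbs inequality on one cylinder. -/
def S_MAIN1 : Prop := ∀ (N : ℕ) (T S : CV N) (φ : T.V → S.V) (h h' : ℝ)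
  (ν : T.V → Measure (Bd N)) (ν' : S.V → Measure (Bd N)) (μ : Measure (Bd N × Bd N)),
  (∀ (g : F N) (x : T.V), φ (g • x) = g • φ x) →
  T.Walls → T.Cofin → T.Bdry → NX T → S.Walls → S.Cofin → S.Bdry →
  T.Dens h ν → T.Curr ν μ → T.Inv μ → S.Dens h' ν' → 0 ≤ h' →
  ∀ (n : ℕ) (e : T.D),
  0 ≤ ∫ ω in T.Cyl e,
    (- h * (∑ i ∈ Finset.range n, T.ell ((T.nx ω.2)^[i + 1] e))
      + h' * S.dist (φ (T.tgt e)) (φ (T.tgt ((T.nx ω.2)^[n] e)))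
      + (Real.log ((ν (T.tgt ((T.nx ω.2)^[n] e))).real (T.Sh ((T.nx ω.2)^[n] e)))
        - Real.log ((ν' (φ (T.tgt ((T.nx ω.2)^[n] e)))).real (T.Sh ((T.nx ω.2)^[n] e))))
      - (Real.log ((ν (T.tgt e)).real (T.Sh e))
        - Real.log ((ν' (φ (T.tgt e))).real (T.Sh e)))) ∂μ

/-- PS-MAIN2: the entropy inequality. -/
def S_MAIN2 : Prop := ∀ (N : ℕ) (T S : CV N) (h h' : ℝ)
  (ν : T.V → Measure (Bd N)) (ν' : S.V → Measure (Bd N)) (μ : Measure (Bd N × Bd N)),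
  T.Walls → T.Cofin → T.Bdry → NX T → S.Walls → S.Cofin → S.Bdry → XNG S →
  T.Dens h ν → T.Curr ν μ → T.Inv μ → S.Dens h' ν' → 0 ≤ h' →
  S.inter μ < ∞ ∧ h * (T.inter μ).toReal ≤ h' * (S.inter μ).toReal

/-- The final theorem. -/
def S_FINAL : Prop := ∀ (N : ℕ), 2 ≤ N → ∀ (T S : CV N) (μT μS : Measure (Bd N × Bd N)),
  T.IsPSCurrent μT → S.IsPSCurrent μS → 1 ≤ S.inter μT * T.inter μS

end Pool.Agent.R685.PS
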