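import Mathlib
import Pool.Agent.R685.PS.Stm

/-! # MP_fee052_al, PS-STAT: stationarity of the flow -/

open MeasureTheory Filter Topology Set
open scoped ENNReal NNReal

namespace Pool.Agent.R685.PS.Stat

variable {N : ℕ} {T : CV N}

/-- `f` follows `e` -/
def Fol (T : CV N) (e f : T.D) : Prop := T.src f = T.tgt e ∧ f ≠ T.rev e

theorem rev_rev (e : T.D) : T.rev (T.rev e) = e := rfl

theorem src_smul (g : F N) (e : T.D) : T.src (g • e) = g • T.src e := rfl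

theorem tgt_smul (g : F N) (e : T.D) : T.tgt (g • e) = g • T.tgt e := rfl

theorem rev_smul (g : F N) (e : T.D) : T.rev (g • e) = g • T.rev e := rfl

theorem free_D (g : F N) (e : T.D) (h : g • e = e) : g = 1 := by
  apply T.free g (T.src e)
  rw [← src_smul, h]

theorem fol_smul (g : F N) (e f : T.D) : Fol T (g • e) (g • f) ↔ Fol T e f := by
  unfold Fol
  rw [src_smul, tgt_smul, rev_smul, smul_left_cancel_iff, Ne, Ne, smul_left_cancel_iff]

theorem fin_src (hC : T.Cofin) (v : T.V) : {f : T.D | T.src f = v}.Finite := by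
  obtain ⟨s, hs, hs2⟩ := hC.edge
  have h1 : {f : T.D | T.src f = v} ⊆ ⋃ f ∈ s, {e : T.D | ∃ g : F N, e = g • f ∧ g • T.src f = v} := by
    intro e he
    obtain ⟨g, f, hf, rfl⟩ := hs2 e
    rw [mem_iUnion₂]
    exact ⟨f, hf, g, rfl, he⟩
  refine (hs.biUnion fun f _ => ?_).subset h1
  apply Set.Subsingleton.finite
  rintro e1 ⟨g1, rfl, h1⟩ e2 ⟨g2, rfl, h2⟩
  have h3 : (g2⁻¹ * g1) • T.src f = T.src f := by
    rw [mul_smul, h1, ← h2, inv_smul_smul]
  have h4 := T.free _ _ h3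
  rw [inv_mul_eq_one] at h4
  rw [h4]

theorem fin_tgt (hC : T.Cofin) (v : T.V) : {f : T.D | T.tgt f = v}.Finite := by
  refine (Set.Finite.image T.rev (fin_src hC v)).subset ?_
  intro e he
  exact ⟨T.rev e, he, rev_rev e⟩

theorem fin_fol (hC : T.Cofin) (e : T.D) : {f : T.D | Fol T e f}.Finite :=
  (fin_src hC (T.tgt e)).subset fun _ hf => hf.1

theorem fin_fol' (hC : T.Cofin) (f : T.D) : {e : T.D | Fol T e f}.Finite :=
  (fin_tgt hC (T.src f)).subset fun _ he => he.1.symm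

theorem fin_quot (hC : T.Cofin) : Finite (MulAction.orbitRel.Quotient (F N) T.D) := by
  obtain ⟨s, hs, hs2⟩ := hC.edge
  have : Finite s := hs
  refine Finite.of_surjective (fun f : s => (Quotient.mk _ f.1 :
    MulAction.orbitRel.Quotient (F N) T.D)) ?_
  intro q
  induction q using Quotient.inductionOn with
  | h e =>
    obtain ⟨g, f, hf, rfl⟩ := hs2 e
    refine ⟨⟨f, hf⟩, ?_⟩
    apply Quotient.sound
    show f ∈ MulAction.orbit (F N) (g • f)
    exact ⟨g⁻¹, by simp⟩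

theorem countable_D (hC : T.Cofin) : Countable T.D := by
  obtain ⟨s, hs, hs2⟩ := hC.edge
  have : Countable s := hs.countable
  have : Countable (F N) := inferInstance
  refine Function.Surjective.countable (f := fun p : F N × s => p.1 • (p.2 : T.D)) ?_
  intro e
  obtain ⟨g, f, hf, rfl⟩ := hs2 e
  exact ⟨(g, ⟨f, hf⟩), rfl⟩

/-- the shadow is the union of the shadows of the next edges -/
theorem sh_eq (hB : T.Bdry) (e : T.D) : T.Sh e = ⋃ f ∈ {f : T.D | Fol T e f}, T.Sh f := by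
  ext ξ
  rw [mem_iUnion₂]
  constructor
  · intro h
    obtain ⟨f, hf, -⟩ := hB.next e ξ h
    exact ⟨f, ⟨hf.1, hf.2.1⟩, hf.2.2⟩
  · rintro ⟨f, hf, h⟩
    exact hB.sub e f hf.1 hf.2 h

theorem sh_disj (hB : T.Bdry) {e f f' : T.D} (hf : Fol T e f) (hf' : Fol T e f') (h : f ≠ f') :
    Disjoint (T.Sh f) (T.Sh f') := by
  rw [Set.disjoint_left]
  intro ξ h1 h2
  have h3 := hB.sub e f hf.1 hf.2 h1
  exact h ((hB.next e ξ h3).unique ⟨hf.1, hf.2, h1⟩ ⟨hf'.1, hf'.2, h2⟩)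

theorem nx_eq (hB : T.Bdry) {e f : T.D} (hf : Fol T e f) {ζ : Bd N} (h : ζ ∈ T.Sh f) :
    T.nx ζ e = f := by
  classical
  have h1 : ∃ f : T.D, T.src f = T.tgt e ∧ f ≠ T.rev e ∧ ζ ∈ T.Sh f := ⟨f, hf.1, hf.2, h⟩
  unfold CV.nx
  rw [dif_pos h1]
  exact (hB.next e ζ (hB.sub e f hf.1 hf.2 h)).unique h1.choose_spec ⟨hf.1, hf.2, h⟩

theorem nx_out (hB : T.Bdry) {e : T.D} {ζ : Bd N} (h : ζ ∉ T.Sh e) : T.nx ζ e = e := by
  classical
  unfold CV.nx
  rw [dif_neg]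
  rintro ⟨f, h1, h2, h3⟩
  exact h (hB.sub e f h1 h2 h3)

theorem fol_rev {e f : T.D} : Fol T (T.rev f) (T.rev e) ↔ Fol T e f := by
  unfold Fol
  constructor
  · rintro ⟨h1, h2⟩
    refine ⟨h1.symm, ?_⟩
    rintro rfl
    exact h2 rfl
  · rintro ⟨h1, h2⟩
    refine ⟨h1.symm, ?_⟩
    intro h
    apply h2
    rw [h]
    rfl

variable {μ : Measure (Bd N × Bd N)}

/-- the mass -/
noncomputable def Phi (T : CV N) (μ : Measure (Bd N × Bd N)) (c : T.D → Bd N × Bd N → ℝ)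
    (e f : T.D) : ℝ :=
  open Classical in if Fol T e f then ∫ ω in T.Sh (T.rev e) ×ˢ T.Sh f, c f ω ∂μ else 0

theorem phi_zero {c : T.D → Bd N × Bd N → ℝ} {e f : T.D} (h : ¬ Fol T e f) :
    Phi T μ c e f = 0 := by
  classical
  unfold Phi
  rw [if_neg h]

theorem int_cyl (hB : T.Bdry) (hI : T.Inv μ) {c : T.D → Bd N × Bd N → ℝ}
    (hm : ∀ e, Measurable (c e)) (hb : ∀ e, ∃ K : ℝ, ∀ ω ∈ T.Cyl e, |c e ω| ≤ K) (e : T.D) :
    IntegrableOn (c e) (T.Cyl e) μ := by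
  obtain ⟨K, hK⟩ := hb e
  have hme : MeasurableSet (T.Cyl e) := (hB.meas _).prod (hB.meas _)
  refine Measure.integrableOn_of_bounded (M := K) (hI.fin e).ne (hm e).aestronglyMeasurable ?_
  refine (ae_restrict_iff' hme).mpr (Eventually.of_forall fun ω hω => ?_)
  rw [Real.norm_eq_abs]
  exact hK ω hω

theorem sub_cyl (hB : T.Bdry) {e f : T.D} (h : Fol T e f) :
    T.Sh (T.rev e) ×ˢ T.Sh f ⊆ T.Cyl f := by
  have h1 := fol_rev.mpr h
  exact Set.prod_mono (hB.sub _ _ h1.1 h1.2) subset_rfl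

theorem sum_left (hC : T.Cofin) (hB : T.Bdry) (hI : T.Inv μ) {c : T.D → Bd N × Bd N → ℝ}
    (hm : ∀ e, Measurable (c e)) (hb : ∀ e, ∃ K : ℝ, ∀ ω ∈ T.Cyl e, |c e ω| ≤ K) (e : T.D) :
    ∫ ω in T.Cyl e, c (T.nx ω.2 e) ω ∂μ = ∑ᶠ f, Phi T μ c e f := by
  classical
  let P : Finset T.D := (fin_fol hC e).toFinset
  have hP : ∀ f, f ∈ P ↔ Fol T e f := fun f => (fin_fol hC e).mem_toFinset
  have h1 : T.Cyl e = ⋃ f ∈ P, T.Sh (T.rev e) ×ˢ T.Sh f := by
    unfold CV.Cyl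
    rw [sh_eq hB e]
    ext ω
    simp only [mem_prod, mem_iUnion, exists_prop, hP]
    constructor
    · rintro ⟨h1, f, h2, h3⟩
      exact ⟨f, h2, h1, h3⟩
    · rintro ⟨f, h2, h1, h3⟩
      exact ⟨h1, f, h2, h3⟩
  have hcong : ∀ f ∈ P, EqOn (fun ω : Bd N × Bd N => c (T.nx ω.2 e) ω) (c f)
      (T.Sh (T.rev e) ×ˢ T.Sh f) := by
    intro f hf ω hω
    show c (T.nx ω.2 e) ω = c f ω
    rw [nx_eq hB ((hP f).1 hf) hω.2]
  have hms : ∀ f, MeasurableSet (T.Sh (T.rev e) ×ˢ T.Sh f) := fun f =>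
    (hB.meas _).prod (hB.meas _)
  have h2 := integral_biUnion_finset (μ := μ) (f := fun ω : Bd N × Bd N => c (T.nx ω.2 e) ω) P
    (s := fun f => T.Sh (T.rev e) ×ˢ T.Sh f) (fun f _ => hms f)
    (by
      intro f hf f' hf' hne
      have := sh_disj hB ((hP f).1 hf) ((hP f').1 hf') hne
      exact Set.disjoint_prod.mpr (Or.inr this))
    (fun f hf => by
      have h3 : IntegrableOn (c f) (T.Sh (T.rev e) ×ˢ T.Sh f) μ :=
        (int_cyl hB hI hm hb f).mono_set (sub_cyl hB ((hP f).1 hf))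
      exact h3.congr_fun (hcong f hf).symm (hms f))
  rw [← h1] at h2
  rw [h2]
  rw [finsum_eq_sum_of_support_subset (s := P)]
  · refine Finset.sum_congr rfl fun f hf => ?_
    unfold Phi
    rw [if_pos ((hP f).1 hf)]
    exact setIntegral_congr_fun (hms f) (hcong f hf)
  · intro f hf
    rw [Finset.mem_coe, hP]
    by_contra hcon
    exact hf (phi_zero hcon)

theorem sum_right (hC : T.Cofin) (hB : T.Bdry) (hI : T.Inv μ) {c : T.D → Bd N × Bd N → ℝ}
    (hm : ∀ e, Measurable (c e)) (hb : ∀ e, ∃ K : ℝ, ∀ ω ∈ T.Cyl e, |c e ω| ≤ K) (f : T.D) :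
    ∫ ω in T.Cyl f, c f ω ∂μ = ∑ᶠ e, Phi T μ c e f := by
  classical
  let P : Finset T.D := (fin_fol' hC f).toFinset
  have hP : ∀ e, e ∈ P ↔ Fol T e f := fun e => (fin_fol' hC f).mem_toFinset
  have h1 : T.Cyl f = ⋃ e ∈ P, T.Sh (T.rev e) ×ˢ T.Sh f := by
    unfold CV.Cyl
    rw [sh_eq hB (T.rev f)]
    ext ω
    simp only [mem_prod, mem_iUnion, exists_prop, hP, mem_ofPred_eq]
    constructor
    · rintro ⟨⟨e, h1, h2⟩, h3⟩
      refine ⟨T.rev e, ?_, h2, h3⟩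
      rw [← fol_rev]
      exact h1
    · rintro ⟨e, h1, h2, h3⟩
      exact ⟨⟨T.rev e, fol_rev.mpr h1, h2⟩, h3⟩
  have hms : ∀ e, MeasurableSet (T.Sh (T.rev e) ×ˢ T.Sh f) := fun e =>
    (hB.meas _).prod (hB.meas _)
  have h2 := integral_biUnion_finset (μ := μ) (f := c f) P
    (s := fun e => T.Sh (T.rev e) ×ˢ T.Sh f) (fun e _ => hms e)
    (by
      intro e he e' he' hne
      have h3 := fol_rev.mpr ((hP e).1 he)
      have h4 := fol_rev.mpr ((hP e').1 he')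
      have := sh_disj hB h3 h4 (fun h => hne (by rw [← rev_rev e, h, rev_rev]))
      exact Set.disjoint_prod.mpr (Or.inl this))
    (fun e he => (int_cyl hB hI hm hb f).mono_set (sub_cyl hB ((hP e).1 he)))
  rw [← h1] at h2
  rw [h2]
  rw [finsum_eq_sum_of_support_subset (s := P)]
  · refine Finset.sum_congr rfl fun e he => ?_
    unfold Phi
    rw [if_pos ((hP e).1 he)]
  · intro e he
    rw [Finset.mem_coe, hP]
    by_contra hcon
    exact he (phi_zero hcon)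

theorem phi_smul (hA : S_ACT) (hB : T.Bdry) (hI : T.Inv μ) {c : T.D → Bd N × Bd N → ℝ}
    (hm : ∀ e, Measurable (c e))
    (hinv : ∀ (g : F N) (e : T.D) (ω : Bd N × Bd N), c (g • e) (g • ω.1, g • ω.2) = c e ω)
    (g : F N) (e f : T.D) : Phi T μ c (g • e) (g • f) = Phi T μ c e f := by
  classical
  unfold Phi
  by_cases h : Fol T e f
  · rw [if_pos h, if_pos ((fol_smul g e f).mpr h)]
    have hg : Measurable fun p : Bd N × Bd N => (g • p.1, g • p.2) := by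
      have h1 := (hA N).2.1 g
      exact (h1.comp measurable_fst).prodMk (h1.comp measurable_snd)
    have hms : ∀ e f, MeasurableSet (T.Sh (T.rev e) ×ˢ T.Sh f) := fun e f =>
      (hB.meas _).prod (hB.meas _)
    have hsub := sub_cyl hB h
    have hsub' := sub_cyl hB ((fol_smul g e f).mpr h)
    have e1 : ∫ ω in T.Sh (T.rev (g • e)) ×ˢ T.Sh (g • f), c (g • f) ω ∂μ =
        ∫ ω in T.Sh (T.rev (g • e)) ×ˢ T.Sh (g • f), c (g • f) ω ∂(μ.restrict (T.Cyl (g • f))) := by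
      rw [Measure.restrict_restrict (hms _ _), inter_eq_left.mpr hsub']
    have e2 : ∫ ω in T.Sh (T.rev e) ×ˢ T.Sh f, c f ω ∂μ =
        ∫ ω in T.Sh (T.rev e) ×ˢ T.Sh f, c f ω ∂(μ.restrict (T.Cyl f)) := by
      rw [Measure.restrict_restrict (hms _ _), inter_eq_left.mpr hsub]
    rw [e1, e2, ← hI.inv g f, setIntegral_map (hms _ _) (hm _).aestronglyMeasurable hg.aemeasurable]
    have e3 : (fun p : Bd N × Bd N => (g • p.1, g • p.2)) ⁻¹'
        (T.Sh (T.rev (g • e)) ×ˢ T.Sh (g • f)) = T.Sh (T.rev e) ×ˢ T.Sh f := by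
      ext p
      rw [mem_preimage, mem_prod, mem_prod, rev_smul]
      show g • p.1 ∈ _ ∧ g • p.2 ∈ _ ↔ _
      rw [hB.smul, hB.smul]
    rw [e3]
    congr 1
    funext ω
    exact hinv g f ω
  · rw [if_neg h, if_neg (fun h' => h ((fol_smul g e f).mp h'))]

theorem one_step (hA : S_ACT) (hM : S_MT) (hC : T.Cofin) (hB : T.Bdry) (hI : T.Inv μ)
    {c : T.D → Bd N × Bd N → ℝ}
    (hm : ∀ e, Measurable (c e)) (hb : ∀ e, ∃ K : ℝ, ∀ ω ∈ T.Cyl e, |c e ω| ≤ K)
    (hinv : ∀ (g : F N) (e : T.D) (ω : Bd N × Bd N), c (g • e) (g • ω.1, g • ω.2) = c e ω) :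
    T.flow μ (fun e ω => c (T.nx ω.2 e) ω) = T.flow μ c := by
  unfold CV.flow
  simp only [sum_left hC hB hI hm hb, sum_right hC hB hI hm hb]
  refine hM (F N) T.D T.D free_D free_D (fin_quot hC) (fin_quot hC) (Phi T μ c)
    (phi_smul hA hB hI hm hinv) (fun e => ?_) (fun f => ?_)
  · refine (fin_fol hC e).subset fun f hf => ?_
    by_contra hcon
    exact hf (phi_zero hcon)
  · refine (fin_fol' hC f).subset fun e he => ?_
    by_contra hcon
    exact he (phi_zero hcon)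

theorem iter_meas (hC : T.Cofin) (hN : NX T) {c : T.D → Bd N × Bd N → ℝ}
    (hm : ∀ e, Measurable (c e)) (n : ℕ) (e : T.D) :
    Measurable fun ω : Bd N × Bd N => c ((T.nx ω.2)^[n] e) ω := by
  have : Countable T.D := countable_D hC
  let _ : MeasurableSpace T.D := ⊤
  have h1 : Measurable fun ζ : Bd N => (T.nx ζ)^[n] e := by
    refine measurable_to_countable' fun d => ?_
    exact hN.meas n e d
  have h2 : Measurable fun p : T.D × (Bd N × Bd N) => c p.1 p.2 :=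
    measurable_from_prod_countable_right hm
  exact h2.comp ((h1.comp measurable_snd).prodMk measurable_id)

theorem iter_bdd (hN : NX T) {c : T.D → Bd N × Bd N → ℝ}
    (hb : ∀ e, ∃ K : ℝ, ∀ ω ∈ T.Cyl e, |c e ω| ≤ K) (n : ℕ) (e : T.D) :
    ∃ K : ℝ, ∀ ω ∈ T.Cyl e, |c ((T.nx ω.2)^[n] e) ω| ≤ K := by
  choose K hK using hb
  obtain ⟨M, hM⟩ := ((hN.fin n e).image K).bddAbove
  refine ⟨M, fun ω hω => ?_⟩
  refine (hK _ ω (hN.cyl n e ω hω)).trans (hM ?_)
  exact ⟨_, ⟨ω.2, hω.2, rfl⟩, rfl⟩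

theorem iter_smul (hN : NX T) (n : ℕ) (g : F N) (ζ : Bd N) (e : T.D) :
    (T.nx (g • ζ))^[n] (g • e) = g • (T.nx ζ)^[n] e := by
  induction n generalizing e with
  | zero => rfl
  | succ n ih =>
    rw [Function.iterate_succ_apply, Function.iterate_succ_apply, hN.smul, ih]

theorem main (hA : S_ACT) (hM : S_MT) : S_STAT := by
  intro N T μ hW hC hB hN hI c hm hb hinv n
  induction n with
  | zero => rfl
  | succ n ih =>
    rw [← ih]
    exact one_step hA hM hC hB hI (c := fun e ω => c ((T.nx ω.2)^[n] e) ω)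
      (iter_meas hC hN hm n) (iter_bdd hN hb n) (fun g e ω => by
        show c ((T.nx (g • ω.2))^[n] (g • e)) (g • ω.1, g • ω.2) = _
        rw [iter_smul hN, hinv])

end Pool.Agent.R685.PS.Stat
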