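import Pool.Agent.R685.PS.Stm

/-!
# PS-TEL: telescoping along tree paths (helper699)
-/

set_option autoImplicit false

open MeasureTheory Filter Topology Set

namespace Pool.Agent.R685.PS.Tel

variable {N : ℕ} (T : CV N)

theorem src_rev (d : T.D) : T.src (T.rev d) = T.tgt d := rfl

theorem tgt_rev (d : T.D) : T.tgt (T.rev d) = T.src d := rfl

theorem main : S_TEL := by
  intro N T hW x y φ
  have hself : ∀ d : T.D, T.src d ∉ T.H d ∧ T.tgt d ∈ T.H d := fun d => (hW.cross d d).2 rfl
  have h := (SimpleGraph.reachable_iff_reflTransGen _ _).1 (T.isTree.connected.preconnected x y)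
  induction h with
  | refl =>
    have : T.sep x x = ∅ := by
      rw [Set.eq_empty_iff_forall_notMem]
      rintro e ⟨h1, h2⟩
      exact h1 h2
    rw [this, finsum_mem_empty, sub_self]
  | @tail b c _ hbc ih =>
    set d : T.D := ⟨(b, c), hbc⟩ with hd
    have hs : T.src d = b := rfl
    have ht : T.tgt d = c := rfl
    by_cases hx : x ∈ T.H d
    · have e1 : T.sep x b = insert (T.rev d) (T.sep x c) := by
        ext f
        rw [Set.mem_insert_iff]
        constructor
        · rintro ⟨h1, h2⟩
          by_cases hc : c ∈ T.H f
          · right; exact ⟨h1, hc⟩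
          · left
            exact (hW.cross (T.rev d) f).1 ⟨hc, h2⟩
        · rintro (h1 | ⟨h1, h2⟩)
          · subst h1
            refine ⟨?_, (hself (T.rev d)).2⟩
            rw [hW.compl]
            exact fun h => h hx
          · refine ⟨h1, ?_⟩
            by_contra hb
            have := (hW.cross d f).1 ⟨hb, h2⟩
            rw [this] at h1
            exact h1 hx
      have hnot : T.rev d ∉ T.sep x c := by
        rintro ⟨_, h2⟩
        rw [hW.compl] at h2
        exact h2 (hself d).2
      rw [e1, finsum_mem_insert _ hnot (hW.finite x c)] at ih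
      rw [src_rev, tgt_rev, hs, ht] at ih
      linarith
    · have e1 : T.sep x c = insert d (T.sep x b) := by
        ext f
        rw [Set.mem_insert_iff]
        constructor
        · rintro ⟨h1, h2⟩
          by_cases hb : b ∈ T.H f
          · right; exact ⟨h1, hb⟩
          · left
            exact (hW.cross d f).1 ⟨hb, h2⟩
        · rintro (h1 | ⟨h1, h2⟩)
          · subst h1
            exact ⟨hx, (hself _).2⟩
          · refine ⟨h1, ?_⟩
            by_contra hc
            have h3 := (hW.cross (T.rev d) f).1 ⟨hc, h2⟩
            rw [h3, hW.compl] at h1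
            exact h1 hx
      have hnot : d ∉ T.sep x b := by
        rintro ⟨_, h2⟩
        exact (hself d).1 h2
      rw [e1, finsum_mem_insert _ hnot (hW.finite x b), ih, hs, ht]
      ring

end Pool.Agent.R685.PS.Tel
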