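import Pool.Agent.R685.PS.Stm

/-!
# PS-WALLS: half trees of a tree (helper699)
-/

set_option autoImplicit false

open MeasureTheory Filter Topology Set

namespace Pool.Agent.R685.PS.WallsP

variable {N : ℕ} (T : CV N)

/-- the graph without the edge `e` -/
def GD (e : T.D) : SimpleGraph T.V := T.G.deleteEdges {s(T.src e, T.tgt e)}

theorem mem_H (e : T.D) (w : T.V) : w ∈ T.H e ↔ (GD T e).Reachable (T.tgt e) w := Iff.rfl

theorem GD_rev (e : T.D) : GD T (T.rev e) = GD T e := by
  unfold GD CV.src CV.tgt CV.rev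
  rw [Sym2.eq_swap]

theorem mem_H_rev (e : T.D) (w : T.V) : w ∈ T.H (T.rev e) ↔ (GD T e).Reachable (T.src e) w := by
  rw [mem_H, GD_rev]
  rfl

theorem adj_GD (e : T.D) (a b : T.V) : (GD T e).Adj a b ↔ T.G.Adj a b ∧ s(a, b) ≠ s(T.src e, T.tgt e) := by
  unfold GD
  rw [SimpleGraph.deleteEdges_adj, Set.mem_singleton_iff]

theorem src_not (e : T.D) : T.src e ∉ T.H e := by
  intro h
  have h1 := SimpleGraph.isAcyclic_iff_forall_adj_isBridge.1 T.isTree.isAcyclic e.2
  rw [SimpleGraph.isBridge_iff] at h1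
  exact h1 h.symm

theorem tgt_mem (e : T.D) : T.tgt e ∈ T.H e := SimpleGraph.Reachable.refl _

theorem dich (e : T.D) (w : T.V) : w ∈ T.H (T.rev e) ∨ w ∈ T.H e := by
  have h := (SimpleGraph.reachable_iff_reflTransGen _ _).1 (T.isTree.connected.preconnected (T.src e) w)
  induction h with
  | refl => left; exact SimpleGraph.Reachable.refl _
  | @tail b c _ hbc ih =>
    by_cases hs : s(b, c) = s(T.src e, T.tgt e)
    · rcases Sym2.eq_iff.1 hs with ⟨_, h2⟩ | ⟨_, h2⟩
      · right; rw [h2]; exact tgt_mem T e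
      · left; rw [h2]; exact SimpleGraph.Reachable.refl _
    · have hadj : (GD T e).Adj b c := (adj_GD T e b c).2 ⟨hbc, hs⟩
      rcases ih with h1 | h1
      · left
        rw [mem_H_rev] at h1 ⊢
        exact h1.trans hadj.reachable
      · right
        rw [mem_H] at h1 ⊢
        exact h1.trans hadj.reachable

theorem compl (e : T.D) (w : T.V) : w ∈ T.H (T.rev e) ↔ w ∉ T.H e := by
  constructor
  · intro h1 h2
    rw [mem_H_rev] at h1
    rw [mem_H] at h2
    exact src_not T e ((mem_H T e _).2 (h2.trans h1.symm))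
  · intro h
    rcases dich T e w with h1 | h1
    · exact h1
    · exact absurd h1 h

theorem side (e : T.D) (a b : T.V) (hab : (GD T e).Adj a b) (ha : a ∈ T.H e) : b ∈ T.H e := by
  rw [mem_H] at ha ⊢
  exact ha.trans hab.reachable

theorem cross' (f : T.D) (a b : T.V) (hab : T.G.Adj a b) (ha : a ∉ T.H f) (hb : b ∈ T.H f) :
    f = ⟨(a, b), hab⟩ := by
  by_cases hs : s(a, b) = s(T.src f, T.tgt f)
  · rcases Sym2.eq_iff.1 hs with ⟨h1, h2⟩ | ⟨h1, h2⟩
    · apply Subtype.ext
      exact (Prod.ext h1 h2).symm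
    · exfalso
      apply ha
      rw [h1]
      exact tgt_mem T f
  · exfalso
    apply ha
    have hadj : (GD T f).Adj b a := ((adj_GD T f a b).2 ⟨hab, hs⟩).symm
    exact side T f b a hadj hb

theorem cross (e f : T.D) : (T.src e ∉ T.H f ∧ T.tgt e ∈ T.H f) ↔ f = e := by
  constructor
  · rintro ⟨h1, h2⟩
    rw [cross' T f (T.src e) (T.tgt e) e.2 h1 h2]
    rfl
  · rintro rfl
    exact ⟨src_not T f, tgt_mem T f⟩

theorem convex (e f : T.D) (p q : T.V) (hp : p ∈ T.H f) (hq : q ∈ T.H f) (hpe : p ∉ T.H e)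
    (hqe : q ∈ T.H e) : T.src e ∈ T.H f ∧ T.tgt e ∈ T.H f := by
  rw [mem_H] at hp hq
  have hpq := (SimpleGraph.reachable_iff_reflTransGen _ _).1 (hp.symm.trans hq)
  have key : ∀ z, Relation.ReflTransGen (GD T f).Adj p z → z ∈ T.H e →
      T.src e ∈ T.H f ∧ T.tgt e ∈ T.H f := by
    intro z hz
    induction hz with
    | refl => intro h; exact absurd h hpe
    | @tail b c hpb hbc ih =>
      intro hc
      by_cases hb : b ∈ T.H e
      · exact ih hb
      · have hG : T.G.Adj b c := ((adj_GD T f b c).1 hbc).1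
        have he := cross' T e b c hG hb hc
        have hbf : b ∈ T.H f := by
          rw [mem_H]
          exact hp.trans ((SimpleGraph.reachable_iff_reflTransGen _ _).2 hpb)
        have hcf : c ∈ T.H f := side T f b c hbc hbf
        rw [he]
        exact ⟨hbf, hcf⟩
  exact key q hpq hqe

theorem finite (x y : T.V) : (T.sep x y).Finite := by
  have h := (SimpleGraph.reachable_iff_reflTransGen _ _).1 (T.isTree.connected.preconnected x y)
  induction h with
  | refl =>
    have : T.sep x x = ∅ := by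
      ext e
      simp only [CV.sep, Set.mem_ofPred_eq, Set.mem_empty_iff_false, iff_false, not_and]
      exact fun h1 h2 => h1 h2
    rw [this]
    exact Set.finite_empty
  | @tail b c _ hbc ih =>
    have hsub : T.sep x c ⊆ T.sep x b ∪ {⟨(b, c), hbc⟩} := by
      rintro f ⟨h1, h2⟩
      by_cases hb : b ∈ T.H f
      · left; exact ⟨h1, hb⟩
      · right
        exact cross' T f b c hbc hb h2
    exact (ih.union (Set.finite_singleton _)).subset hsub

theorem smul_mem (g : F N) (e : T.D) (w : T.V) (h : w ∈ T.H e) : g • w ∈ T.H (g • e) := by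
  rw [mem_H] at h
  have h1 := (SimpleGraph.reachable_iff_reflTransGen _ _).1 h
  induction h1 with
  | refl => exact SimpleGraph.Reachable.refl _
  | @tail b c hb hbc ih =>
    have hbr := (SimpleGraph.reachable_iff_reflTransGen (T.tgt e) b).2 hb
    apply side T (g • e) (g • b) (g • c) _ (ih hbr)
    rw [adj_GD] at hbc ⊢
    refine ⟨T.adj_smul g _ _ hbc.1, ?_⟩
    intro hs
    apply hbc.2
    have hs' : s(g • b, g • c) = s(g • T.src e, g • T.tgt e) := hs
    rcases Sym2.eq_iff.1 hs' with ⟨h1, h2⟩ | ⟨h1, h2⟩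
    · rw [MulAction.injective g h1, MulAction.injective g h2]
    · rw [MulAction.injective g h1, MulAction.injective g h2, Sym2.eq_swap]

theorem smul (g : F N) (e : T.D) (w : T.V) : g • w ∈ T.H (g • e) ↔ w ∈ T.H e := by
  constructor
  · intro h
    have := smul_mem T g⁻¹ (g • e) (g • w) h
    rwa [inv_smul_smul, inv_smul_smul] at this
  · exact smul_mem T g e w

theorem main : S_WALLS := fun _ T =>
  ⟨compl T, cross T, convex T, finite T, smul T⟩

end Pool.Agent.R685.PS.WallsP
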