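import Pool.Agent.R685.PS.Stm

/-!
# MP_fee052_al, pieces PS-XNG and PS-PHI
-/

open MeasureTheory Filter Topology Set
open scoped ENNReal NNReal

namespace Pool.Agent.R685.PS.XngP

variable {N : ℕ}

/-- the summand of `xng` -/
noncomputable def tm (S : CV N) (a b : S.V) (ω : Bd N × Bd N) (g : S.D) : ℝ :=
  S.ell g * (S.Cyl g).indicator 1 ω *
    ((S.H g).indicator (1 : S.V → ℝ) b - (S.H g).indicator (1 : S.V → ℝ) a)

theorem xng_eq (S : CV N) (a b : S.V) (ω : Bd N × Bd N) :
    S.xng a b ω = ∑ᶠ g : S.D, tm S a b ω g := rfl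

/-- the walls between `a` and `b` -/
def wb (S : CV N) (a b : S.V) : Set S.D := S.sep a b ∪ S.sep b a

theorem wb_finite (S : CV N) (hW : S.Walls) (a b : S.V) : (wb S a b).Finite :=
  (hW.finite a b).union (hW.finite b a)

theorem supp_sub (S : CV N) (a b : S.V) (ω : Bd N × Bd N) :
    Function.support (tm S a b ω) ⊆ wb S a b := by
  intro g hg
  by_contra hn
  apply hg
  have h1 : ¬ (a ∉ S.H g ∧ b ∈ S.H g) := fun h => hn (Or.inl h)
  have h2 : ¬ (b ∉ S.H g ∧ a ∈ S.H g) := fun h => hn (Or.inr h)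
  unfold tm
  by_cases ha : a ∈ S.H g
  · by_cases hb : b ∈ S.H g
    · simp [ha, hb]
    · exact absurd ⟨hb, ha⟩ h2
  · by_cases hb : b ∈ S.H g
    · exact absurd ⟨ha, hb⟩ h1
    · simp [ha, hb]

theorem xng_sum (S : CV N) (hW : S.Walls) (a b : S.V) (ω : Bd N × Bd N) :
    S.xng a b ω = ∑ g ∈ (wb_finite S hW a b).toFinset, tm S a b ω g := by
  rw [xng_eq]
  apply finsum_eq_sum_of_support_subset
  rw [Set.Finite.coe_toFinset]
  exact supp_sub S a b ω

theorem main : S_XNG := by
  intro N S hW hC hB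
  have hfin : ∀ (a b : S.V) (ω : Bd N × Bd N), (Function.support (tm S a b ω)).Finite :=
    fun a b ω => (wb_finite S hW a b).subset (supp_sub S a b ω)
  refine ⟨?_, ?_, ?_, ?_⟩
  · intro a b c ω
    rw [xng_eq, xng_eq, xng_eq, ← finsum_add_distrib (hfin a b ω) (hfin b c ω)]
    apply finsum_congr
    intro g
    unfold tm
    ring
  · intro a b
    have : S.xng a b = fun ω => ∑ g ∈ (wb_finite S hW a b).toFinset, tm S a b ω g := by
      funext ω
      exact xng_sum S hW a b ω
    rw [this]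
    apply Finset.measurable_sum
    intro g _
    have hm : MeasurableSet (S.Cyl g) := (hB.meas (S.rev g)).prod (hB.meas g)
    unfold tm
    apply Measurable.mul_const
    apply Measurable.const_mul
    exact measurable_one.indicator hm
  · intro a b
    refine ⟨∑ g ∈ (wb_finite S hW a b).toFinset, |S.ell g|, fun ω => ?_⟩
    rw [xng_sum S hW]
    apply (Finset.abs_sum_le_sum_abs _ _).trans
    apply Finset.sum_le_sum
    intro g _
    unfold tm
    rw [abs_mul, abs_mul]
    have h1 : |(S.Cyl g).indicator (1 : Bd N × Bd N → ℝ) ω| ≤ 1 := by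
      by_cases h : ω ∈ S.Cyl g
      · simp [h]
      · simp [h]
    have h2 : |(S.H g).indicator (1 : S.V → ℝ) b - (S.H g).indicator (1 : S.V → ℝ) a| ≤ 1 := by
      by_cases ha : a ∈ S.H g <;> by_cases hb : b ∈ S.H g <;> simp [ha, hb]
    have h3 : |S.ell g| * |(S.Cyl g).indicator (1 : Bd N × Bd N → ℝ) ω| ≤ |S.ell g| :=
      mul_le_of_le_one_right (abs_nonneg _) h1
    exact (mul_le_of_le_one_right (mul_nonneg (abs_nonneg _) (abs_nonneg _)) h2).trans h3
  · intro g a b ω
    rw [xng_eq, xng_eq]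
    have he := finsum_comp_equiv (f := tm S (g • a) (g • b) (g • ω.1, g • ω.2))
      (MulAction.toPerm g : Equiv.Perm S.D)
    rw [← he]
    apply finsum_congr
    intro e
    rw [MulAction.toPerm_apply]
    unfold tm
    have hrev : S.rev (g • e) = g • S.rev e := rfl
    have h1 : S.ell (g • e) = S.ell e := S.len_smul g _ _
    have h2 : ((g • ω.1, g • ω.2) ∈ S.Cyl (g • e)) ↔ (ω ∈ S.Cyl e) := by
      unfold CV.Cyl
      rw [Set.mem_prod, Set.mem_prod, hrev]
      simp only
      rw [hB.smul, hB.smul]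
    have h3 : ∀ w : S.V, g • w ∈ S.H (g • e) ↔ w ∈ S.H e := fun w => hW.smul g e w
    have h2' : (S.Cyl (g • e)).indicator (1 : Bd N × Bd N → ℝ) (g • ω.1, g • ω.2) =
        (S.Cyl e).indicator (1 : Bd N × Bd N → ℝ) ω := by
      by_cases h : ω ∈ S.Cyl e
      · rw [Set.indicator_of_mem h, Set.indicator_of_mem (h2.2 h)]; rfl
      · rw [Set.indicator_of_notMem h, Set.indicator_of_notMem (fun h' => h (h2.1 h'))]
    have h3' : ∀ w : S.V, (S.H (g • e)).indicator (1 : S.V → ℝ) (g • w) =
        (S.H e).indicator (1 : S.V → ℝ) w := by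
      intro w
      by_cases h : w ∈ S.H e
      · rw [Set.indicator_of_mem h, Set.indicator_of_mem ((h3 w).2 h)]; rfl
      · rw [Set.indicator_of_notMem h, Set.indicator_of_notMem (fun h' => h ((h3 w).1 h'))]
    rw [h1, h2', h3', h3']

theorem phi : S_PHI := by
  intro N T S
  have hne : Nonempty S.V := S.isTree.1.nonempty
  obtain ⟨s0⟩ := hne
  have hrep : ∀ x : T.V, ∃ g : F N,
      g • (Quotient.out (Quotient.mk (MulAction.orbitRel (F N) T.V) x)) = x := by
    intro x
    have h := Quotient.mk_out (s := MulAction.orbitRel (F N) T.V) x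
    have h' : (MulAction.orbitRel (F N) T.V).r
      (Quotient.out (Quotient.mk (MulAction.orbitRel (F N) T.V) x)) x := h
    have h2 := (MulAction.orbitRel (F N) T.V).symm' h'
    exact MulAction.orbitRel_apply.1 h2
  choose γ hγ using hrep
  refine ⟨fun x => γ x • s0, fun g x => ?_⟩
  have hq : Quotient.mk (MulAction.orbitRel (F N) T.V) (g • x) =
      Quotient.mk (MulAction.orbitRel (F N) T.V) x :=
    Quotient.sound (MulAction.orbitRel_apply.2 ⟨g, rfl⟩)
  have h1 := hγ (g • x)
  rw [hq] at h1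
  have h2 := hγ x
  set r := Quotient.out (Quotient.mk (MulAction.orbitRel (F N) T.V) x) with hr
  have h3 : γ (g • x) • r = (g * γ x) • r := by
    rw [mul_smul, h2, h1]
  have h4 : ((g * γ x)⁻¹ * γ (g • x)) • r = r := by
    rw [mul_smul, h3, inv_smul_smul]
  have h5 := T.free _ _ h4
  have h6 : γ (g • x) = g * γ x := by
    have := inv_mul_eq_one.1 h5
    exact this.symm
  change γ (g • x) • s0 = g • γ x • s0
  rw [h6, mul_smul]

end Pool.Agent.R685.PS.XngP
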