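import Pool.Agent.R685.PS.Final
import Pool.Agent.R685.PS.Act
import Pool.Agent.R685.PS.WallsP
import Pool.Agent.R685.PS.Tel
import Pool.Agent.R685.PS.DistP
import Pool.Agent.R685.PS.Cof
import Pool.Agent.R685.PS.BdryP
import Pool.Agent.R685.PS.HoroP
import Pool.Agent.R685.PS.Pos
import Pool.Agent.R685.PS.DensP
import Pool.Agent.R685.PS.CurrP
import Pool.Agent.R685.PS.MT
import Pool.Agent.R685.PS.NXP
import Pool.Agent.R685.PS.Stat
import Pool.Agent.R685.PS.XngP
import Pool.Agent.R685.PS.BBT
import Pool.Agent.R685.PS.Unf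
import Pool.Agent.R685.PS.Gibbs
import Pool.Agent.R685.PS.Main1

open MeasureTheory
open scoped ENNReal

namespace Pool.Agent.R685.PS.All

theorem all : ∀ (N : ℕ), 2 ≤ N → ∀ (T S : CV N) (μT μS : Measure (Bd N × Bd N)),
      T.IsPSCurrent μT → S.IsPSCurrent μS → 1 ≤ S.inter μT * T.inter μS ∧
      ENNReal.ofReal T.critExp ≤ ENNReal.ofReal S.critExp * S.inter μT := by
  have hA := Act.main
  have hW := WallsP.main
  have hT := Tel.main
  have hD := DistP.main
  have hC : S_COF := Cof.main
  have hB := BdryP.main hA hT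
  have hH := HoroP.main hD
  have hP := Pos.main hA
  have hHp := Pos.hpos hA
  have hDe := DensP.main hA hP
  have hCu := CurrP.main hA
  have hI : S_INV := CurrP.inv hA
  have hMT := MT.main
  have hNX := NXP.main hA
  have hSt := Stat.main hA hMT
  have hX := XngP.main
  have hPh := XngP.phi
  have hBb := BBT.main hT hD
  have hU := Unf.main hA hT hMT
  have hG := Gibbs.main
  have hM1 := Main1.main hG
  have hM2 := Main2.main hPh hBb hU hSt hM1
  exact Final.final0 hW hC hB hH hHp hDe hCu hI hNX hX hM2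

end Pool.Agent.R685.PS.All
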