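import Pool.Agent.R685.PS.Stm2
import Pool.Agent.R685.PS.Act

/-!
# MP_79396e_al, piece PSE-CONST (helper780): an invariant locally constant function on pairs of
distinct boundary points is constant
-/

open MeasureTheory Filter Topology Set

namespace Pool.Agent.R685.PS.ConstP

variable {N : ℕ}

theorem linv_inj {a b : Letter N} (h : linv a = linv b) : a = b := by
  rw [← linv_linv a, h, linv_linv]

theorem lt_inv (a : Letter N) : (lt a)⁻¹ = lt (linv a) :=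
  inv_eq_of_mul_eq_one_right (Act.lt_mul_linv a)

/-- No cancellation. -/
theorem pre_smul_coord (ζ : Bd N) (n : ℕ) : ∀ (η : Bd N),
    (∀ m, n = m + 1 → η.1 0 ≠ linv (ζ.1 m)) →
    ∀ i, (pre ζ n • η).1 i = if i < n then ζ.1 i else η.1 (i - n) := by
  induction n with
  | zero => intro η _ i; rw [Act.pre_zero, one_smul]; simp
  | succ n ih =>
    intro η h i
    rw [Act.pre_succ, mul_smul, Act.letter_smul]
    have h0 : η.1 0 ≠ linv (ζ.1 n) := h n rfl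
    rw [ih (lmul (ζ.1 n) η) (by
      intro m hm
      rw [Act.lmul_coord, if_neg h0, if_pos rfl, hm]
      exact ζ.2 m)]
    by_cases h1 : i < n
    · rw [if_pos h1, if_pos (by omega)]
    · rw [if_neg h1, Act.lmul_coord, if_neg h0]
      by_cases h2 : i = n
      · subst h2; simp
      · rw [if_neg (by omega), if_neg (by omega), Nat.sub_sub]

/-- Full cancellation. -/
theorem inv_pre_smul_coord (ξ : Bd N) (n : ℕ) : ∀ (η : Bd N),
    (∀ i < n, η.1 i = ξ.1 i) → ∀ i, ((pre ξ n)⁻¹ • η).1 i = η.1 (n + i) := by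
  induction n with
  | zero => intro η _ i; rw [Act.pre_zero, inv_one, one_smul, Nat.zero_add]
  | succ n ih =>
    intro η h i
    have ih' := ih η (fun i hi => h i (by omega))
    rw [Act.pre_succ, mul_inv_rev, mul_smul, lt_inv, Act.letter_smul, Act.lmul_coord, ih' 0,
      Nat.add_zero, h n (by omega), linv_linv, if_pos rfl, ih' (i + 1),
      show n + (i + 1) = n + 1 + i by omega]

/-- Partial cancellation. -/
theorem inv_pre_smul_zero (ξ : Bd N) (n : ℕ) : ∀ (η : Bd N),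
    (¬ ∀ i < n + 1, η.1 i = ξ.1 i) → ((pre ξ (n + 1))⁻¹ • η).1 0 = linv (ξ.1 n) := by
  induction n with
  | zero =>
    intro η h
    rw [Act.pre_succ, Act.pre_zero, one_mul, lt_inv, Act.letter_smul, Act.lmul_coord, linv_linv,
      if_neg, if_pos rfl]
    intro h0
    apply h
    intro i hi
    have : i = 0 := by omega
    rw [this, h0]
  | succ n ih =>
    intro η h
    rw [Act.pre_succ, mul_inv_rev, mul_smul, lt_inv, Act.letter_smul, Act.lmul_coord, linv_linv,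
      if_neg, if_pos rfl]
    by_cases h1 : ∀ i < n + 1, η.1 i = ξ.1 i
    · rw [inv_pre_smul_coord ξ (n + 1) η h1 0]
      intro h0
      apply h
      intro i hi
      rcases Nat.lt_or_ge i (n + 1) with h2 | h2
      · exact h1 i h2
      · have : i = n + 1 := by omega
        rw [this]
        exact h0
    · rw [ih η h1]
      exact (ξ.2 n).symm

theorem exists_letter (hN : 2 ≤ N) (a b : Letter N) : ∃ c : Letter N, c ≠ a ∧ c ≠ b := by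
  classical
  have h1 : ({a, b} : Finset (Letter N)).card < (Finset.univ : Finset (Letter N)).card := by
    refine lt_of_le_of_lt Finset.card_le_two ?_
    rw [Finset.card_univ, Fintype.card_prod, Fintype.card_fin, Fintype.card_bool]
    omega
  obtain ⟨c, -, hc⟩ := Finset.exists_mem_notMem_of_card_lt_card h1
  rw [Finset.mem_insert, Finset.mem_singleton, not_or] at hc
  exact ⟨c, hc⟩

/-- Transitivity on pairs of cylinders. -/
theorem trans (hN : 2 ≤ N) (ζ ξ' : Bd N) (n : ℕ) (hn : 0 < n) :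
    ∃ g : F N, (∀ η : Bd N, η ∉ Cn ξ' n → g • η ∈ Cn ζ n) ∧
      (∀ η : Bd N, η ∉ Cn ζ n → g⁻¹ • η ∈ Cn ξ' n) := by
  obtain ⟨k, rfl⟩ : ∃ k, n = k + 1 := ⟨n - 1, by omega⟩
  obtain ⟨c, hc1, hc2⟩ := exists_letter hN (ξ'.1 k) (linv (ζ.1 k))
  refine ⟨pre ζ (k + 1) * lt c * (pre ξ' (k + 1))⁻¹, ?_, ?_⟩
  · intro η hη i hi
    have h1 := inv_pre_smul_zero ξ' k η hη
    rw [mul_smul, mul_smul, Act.letter_smul, pre_smul_coord, if_pos hi]
    intro m hm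
    obtain rfl : m = k := by omega
    rw [Act.lmul_coord, h1, if_neg, if_pos rfl]
    · exact hc2
    · intro h; exact hc1 (linv_inj h).symm
  · intro η hη i hi
    have h1 := inv_pre_smul_zero ζ k η hη
    have e : (pre ζ (k + 1) * lt c * (pre ξ' (k + 1))⁻¹)⁻¹
        = pre ξ' (k + 1) * lt (linv c) * (pre ζ (k + 1))⁻¹ := by
      rw [mul_inv_rev, mul_inv_rev, inv_inv, lt_inv, mul_assoc]
    rw [e, mul_smul, mul_smul, Act.letter_smul, pre_smul_coord, if_pos hi]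
    intro m hm
    obtain rfl : m = k := by omega
    rw [Act.lmul_coord, h1, linv_linv, if_neg, if_pos rfl]
    · intro h; exact hc1 (linv_inj h)
    · intro h; exact hc2 h.symm

theorem Cn_mono (ξ : Bd N) {m n : ℕ} (h : m ≤ n) {η : Bd N} (hη : η ∈ Cn ξ n) : η ∈ Cn ξ m :=
  fun i hi => hη i (lt_of_lt_of_le hi h)

theorem Cn_self (ξ : Bd N) (n : ℕ) : ξ ∈ Cn ξ n := fun _ _ => rfl

theorem exists_notMem {ξ ζ : Bd N} (h : ξ ≠ ζ) : ∃ n, ζ ∉ Cn ξ n := by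
  by_contra hcon
  push Not at hcon
  apply h
  apply Subtype.ext
  funext i
  exact (hcon (i + 1) i (Nat.lt_succ_self i)).symm

theorem main (_hA : S_ACT) : S_CONST := by
  intro N T S φ h h' u hN hφ TW TB TH TH2 SW SB SH SH2 U
  obtain ⟨Θ, hΘ⟩ : ∃ Θ : T.V → Bd N → Bd N → ℝ, Θ = fun x ξ ζ =>
    2 * h' * S.gromov (φ x) ξ ζ - 2 * h * T.gromov x ξ ζ + u x ξ + u x ζ := ⟨_, rfl⟩
  have step1 : ∀ (x y : T.V) (ξ ζ : Bd N), ξ ≠ ζ → Θ x ξ ζ = Θ y ξ ζ := by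
    intro x y ξ ζ hne
    obtain ⟨e, he1, he2⟩ := TH2.sepb ξ ζ hne
    obtain ⟨k, hk1, hk2⟩ := SH2.sepb ξ ζ hne
    have a1 := SH.gro k ξ ζ (φ x) ((SB.compl k ξ).mpr hk1) hk2
    have a2 := SH.gro k ξ ζ (φ y) ((SB.compl k ξ).mpr hk1) hk2
    have a3 := SH.add ξ (φ x) (φ y) (S.tgt k)
    have a4 := SH.add ζ (φ x) (φ y) (S.tgt k)
    have b1 := TH.gro e ξ ζ x ((TB.compl e ξ).mpr he1) he2
    have b2 := TH.gro e ξ ζ y ((TB.compl e ξ).mpr he1) he2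
    have b3 := TH.add ξ x y (T.tgt e)
    have b4 := TH.add ζ x y (T.tgt e)
    have c1 := U.coc x y ξ
    have c2 := U.coc x y ζ
    simp only [hΘ]
    linear_combination h' * a1 - h' * a2 + h' * a3 + h' * a4 - h * b1 + h * b2 - h * b3 - h * b4
      + c1 + c2
  have step2 : ∀ (g : F N) (x : T.V) (ξ ζ : Bd N), ξ ≠ ζ →
      Θ (g • x) (g • ξ) (g • ζ) = Θ x ξ ζ := by
    intro g x ξ ζ hne
    simp only [hΘ]
    rw [hφ, SH2.gsmul g (φ x) ξ ζ hne, TH2.gsmul g x ξ ζ hne, U.equi, U.equi]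
  have hinv : ∀ (g : F N) (x : T.V) (ξ ζ : Bd N), ξ ≠ ζ →
      Θ x (g • ξ) (g • ζ) = Θ x ξ ζ := by
    intro g x ξ ζ hne
    rw [step1 x (g • x) (g • ξ) (g • ζ) (fun h => hne (smul_left_cancel g h)), step2 g x ξ ζ hne]
  have step3 : ∀ (x : T.V) (ξ ζ : Bd N), ξ ≠ ζ → ∃ n, ∀ ξ' ∈ Cn ξ n, ∀ ζ' ∈ Cn ζ n,
      Θ x ξ' ζ' = Θ x ξ ζ := by
    intro x ξ ζ hne
    obtain ⟨e, he1, he2⟩ := TH2.sepb ξ ζ hne
    obtain ⟨k, hk1, hk2⟩ := SH2.sepb ξ ζ hne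
    obtain ⟨n1, h1⟩ := TH2.opn e
    obtain ⟨n2, h2⟩ := SH2.opn k
    obtain ⟨n3, h3⟩ := TH2.bloc ξ x (T.tgt e)
    obtain ⟨n4, h4⟩ := TH2.bloc ζ x (T.tgt e)
    obtain ⟨n5, h5⟩ := SH2.bloc ξ (φ x) (S.tgt k)
    obtain ⟨n6, h6⟩ := SH2.bloc ζ (φ x) (S.tgt k)
    obtain ⟨n7, h7⟩ := U.loc x ξ
    obtain ⟨n8, h8⟩ := U.loc x ζ
    refine ⟨n1 + n2 + n3 + n4 + n5 + n6 + n7 + n8, fun ξ' hξ ζ' hζ => ?_⟩
    have t1 : ξ' ∉ T.Sh e := fun hh => he1 ((h1 ξ ξ' (Cn_mono ξ (by omega) hξ)).mp hh)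
    have t2 : ζ' ∈ T.Sh e := (h1 ζ ζ' (Cn_mono ζ (by omega) hζ)).mpr he2
    have t3 : ξ' ∉ S.Sh k := fun hh => hk1 ((h2 ξ ξ' (Cn_mono ξ (by omega) hξ)).mp hh)
    have t4 : ζ' ∈ S.Sh k := (h2 ζ ζ' (Cn_mono ζ (by omega) hζ)).mpr hk2
    have a1 := SH.gro k ξ ζ (φ x) ((SB.compl k ξ).mpr hk1) hk2
    have a2 := SH.gro k ξ' ζ' (φ x) ((SB.compl k ξ').mpr t3) t4
    have b1 := TH.gro e ξ ζ x ((TB.compl e ξ).mpr he1) he2
    have b2 := TH.gro e ξ' ζ' x ((TB.compl e ξ').mpr t1) t2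
    have c3 := h3 ξ' (Cn_mono ξ (by omega) hξ)
    have c4 := h4 ζ' (Cn_mono ζ (by omega) hζ)
    have c5 := h5 ξ' (Cn_mono ξ (by omega) hξ)
    have c6 := h6 ζ' (Cn_mono ζ (by omega) hζ)
    have c7 := h7 ξ' (Cn_mono ξ (by omega) hξ)
    have c8 := h8 ζ' (Cn_mono ζ (by omega) hζ)
    simp only [hΘ]
    linear_combination h' * a2 - h' * a1 - h * b2 + h * b1 - h * c3 - h * c4 + h' * c5 + h' * c6
      + c7 + c8
  have step4 : ∀ (x : T.V) (ξ ζ ξ' ζ' : Bd N), ξ ≠ ζ → ξ' ≠ ζ' → Θ x ξ ζ = Θ x ξ' ζ' := by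
    intro x ξ ζ ξ' ζ' hne hne'
    obtain ⟨n1, h1⟩ := step3 x ξ ζ hne
    obtain ⟨n2, h2⟩ := step3 x ξ' ζ' hne'
    obtain ⟨n3, h3⟩ := exists_notMem hne'
    obtain ⟨n4, h4⟩ := exists_notMem hne.symm
    obtain ⟨g, hg1, hg2⟩ := trans hN ζ ξ' (n1 + n2 + n3 + n4 + 1) (by omega)
    have k3 : ζ' ∉ Cn ξ' (n1 + n2 + n3 + n4 + 1) := fun hh => h3 (Cn_mono ξ' (by omega) hh)
    have k4 : ξ ∉ Cn ζ (n1 + n2 + n3 + n4 + 1) := fun hh => h4 (Cn_mono ζ (by omega) hh)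
    have m1 := hg1 ζ' k3
    have m2 := hg2 ξ k4
    have m3 : g⁻¹ • ξ ≠ ζ' := fun hh => k3 (hh ▸ m2)
    have e1 := h1 ξ (Cn_self ξ n1) (g • ζ') (Cn_mono ζ (by omega) m1)
    have e2 := hinv g x (g⁻¹ • ξ) ζ' m3
    rw [smul_inv_smul] at e2
    have e3 := h2 (g⁻¹ • ξ) (Cn_mono ξ' (by omega) m2) ζ' (Cn_self ζ' n2)
    rw [← e1, e2, e3]
  by_cases hex : ∃ (x : T.V) (ξ ζ : Bd N), ξ ≠ ζ
  · obtain ⟨x0, ξ0, ζ0, hne0⟩ := hex
    refine ⟨Θ x0 ξ0 ζ0, fun x ξ ζ hne => ?_⟩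
    have e : 2 * h' * S.gromov (φ x) ξ ζ - 2 * h * T.gromov x ξ ζ + u x ξ + u x ζ = Θ x ξ ζ := by
      simp only [hΘ]
    rw [e, step1 x x0 ξ ζ hne, step4 x0 ξ ζ ξ0 ζ0 hne hne0]
  · push Not at hex
    exact ⟨0, fun x ξ ζ hne => absurd (hex x ξ ζ) hne⟩

end Pool.Agent.R685.PS.ConstP
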