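import Pool.Agent.R685.PS.Stm2

/-! PSE-CRT: the cross ratio of a tree. -/

open MeasureTheory Filter Topology Set
open scoped ENNReal NNReal

namespace Pool.Agent.R685.PS.Crt

open CV Classical

variable {N : ℕ} {T : CV N}

theorem ell_rev (g : T.D) : T.ell (T.rev g) = T.ell g := T.len_symm _ _

theorem ell_pos (g : T.D) : 0 < T.ell g := T.len_pos _ _ g.2

theorem fsum (A : Finset T.D) (p : T.D → Prop) (h : ∀ e, p e → e ∈ A) :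
    ∑ᶠ e ∈ {e : T.D | p e}, T.ell e = ∑ e ∈ A, T.ell e * (if p e then 1 else 0) := by
  have hfin : {e : T.D | p e}.Finite := A.finite_toSet.subset h
  rw [finsum_mem_eq_finite_toFinset_sum _ hfin]
  rw [← Finset.sum_subset (s₁ := hfin.toFinset) (s₂ := A)]
  · refine Finset.sum_congr rfl fun e he => ?_
    rw [Set.Finite.mem_toFinset] at he
    have he' : p e := he
    rw [if_pos he', mul_one]
  · intro e he
    rw [Set.Finite.mem_toFinset] at he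
    exact h e he
  · intro e _ he
    rw [Set.Finite.mem_toFinset] at he
    have he' : ¬ p e := he
    rw [if_neg he', mul_zero]

theorem W_eq (W : T.Walls) (B : T.Bdry) (x : T.V) (a b c d : Bd N) (A : Finset T.D)
    (hA : ∀ e ∈ A, x ∉ T.H e) (h1 : ∀ e, x ∉ T.H e → c ∈ T.Sh e → d ∈ T.Sh e → e ∈ A)
    (h2 : ∀ e, x ∉ T.H e → a ∈ T.Sh e → b ∈ T.Sh e → e ∈ A) :
    T.W a b c d = (∑ e ∈ A, T.ell e *
        (if a ∉ T.Sh e ∧ b ∉ T.Sh e ∧ c ∈ T.Sh e ∧ d ∈ T.Sh e then 1 else 0)) +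
      ∑ e ∈ A, T.ell e *
        (if a ∈ T.Sh e ∧ b ∈ T.Sh e ∧ c ∉ T.Sh e ∧ d ∉ T.Sh e then 1 else 0) := by
  have e1 : ∑ᶠ e ∈ {e : T.D | x ∉ T.H e ∧ a ∉ T.Sh e ∧ b ∉ T.Sh e ∧ c ∈ T.Sh e ∧ d ∈ T.Sh e}, T.ell e
      = ∑ e ∈ A, T.ell e *
        (if a ∉ T.Sh e ∧ b ∉ T.Sh e ∧ c ∈ T.Sh e ∧ d ∈ T.Sh e then 1 else 0) := by
    rw [fsum A _ (fun e he => h1 e he.1 he.2.2.2.1 he.2.2.2.2)]
    refine Finset.sum_congr rfl fun e he => ?_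
    simp only [hA e he, not_false_eq_true, true_and]
  have e2 : ∑ᶠ e ∈ {e : T.D | x ∉ T.H e ∧ a ∈ T.Sh e ∧ b ∈ T.Sh e ∧ c ∉ T.Sh e ∧ d ∉ T.Sh e}, T.ell e
      = ∑ e ∈ A, T.ell e *
        (if a ∈ T.Sh e ∧ b ∈ T.Sh e ∧ c ∉ T.Sh e ∧ d ∉ T.Sh e then 1 else 0) := by
    rw [fsum A _ (fun e he => h2 e he.1 he.2.1 he.2.2.1)]
    refine Finset.sum_congr rfl fun e he => ?_
    simp only [hA e he, not_false_eq_true, true_and]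
  have hc : ∀ (e : T.D) (ξ : Bd N), ξ ∈ T.Sh (T.rev e) ↔ ξ ∉ T.Sh e := B.compl
  have e3 : ∑ᶠ e ∈ {e : T.D | x ∈ T.H e ∧ a ∉ T.Sh e ∧ b ∉ T.Sh e ∧ c ∈ T.Sh e ∧ d ∈ T.Sh e}, T.ell e
      = ∑ᶠ e ∈ {e : T.D | x ∉ T.H e ∧ a ∈ T.Sh e ∧ b ∈ T.Sh e ∧ c ∉ T.Sh e ∧ d ∉ T.Sh e}, T.ell e := by
    refine finsum_mem_eq_of_bijOn (fun g => T.rev g) ⟨?_, ?_, ?_⟩ ?_
    · intro e he
      refine ⟨?_, (hc e a).2 he.2.1, (hc e b).2 he.2.2.1, ?_, ?_⟩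
      · intro h
        exact (W.compl e x).1 h he.1
      · intro h
        exact (hc e c).1 h he.2.2.2.1
      · intro h
        exact (hc e d).1 h he.2.2.2.2
    · intro g _ h _ heq
      exact congrArg T.rev heq
    · intro e he
      refine ⟨T.rev e, ⟨(W.compl e x).2 he.1, ?_, ?_, (hc e c).2 he.2.2.2.1, (hc e d).2 he.2.2.2.2⟩, rfl⟩
      · intro h
        exact (hc e a).1 h he.2.1
      · intro h
        exact (hc e b).1 h he.2.2.1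
    · intro g _
      exact (ell_rev g).symm
  have hu : {e : T.D | a ∉ T.Sh e ∧ b ∉ T.Sh e ∧ c ∈ T.Sh e ∧ d ∈ T.Sh e} =
      {e : T.D | x ∉ T.H e ∧ a ∉ T.Sh e ∧ b ∉ T.Sh e ∧ c ∈ T.Sh e ∧ d ∈ T.Sh e} ∪
      {e : T.D | x ∈ T.H e ∧ a ∉ T.Sh e ∧ b ∉ T.Sh e ∧ c ∈ T.Sh e ∧ d ∈ T.Sh e} := by
    ext e
    simp only [Set.mem_ofPred_eq, Set.mem_union]
    tauto
  have f1 : {e : T.D | x ∉ T.H e ∧ a ∉ T.Sh e ∧ b ∉ T.Sh e ∧ c ∈ T.Sh e ∧ d ∈ T.Sh e}.Finite :=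
    A.finite_toSet.subset fun e he => h1 e he.1 he.2.2.2.1 he.2.2.2.2
  have f2 : {e : T.D | x ∉ T.H e ∧ a ∈ T.Sh e ∧ b ∈ T.Sh e ∧ c ∉ T.Sh e ∧ d ∉ T.Sh e}.Finite :=
    A.finite_toSet.subset fun e he => h2 e he.1 he.2.1 he.2.2.1
  have f3 : {e : T.D | x ∈ T.H e ∧ a ∉ T.Sh e ∧ b ∉ T.Sh e ∧ c ∈ T.Sh e ∧ d ∈ T.Sh e}.Finite := by
    refine (f2.image (fun g => T.rev g)).subset ?_
    intro e he
    refine ⟨T.rev e, ⟨?_, (hc e a).2 he.2.1, (hc e b).2 he.2.2.1, ?_, ?_⟩, rfl⟩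
    · intro h
      exact (W.compl e x).1 h he.1
    · intro h
      exact (hc e c).1 h he.2.2.2.1
    · intro h
      exact (hc e d).1 h he.2.2.2.2
  have hdisj : Disjoint
      {e : T.D | x ∉ T.H e ∧ a ∉ T.Sh e ∧ b ∉ T.Sh e ∧ c ∈ T.Sh e ∧ d ∈ T.Sh e}
      {e : T.D | x ∈ T.H e ∧ a ∉ T.Sh e ∧ b ∉ T.Sh e ∧ c ∈ T.Sh e ∧ d ∈ T.Sh e} := by
    rw [Set.disjoint_left]
    intro e he he'
    exact he.1 he'.1
  unfold CV.W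
  rw [hu, finsum_mem_union hdisj f1 f3, e3, e1, e2]

theorem nest (W : T.Walls) (B : T.Bdry) (x : T.V) (e f : T.D) (a b c d : Bd N)
    (ha : a ∉ T.Sh e) (ha' : a ∉ T.Sh f) (hb : b ∈ T.Sh e) (hb' : b ∉ T.Sh f)
    (hc : c ∉ T.Sh e) (hc' : c ∈ T.Sh f) (hd : d ∈ T.Sh e) (hd' : d ∈ T.Sh f) : False := by
  have r1 := (B.compl e a).2 ha
  have r2 := (B.compl f a).2 ha'
  have r3 := (B.compl f b).2 hb'
  have r4 := (B.compl e c).2 hc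
  obtain ⟨m, hm⟩ := ((((r1 x).and (r2 x)).and ((hb x).and (r3 x))).and
    (((r4 x).and (hc' x)).and ((hd x).and (hd' x)))).exists
  have c1 := (W.convex e f (pre c m • x) (pre d m • x) hm.2.1.2 hm.2.2.2
    ((W.compl e _).1 hm.2.1.1) hm.2.2.1).1
  have c2 := (W.convex e (T.rev f) (pre a m • x) (pre b m • x) hm.1.1.2 hm.1.2.2
    ((W.compl e _).1 hm.1.1.1) hm.1.2.1).1
  exact (W.compl f _).1 c2 c1

theorem main : S_CRT := by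
  intro N T W C B Ho H2 x ξ η ζ θ hd
  obtain ⟨d1, d2, d3, d4, d5, d6⟩ := hd
  obtain ⟨F1, G1⟩ := H2.grof x ξ η d1
  obtain ⟨F2, G2⟩ := H2.grof x ζ θ d6
  obtain ⟨F3, G3⟩ := H2.grof x ξ ζ d2
  obtain ⟨F4, G4⟩ := H2.grof x η θ d5
  set A : Finset T.D := (F1.toFinset ∪ F2.toFinset) ∪ (F3.toFinset ∪ F4.toFinset) with hAd
  have hmem : ∀ e, e ∈ A ↔ ((x ∉ T.H e ∧ ξ ∈ T.Sh e ∧ η ∈ T.Sh e) ∨
      (x ∉ T.H e ∧ ζ ∈ T.Sh e ∧ θ ∈ T.Sh e)) ∨ ((x ∉ T.H e ∧ ξ ∈ T.Sh e ∧ ζ ∈ T.Sh e) ∨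
      (x ∉ T.H e ∧ η ∈ T.Sh e ∧ θ ∈ T.Sh e)) := by
    intro e
    rw [hAd, Finset.mem_union, Finset.mem_union, Finset.mem_union, Set.Finite.mem_toFinset,
      Set.Finite.mem_toFinset, Set.Finite.mem_toFinset, Set.Finite.mem_toFinset]
    rfl
  have hA : ∀ e ∈ A, x ∉ T.H e := by
    intro e he
    rcases (hmem e).1 he with (h | h) | (h | h) <;> exact h.1
  have m1 : ∀ e, x ∉ T.H e → ξ ∈ T.Sh e → η ∈ T.Sh e → e ∈ A := fun e h1 h2 h3 =>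
    (hmem e).2 (Or.inl (Or.inl ⟨h1, h2, h3⟩))
  have m2 : ∀ e, x ∉ T.H e → ζ ∈ T.Sh e → θ ∈ T.Sh e → e ∈ A := fun e h1 h2 h3 =>
    (hmem e).2 (Or.inl (Or.inr ⟨h1, h2, h3⟩))
  have m3 : ∀ e, x ∉ T.H e → ξ ∈ T.Sh e → ζ ∈ T.Sh e → e ∈ A := fun e h1 h2 h3 =>
    (hmem e).2 (Or.inr (Or.inl ⟨h1, h2, h3⟩))
  have m4 : ∀ e, x ∉ T.H e → η ∈ T.Sh e → θ ∈ T.Sh e → e ∈ A := fun e h1 h2 h3 =>
    (hmem e).2 (Or.inr (Or.inr ⟨h1, h2, h3⟩))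
  rw [fsum A _ (fun e he => m1 e he.1 he.2.1 he.2.2)] at G1
  rw [fsum A _ (fun e he => m2 e he.1 he.2.1 he.2.2)] at G2
  rw [fsum A _ (fun e he => m3 e he.1 he.2.1 he.2.2)] at G3
  rw [fsum A _ (fun e he => m4 e he.1 he.2.1 he.2.2)] at G4
  have P := W_eq W B x ξ η ζ θ A hA m2 m1
  have M := W_eq W B x ξ ζ η θ A hA m4 m3
  have hCR : T.gromov x ξ η + T.gromov x ζ θ - T.gromov x ξ ζ - T.gromov x η θ =
      T.W ξ η ζ θ - T.W ξ ζ η θ := by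
    rw [G1, G2, G3, G4, P, M, ← Finset.sum_add_distrib, ← Finset.sum_sub_distrib,
      ← Finset.sum_sub_distrib, ← Finset.sum_add_distrib, ← Finset.sum_add_distrib,
      ← Finset.sum_sub_distrib]
    refine Finset.sum_congr rfl fun e he => ?_
    have hx := hA e he
    by_cases a1 : ξ ∈ T.Sh e <;> by_cases a2 : η ∈ T.Sh e <;> by_cases a3 : ζ ∈ T.Sh e <;>
      by_cases a4 : θ ∈ T.Sh e <;> simp [hx, a1, a2, a3, a4]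
  have nonneg : ∀ a b c d : Bd N, 0 ≤ T.W a b c d := by
    intro a b c d
    unfold CV.W
    exact finsum_nonneg fun e => finsum_nonneg fun _ => (ell_pos e).le
  rw [hCR]
  by_cases hM : ∃ f : T.D, ξ ∉ T.Sh f ∧ ζ ∉ T.Sh f ∧ η ∈ T.Sh f ∧ θ ∈ T.Sh f
  · obtain ⟨f, f1, f2, f3, f4⟩ := hM
    have hP : T.W ξ η ζ θ = 0 := by
      unfold CV.W
      have : {e : T.D | ξ ∉ T.Sh e ∧ η ∉ T.Sh e ∧ ζ ∈ T.Sh e ∧ θ ∈ T.Sh e} = ∅ := by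
        rw [Set.eq_empty_iff_forall_notMem]
        intro e he
        exact nest W B x e f ξ ζ η θ he.1 f1 he.2.2.1 f2 he.2.1 f3 he.2.2.2 f4
      rw [this, finsum_mem_empty]
    rw [hP, zero_sub, max_eq_left]
    exact neg_nonpos.2 (nonneg _ _ _ _)
  · have hM0 : T.W ξ ζ η θ = 0 := by
      unfold CV.W
      have : {e : T.D | ξ ∉ T.Sh e ∧ ζ ∉ T.Sh e ∧ η ∈ T.Sh e ∧ θ ∈ T.Sh e} = ∅ := by
        rw [Set.eq_empty_iff_forall_notMem]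
        intro e he
        exact hM ⟨e, he⟩
      rw [this, finsum_mem_empty]
    rw [hM0, sub_zero, max_eq_right (nonneg _ _ _ _)]

end Pool.Agent.R685.PS.Crt
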