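import Mathlib
import Pool.Agent.R685.PS.Stm

/-!
# MP_fee052_al, piece PS-UNF: unfolding the intersection number
-/

open MeasureTheory Filter Topology Set
open scoped ENNReal NNReal

namespace Pool.Agent.R685.PS.Unf

variable {N : ℕ}

theorem freeD (T : CV N) (g : F N) (e : T.D) (h : g • e = e) : g = 1 :=
  T.free g (T.src e) (congrArg T.src h)

theorem ell_smul (T : CV N) (g : F N) (e : T.D) : T.ell (g • e) = T.ell e := T.len_smul g _ _

theorem finQ (T : CV N) (hC : T.Cofin) : Finite (MulAction.orbitRel.Quotient (F N) T.D) := by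
  obtain ⟨s, hs, hcov⟩ := hC.edge
  have := hs.to_subtype
  refine Finite.of_surjective
    (fun x : s => (Quotient.mk'' x.1 : MulAction.orbitRel.Quotient (F N) T.D)) ?_
  intro q
  induction q using Quotient.inductionOn' with
  | h e =>
    obtain ⟨g, f, hf, he⟩ := hcov e
    refine ⟨⟨f, hf⟩, ?_⟩
    apply Quotient.sound'
    refine ⟨g⁻¹, ?_⟩
    simp only
    rw [← he, inv_smul_smul]

/-- indicator of the half tree -/
noncomputable def chi (S : CV N) (k : S.D) (v : S.V) : ℝ := (S.H k).indicator (1 : S.V → ℝ) v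

theorem chi_smul (S : CV N) (hW : S.Walls) (g : F N) (k : S.D) (v : S.V) :
    chi S (g • k) (g • v) = chi S k v := by
  unfold chi
  by_cases h : v ∈ S.H k
  · rw [indicator_of_mem h, indicator_of_mem ((hW.smul g k v).2 h)]
    rfl
  · rw [indicator_of_notMem h, indicator_of_notMem (fun h' => h ((hW.smul g k v).1 h'))]

/-- signed crossing of the image of `f` with `k` -/
noncomputable def eps (T S : CV N) (φ : T.V → S.V) (k : S.D) (f : T.D) : ℝ :=
  chi S k (φ (T.tgt f)) - chi S k (φ (T.src f))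

theorem eps_smul (T S : CV N) (φ : T.V → S.V) (hφ : ∀ (g : F N) (x : T.V), φ (g • x) = g • φ x)
    (hW : S.Walls) (g : F N) (k : S.D) (f : T.D) :
    eps T S φ (g • k) (g • f) = eps T S φ k f := by
  unfold eps
  have h1 : T.tgt (g • f) = g • T.tgt f := rfl
  have h2 : T.src (g • f) = g • T.src f := rfl
  rw [h1, h2, hφ, hφ, chi_smul S hW, chi_smul S hW]

theorem chi_ne (S : CV N) (k : S.D) (a b : S.V) (h : chi S k b - chi S k a ≠ 0) :
    k ∈ S.sep a b ∪ S.sep b a := by
  unfold chi at h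
  by_cases ha : a ∈ S.H k
  · by_cases hb : b ∈ S.H k
    · rw [indicator_of_mem ha, indicator_of_mem hb] at h
      simp at h
    · exact Or.inr ⟨hb, ha⟩
  · by_cases hb : b ∈ S.H k
    · exact Or.inl ⟨ha, hb⟩
    · rw [indicator_of_notMem ha, indicator_of_notMem hb] at h
      simp at h

theorem finK (T S : CV N) (φ : T.V → S.V) (hW : S.Walls) (f : T.D) :
    {k | eps T S φ k f ≠ 0}.Finite :=
  ((hW.finite _ _).union (hW.finite _ _)).subset (fun k hk => chi_ne S k _ _ hk)

theorem finF (T S : CV N) (φ : T.V → S.V) (hφ : ∀ (g : F N) (x : T.V), φ (g • x) = g • φ x)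
    (hW : S.Walls) (hC : T.Cofin) (k : S.D) : {f | eps T S φ k f ≠ 0}.Finite := by
  obtain ⟨s, hs, hcov⟩ := hC.edge
  have h1 : (⋃ f0 ∈ s, ⋃ k' ∈ {k' | eps T S φ k' f0 ≠ 0},
      {f : T.D | ∃ g : F N, g • f0 = f ∧ g • k' = k}).Finite := by
    refine hs.biUnion (fun f0 _ => (finK T S φ hW f0).biUnion (fun k' _ => ?_))
    apply Set.Subsingleton.finite
    rintro f ⟨g, hg, hk⟩ f' ⟨g', hg', hk'⟩
    have : g'⁻¹ * g = 1 := by
      apply freeD S _ k'
      rw [mul_smul, hk, ← hk', inv_smul_smul]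
    have hgg : g = g' := by
      rw [inv_mul_eq_one] at this
      exact this.symm
    rw [← hg, ← hg', hgg]
  refine h1.subset ?_
  intro f hf
  obtain ⟨g, f0, hf0, he⟩ := hcov f
  simp only [mem_iUnion]
  refine ⟨f0, hf0, g⁻¹ • k, ?_, g, he, smul_inv_smul g k⟩
  have : eps T S φ (g • (g⁻¹ • k)) (g • f0) = eps T S φ (g⁻¹ • k) f0 :=
    eps_smul T S φ hφ hW g _ _
  rw [smul_inv_smul, he] at this
  change eps T S φ (g⁻¹ • k) f0 ≠ 0
  rw [← this]
  exact hf

theorem stabSh (T : CV N) (hB : T.Bdry) (e : T.D) (x : T.V) :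
    ∃ n0 : ℕ, ∀ (ξ : Bd N) (n : ℕ), n0 ≤ n → (pre ξ n • x ∈ T.H e ↔ ξ ∈ T.Sh e) := by
  obtain ⟨n0, hn0⟩ := hB.stab e x
  refine ⟨n0, fun ξ n hn => ?_⟩
  constructor
  · intro h
    have h0 := (hn0 ξ n hn).1 h
    apply hB.base e x ξ
    apply Eventually.frequently
    filter_upwards [eventually_ge_atTop n0] with m hm
    exact (hn0 ξ m hm).2 h0
  · intro h
    obtain ⟨m, hm, hm2⟩ := ((h x).and (eventually_ge_atTop n0)).exists
    exact (hn0 ξ n hn).2 ((hn0 ξ m hm2).1 hm)

/-- the pointwise identity -/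
theorem pointwise (hT : S_TEL) (T S : CV N) (φ : T.V → S.V)
    (hφ : ∀ (g : F N) (x : T.V), φ (g • x) = g • φ x)
    (hW : T.Walls) (hB : T.Bdry) (hB' : S.Bdry) (k : S.D)
    (E : Finset T.D) (hE : ∀ f, eps T S φ k f ≠ 0 → f ∈ E)
    (ω : Bd N × Bd N) (hω : ω ∈ S.Cyl k) :
    ∑ f ∈ E, (T.Cyl f).indicator (1 : Bd N × Bd N → ℝ) ω * eps T S φ k f = 1 := by
  classical
  obtain ⟨ξ, ζ⟩ := ω
  obtain ⟨hξ, hζ⟩ := hω
  simp only at hξ hζ
  rw [hB'.compl] at hξ
  obtain ⟨o⟩ := T.isTree.1.nonempty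
  choose n0 hn0 using fun f => stabSh T hB f o
  obtain ⟨n1, hn1⟩ := stabSh S hB' k (φ o)
  set m := max (E.sup n0) n1 with hm
  have hmf : ∀ f ∈ E, n0 f ≤ m := fun f hf => le_trans (Finset.le_sup hf) (le_max_left _ _)
  set x := pre ξ m • o with hx
  set y := pre ζ m • o with hy
  have htel := hT N T hW x y (fun v => chi S k (φ v))
  have hy1 : chi S k (φ y) = 1 := by
    unfold chi
    rw [hy, hφ, indicator_of_mem ((hn1 ζ m (le_max_right _ _)).2 hζ)]
    rfl
  have hx1 : chi S k (φ x) = 0 := by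
    unfold chi
    rw [hx, hφ, indicator_of_notMem (fun h => hξ ((hn1 ξ m (le_max_right _ _)).1 h))]
  rw [hy1, hx1, sub_zero, finsum_mem_def] at htel
  rw [finsum_eq_sum_of_support_subset (s := E)] at htel
  · rw [← htel]
    apply Finset.sum_congr rfl
    intro f hf
    have key : f ∈ T.sep x y ↔ (ξ, ζ) ∈ T.Cyl f := by
      unfold CV.sep CV.Cyl
      simp only [Set.mem_prod]
      change (x ∉ T.H f ∧ y ∈ T.H f) ↔ _
      rw [hx, hy, hn0 f ξ m (hmf f hf), hn0 f ζ m (hmf f hf), hB.compl]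
    by_cases h : f ∈ T.sep x y
    · rw [indicator_of_mem h, indicator_of_mem (key.1 h)]
      simp [eps]
    · rw [indicator_of_notMem h, indicator_of_notMem (fun h' => h (key.2 h'))]
      simp
  · intro f hf
    rw [Function.mem_support] at hf
    have hf2 : f ∈ T.sep x y := Set.mem_of_indicator_ne_zero hf
    rw [indicator_of_mem hf2] at hf
    exact hE f hf

theorem measCyl (T : CV N) (hB : T.Bdry) (e : T.D) : MeasurableSet (T.Cyl e) :=
  (hB.meas _).prod (hB.meas _)

theorem cylFin (hT : S_TEL) (T S : CV N) (φ : T.V → S.V)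
    (hφ : ∀ (g : F N) (x : T.V), φ (g • x) = g • φ x)
    (hW : T.Walls) (hC : T.Cofin) (hB : T.Bdry) (hW' : S.Walls) (hB' : S.Bdry)
    (μ : Measure (Bd N × Bd N)) (hI : T.Inv μ) (k : S.D) : μ (S.Cyl k) < ∞ := by
  classical
  set E := (finF T S φ hφ hW' hC k).toFinset with hE
  have hsub : S.Cyl k ⊆ ⋃ f ∈ E, T.Cyl f := by
    intro ω hω
    have h := pointwise hT T S φ hφ hW hB hB' k E (fun f hf => by rw [hE]; simpa using hf) ω hω
    by_contra hcon
    simp only [mem_iUnion, not_exists] at hcon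
    rw [Finset.sum_eq_zero] at h
    · exact zero_ne_one h
    · intro f hf
      rw [indicator_of_notMem (hcon f hf), zero_mul]
  refine lt_of_le_of_lt (measure_mono hsub) ?_
  refine lt_of_le_of_lt (measure_biUnion_finset_le E _) ?_
  exact ENNReal.sum_lt_top.2 (fun f _ => hI.fin f)

theorem integ_ind (μ : Measure (Bd N × Bd N)) (A B : Set (Bd N × Bd N)) (hA : MeasurableSet A)
    (c : ℝ) : ∫ ω in B, A.indicator (1 : Bd N × Bd N → ℝ) ω * c ∂μ = c * μ.real (A ∩ B) := by
  rw [integral_mul_const, integral_indicator_one hA, measureReal_restrict_apply hA, mul_comm]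

theorem integrable_ind (μ : Measure (Bd N × Bd N)) (A B : Set (Bd N × Bd N)) (hA : MeasurableSet A)
    (hB : μ B < ∞) (c : ℝ) :
    Integrable (fun ω => A.indicator (1 : Bd N × Bd N → ℝ) ω * c) (μ.restrict B) := by
  apply Integrable.mul_const
  have : IsFiniteMeasure (μ.restrict B) := ⟨by rw [Measure.restrict_apply_univ]; exact hB⟩
  exact (integrable_const (1 : ℝ)).indicator hA

theorem main (hA : S_ACT) (hT : S_TEL) (hM : S_MT) : S_UNF := by
  intro N T S φ μ hφ hW hC hB hW' hC' hB' hI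
  classical
  have hfin := cylFin hT T S φ hφ hW hC hB hW' hB' μ hI
  have hQT := finQ T hC
  have hQS := finQ S hC'
  -- the kernel
  set Φ : T.D → S.D → ℝ := fun f k => S.ell k * eps T S φ k f * μ.real (S.Cyl k ∩ T.Cyl f) with hΦ
  have hact : ∀ g : F N, Measurable fun p : Bd N × Bd N => (g • p.1, g • p.2) := by
    intro g
    have := (hA N).2.1 g
    exact (this.comp measurable_fst).prodMk (this.comp measurable_snd)
  have hcyl : ∀ (g : F N) (k : S.D), (fun p : Bd N × Bd N => (g • p.1, g • p.2)) ⁻¹' S.Cyl (g • k)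
      = S.Cyl k := by
    intro g k
    ext ⟨ξ, ζ⟩
    simp only [mem_preimage, CV.Cyl, mem_prod]
    rw [hB'.smul g k ζ]
    have : g • ξ ∈ S.Sh (S.rev (g • k)) ↔ ξ ∈ S.Sh (S.rev k) := hB'.smul g (S.rev k) ξ
    rw [this]
  have hequi : ∀ (g : F N) (f : T.D) (k : S.D), Φ (g • f) (g • k) = Φ f k := by
    intro g f k
    simp only [hΦ]
    rw [ell_smul, eps_smul T S φ hφ hW']
    congr 1
    have h1 := hI.inv g f
    have h2 : (μ.restrict (T.Cyl (g • f))) (S.Cyl (g • k)) = (μ.restrict (T.Cyl f)) (S.Cyl k) := by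
      rw [← h1, Measure.map_apply (hact g) (measCyl S hB' _), hcyl]
    rw [Measure.restrict_apply (measCyl S hB' _), Measure.restrict_apply (measCyl S hB' _)] at h2
    unfold Measure.real
    rw [h2]
  have hMT := hM (F N) T.D S.D (fun g x h => freeD T g x h) (fun g x h => freeD S g x h) hQT hQS Φ
    hequi
    (fun f => (finK T S φ hW' f).subset (fun k hk => by
      simp only [hΦ, mem_ofPred_eq] at hk ⊢
      intro h0
      apply hk
      rw [h0]; ring))
    (fun k => (finF T S φ hφ hW' hC k).subset (fun f hf => by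
      simp only [hΦ, mem_ofPred_eq] at hf ⊢
      intro h0
      apply hf
      rw [h0]; ring))
  -- left side
  have hL : ∀ f : T.D, ∫ ω in T.Cyl f, S.xng (φ (T.src f)) (φ (T.tgt f)) ω ∂μ = ∑ᶠ k, Φ f k := by
    intro f
    set K := (finK T S φ hW' f).toFinset with hK
    have hmem : ∀ k, k ∈ K ↔ eps T S φ k f ≠ 0 := by
      intro k; rw [hK]; simp
    have h1 : ∀ ω : Bd N × Bd N, S.xng (φ (T.src f)) (φ (T.tgt f)) ω
        = ∑ k ∈ K, (S.Cyl k).indicator (1 : Bd N × Bd N → ℝ) ω * (S.ell k * eps T S φ k f) := by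
      intro ω
      unfold CV.xng
      rw [finsum_eq_sum_of_support_subset (s := K)]
      · apply Finset.sum_congr rfl
        intro k _
        unfold eps chi
        ring
      · intro k hk
        rw [Function.mem_support] at hk
        simp only [Finset.mem_coe, hmem]
        intro h0
        apply hk
        unfold eps chi at h0
        rw [h0, mul_zero]
    simp_rw [h1]
    rw [integral_finsetSum]
    · rw [finsum_eq_sum_of_support_subset (s := K)]
      · apply Finset.sum_congr rfl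
        intro k _
        rw [integ_ind μ _ _ (measCyl S hB' k)]
      · intro k hk
        rw [Function.mem_support] at hk
        simp only [Finset.mem_coe, hmem]
        intro h0
        apply hk
        simp only [hΦ]
        rw [h0]; ring
    · intro k _
      exact integrable_ind μ _ _ (measCyl S hB' k) (hI.fin f) _
  -- right side
  have hR : ∀ k : S.D, ∑ᶠ f, Φ f k = S.ell k * μ.real (S.Cyl k) := by
    intro k
    set E := (finF T S φ hφ hW' hC k).toFinset with hE
    have hmem : ∀ f, f ∈ E ↔ eps T S φ k f ≠ 0 := by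
      intro f; rw [hE]; simp
    rw [finsum_eq_sum_of_support_subset (s := E)]
    · have h1 : ∫ ω in S.Cyl k, ∑ f ∈ E,
          (T.Cyl f).indicator (1 : Bd N × Bd N → ℝ) ω * eps T S φ k f ∂μ = μ.real (S.Cyl k) := by
        rw [setIntegral_congr_fun (g := fun _ => (1 : ℝ)) (measCyl S hB' k)]
        · simp [Measure.real]
        · intro ω hω
          exact pointwise hT T S φ hφ hW hB hB' k E (fun f hf => (hmem f).2 hf) ω hω
      rw [integral_finsetSum] at h1
      · rw [← h1, Finset.mul_sum]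
        apply Finset.sum_congr rfl
        intro f _
        rw [integ_ind μ _ _ (measCyl T hB f), inter_comm]
        simp only [hΦ]
        ring
      · intro f _
        exact integrable_ind μ _ _ (measCyl T hB f) (hfin k) _
    · intro f hf
      rw [Function.mem_support] at hf
      simp only [Finset.mem_coe, hmem]
      intro h0
      apply hf
      simp only [hΦ]
      rw [h0]; ring
  have hell : ∀ k : S.D, 0 < S.ell k := fun k => S.len_pos _ _ k.2
  have hflow : T.flow μ (fun f ω => S.xng (φ (T.src f)) (φ (T.tgt f)) ω)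
      = ∑ᶠ q : MulAction.orbitRel.Quotient (F N) S.D, S.ell q.out * μ.real (S.Cyl q.out) := by
    unfold CV.flow
    simp_rw [hL]
    rw [hMT]
    simp_rw [hR]
  have hfq := Fintype.ofFinite (MulAction.orbitRel.Quotient (F N) S.D)
  have hterm : ∀ q : MulAction.orbitRel.Quotient (F N) S.D,
      ENNReal.ofReal (S.ell q.out) * μ (S.Cyl q.out) ≠ ∞ :=
    fun q => ENNReal.mul_ne_top ENNReal.ofReal_ne_top (hfin _).ne
  refine ⟨?_, ?_⟩
  · unfold CV.inter
    rw [tsum_fintype]
    apply ENNReal.div_lt_top _ (by norm_num)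
    exact (ENNReal.sum_lt_top.2 (fun q _ => lt_top_iff_ne_top.2 (hterm q))).ne
  · rw [hflow, finsum_eq_sum_of_fintype]
    unfold CV.inter
    rw [tsum_fintype, ENNReal.toReal_div, ENNReal.toReal_sum (fun q _ => hterm q)]
    have h2 : (2 : ℝ≥0∞).toReal = 2 := by norm_num
    rw [h2, mul_div_cancel₀ _ (by norm_num : (2 : ℝ) ≠ 0)]
    apply Finset.sum_congr rfl
    intro q _
    rw [ENNReal.toReal_mul, ENNReal.toReal_ofReal (hell _).le]
    rfl

end Pool.Agent.R685.PS.Unf
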