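import Pool.Agent.R685.PS.Stm2
import Pool.Agent.R685.PS.Unf
import Pool.Agent.R685.PS.NXP

/-!
# MP_79396e_al, pieces PSE-NXB and PSE-DEEP
-/

open MeasureTheory Filter Topology Set
open scoped ENNReal NNReal

namespace Pool.Agent.R685.PS.Deep

variable {N : ℕ}

theorem nxb : S_NXB := by
  intro N T W C B hN n
  induction n with
  | zero => intro e ω _; rfl
  | succ n ih =>
    intro e ω hω
    rw [Function.iterate_succ_apply' (T.nx ω.2) n e, Function.iterate_succ_apply (T.nx ω.1) n]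
    have h1 : ω ∈ T.Cyl ((T.nx ω.2)^[n] e) := hN.cyl n e ω hω
    set f := (T.nx ω.2)^[n] e with hf
    have hs := hN.step f ω.2 h1.2
    have h2 : T.nx ω.1 (T.rev (T.nx ω.2 f)) = T.rev f := by
      apply NXP.nx_eq B
      · change T.tgt f = T.src (T.nx ω.2 f)
        exact hs.1.symm
      · intro h
        exact hs.2 h.symm
      · exact h1.1
    rw [h2]
    exact ih e ω hω

theorem smul_sep {T : CV N} (W : T.Walls) (g : F N) (p q : T.V) :
    (T.sep (g • p) (g • q)).ncard = (T.sep p q).ncard := by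
  have h : T.sep (g • p) (g • q) = (fun e : T.D => g • e) '' T.sep p q := by
    ext e
    constructor
    · intro he
      refine ⟨g⁻¹ • e, ?_, smul_inv_smul g e⟩
      have h1 := W.smul g (g⁻¹ • e) p
      have h2 := W.smul g (g⁻¹ • e) q
      rw [smul_inv_smul] at h1 h2
      exact ⟨fun h => he.1 (h1.2 h), h2.1 he.2⟩
    · rintro ⟨d, hd, rfl⟩
      exact ⟨fun h => hd.1 ((W.smul g d p).1 h), (W.smul g d q).2 hd.2⟩
  rw [h]
  exact Set.ncard_image_of_injective _ (MulAction.injective g)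

/-- uniform bound on the distance between edges whose images cross the same wall -/
theorem bound (T S : CV N) (φ : T.V → S.V) (hφ : ∀ (g : F N) (x : T.V), φ (g • x) = g • φ x)
    (TW : T.Walls) (TC : T.Cofin) (SW : S.Walls) (SC : S.Cofin) :
    ∃ K : ℕ, ∀ (k : S.D) (a b : T.D), Unf.eps T S φ k a ≠ 0 → Unf.eps T S φ k b ≠ 0 →
      (T.sep (T.tgt a) (T.src b)).ncard ≤ K := by
  classical
  obtain ⟨s, hs, hcov⟩ := SC.edge
  have hfin : (⋃ k ∈ s, ⋃ a ∈ {a | Unf.eps T S φ k a ≠ 0}, ⋃ b ∈ {b | Unf.eps T S φ k b ≠ 0},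
      {(T.sep (T.tgt a) (T.src b)).ncard}).Finite :=
    hs.biUnion (fun k _ => (Unf.finF T S φ hφ SW TC k).biUnion (fun a _ =>
      (Unf.finF T S φ hφ SW TC k).biUnion (fun b _ => Set.finite_singleton _)))
  obtain ⟨K, hK⟩ := hfin.bddAbove
  refine ⟨K, fun k a b ha hb => ?_⟩
  obtain ⟨g, k', hk', hgk⟩ := hcov k
  have hinv : ∀ f : T.D, Unf.eps T S φ k' (g⁻¹ • f) = Unf.eps T S φ k f := by
    intro f
    have h := Unf.eps_smul T S φ hφ SW g⁻¹ k f
    rw [← hgk, inv_smul_smul, hgk] at h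
    exact h
  have h1 : (T.sep (T.tgt (g⁻¹ • a)) (T.src (g⁻¹ • b))).ncard ≤ K := by
    apply hK
    simp only [mem_iUnion]
    refine ⟨k', hk', g⁻¹ • a, ?_, g⁻¹ • b, ?_, rfl⟩
    · change Unf.eps T S φ k' (g⁻¹ • a) ≠ 0
      rw [hinv]; exact ha
    · change Unf.eps T S φ k' (g⁻¹ • b) ≠ 0
      rw [hinv]; exact hb
  have h2 : (T.sep (g⁻¹ • T.tgt a) (g⁻¹ • T.src b)).ncard ≤ K := h1
  rwa [smul_sep TW g⁻¹ _ _] at h2

/-- telescoping: some edge between `x` and `y` has image crossing the wall `k` -/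
theorem exists_cross (hT : S_TEL) (T S : CV N) (φ : T.V → S.V) (TW : T.Walls) (k : S.D) (x y : T.V)
    (h : Unf.chi S k (φ y) - Unf.chi S k (φ x) ≠ 0) :
    ∃ a ∈ T.sep x y, Unf.eps T S φ k a ≠ 0 := by
  by_contra hcon
  push Not at hcon
  apply h
  have htel := hT N T TW x y (fun v => Unf.chi S k (φ v))
  rw [← htel]
  exact finsum_mem_eq_zero_of_forall_eq_zero (fun a ha => hcon a ha)

theorem key (hT : S_TEL) (T S : CV N) (φ : T.V → S.V)
    (hφ : ∀ (g : F N) (x : T.V), φ (g • x) = g • φ x)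
    (TW : T.Walls) (TB : T.Bdry) (hN : NX T) (SW : S.Walls) (SB : S.Bdry) (K : ℕ)
    (hK : ∀ (k : S.D) (a b : T.D), Unf.eps T S φ k a ≠ 0 → Unf.eps T S φ k b ≠ 0 →
      (T.sep (T.tgt a) (T.src b)).ncard ≤ K)
    (e : T.D) (ζ : Bd N) (hζ : ζ ∈ T.Sh e) (i : ℕ) (hi : K + 1 ≤ i) (x' : T.V) (hx' : x' ∉ T.H e)
    (ξ ξ0 : Bd N) (hξ : ξ ∈ T.Sh ((T.nx ζ)^[i] e)) (hξ0 : ξ0 ∈ T.Sh ((T.nx ζ)^[i] e))
    (k : S.D) (hk : Unf.chi S k (φ (T.tgt e)) - Unf.chi S k (φ x') ≠ 0)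
    (h1 : ξ ∈ S.Sh k) (h0 : ξ0 ∉ S.Sh k) : False := by
  classical
  obtain ⟨o⟩ := T.isTree.1.nonempty
  obtain ⟨a, ha, hae⟩ := exists_cross hT T S φ TW k _ _ hk
  have h0' : ξ0 ∈ S.Sh (S.rev k) := (SB.compl k ξ0).2 h0
  obtain ⟨m, ⟨⟨hm1, hm2⟩, hm3⟩, hm4⟩ :=
    ((((hξ o).and (hξ0 o)).and (h1 (φ o))).and (h0' (φ o))).exists
  set p := pre ξ0 m • o with hp
  set q := pre ξ m • o with hq
  have hb : Unf.chi S k (φ q) - Unf.chi S k (φ p) ≠ 0 := by
    have hq1 : Unf.chi S k (φ q) = 1 := by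
      unfold Unf.chi
      rw [hq, hφ, indicator_of_mem hm3]
      rfl
    have hp1 : Unf.chi S k (φ p) = 0 := by
      unfold Unf.chi
      rw [hp, hφ, indicator_of_notMem ((SW.compl k _).1 hm4)]
    rw [hq1, hp1]
    norm_num
  obtain ⟨b, hb, hbe⟩ := exists_cross hT T S φ TW k _ _ hb
  have hcard := hK k a b hae hbe
  have hsrc : T.src b ∈ T.H ((T.nx ζ)^[i] e) :=
    (TW.convex b _ p q hm2 hm1 hb.1 hb.2).1
  have hmem : ∀ j, 1 ≤ j → j ≤ i → (T.nx ζ)^[j] e ∈ T.sep (T.tgt a) (T.src b) := by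
    intro j hj1 hj
    constructor
    · have hx : x' ∉ T.H ((T.nx ζ)^[j] e) := fun h => hx' (hN.sub j e ζ hζ h)
      have hte : T.tgt e ∉ T.H ((T.nx ζ)^[j] e) := by
        rcases hN.out j e ζ hζ with h | h
        · omega
        · exact h
      have := TW.convex a (T.rev ((T.nx ζ)^[j] e)) x' (T.tgt e) ((TW.compl _ _).2 hx)
        ((TW.compl _ _).2 hte) ha.1 ha.2
      exact (TW.compl _ _).1 this.2
    · have hsub := hN.sub (i - j) ((T.nx ζ)^[j] e) ζ (hN.sh j e ζ hζ)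
      rw [← Function.iterate_add_apply, Nat.sub_add_cancel hj] at hsub
      exact hsub hsrc
  have hinj : ∀ j j', j < j' → (T.nx ζ)^[j] e ≠ (T.nx ζ)^[j'] e := by
    intro j j' hjj heq
    have hout := hN.out (j' - j) ((T.nx ζ)^[j] e) ζ (hN.sh j e ζ hζ)
    rw [← Function.iterate_add_apply, Nat.sub_add_cancel hjj.le, ← heq] at hout
    rcases hout with h | h
    · omega
    · exact h ((TW.cross _ _).2 rfl).2
  have hsub : (Finset.Icc 1 i).image (fun j => (T.nx ζ)^[j] e) ⊆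
      (TW.finite (T.tgt a) (T.src b)).toFinset := by
    intro f hf
    rw [Finset.mem_image] at hf
    obtain ⟨j, hj, rfl⟩ := hf
    rw [Finset.mem_Icc] at hj
    rw [Set.Finite.mem_toFinset]
    exact hmem j hj.1 hj.2
  have hc := Finset.card_le_card hsub
  rw [Finset.card_image_of_injOn, Nat.card_Icc,
    ← Set.ncard_eq_toFinset_card _ (TW.finite (T.tgt a) (T.src b))] at hc
  · omega
  · intro j _ j' _ hjj
    by_contra hne
    rcases Nat.lt_or_gt_of_ne hne with h | h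
    · exact hinj j j' h hjj
    · exact hinj j' j h hjj.symm

theorem main (_hA : S_ACT) (hT : S_TEL) : S_DEEP := by
  intro N T S φ hφ TW TC TB hN SW SC SB SH2
  obtain ⟨K, hK⟩ := bound T S φ hφ TW TC SW SC
  refine ⟨K + 1, ?_⟩
  intro e ζ hζ i hi x' hx' ξ ξ0 hξ hξ0
  rw [SH2.busf, SH2.busf]
  apply finsum_congr
  intro k
  by_cases hk : Unf.chi S k (φ (T.tgt e)) - Unf.chi S k (φ x') = 0
  · have hk' : (S.H k).indicator (1 : S.V → ℝ) (φ (T.tgt e)) -
        (S.H k).indicator (1 : S.V → ℝ) (φ x') = 0 := hk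
    rw [hk', mul_zero, mul_zero]
  · by_cases h1 : ξ ∈ S.Sh k
    · by_cases h0 : ξ0 ∈ S.Sh k
      · rw [indicator_of_mem h1, indicator_of_mem h0]
        rfl
      · exact (key hT T S φ hφ TW TB hN SW SB K hK e ζ hζ i hi x' hx' ξ ξ0 hξ hξ0 k hk h1 h0).elim
    · by_cases h0 : ξ0 ∈ S.Sh k
      · exact (key hT T S φ hφ TW TB hN SW SB K hK e ζ hζ i hi x' hx' ξ0 ξ hξ0 hξ k hk h0 h1).elim
      · rw [indicator_of_notMem h1, indicator_of_notMem h0]

end Pool.Agent.R685.PS.Deep
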