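import Pool.Agent.R685.PS.Stm

/-!
# MP_79396e_al (equality case): definitions and statements of the pieces.  Proofs in `notes2.md`.
-/

open MeasureTheory Filter Topology Set
open scoped ENNReal NNReal

namespace Pool.Agent.R685.PS

/-- The cylinder of the boundary points having the same first `n` letters as `ξ`. -/
def Cn {N : ℕ} (ξ : Bd N) (n : ℕ) : Set (Bd N) := {ζ | ∀ i < n, ζ.1 i = ξ.1 i}

namespace CV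

variable {N : ℕ} (T : CV N)

/-- The natural simplicial structure: every vertex has valence at least three. -/
def Reduced : Prop := ∀ v : T.V, ∃ a b c : T.V,
  T.G.Adj v a ∧ T.G.Adj v b ∧ T.G.Adj v c ∧ a ≠ b ∧ a ≠ c ∧ b ≠ c

/-- The volume of the quotient graph: the sum of the lengths of its unoriented edges. -/
noncomputable def vol : ℝ≥0∞ :=
  (∑' q : MulAction.orbitRel.Quotient (F N) T.D, ENNReal.ofReal (T.ell q.out)) / 2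

/-- Equivariant isometry of the two metric trees. -/
def Isom (S : CV N) : Prop := ∃ ψ : T.V ≃ S.V, (∀ (g : F N) (x : T.V), ψ (g • x) = g • ψ x) ∧
  (∀ u v : T.V, S.G.Adj (ψ u) (ψ v) ↔ T.G.Adj u v) ∧
  ∀ u v : T.V, T.G.Adj u v → S.len (ψ u) (ψ v) = T.len u v

/-- Equivariant homothety: `h' * length_S = h * length_T`. -/
def Homo (S : CV N) (h h' : ℝ) : Prop :=
  ∃ ψ : T.V ≃ S.V, (∀ (g : F N) (x : T.V), ψ (g • x) = g • ψ x) ∧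
  (∀ u v : T.V, S.G.Adj (ψ u) (ψ v) ↔ T.G.Adj u v) ∧
  ∀ u v : T.V, T.G.Adj u v → h' * S.len (ψ u) (ψ v) = h * T.len u v

/-- total length of the edges separating `{ξ, η}` from `{ζ, θ}` -/
noncomputable def W (ξ η ζ θ : Bd N) : ℝ :=
  ∑ᶠ e ∈ {e : T.D | ξ ∉ T.Sh e ∧ η ∉ T.Sh e ∧ ζ ∈ T.Sh e ∧ θ ∈ T.Sh e}, T.ell e

/-- facts on reduced trees -/
structure Red : Prop where
  ne : ∀ e : T.D, (T.Sh e).Nonempty
  sub : ∀ e f : T.D, T.Sh e ⊆ T.Sh f → T.H e ⊆ T.H f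
  inj : ∀ e f : T.D, T.Sh e = T.Sh f → e = f
  nest : ∀ (e f : T.D) (a b c d : Bd N), a ∉ T.Sh e → a ∉ T.Sh f → b ∈ T.Sh e → b ∉ T.Sh f →
    c ∉ T.Sh e → c ∈ T.Sh f → d ∈ T.Sh e → d ∈ T.Sh f → False

/-- more facts on shadows, Busemann functions and Gromov products -/
structure Horo2 : Prop where
  busf : ∀ (ξ : Bd N) (x y : T.V), T.busemann ξ x y =
    ∑ᶠ g : T.D, T.ell g * (T.Sh g).indicator 1 ξ *
      ((T.H g).indicator (1 : T.V → ℝ) y - (T.H g).indicator (1 : T.V → ℝ) x)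
  grof : ∀ (x : T.V) (ξ ζ : Bd N), ξ ≠ ζ →
    {e : T.D | x ∉ T.H e ∧ ξ ∈ T.Sh e ∧ ζ ∈ T.Sh e}.Finite ∧
    T.gromov x ξ ζ = ∑ᶠ e ∈ {e : T.D | x ∉ T.H e ∧ ξ ∈ T.Sh e ∧ ζ ∈ T.Sh e}, T.ell e
  sepb : ∀ ξ ζ : Bd N, ξ ≠ ζ → ∃ e : T.D, ξ ∉ T.Sh e ∧ ζ ∈ T.Sh e
  opn : ∀ (e : T.D), ∃ n : ℕ, ∀ ξ ζ : Bd N, ζ ∈ Cn ξ n → (ζ ∈ T.Sh e ↔ ξ ∈ T.Sh e)
  bloc : ∀ (ξ : Bd N) (x y : T.V), ∃ n, ∀ ζ ∈ Cn ξ n, T.busemann ζ x y = T.busemann ξ x y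
  bsmul : ∀ (g : F N) (ξ : Bd N) (x y : T.V),
    T.busemann (g • ξ) (g • x) (g • y) = T.busemann ξ x y
  gsmul : ∀ (g : F N) (x : T.V) (ξ ζ : Bd N), ξ ≠ ζ →
    T.gromov (g • x) (g • ξ) (g • ζ) = T.gromov x ξ ζ
  shr : ∀ (x : T.V) (ξ : Bd N) (n : ℕ), ∃ f : T.D, x ∉ T.H f ∧ ξ ∈ T.Sh f ∧ T.Sh f ⊆ Cn ξ n

/-- exact conformality on sets where the Busemann function is constant -/
structure Dens2 (h : ℝ) (ν : T.V → Measure (Bd N)) : Prop where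
  bus : ∀ (x y : T.V) (A : Set (Bd N)) (t : ℝ), MeasurableSet A →
    (∀ ξ ∈ A, T.busemann ξ x y = t) → ν x A = ENNReal.ofReal (Real.exp (-h * t)) * ν y A

end CV

/-- PSE-RED (Reduced trees). -/
def S_RED : Prop := ∀ (N : ℕ) (T : CV N), 2 ≤ N → T.Walls → T.Cofin → T.Bdry → T.Reduced → T.Red

/-- PSE-HORO2a -/
def S_HORO2a : Prop := ∀ (N : ℕ) (T : CV N), T.Walls → T.Cofin → T.Bdry →
  (∀ ξ ζ : Bd N, ξ ≠ ζ → ∃ e : T.D, ξ ∉ T.Sh e ∧ ζ ∈ T.Sh e) ∧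
  (∀ (e : T.D), ∃ n : ℕ, ∀ ξ ζ : Bd N, ζ ∈ Cn ξ n → (ζ ∈ T.Sh e ↔ ξ ∈ T.Sh e)) ∧
  (∀ (x : T.V) (ξ : Bd N) (n : ℕ), ∃ f : T.D, x ∉ T.H f ∧ ξ ∈ T.Sh f ∧ T.Sh f ⊆ Cn ξ n)

/-- PSE-HORO2 -/
def S_HORO2 : Prop := ∀ (N : ℕ) (T : CV N), T.Walls → T.Cofin → T.Bdry → T.Horo → T.Horo2

/-- PSE-DENS2 -/
def S_DENS2 : Prop := ∀ (N : ℕ) (T : CV N) (ν : T.V → Measure (Bd N)),
  T.IsPSDensity ν → T.Dens2 T.critExp ν

/-- log-ratio of the two densities (based at the end of `e`) on the `n`-th shadow after `e` towards `ζ` -/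
noncomputable def Lg {N : ℕ} (T S : CV N) (φ : T.V → S.V) (ν : T.V → Measure (Bd N))
    (ν' : S.V → Measure (Bd N)) (n : ℕ) (e : T.D) (ζ : Bd N) : ℝ :=
  Real.log ((ν (T.tgt e)).real (T.Sh ((T.nx ζ)^[n] e)))
    - Real.log ((ν' (φ (T.tgt e))).real (T.Sh ((T.nx ζ)^[n] e)))

/-- the same increment seen from the end: `v` is the vertex `i` steps behind `f` in direction `ω.1` -/
noncomputable def Kc {N : ℕ} (T S : CV N) (φ : T.V → S.V) (ν : T.V → Measure (Bd N))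
    (ν' : S.V → Measure (Bd N)) (i : ℕ) (f : T.D) (ω : Bd N × Bd N) : ℝ :=
  (Real.log ((ν (T.tgt f)).real (T.Sh (T.nx ω.2 f))) - Real.log ((ν (T.tgt f)).real (T.Sh f)))
    - (Real.log ((ν' (φ (T.src ((T.nx ω.1)^[i] (T.rev f))))).real (T.Sh (T.nx ω.2 f)))
      - Real.log ((ν' (φ (T.src ((T.nx ω.1)^[i] (T.rev f))))).real (T.Sh f)))

/-- PSE-NXB: walking back. -/
def S_NXB : Prop := ∀ (N : ℕ) (T : CV N), T.Walls → T.Cofin → T.Bdry → NX T →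
  ∀ (n : ℕ) (e : T.D) (ω : Bd N × Bd N), ω ∈ T.Cyl e →
    (T.nx ω.1)^[n] (T.rev ((T.nx ω.2)^[n] e)) = T.rev e

/-- `i0` is a depth beyond which `S`-Busemann functions are constant on `T`-shadows. -/
def Deep {N : ℕ} (T S : CV N) (φ : T.V → S.V) (i0 : ℕ) : Prop :=
  ∀ (e : T.D) (ζ : Bd N), ζ ∈ T.Sh e → ∀ i : ℕ, i0 ≤ i → ∀ x' : T.V, x' ∉ T.H e →
    ∀ ξ ξ0 : Bd N, ξ ∈ T.Sh ((T.nx ζ)^[i] e) → ξ0 ∈ T.Sh ((T.nx ζ)^[i] e) →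
    S.busemann ξ (φ x') (φ (T.tgt e)) = S.busemann ξ0 (φ x') (φ (T.tgt e))

/-- PSE-DEEP -/
def S_DEEP : Prop := ∀ (N : ℕ) (T S : CV N) (φ : T.V → S.V),
  (∀ (g : F N) (x : T.V), φ (g • x) = g • φ x) →
  T.Walls → T.Cofin → T.Bdry → NX T → S.Walls → S.Cofin → S.Bdry → S.Horo2 →
  ∃ i0 : ℕ, Deep T S φ i0

/-- All data of the entropy comparison. -/
structure Dat {N : ℕ} (T S : CV N) (φ : T.V → S.V) (h h' : ℝ) (ν : T.V → Measure (Bd N))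
    (ν' : S.V → Measure (Bd N)) (μ : Measure (Bd N × Bd N)) : Prop where
  phi : ∀ (g : F N) (x : T.V), φ (g • x) = g • φ x
  TW : T.Walls
  TC : T.Cofin
  TB : T.Bdry
  TN : NX T
  TH : T.Horo
  TH2 : T.Horo2
  SW : S.Walls
  SC : S.Cofin
  SB : S.Bdry
  SX : XNG S
  SH : S.Horo
  SH2 : S.Horo2
  TD : T.Dens h ν
  TD2 : T.Dens2 h ν
  TCu : T.Curr ν μ
  TI : T.Inv μ
  SD : S.Dens h' ν'
  SD2 : S.Dens2 h' ν'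
  hpos : 0 < h
  hpos' : 0 < h'
  ne : ∀ e : T.D, (T.Sh e).Nonempty
  nrm : (T.inter μ) = 1

/-- PSE-KLB: in the equality case the relative entropies are bounded. -/
def S_KLB : Prop := ∀ (N : ℕ) (T S : CV N) (φ : T.V → S.V) (h h' : ℝ)
  (ν : T.V → Measure (Bd N)) (ν' : S.V → Measure (Bd N)) (μ : Measure (Bd N × Bd N)),
  Dat T S φ h h' ν ν' μ → h * (T.inter μ).toReal = h' * (S.inter μ).toReal →
  ∃ K : ℝ, ∀ n : ℕ,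
    T.flow μ (fun e ω => Lg T S φ ν ν' n e ω.2 - Lg T S φ ν ν' 0 e ω.2) ≤ K

/-- PSE-RIG1 -/
def S_RIG1 : Prop := ∀ (N : ℕ) (T S : CV N) (φ : T.V → S.V) (h h' : ℝ)
  (ν : T.V → Measure (Bd N)) (ν' : S.V → Measure (Bd N)) (μ : Measure (Bd N × Bd N)),
  Dat T S φ h h' ν ν' μ → ∀ i0 : ℕ, Deep T S φ i0 →
  (∃ K : ℝ, ∀ n : ℕ,
    T.flow μ (fun e ω => Lg T S φ ν ν' n e ω.2 - Lg T S φ ν ν' 0 e ω.2) ≤ K) →
  T.flow μ (Kc T S φ ν ν' i0) ≤ 0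

/-- PSE-GEQ: equality case of the Gibbs inequality. -/
def S_GEQ : Prop := ∀ (Ω D : Type) [MeasurableSpace Ω] (ν ν' : Measure Ω)
  [IsFiniteMeasure ν] [IsFiniteMeasure ν'] (A : Set Ω), MeasurableSet A →
  ∀ p : Ω → D, (p '' A).Finite → (∀ d : D, MeasurableSet (A ∩ {ω | p ω = d})) →
  (∀ ω ∈ A, 0 < ν'.real (A ∩ {ω' | p ω' = p ω})) →
  (∀ ω ∈ A, 0 < ν.real (A ∩ {ω' | p ω' = p ω})) →
  ∫ ω in A, (Real.log (ν.real (A ∩ {ω' | p ω' = p ω})) - Real.log (ν.real A)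
    - Real.log (ν'.real (A ∩ {ω' | p ω' = p ω})) + Real.log (ν'.real A)) ∂ν ≤ 0 →
  ∀ ω ∈ A, Real.log (ν.real (A ∩ {ω' | p ω' = p ω})) - Real.log (ν.real A)
    - Real.log (ν'.real (A ∩ {ω' | p ω' = p ω})) + Real.log (ν'.real A) = 0

/-- PSE-RIG2 -/
def S_RIG2 : Prop := ∀ (N : ℕ) (T S : CV N) (φ : T.V → S.V) (h h' : ℝ)
  (ν : T.V → Measure (Bd N)) (ν' : S.V → Measure (Bd N)) (μ : Measure (Bd N × Bd N)),
  Dat T S φ h h' ν ν' μ → ∀ i0 : ℕ, T.flow μ (Kc T S φ ν ν' i0) ≤ 0 →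
  ∀ (e : T.D) (ζ : Bd N), ζ ∈ T.Sh e → Lg T S φ ν ν' (i0 + 1) e ζ = Lg T S φ ν ν' i0 e ζ

/-- PSE-RIG3 -/
def S_RIG3 : Prop := ∀ (N : ℕ) (T S : CV N) (φ : T.V → S.V) (h h' : ℝ)
  (ν : T.V → Measure (Bd N)) (ν' : S.V → Measure (Bd N)) (μ : Measure (Bd N × Bd N)),
  Dat T S φ h h' ν ν' μ → ∀ i0 : ℕ, Deep T S φ i0 →
  (∀ (e : T.D) (ζ : Bd N), ζ ∈ T.Sh e → Lg T S φ ν ν' (i0 + 1) e ζ = Lg T S φ ν ν' i0 e ζ) →
  ∀ i : ℕ, i0 ≤ i → ∀ (e : T.D) (ζ : Bd N), ζ ∈ T.Sh e →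
    Lg T S φ ν ν' (i + 1) e ζ = Lg T S φ ν ν' i e ζ

/-- The logarithm of the ratio of the two densities. -/
structure UD {N : ℕ} (T S : CV N) (φ : T.V → S.V) (h h' : ℝ) (u : T.V → Bd N → ℝ) : Prop where
  equi : ∀ (g : F N) (x : T.V) (ξ : Bd N), u (g • x) (g • ξ) = u x ξ
  loc : ∀ (x : T.V) (ξ : Bd N), ∃ n : ℕ, ∀ ζ ∈ Cn ξ n, u x ζ = u x ξ
  coc : ∀ (x y : T.V) (ξ : Bd N),
    u x ξ - u y ξ = h * T.busemann ξ x y - h' * S.busemann ξ (φ x) (φ y)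

/-- PSE-UD -/
def S_UD : Prop := ∀ (N : ℕ) (T S : CV N) (φ : T.V → S.V) (h h' : ℝ)
  (ν : T.V → Measure (Bd N)) (ν' : S.V → Measure (Bd N)) (μ : Measure (Bd N × Bd N)),
  Dat T S φ h h' ν ν' μ → T.Reduced → ∀ i0 : ℕ,
  (∀ i : ℕ, i0 ≤ i → ∀ (e : T.D) (ζ : Bd N), ζ ∈ T.Sh e →
    Lg T S φ ν ν' (i + 1) e ζ = Lg T S φ ν ν' i e ζ) →
  ∃ u : T.V → Bd N → ℝ, UD T S φ h h' u

/-- PSE-CONST -/
def S_CONST : Prop := ∀ (N : ℕ) (T S : CV N) (φ : T.V → S.V) (h h' : ℝ)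
  (u : T.V → Bd N → ℝ), 2 ≤ N → (∀ (g : F N) (x : T.V), φ (g • x) = g • φ x) →
  T.Walls → T.Bdry → T.Horo → T.Horo2 → S.Walls → S.Bdry → S.Horo → S.Horo2 →
  UD T S φ h h' u →
  ∃ C : ℝ, ∀ (x : T.V) (ξ ζ : Bd N), ξ ≠ ζ →
    2 * h' * S.gromov (φ x) ξ ζ - 2 * h * T.gromov x ξ ζ + u x ξ + u x ζ = C

/-- four pairwise distinct boundary points -/
def Dist4 {N : ℕ} (ξ η ζ θ : Bd N) : Prop :=
  ξ ≠ η ∧ ξ ≠ ζ ∧ ξ ≠ θ ∧ η ≠ ζ ∧ η ≠ θ ∧ ζ ≠ θ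

/-- PSE-CRT: the cross ratio of a tree. -/
def S_CRT : Prop := ∀ (N : ℕ) (T : CV N), T.Walls → T.Cofin → T.Bdry → T.Horo → T.Horo2 →
  ∀ (x : T.V) (ξ η ζ θ : Bd N), Dist4 ξ η ζ θ →
    T.W ξ η ζ θ = max 0
      (T.gromov x ξ η + T.gromov x ζ θ - T.gromov x ξ ζ - T.gromov x η θ)

/-- PSE-WB: the bijection between the walls. -/
def S_WB : Prop := ∀ (N : ℕ) (T S : CV N) (h h' : ℝ), 2 ≤ N → 0 < h → 0 < h' →
  T.Walls → T.Cofin → T.Bdry → T.Horo2 → T.Reduced → T.Red →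
  S.Walls → S.Cofin → S.Bdry → S.Horo2 → S.Reduced → S.Red →
  (∀ ξ η ζ θ : Bd N, Dist4 ξ η ζ θ → h * T.W ξ η ζ θ = h' * S.W ξ η ζ θ) →
  ∀ e : T.D, ∃ k : S.D, S.Sh k = T.Sh e ∧ h' * S.ell k = h * T.ell e

/-- PSE-ISO: from the walls to the trees. -/
def S_ISO : Prop := ∀ (N : ℕ) (T S : CV N) (h h' : ℝ), 2 ≤ N →
  T.Walls → T.Cofin → T.Bdry → T.Reduced → T.Red →
  S.Walls → S.Cofin → S.Bdry → S.Reduced → S.Red →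
  (∀ e : T.D, ∃ k : S.D, S.Sh k = T.Sh e ∧ h' * S.ell k = h * T.ell e) →
  (∀ k : S.D, ∃ e : T.D, T.Sh e = S.Sh k ∧ h * T.ell e = h' * S.ell k) → T.Homo S h h'

/-- PSE-VOL: the volume determines the scale. -/
def S_VOL : Prop := ∀ (N : ℕ) (T S : CV N) (h h' : ℝ), 0 < h → 0 < h' → T.Cofin → S.Cofin →
  T.vol = 1 → S.vol = 1 → T.Homo S h h' → h = h'

/-- PSE-IFI: isometric trees have the same intersection form. -/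
def S_IFI : Prop := ∀ (N : ℕ) (T S : CV N), T.Isom S → ∀ μ : Measure (Bd N × Bd N),
  T.Inv μ → S.inter μ = T.inter μ

/-- The final theorem (equality case). -/
def S_EQ : Prop := ∀ (N : ℕ), 2 ≤ N → ∀ (T S : CV N) (μT μS : Measure (Bd N × Bd N)),
  T.Reduced → S.Reduced → T.vol = 1 → S.vol = 1 → T.IsPSCurrent μT → S.IsPSCurrent μS →
  (S.inter μT * T.inter μS = 1 ↔ T.Isom S)

end Pool.Agent.R685.PS
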