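import Pool.Agent.R685.PS.Final
import Pool.Agent.R685.PS.Stm2

open MeasureTheory Filter Topology Set
open scoped ENNReal NNReal

namespace Pool.Agent.R685.PS.Final2

theorem isom_symm {N : ℕ} {T S : CV N} (h : T.Isom S) : S.Isom T := by
  obtain ⟨ψ, h1, h2, h3⟩ := h
  refine ⟨ψ.symm, ?_, ?_, ?_⟩
  · intro g x
    rw [Equiv.symm_apply_eq, h1, Equiv.apply_symm_apply]
  · intro u v
    rw [← h2, Equiv.apply_symm_apply, Equiv.apply_symm_apply]
  · intro u v huv
    have h4 := h3 (ψ.symm u) (ψ.symm v) ((h2 _ _).1 (by simpa using huv))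
    rw [Equiv.apply_symm_apply, Equiv.apply_symm_apply] at h4
    exact h4.symm

theorem finalEq (hW : S_WALLS) (hCof : S_COF) (hBdry : S_BDRY) (hHoro : S_HORO) (hHpos : S_HPOS)
    (hDens : S_DENS) (hCurr : S_CURR) (hInv : S_INV) (hNX : S_NX) (hXng : S_XNG)
    (hM2 : S_MAIN2) (hPhi : S_PHI) (hH2 : S_HORO2) (hD2 : S_DENS2) (hRed : S_RED)
    (hKlb : S_KLB) (hDeep : S_DEEP) (hR1 : S_RIG1) (hR2 : S_RIG2) (hR3 : S_RIG3) (hUd : S_UD)
    (hConst : S_CONST) (hCrt : S_CRT) (hWb : S_WB) (hIso : S_ISO) (hVol : S_VOL) (hIfi : S_IFI) :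
    S_EQ := by
  intro N hN2 T S μT μS hTR hSR hTV hSV hT hS
  have hF := Final.final0 hW hCof hBdry hHoro hHpos hDens hCurr hInv hNX hXng hM2 N hN2
  obtain ⟨-, hle1⟩ := hF T S μT μS hT hS
  obtain ⟨-, hle2⟩ := hF S T μS μT hS hT
  have hTW := hW N T
  have hSW := hW N S
  have hTC := hCof N T hTW
  have hSC := hCof N S hSW
  have hTB := hBdry N T hTW hTC
  have hSB := hBdry N S hSW hSC
  have hTH := hHoro N T hTW hTC hTB
  have hSH := hHoro N S hSW hSC hSB
  have hTH2 := hH2 N T hTW hTC hTB hTH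
  have hSH2 := hH2 N S hSW hSC hSB hSH
  have hTred := hRed N T hN2 hTW hTC hTB hTR
  have hSred := hRed N S hN2 hSW hSC hSB hSR
  obtain ⟨⟨νT, xT, cT, hνT, hμT⟩, hnT⟩ := hT
  obtain ⟨⟨νS, xS, cS, hνS, hμS⟩, hnS⟩ := hS
  have hTpos := hHpos N T νT hN2 hνT
  have hSpos := hHpos N S νS hN2 hνS
  have hTD := hDens N T νT hN2 hTW hTC hTB hTH hTpos hνT
  have hSD := hDens N S νS hN2 hSW hSC hSB hSH hSpos hνS
  have hTcur := hCurr N T νT xT cT μT hTW hTC hTB hTH hνT hμT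
  have hTI := hInv N T T.critExp νT μT hTW hTC hTB hTD hTcur
  have hScur := hCurr N S νS xS cS μS hSW hSC hSB hSH hνS hμS
  have hSI := hInv N S S.critExp νS μS hSW hSC hSB hSD hScur
  constructor
  · intro heq
    have hfin : S.inter μT ≠ ∞ := by
      intro h
      rw [h] at heq
      rcases eq_or_ne (T.inter μS) 0 with h0 | h0
      · rw [h0, mul_zero] at heq; exact zero_ne_one heq
      · rw [ENNReal.top_mul h0] at heq; exact ENNReal.top_ne_one heq
    have hge : ENNReal.ofReal S.critExp * S.inter μT ≤ ENNReal.ofReal T.critExp := by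
      calc ENNReal.ofReal S.critExp * S.inter μT
          ≤ (ENNReal.ofReal T.critExp * T.inter μS) * S.inter μT := by gcongr
        _ = ENNReal.ofReal T.critExp * (S.inter μT * T.inter μS) := by ring
        _ = ENNReal.ofReal T.critExp := by rw [heq, mul_one]
    have hE : T.critExp = S.critExp * (S.inter μT).toReal := by
      have h1 := congrArg ENNReal.toReal (le_antisymm hle1 hge)
      rw [ENNReal.toReal_mul, ENNReal.toReal_ofReal hTpos.le, ENNReal.toReal_ofReal hSpos.le] at h1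
      exact h1
    obtain ⟨φ, hφ⟩ := hPhi N T S
    have hDat : Dat T S φ T.critExp S.critExp νT νS μT :=
      { phi := hφ, TW := hTW, TC := hTC, TB := hTB, TN := hNX N T hTW hTC hTB, TH := hTH,
        TH2 := hTH2, SW := hSW, SC := hSC, SB := hSB, SX := hXng N S hSW hSC hSB, SH := hSH,
        SH2 := hSH2, TD := hTD, TD2 := hD2 N T νT hνT, TCu := hTcur, TI := hTI, SD := hSD,
        SD2 := hD2 N S νS hνS, hpos := hTpos, hpos' := hSpos, ne := hTred.ne, nrm := hnT }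
    have hE' : T.critExp * (T.inter μT).toReal = S.critExp * (S.inter μT).toReal := by
      rw [hnT, ENNReal.toReal_one, mul_one]
      exact hE
    have hK := hKlb N T S φ _ _ νT νS μT hDat hE'
    obtain ⟨i0, hi0⟩ := hDeep N T S φ hφ hTW hTC hTB (hNX N T hTW hTC hTB) hSW hSC hSB hSH2
    have h1 := hR1 N T S φ _ _ νT νS μT hDat i0 hi0 hK
    have h2 := hR2 N T S φ _ _ νT νS μT hDat i0 h1
    have h3 := hR3 N T S φ _ _ νT νS μT hDat i0 hi0 h2
    obtain ⟨u, hu⟩ := hUd N T S φ _ _ νT νS μT hDat hTR i0 h3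
    obtain ⟨C, hC⟩ := hConst N T S φ _ _ u hN2 hφ hTW hTB hTH hTH2 hSW hSB hSH hSH2 hu
    have hCR : ∀ ξ η ζ θ : Bd N, Dist4 ξ η ζ θ →
        T.critExp * T.W ξ η ζ θ = S.critExp * S.W ξ η ζ θ := by
      intro ξ η ζ θ hd
      rw [hCrt N T hTW hTC hTB hTH hTH2 xT ξ η ζ θ hd,
        hCrt N S hSW hSC hSB hSH hSH2 (φ xT) ξ η ζ θ hd]
      obtain ⟨d1, d2, d3, d4, d5, d6⟩ := hd
      rw [mul_max_of_nonneg _ _ hTpos.le, mul_max_of_nonneg _ _ hSpos.le, mul_zero, mul_zero]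
      congr 1
      have e1 := hC xT ξ η d1
      have e2 := hC xT ζ θ d6
      have e3 := hC xT ξ ζ d2
      have e4 := hC xT η θ d5
      linarith
    have hA := hWb N T S _ _ hN2 hTpos hSpos hTW hTC hTB hTH2 hTR hTred hSW hSC hSB hSH2 hSR hSred
      hCR
    have hB := hWb N S T _ _ hN2 hSpos hTpos hSW hSC hSB hSH2 hSR hSred hTW hTC hTB hTH2 hTR hTred
      (fun ξ η ζ θ hd => (hCR ξ η ζ θ hd).symm)
    have hHomo := hIso N T S _ _ hN2 hTW hTC hTB hTR hTred hSW hSC hSB hSR hSred hA hB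
    have hh := hVol N T S _ _ hTpos hSpos hTC hSC hTV hSV hHomo
    obtain ⟨ψ, p1, p2, p3⟩ := hHomo
    refine ⟨ψ, p1, p2, fun a b hab => ?_⟩
    have h4 := p3 a b hab
    rw [hh] at h4
    exact mul_left_cancel₀ hSpos.ne' h4
  · intro hI
    rw [hIfi N T S hI μT hTI, hnT, one_mul, hIfi N S T (isom_symm hI) μS hSI, hnS]

end Pool.Agent.R685.PS.Final2
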