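import Pool.Agent.R685.PS.Stm2

/-! # MP_79396e_al: PSE-GEQ, equality case of the Gibbs inequality -/

open MeasureTheory Filter Topology Set
open scoped ENNReal NNReal

namespace Pool.Agent.R685.PS.Geq

theorem main : S_GEQ := by
  intro Ω D _ ν ν' _ _ A hA p hp hm hpos hpos' hle ω₀ hω₀
  classical
  obtain ⟨t, ht⟩ : ∃ t : Finset D, (t : Set D) = p '' A := ⟨hp.toFinset, by simp⟩
  have hAU : A = ⋃ d ∈ t, (A ∩ {ω | p ω = d}) := by
    ext ω
    simp only [mem_iUnion, mem_inter_iff, exists_prop]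
    constructor
    · intro h
      refine ⟨p ω, ?_, h, rfl⟩
      have : p ω ∈ (t : Set D) := by rw [ht]; exact ⟨ω, h, rfl⟩
      exact this
    · rintro ⟨d, -, h, -⟩
      exact h
  have hdisj : Set.Pairwise (t : Set D) (Function.onFun Disjoint fun d => A ∩ {ω | p ω = d}) := by
    intro d _ d' _ hdd
    rw [Function.onFun, Set.disjoint_left]
    rintro ω ⟨_, h1⟩ ⟨_, h2⟩
    exact hdd (h1.symm.trans h2)
  obtain ⟨a, ha⟩ : ∃ a : D → ℝ, a = fun d => ν.real (A ∩ {ω | p ω = d}) := ⟨_, rfl⟩
  obtain ⟨b, hb⟩ : ∃ b : D → ℝ, b = fun d => ν'.real (A ∩ {ω | p ω = d}) := ⟨_, rfl⟩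
  have hbpos : ∀ d ∈ t, 0 < b d := by
    intro d hd
    have : d ∈ p '' A := by rw [← ht]; exact hd
    obtain ⟨ω, hω, rfl⟩ := this
    rw [hb]
    exact hpos ω hω
  have ha0 : ∀ d, 0 ≤ a d := fun d => by rw [ha]; exact measureReal_nonneg
  have hsuma : ν.real A = ∑ d ∈ t, a d := by
    conv_lhs => rw [hAU]
    rw [measureReal_biUnion_finset hdisj (fun d _ => hm d)]
    rw [ha]
  have hsumb : ν'.real A = ∑ d ∈ t, b d := by
    conv_lhs => rw [hAU]
    rw [measureReal_biUnion_finset hdisj (fun d _ => hm d)]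
    rw [hb]
  obtain ⟨f, hf⟩ : ∃ f : Ω → ℝ, f = fun ω => Real.log (ν.real (A ∩ {ω' | p ω' = p ω})) -
    Real.log (ν.real A) - Real.log (ν'.real (A ∩ {ω' | p ω' = p ω})) +
      Real.log (ν'.real A) := ⟨_, rfl⟩
  have hfc : ∀ d, EqOn f (fun _ => Real.log (a d) - Real.log (ν.real A) - Real.log (b d) +
      Real.log (ν'.real A)) (A ∩ {ω | p ω = d}) := by
    intro d ω hω
    have h1 : p ω = d := hω.2
    rw [hf, ha, hb]
    simp only [h1]
  have hint : ∫ ω in A, f ω ∂ν = ∑ d ∈ t, a d * (Real.log (a d) - Real.log (ν.real A) -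
      Real.log (b d) + Real.log (ν'.real A)) := by
    conv_lhs => rw [hAU]
    rw [integral_biUnion_finset t (fun d _ => hm d) hdisj]
    · apply Finset.sum_congr rfl
      intro d _
      rw [setIntegral_congr_fun (hm d) (hfc d), setIntegral_const, smul_eq_mul, ha]
    · intro d _
      apply (integrableOn_congr_fun (hfc d) (hm d)).mpr
      exact integrableOn_const (measure_ne_top _ _)
  have hgoal : ∫ ω in A, (Real.log (ν.real (A ∩ {ω' | p ω' = p ω})) - Real.log (ν.real A)
    - Real.log (ν'.real (A ∩ {ω' | p ω' = p ω})) + Real.log (ν'.real A)) ∂ν =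
      ∫ ω in A, f ω ∂ν := by rw [hf]
  rw [hgoal, hint] at hle
  have hd₀ : p ω₀ ∈ t := by
    have : p ω₀ ∈ (t : Set D) := by rw [ht]; exact ⟨ω₀, hω₀, rfl⟩
    exact this
  have hapos : ∀ d ∈ t, 0 < a d := by
    intro d hd
    have : d ∈ p '' A := by rw [← ht]; exact hd
    obtain ⟨ω, hω, rfl⟩ := this
    rw [ha]
    exact hpos' ω hω
  have hte : t.Nonempty := ⟨_, hd₀⟩
  have hB : 0 < ν'.real A := by
    rw [hsumb]
    exact Finset.sum_pos hbpos hte
  have hApos : 0 < ν.real A := by
    rw [hsuma]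
    exact Finset.sum_pos hapos hte
  have hlog : ∀ d ∈ t, Real.log (b d * ν.real A / (a d * ν'.real A)) =
      -(Real.log (a d) - Real.log (ν.real A) - Real.log (b d) + Real.log (ν'.real A)) := by
    intro d hd
    have hbd := hbpos d hd
    have h0 := hapos d hd
    rw [Real.log_div (by positivity) (by positivity), Real.log_mul (by positivity) (by positivity),
        Real.log_mul (by positivity) (by positivity)]
    ring
  have hterm : ∀ d ∈ t, 0 ≤
      a d * (Real.log (a d) - Real.log (ν.real A) - Real.log (b d) + Real.log (ν'.real A)) -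
      (a d - b d * (ν.real A / ν'.real A)) := by
    intro d hd
    have hbd := hbpos d hd
    have h0 := hapos d hd
    have h1 : Real.log (b d * ν.real A / (a d * ν'.real A)) ≤
        b d * ν.real A / (a d * ν'.real A) - 1 := Real.log_le_sub_one_of_pos (by positivity)
    rw [hlog d hd] at h1
    have h2 := mul_le_mul_of_nonneg_left h1 h0.le
    have h3 : a d * (b d * ν.real A / (a d * ν'.real A) - 1) =
        b d * (ν.real A / ν'.real A) - a d := by field_simp
    rw [h3] at h2
    linarith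
  have hsum0 : ∑ d ∈ t, (a d - b d * (ν.real A / ν'.real A)) = 0 := by
    rw [Finset.sum_sub_distrib, ← Finset.sum_mul, ← hsuma, ← hsumb]
    field_simp
    ring
  have hsumle : ∑ d ∈ t,
      (a d * (Real.log (a d) - Real.log (ν.real A) - Real.log (b d) + Real.log (ν'.real A)) -
      (a d - b d * (ν.real A / ν'.real A))) = 0 := by
    apply le_antisymm
    · rw [Finset.sum_sub_distrib, hsum0, sub_zero]
      exact hle
    · exact Finset.sum_nonneg hterm
  have hz := (Finset.sum_eq_zero_iff_of_nonneg hterm).1 hsumle (p ω₀) hd₀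
  have hbd := hbpos _ hd₀
  have h0 := hapos _ hd₀
  have hone : b (p ω₀) * ν.real A / (a (p ω₀) * ν'.real A) = 1 := by
    by_contra hne
    have h1 := Real.log_lt_sub_one_of_pos (x := b (p ω₀) * ν.real A / (a (p ω₀) * ν'.real A))
      (by positivity) hne
    rw [hlog _ hd₀] at h1
    have h2 := mul_lt_mul_of_pos_left h1 h0
    have h3 : a (p ω₀) * (b (p ω₀) * ν.real A / (a (p ω₀) * ν'.real A) - 1) =
        b (p ω₀) * (ν.real A / ν'.real A) - a (p ω₀) := by field_simp
    rw [h3] at h2
    linarith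
  have hfin := hlog _ hd₀
  rw [hone, Real.log_one] at hfin
  have hres : Real.log (a (p ω₀)) - Real.log (ν.real A) - Real.log (b (p ω₀)) +
      Real.log (ν'.real A) = 0 := by linarith
  rw [ha, hb] at hres
  exact hres

end Pool.Agent.R685.PS.Geq
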