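import Pool.Agent.R685.PS.Stm2
import Pool.Agent.R685.PS.HoroP

/-! PSE-HORO2: formulas for Busemann functions and Gromov products. -/

open MeasureTheory Filter Topology Set
open scoped ENNReal NNReal

namespace Pool.Agent.R685.PS.Horo2P

open CV Classical HoroP

variable {N : ℕ} {T : CV N}

theorem busf (hD : S_DIST) (W : T.Walls) (B : T.Bdry) (ξ : Bd N) (x y : T.V) :
    T.busemann ξ x y = ∑ᶠ g : T.D, T.ell g * (T.Sh g).indicator 1 ξ *
      ((T.H g).indicator (1 : T.V → ℝ) y - (T.H g).indicator (1 : T.V → ℝ) x) := by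
  rw [bus_eq hD W B ξ x y (fs W x y) (mem_fs W x y) (mem_fs' W x y)]
  rw [finsum_eq_sum_of_support_subset (s := fs W x y)]
  · unfold val
    refine Finset.sum_congr rfl fun g _ => ?_
    unfold sg chi
    simp only [Set.indicator_apply, Pi.one_apply]
    ring
  · intro g hg
    rw [Finset.mem_coe]
    by_contra hcon
    apply hg
    have n1 : g ∉ T.sep x y := fun h => hcon (mem_fs W x y g h)
    have n2 : g ∉ T.sep y x := fun h => hcon (mem_fs' W x y g h)
    have : (T.H g).indicator (1 : T.V → ℝ) y = (T.H g).indicator (1 : T.V → ℝ) x := by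
      simp only [Set.indicator_apply, Pi.one_apply]
      by_cases hx : x ∈ T.H g
      · by_cases hy : y ∈ T.H g
        · rw [if_pos hx, if_pos hy]
        · exact absurd ⟨hy, hx⟩ n2
      · by_cases hy : y ∈ T.H g
        · exact absurd ⟨hx, hy⟩ n1
        · rw [if_neg hx, if_neg hy]
    simp only [this, sub_self, mul_zero]

/-- if both points are in the shadow of `g` and `k` separates them, the edge `k` is in `H g` -/
theorem both_mem (W : T.Walls) (B : T.Bdry) {k g : T.D} {ξ ζ : Bd N} (h1 : ξ ∉ T.Sh k)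
    (h2 : ζ ∈ T.Sh k) (h3 : ξ ∈ T.Sh g) (h4 : ζ ∈ T.Sh g) : T.tgt k ∈ T.H g := by
  have h1' : ξ ∈ T.Sh (T.rev k) := (B.compl k ξ).2 h1
  obtain ⟨n, hn⟩ := (((h1' (T.src k)).and (h2 (T.src k))).and
    ((h3 (T.src k)).and (h4 (T.src k)))).exists
  exact (W.convex k g _ _ hn.2.1 hn.2.2 ((W.compl k _).1 hn.1.1) hn.1.2).2

theorem grof_sub (W : T.Walls) (B : T.Bdry) {k : T.D} {ξ ζ : Bd N} (h1 : ξ ∉ T.Sh k)
    (h2 : ζ ∈ T.Sh k) (x : T.V) :
    {e : T.D | x ∉ T.H e ∧ ξ ∈ T.Sh e ∧ ζ ∈ T.Sh e} ⊆ T.sep x (T.tgt k) :=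
  fun _ he => ⟨he.1, both_mem W B h1 h2 he.2.1 he.2.2⟩

theorem sg_rev (B : T.Bdry) (g : T.D) (ξ : Bd N) : sg T (T.rev g) ξ = 1 - sg T g ξ := by
  unfold sg
  by_cases h : ξ ∈ T.Sh g
  · rw [if_pos h, if_neg (fun h' => (B.compl g ξ).1 h' h)]; ring
  · rw [if_neg h, if_pos ((B.compl g ξ).2 h)]; ring

theorem chi_rev (W : T.Walls) (g : T.D) (x : T.V) : chi T (T.rev g) x = 1 - chi T g x := by
  unfold chi
  by_cases h : x ∈ T.H g
  · rw [if_pos h, if_neg (fun h' => (W.compl g x).1 h' h)]; ring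
  · rw [if_neg h, if_pos ((W.compl g x).2 h)]; ring

theorem rev_rev (g : T.D) : T.rev (T.rev g) = g := rfl

theorem mem_sep_rev (W : T.Walls) {g : T.D} {x y : T.V} : T.rev g ∈ T.sep y x ↔ g ∈ T.sep x y := by
  unfold CV.sep
  constructor
  · rintro ⟨h1, h2⟩
    refine ⟨(W.compl g x).1 h2, ?_⟩
    by_contra hcon
    exact h1 ((W.compl g y).2 hcon)
  · rintro ⟨h1, h2⟩
    exact ⟨fun h => (W.compl g y).1 h h2, (W.compl g x).2 h1⟩

theorem bus_half (hD : S_DIST) (W : T.Walls) (B : T.Bdry) (ξ : Bd N) (x v : T.V) :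
    T.busemann ξ x v = ∑ g ∈ (W.finite x v).toFinset, T.ell g * (2 * sg T g ξ - 1) := by
  rw [bus_eq hD W B ξ x v (fs W x v) (mem_fs W x v) (mem_fs' W x v)]
  unfold val fs
  have hdisj : Disjoint (W.finite x v).toFinset (W.finite v x).toFinset := by
    rw [Finset.disjoint_left]
    intro g h1 h2
    rw [Set.Finite.mem_toFinset] at h1 h2
    exact h1.1 h2.2
  rw [Finset.sum_union hdisj]
  have h2 : ∑ g ∈ (W.finite v x).toFinset, T.ell g * (sg T g ξ * (chi T g v - chi T g x)) =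
      ∑ g ∈ (W.finite x v).toFinset, T.ell g * (sg T g ξ - 1) := by
    refine Finset.sum_nbij' (fun g => T.rev g) (fun g => T.rev g) ?_ ?_ ?_ ?_ ?_
    · intro g hg
      rw [Set.Finite.mem_toFinset] at hg ⊢
      exact (mem_sep_rev W).2 hg
    · intro g hg
      rw [Set.Finite.mem_toFinset] at hg ⊢
      exact (mem_sep_rev W).2 hg
    · intro g _; rfl
    · intro g _; rfl
    · intro g hg
      rw [Set.Finite.mem_toFinset] at hg
      have c1 : chi T g v = 0 := by unfold chi; rw [if_neg hg.1]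
      have c2 : chi T g x = 1 := by unfold chi; rw [if_pos hg.2]
      rw [c1, c2, ell_rev, sg_rev B]
      ring
  rw [h2, ← Finset.sum_add_distrib]
  refine Finset.sum_congr rfl fun g hg => ?_
  rw [Set.Finite.mem_toFinset] at hg
  have c1 : chi T g v = 1 := by unfold chi; rw [if_pos hg.2]
  have c2 : chi T g x = 0 := by unfold chi; rw [if_neg hg.1]
  rw [c1, c2]
  ring

theorem grof (hD : S_DIST) (hE : S_HORO2a) (W : T.Walls) (C : T.Cofin) (B : T.Bdry) (Ho : T.Horo)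
    (x : T.V) (ξ ζ : Bd N) (hne : ξ ≠ ζ) :
    {e : T.D | x ∉ T.H e ∧ ξ ∈ T.Sh e ∧ ζ ∈ T.Sh e}.Finite ∧
    T.gromov x ξ ζ = ∑ᶠ e ∈ {e : T.D | x ∉ T.H e ∧ ξ ∈ T.Sh e ∧ ζ ∈ T.Sh e}, T.ell e := by
  obtain ⟨k, hk1, hk2⟩ := (hE N T W C B).1 ξ ζ hne
  have hsub := grof_sub W B hk1 hk2 x
  have hfin := (W.finite x (T.tgt k)).subset hsub
  refine ⟨hfin, ?_⟩
  have hg := Ho.gro k ξ ζ x ((B.compl k ξ).2 hk1) hk2
  rw [bus_half hD W B ξ, bus_half hD W B ζ, ← Finset.sum_add_distrib] at hg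
  rw [finsum_mem_eq_finite_toFinset_sum _ hfin]
  have h1 : ∑ g ∈ (W.finite x (T.tgt k)).toFinset,
      (T.ell g * (2 * sg T g ξ - 1) + T.ell g * (2 * sg T g ζ - 1)) =
      ∑ e ∈ hfin.toFinset, 2 * T.ell e := by
    symm
    rw [← Finset.sum_subset (s₁ := hfin.toFinset) (s₂ := (W.finite x (T.tgt k)).toFinset)]
    · refine Finset.sum_congr rfl fun e he => ?_
      rw [Set.Finite.mem_toFinset] at he
      have c1 : sg T e ξ = 1 := by unfold sg; rw [if_pos he.2.1]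
      have c2 : sg T e ζ = 1 := by unfold sg; rw [if_pos he.2.2]
      rw [c1, c2]
      ring
    · intro e he
      rw [Set.Finite.mem_toFinset] at he ⊢
      exact hsub he
    · intro e he hne'
      rw [Set.Finite.mem_toFinset] at he hne'
      have h3 : ¬ (ξ ∈ T.Sh e ∧ ζ ∈ T.Sh e) := fun h => hne' ⟨he.1, h⟩
      have h4 : ¬ (ξ ∉ T.Sh e ∧ ζ ∉ T.Sh e) := by
        rintro ⟨a1, a2⟩
        have := both_mem W B (g := T.rev e) hk1 hk2 ((B.compl e ξ).2 a1) ((B.compl e ζ).2 a2)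
        exact (W.compl e _).1 this he.2
      unfold sg
      by_cases a1 : ξ ∈ T.Sh e <;> by_cases a2 : ζ ∈ T.Sh e
      · exact absurd ⟨a1, a2⟩ h3
      · rw [if_pos a1, if_neg a2]; ring
      · rw [if_neg a1, if_pos a2]; ring
      · exact absurd ⟨a1, a2⟩ h4
  rw [h1, ← Finset.mul_sum] at hg
  linarith

theorem cn_mono {ξ ζ : Bd N} {n m : ℕ} (h : n ≤ m) (hz : ζ ∈ Cn ξ m) : ζ ∈ Cn ξ n :=
  fun i hi => hz i (lt_of_lt_of_le hi h)

theorem bloc (hD : S_DIST) (hE : S_HORO2a) (W : T.Walls) (C : T.Cofin) (B : T.Bdry)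
    (ξ : Bd N) (x y : T.V) : ∃ n, ∀ ζ ∈ Cn ξ n, T.busemann ζ x y = T.busemann ξ x y := by
  choose m hm using (hE N T W C B).2.1
  refine ⟨(fs W x y).sup m, fun ζ hζ => ?_⟩
  rw [bus_eq hD W B ξ x y (fs W x y) (mem_fs W x y) (mem_fs' W x y),
    bus_eq hD W B ζ x y (fs W x y) (mem_fs W x y) (mem_fs' W x y)]
  unfold val
  refine Finset.sum_congr rfl fun g hg => ?_
  have := hm g ξ ζ (cn_mono (Finset.le_sup hg) hζ)
  unfold sg
  simp only [this]

theorem ell_smul (g : F N) (e : T.D) : T.ell (g • e) = T.ell e := T.len_smul g _ _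

theorem bsmul (hD : S_DIST) (W : T.Walls) (B : T.Bdry) (g : F N) (ξ : Bd N) (x y : T.V) :
    T.busemann (g • ξ) (g • x) (g • y) = T.busemann ξ x y := by
  rw [busf hD W B, busf hD W B]
  rw [← finsum_comp_equiv (MulAction.toPerm g : Equiv.Perm T.D)]
  refine finsum_congr fun h => ?_
  rw [MulAction.toPerm_apply, ell_smul]
  simp only [Set.indicator_apply, Pi.one_apply, B.smul g h ξ, W.smul g h x, W.smul g h y]

theorem gsmul (hD : S_DIST) (hE : S_HORO2a) (W : T.Walls) (C : T.Cofin) (B : T.Bdry) (Ho : T.Horo)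
    (g : F N) (x : T.V) (ξ ζ : Bd N) (hne : ξ ≠ ζ) :
    T.gromov (g • x) (g • ξ) (g • ζ) = T.gromov x ξ ζ := by
  rw [(grof hD hE W C B Ho x ξ ζ hne).2,
    (grof hD hE W C B Ho (g • x) (g • ξ) (g • ζ) (fun h => hne (MulAction.injective g h))).2]
  symm
  refine finsum_mem_eq_of_bijOn (fun e => g • e) ⟨?_, ?_, ?_⟩ ?_
  · intro e he
    exact ⟨fun h => he.1 ((W.smul g e x).1 h), (B.smul g e ξ).2 he.2.1, (B.smul g e ζ).2 he.2.2⟩
  · intro e _ f _ hef
    exact MulAction.injective g hef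
  · intro e he
    refine ⟨g⁻¹ • e, ?_, smul_inv_smul g e⟩
    have h0 : g • (g⁻¹ • e) = e := smul_inv_smul g e
    refine ⟨fun h => he.1 ?_, ?_, ?_⟩
    · have := (W.smul g (g⁻¹ • e) x).2 h
      rwa [h0] at this
    · rw [← B.smul g (g⁻¹ • e) ξ, h0]; exact he.2.1
    · rw [← B.smul g (g⁻¹ • e) ζ, h0]; exact he.2.2
  · intro e _
    exact (ell_smul g e).symm

theorem main (hD : S_DIST) (hE : S_HORO2a) : S_HORO2 := by
  intro N T W C B Ho
  exact ⟨busf hD W B, grof hD hE W C B Ho, (hE N T W C B).1, (hE N T W C B).2.1,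
    bloc hD hE W C B, bsmul hD W B, gsmul hD hE W C B Ho, (hE N T W C B).2.2⟩

end Pool.Agent.R685.PS.Horo2P
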