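import Pool.Agent.R685.PS.Stm2
import Pool.Agent.R685.PS.Act
import Pool.Agent.R685.PS.BdryP
import Pool.Agent.R685.PS.NXP

/-! PSE-HORO2A: shadows separate points, shrink, are open. -/

open MeasureTheory Filter Topology Set
open scoped ENNReal NNReal

namespace Pool.Agent.R685.PS.Horo2a

open CV Classical

variable {N : ℕ} {T : CV N}

/-! ### Words -/

theorem toWord_pre (ξ : Bd N) (n : ℕ) : (pre ξ n).toWord = List.ofFn fun i : Fin n => ξ.1 i.1 := by
  rw [Act.pre_ofFn, FreeGroup.toWord_mk, (Act.pre_reduced ξ n).reduce_eq]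

/-- the elements whose reduced words start with the first `n` letters of `ξ` -/
def PP (ξ : Bd N) (n : ℕ) : Set (F N) := {g | ∀ i < n, g.toWord[i]? = some (ξ.1 i)}

theorem pre_mem (ξ ζ : Bd N) {n m : ℕ} (h : n ≤ m) : pre ζ m ∈ PP ξ n ↔ ζ ∈ Cn ξ n := by
  unfold PP Cn
  simp only [Set.mem_ofPred_eq, toWord_pre]
  refine forall₂_congr fun i hi => ?_
  rw [List.getElem?_ofFn, dif_pos (lt_of_lt_of_le hi h), Option.some_inj]

theorem toWord_of_red {L : List (Letter N)} (h : FreeGroup.IsReduced L) :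
    (FreeGroup.mk L : F N).toWord = L := by
  rw [FreeGroup.toWord_mk, h.reduce_eq]

theorem red_toWord (g : F N) : FreeGroup.IsReduced g.toWord := FreeGroup.isReduced_toWord

theorem linv_mul (a : Letter N) : lt (linv a) * lt a = 1 := by
  have := Act.lt_mul_linv (linv a)
  rwa [linv_linv] at this

theorem letter_prefix (g : F N) (a : Letter N) {n : ℕ} (hn : n < g.toWord.length) :
    ∀ i < n, (g * lt a).toWord[i]? = g.toWord[i]? := by
  intro i hi
  rcases List.eq_nil_or_concat g.toWord with h0 | ⟨L, x, hL⟩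
  · rw [h0] at hn; simp at hn
  rw [List.concat_eq_append] at hL
  have hlen : n ≤ L.length := by
    rw [hL, List.length_append] at hn
    simp at hn
    omega
  have hred := red_toWord g
  rw [hL] at hred
  have hg : g = FreeGroup.mk (L ++ [x]) := by
    rw [← hL, FreeGroup.mk_toWord]
  by_cases hx : x = linv a
  · have h1 : g * lt a = FreeGroup.mk L := by
      rw [hg, ← FreeGroup.mul_mk, mul_assoc, hx]
      have : (FreeGroup.mk [linv a] : F N) * lt a = 1 := linv_mul a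
      rw [this, mul_one]
    have h2 : FreeGroup.IsReduced L := by
      unfold FreeGroup.IsReduced at hred ⊢
      exact (List.isChain_append.1 hred).1
    rw [h1, toWord_of_red h2, hL, List.getElem?_append_left (by omega)]
  · have h1 : g * lt a = FreeGroup.mk ((L ++ [x]) ++ [a]) := by
      rw [hg, lt, FreeGroup.mul_mk]
    have h2 : FreeGroup.IsReduced ((L ++ [x]) ++ [a]) := by
      unfold FreeGroup.IsReduced at hred ⊢
      rw [List.isChain_append]
      refine ⟨hred, List.isChain_singleton _, ?_⟩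
      intro u hu v hv
      simp at hu hv
      subst hu hv
      intro h3
      by_contra h4
      apply hx
      refine Prod.ext h3 ?_
      show x.2 = !a.2
      revert h4
      cases x.2 <;> cases a.2 <;> simp
    rw [h1, toWord_of_red h2, hL, List.getElem?_append_left (by rw [List.length_append]; simp; omega)]

theorem fin_short (n : ℕ) : {g : F N | g.toWord.length ≤ n}.Finite :=
  (List.finite_length_le (Letter N) n).preimage (FreeGroup.toWord_injective.injOn)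

theorem fin_letter (ξ : Bd N) (n : ℕ) (a : Letter N) :
    {g : F N | ¬ (g ∈ PP ξ n ↔ g * lt a ∈ PP ξ n)}.Finite := by
  refine (fin_short n).subset ?_
  intro g hg
  by_contra hcon
  have hcon' : n < g.toWord.length := not_le.1 hcon
  apply hg
  unfold PP
  simp only [Set.mem_ofPred_eq]
  refine forall₂_congr fun i hi => ?_
  rw [letter_prefix g a hcon' i hi]

theorem fin_mul (ξ : Bd N) (n : ℕ) (k : F N) :
    {g : F N | ¬ (g ∈ PP ξ n ↔ g * k ∈ PP ξ n)}.Finite := by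
  have key : ∀ L : List (Letter N),
      {g : F N | ¬ (g ∈ PP ξ n ↔ g * FreeGroup.mk L ∈ PP ξ n)}.Finite := by
    intro L
    induction L using List.reverseRecOn with
    | nil =>
      have : {g : F N | ¬ (g ∈ PP ξ n ↔ g * FreeGroup.mk [] ∈ PP ξ n)} = ∅ := by
        ext g
        have h1 : (FreeGroup.mk [] : F N) = 1 := rfl
        simp [h1]
      rw [this]
      exact Set.finite_empty
    | append_singleton L a ih =>
      have h2 := (fin_letter ξ n a).preimage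
        ((mul_left_injective (FreeGroup.mk L : F N)).injOn (s := _))
      refine (ih.union h2).subset ?_
      intro g hg
      by_contra hcon
      rw [Set.mem_union, not_or] at hcon
      have h3 := not_not.1 hcon.1
      have h4 : g * FreeGroup.mk L ∈ PP ξ n ↔ g * FreeGroup.mk L * lt a ∈ PP ξ n :=
        not_not.1 hcon.2
      apply hg
      rw [← FreeGroup.mul_mk, ← mul_assoc]
      exact h3.trans h4
  have := key k.toWord
  rwa [FreeGroup.mk_toWord] at this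

/-! ### The equivariant map to the group -/

theorem exists_psi : ∃ ψ : T.V → F N, ∀ (g : F N) (v : T.V), ψ (g • v) = g * ψ v := by
  have h : ∀ v : T.V, ∃ g : F N,
      g • (Quotient.mk (MulAction.orbitRel (F N) T.V) v).out = v := by
    intro v
    have h1 : (MulAction.orbitRel (F N) T.V).r
        (Quotient.mk (MulAction.orbitRel (F N) T.V) v).out v := Quotient.exact (Quotient.out_eq _)
    obtain ⟨g, hg⟩ := MulAction.orbitRel_apply.1 h1
    refine ⟨g⁻¹, ?_⟩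
    have hg' : g • v = (Quotient.mk (MulAction.orbitRel (F N) T.V) v).out := hg
    rw [← hg', inv_smul_smul]
  choose ψ hψ using h
  refine ⟨ψ, fun g v => ?_⟩
  have h1 : Quotient.mk (MulAction.orbitRel (F N) T.V) (g • v) =
      Quotient.mk (MulAction.orbitRel (F N) T.V) v :=
    Quotient.sound (MulAction.orbitRel_apply.2 ⟨g, rfl⟩)
  have h2 := hψ (g • v)
  rw [h1] at h2
  apply BdryP.smul_inj (v := (Quotient.mk (MulAction.orbitRel (F N) T.V) v).out)
  rw [h2, mul_smul, hψ v]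

theorem fin_X (C : T.Cofin) {ψ : T.V → F N} (hψ : ∀ (g : F N) (v : T.V), ψ (g • v) = g * ψ v)
    (ξ : Bd N) (n : ℕ) :
    {f : T.D | ¬ (ψ (T.src f) ∈ PP ξ n ↔ ψ (T.tgt f) ∈ PP ξ n)}.Finite := by
  obtain ⟨s, hs, hcov⟩ := C.edge
  have hfin : (⋃ f ∈ s, (fun g : F N => g • f) ''
      {g : F N | ¬ (g * ψ (T.src f) ∈ PP ξ n ↔ g * ψ (T.tgt f) ∈ PP ξ n)}).Finite := by
    refine hs.biUnion fun f _ => Set.Finite.image _ ?_
    have h1 := (fin_mul ξ n ((ψ (T.src f))⁻¹ * ψ (T.tgt f))).preimage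
      ((mul_left_injective (ψ (T.src f))).injOn (s := _))
    refine h1.subset ?_
    intro g hg
    show ¬ (g * ψ (T.src f) ∈ PP ξ n ↔ g * ψ (T.src f) * ((ψ (T.src f))⁻¹ * ψ (T.tgt f)) ∈ PP ξ n)
    have : g * ψ (T.src f) * ((ψ (T.src f))⁻¹ * ψ (T.tgt f)) = g * ψ (T.tgt f) := by group
    rw [this]
    exact hg
  refine hfin.subset ?_
  intro f' hf'
  obtain ⟨g, f, hf, rfl⟩ := hcov f'
  rw [Set.mem_iUnion₂]
  refine ⟨f, hf, g, ?_, rfl⟩
  have h1 : ψ (T.src (g • f)) = g * ψ (T.src f) := hψ g _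
  have h2 : ψ (T.tgt (g • f)) = g * ψ (T.tgt f) := hψ g _
  have hf'' : ¬ (ψ (T.src (g • f)) ∈ PP ξ n ↔ ψ (T.tgt (g • f)) ∈ PP ξ n) := hf'
  rw [h1, h2] at hf''
  exact hf''

theorem ev_mem (hA : S_ACT) (ξ ζ : Bd N) (n : ℕ) (k : F N) :
    ∀ᶠ m in atTop, (pre ζ m * k ∈ PP ξ n ↔ ζ ∈ Cn ξ n) := by
  obtain ⟨n0, hn0⟩ := (hA N).2.2.2.1 _ (fin_mul ξ n k)
  refine Filter.eventually_atTop.2 ⟨max n0 n, fun m hm => ?_⟩
  have h1 := hn0 ζ m (le_trans (le_max_left _ _) hm)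
  have h2 : pre ζ m ∈ PP ξ n ↔ pre ζ m * k ∈ PP ξ n := not_not.1 h1
  rw [← h2]
  exact pre_mem ξ ζ (le_trans (le_max_right _ _) hm)

/-- a function changes along some separating dart -/
theorem tel_exists (hT : S_TEL) (W : T.Walls) (z w : T.V) (Q : T.V → Prop) (hz : ¬ Q z) (hw : Q w) :
    ∃ f ∈ T.sep z w, ¬ (Q (T.src f) ↔ Q (T.tgt f)) := by
  have htel := hT N T W z w (fun u => if Q u then 1 else 0)
  by_contra hcon
  push Not at hcon
  have hzero : ∑ᶠ e ∈ T.sep z w, ((if Q (T.tgt e) then (1 : ℝ) else 0) -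
      (if Q (T.src e) then 1 else 0)) = 0 := by
    refine finsum_mem_eq_zero_of_forall_eq_zero ?_
    intro f hf
    have := hcon f hf
    by_cases h : Q (T.src f)
    · rw [if_pos h, if_pos (this.1 h)]; ring
    · rw [if_neg h, if_neg (fun h' => h (this.2 h'))]; ring
  rw [hzero, if_pos hw, if_neg hz] at htel
  norm_num at htel

theorem sepb (hA : S_ACT) (hT : S_TEL) (W : T.Walls) (C : T.Cofin) (B : T.Bdry) (ξ ζ : Bd N)
    (hne : ξ ≠ ζ) : ∃ e : T.D, ξ ∉ T.Sh e ∧ ζ ∈ T.Sh e := by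
  obtain ⟨n0, hn0⟩ : ∃ n, ξ.1 n ≠ ζ.1 n := by
    by_contra hcon
    push Not at hcon
    exact hne (Subtype.ext (funext hcon))
  obtain ⟨ψ, hψ⟩ := exists_psi (T := T)
  have hnot : ξ ∉ Cn ζ (n0 + 1) := fun h => hn0 (h n0 (Nat.lt_succ_self _))
  have hyes : ζ ∈ Cn ζ (n0 + 1) := fun i _ => rfl
  have hX := fin_X C hψ ζ (n0 + 1)
  obtain ⟨x⟩ : Nonempty T.V := T.isTree.1.nonempty
  have e1 := ev_mem hA ζ ζ (n0 + 1) (ψ x)
  have e2 := ev_mem hA ζ ξ (n0 + 1) (ψ x)
  by_contra hcon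
  push Not at hcon
  have hall : ∀ᶠ m in atTop, ∀ f ∈ {f : T.D | ¬ (ψ (T.src f) ∈ PP ζ (n0 + 1) ↔
      ψ (T.tgt f) ∈ PP ζ (n0 + 1))}, ¬ (f ∈ T.sep (pre ξ m • x) (pre ζ m • x)) := by
    rw [Filter.eventually_all_finite hX]
    intro f _
    by_cases h : ξ ∈ T.Sh f
    · filter_upwards [h x] with m hm hm'
      exact hm'.1 hm
    · have h2 : ζ ∉ T.Sh f := hcon f h
      have h3 : ζ ∈ T.Sh (T.rev f) := (B.compl f ζ).2 h2
      filter_upwards [h3 x] with m hm hm'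
      exact (W.compl f _).1 hm hm'.2
  obtain ⟨m, hm⟩ := ((e1.and e2).and hall).exists
  have q1 : ¬ (ψ (pre ξ m • x) ∈ PP ζ (n0 + 1)) := by
    rw [hψ, hm.1.2]; exact hnot
  have q2 : ψ (pre ζ m • x) ∈ PP ζ (n0 + 1) := by
    rw [hψ, hm.1.1]; exact hyes
  obtain ⟨f, hf1, hf2⟩ := tel_exists hT W _ _ (fun v => ψ v ∈ PP ζ (n0 + 1)) q1 q2
  exact hm.2 f hf2 hf1

theorem pre_congr {ξ ζ : Bd N} {n : ℕ} (h : ζ ∈ Cn ξ n) : pre ζ n = pre ξ n := by
  rw [Act.pre_ofFn, Act.pre_ofFn]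
  congr 1
  congr 1
  funext i
  exact h i.1 i.2

theorem opn (hA : S_ACT) (W : T.Walls) (e : T.D) :
    ∃ n : ℕ, ∀ ξ ζ : Bd N, ζ ∈ Cn ξ n → (ζ ∈ T.Sh e ↔ ξ ∈ T.Sh e) := by
  obtain ⟨n0, hn0⟩ := BdryP.stab hA W e (T.src e)
  have key : ∀ ξ : Bd N, ξ ∈ T.Sh e ↔ pre ξ n0 • T.src e ∈ T.H e := by
    intro ξ
    rw [BdryP.sh_iff hA W e (T.src e)]
    constructor
    · intro h
      obtain ⟨m, hm⟩ := Filter.eventually_atTop.1 h
      exact (hn0 ξ (max m n0) (le_max_right _ _)).1 (hm _ (le_max_left _ _))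
    · intro h
      exact Filter.eventually_atTop.2 ⟨n0, fun n hn => (hn0 ξ n hn).2 h⟩
  refine ⟨n0, fun ξ ζ h => ?_⟩
  rw [key, key, pre_congr h]

theorem start (hA : S_ACT) (hT : S_TEL) (W : T.Walls) (C : T.Cofin) (B : T.Bdry) (x : T.V)
    (ξ : Bd N) : ∃ f : T.D, T.src f = x ∧ ξ ∈ T.Sh f := by
  by_contra hcon
  push Not at hcon
  have hev : ∀ᶠ n in atTop, ∀ f ∈ {f : T.D | T.src f = x}, ¬ (pre ξ n • x ∈ T.H f) := by
    rw [Filter.eventually_all_finite (BdryP.star_fin C x)]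
    intro f hf
    rw [← Filter.not_frequently]
    exact fun hfr => hcon f hf (B.base f x ξ hfr)
  have hfin : {g : F N | g • x = x}.Finite := by
    refine Set.Subsingleton.finite ?_
    intro g hg h hh
    exact BdryP.smul_inj (hg.trans hh.symm)
  obtain ⟨n1, hn1⟩ := (hA N).2.2.2.1 _ hfin
  have hev2 : ∀ᶠ n in atTop, pre ξ n • x ≠ x :=
    Filter.eventually_atTop.2 ⟨n1, fun n hn h => hn1 ξ n hn h⟩
  obtain ⟨n, hn⟩ := (hev.and hev2).exists
  obtain ⟨f, hf1, hf2⟩ := BdryP.exists_dart hT W x (pre ξ n • x) hn.2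
  exact hn.1 f hf1 hf2

theorem shr (hA : S_ACT) (hT : S_TEL) (W : T.Walls) (C : T.Cofin) (B : T.Bdry) (x : T.V)
    (ξ : Bd N) (n : ℕ) : ∃ f : T.D, x ∉ T.H f ∧ ξ ∈ T.Sh f ∧ T.Sh f ⊆ Cn ξ n := by
  have hNX := NXP.main hA N T W C B
  obtain ⟨f0, hf0, hξ⟩ := start hA hT W C B x ξ
  obtain ⟨ψ, hψ⟩ := exists_psi (T := T)
  have hX := fin_X C hψ ξ n
  have hbad : (⋃ f ∈ {f : T.D | ¬ (ψ (T.src f) ∈ PP ξ n ↔ ψ (T.tgt f) ∈ PP ξ n)},
      T.sep x (T.src f)).Finite := hX.biUnion fun f _ => W.finite x (T.src f)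
  have hinj : Function.Injective (fun j : ℕ => (T.nx ξ)^[j] f0) := by
    have aux : ∀ i j : ℕ, i < j → (T.nx ξ)^[i] f0 ≠ (T.nx ξ)^[j] f0 := by
      intro i j hij heq
      have h1 := hNX.out (j - i) ((T.nx ξ)^[i] f0) ξ (hNX.sh i f0 ξ hξ)
      rcases h1 with h1 | h1
      · omega
      · rw [← Function.iterate_add_apply] at h1
        have : j - i + i = j := by omega
        rw [this, ← heq] at h1
        exact h1 (BdryP.tgt_mem W _).2
    intro i j hij
    rcases lt_trichotomy i j with h | h | h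
    · exact absurd hij (aux i j h)
    · exact h
    · exact absurd hij.symm (aux j i h)
  obtain ⟨j, hj⟩ : ∃ j : ℕ, (T.nx ξ)^[j] f0 ∉ (⋃ f ∈ {f : T.D | ¬ (ψ (T.src f) ∈ PP ξ n ↔
      ψ (T.tgt f) ∈ PP ξ n)}, T.sep x (T.src f)) := by
    by_contra hcon
    have : (Set.univ : Set ℕ).Finite :=
      (hbad.preimage (hinj.injOn (s := _))).subset fun j _ => by
        by_contra h
        exact hcon ⟨j, h⟩
    exact Set.infinite_univ this
  set f := (T.nx ξ)^[j] f0 with hf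
  have hxf : x ∉ T.H f := by
    intro h
    have := hNX.sub j f0 ξ hξ h
    rw [← hf0] at this
    exact (BdryP.tgt_mem W f0).1 this
  have hξf : ξ ∈ T.Sh f := hNX.sh j f0 ξ hξ
  refine ⟨f, hxf, hξf, ?_⟩
  intro ζ hζ
  have e1 := ev_mem hA ξ ζ n (ψ x)
  have e2 := ev_mem hA ξ ξ n (ψ x)
  obtain ⟨m, hm⟩ := ((e1.and e2).and ((hζ x).and (hξf x))).exists
  rw [← hm.1.1]
  by_contra hcon
  have q1 : ¬ (ψ (pre ζ m • x) ∈ PP ξ n) := by
    rw [hψ]; exact hcon
  have q2 : ψ (pre ξ m • x) ∈ PP ξ n := by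
    rw [hψ, hm.1.2]; exact fun i _ => rfl
  obtain ⟨d, hd1, hd2⟩ := tel_exists hT W _ _ (fun v => ψ v ∈ PP ξ n) q1 q2
  have h3 := (W.convex d f _ _ hm.2.1 hm.2.2 hd1.1 hd1.2).1
  apply hj
  rw [Set.mem_iUnion₂]
  exact ⟨d, hd2, hxf, h3⟩

theorem main (hA : S_ACT) (hT : S_TEL) : S_HORO2a := by
  intro N T W C B
  exact ⟨sepb hA hT W C B, opn hA W, shr hA hT W C B⟩

end Pool.Agent.R685.PS.Horo2a
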