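import Pool.Agent.R685.PS.Stm

open MeasureTheory Filter Topology Set
open scoped ENNReal NNReal

namespace Pool.Agent.R685.PS.Main2

variable {N : ℕ} {T S : CV N}

theorem smul_eq (g : F N) (e : T.D) : g • e = ⟨(g • e.1.1, g • e.1.2), T.adj_smul g _ _ e.2⟩ := rfl

theorem tgt_smul (g : F N) (e : T.D) : T.tgt (g • e) = g • T.tgt e := rfl

theorem src_smul (g : F N) (e : T.D) : T.src (g • e) = g • T.src e := rfl

instance : Countable (F N) := by
  unfold F
  infer_instance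

theorem countableD (hC : T.Cofin) : Countable T.D := by
  obtain ⟨s, hs, h⟩ := hC.edge
  have : (Set.univ : Set T.D) ⊆ ⋃ g : F N, (fun f => g • f) '' s := by
    intro e _
    obtain ⟨g, f, hf, rfl⟩ := h e
    exact Set.mem_iUnion.2 ⟨g, f, hf, rfl⟩
  have h2 : (Set.univ : Set T.D).Countable :=
    (Set.countable_iUnion fun g => (hs.image _).countable).mono this
  exact Set.countable_univ_iff.1 h2

theorem finiteQ (hC : T.Cofin) : Finite (MulAction.orbitRel.Quotient (F N) T.D) := by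
  obtain ⟨s, hs, h⟩ := hC.edge
  have h3 : (Set.univ : Set (MulAction.orbitRel.Quotient (F N) T.D)) ⊆
      (fun f => (Quotient.mk _ f : MulAction.orbitRel.Quotient (F N) T.D)) '' s := by
    intro q _
    induction q using Quotient.inductionOn with
    | _ e =>
      obtain ⟨g, f, hf, rfl⟩ := h e
      refine ⟨f, hf, ?_⟩
      apply Quotient.sound
      exact ⟨g⁻¹, by simp⟩
  exact Set.finite_univ_iff.1 ((hs.image _).subset h3)

theorem measurable_iter (hC : T.Cofin) (hN : NX T) {c : T.D → Bd N × Bd N → ℝ}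
    (hc : ∀ e, Measurable (c e)) (n : ℕ) (e : T.D) :
    Measurable (fun ω : Bd N × Bd N => c ((T.nx ω.2)^[n] e) ω) := by
  have := countableD hC
  intro B hB
  have : (fun ω : Bd N × Bd N => c ((T.nx ω.2)^[n] e) ω) ⁻¹' B =
      ⋃ d : T.D, ({ω : Bd N × Bd N | (T.nx ω.2)^[n] e = d} ∩ (c d) ⁻¹' B) := by
    ext ω
    simp
  rw [this]
  refine MeasurableSet.iUnion fun d => MeasurableSet.inter ?_ (hc d hB)
  exact measurable_snd (hN.meas n e d)

theorem integrable_iter (hC : T.Cofin) (hBd : T.Bdry) (hN : NX T) {μ : Measure (Bd N × Bd N)}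
    (hI : T.Inv μ) {c : T.D → Bd N × Bd N → ℝ}
    (hc : ∀ e, Measurable (c e)) (hb : ∀ e, ∃ K : ℝ, ∀ ω ∈ T.Cyl e, |c e ω| ≤ K)
    (n : ℕ) (e : T.D) :
    IntegrableOn (fun ω : Bd N × Bd N => c ((T.nx ω.2)^[n] e) ω) (T.Cyl e) μ := by
  classical
  choose K hK using hb
  set Z := (hN.fin n e).toFinset with hZ
  have hcm : MeasurableSet (T.Cyl e) := (hBd.meas _).prod (hBd.meas _)
  refine Measure.integrableOn_of_bounded (M := ∑ f ∈ Z, |K f|) (hI.fin e).ne
    (measurable_iter hC hN hc n e).aestronglyMeasurable ?_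
  filter_upwards [ae_restrict_mem hcm] with ω hω
  have h1 : ω ∈ T.Cyl ((T.nx ω.2)^[n] e) := hN.cyl n e ω hω
  have h2 : (T.nx ω.2)^[n] e ∈ Z := by
    rw [hZ, Set.Finite.mem_toFinset]
    exact ⟨ω.2, hω.2, rfl⟩
  rw [Real.norm_eq_abs]
  calc |c ((T.nx ω.2)^[n] e) ω| ≤ K ((T.nx ω.2)^[n] e) := hK _ _ h1
    _ ≤ |K ((T.nx ω.2)^[n] e)| := le_abs_self _
    _ ≤ ∑ f ∈ Z, |K f| :=
      Finset.single_le_sum (f := fun f => |K f|) (fun f _ => abs_nonneg _) h2

theorem flow_eq_sum [Fintype (MulAction.orbitRel.Quotient (F N) T.D)]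
    (μ : Measure (Bd N × Bd N)) (c : T.D → Bd N × Bd N → ℝ) :
    T.flow μ c = ∑ q : MulAction.orbitRel.Quotient (F N) T.D, ∫ ω in T.Cyl q.out, c q.out ω ∂μ := by
  unfold CV.flow
  exact finsum_eq_sum_of_fintype _

theorem flow_ell (hC : T.Cofin) {μ : Measure (Bd N × Bd N)} (hI : T.Inv μ) :
    T.flow μ (fun e _ => T.ell e) = 2 * (T.inter μ).toReal := by
  have := finiteQ hC
  have := Fintype.ofFinite (MulAction.orbitRel.Quotient (F N) T.D)
  rw [flow_eq_sum]
  unfold CV.inter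
  rw [tsum_fintype, ENNReal.toReal_div, ENNReal.toReal_sum]
  · rw [show (2 : ℝ≥0∞).toReal = 2 by simp]
    rw [mul_div_cancel₀ _ (by norm_num : (2:ℝ) ≠ 0)]
    refine Finset.sum_congr rfl fun q _ => ?_
    rw [setIntegral_const, ENNReal.toReal_mul, ENNReal.toReal_ofReal, smul_eq_mul, mul_comm]
    · rfl
    · exact (T.len_pos _ _ q.out.2).le
  · intro q _
    exact ENNReal.mul_ne_top ENNReal.ofReal_ne_top (hI.fin _).ne


theorem xng_iter (hX : XNG S) (hN : NX T) (φ : T.V → S.V) (ω : Bd N × Bd N) (e : T.D)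
    (hω : ω ∈ T.Cyl e) (n : ℕ) :
    S.xng (φ (T.tgt e)) (φ (T.tgt ((T.nx ω.2)^[n] e))) ω =
      ∑ i ∈ Finset.range n, S.xng (φ (T.src ((T.nx ω.2)^[i + 1] e)))
        (φ (T.tgt ((T.nx ω.2)^[i + 1] e))) ω := by
  induction n with
  | zero =>
    simp only [Function.iterate_zero, id_eq, Finset.range_zero, Finset.sum_empty]
    have := hX.add (φ (T.tgt e)) (φ (T.tgt e)) (φ (T.tgt e)) ω
    linarith
  | succ n ih =>
    rw [Finset.sum_range_succ, ← ih, hX.add _ (φ (T.tgt ((T.nx ω.2)^[n] e))) _ ω]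
    congr 2
    rw [Function.iterate_succ_apply']
    rw [(hN.step _ _ (hN.sh n e ω.2 hω.2)).1]

theorem main (hPhi : S_PHI) (hB : S_BBT) (hU : S_UNF) (hS : S_STAT) (hM : S_MAIN1) :
    S_MAIN2 := by
  intro N T S h h' ν ν' μ hTW hTC hTB hN hSW hSC hSB hX hTD hTcur hI hSD hh'
  classical
  obtain ⟨φ, hφ⟩ := hPhi N T S
  obtain ⟨C, hC0, hC⟩ := hB N T S φ hφ hTW hTC hTB hSW hSC hSB
  obtain ⟨hfin, hunf⟩ := hU N T S φ μ hφ hTW hTC hTB hSW hSC hSB hI
  refine ⟨hfin, ?_⟩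
  have := finiteQ hTC
  have := Fintype.ofFinite (MulAction.orbitRel.Quotient (F N) T.D)
  -- the three flow functions
  obtain ⟨b, hb⟩ : ∃ b : T.D → Bd N × Bd N → ℝ,
      ∀ f ω, b f ω = S.xng (φ (T.src f)) (φ (T.tgt f)) ω := ⟨_, fun _ _ => rfl⟩
  obtain ⟨l, hl⟩ : ∃ l : T.D → Bd N × Bd N → ℝ, ∀ f ω, l f ω = T.ell f := ⟨_, fun _ _ => rfl⟩
  obtain ⟨c0, hc0⟩ : ∃ c0 : T.D → Bd N × Bd N → ℝ, ∀ f ω, c0 f ω =
    Real.log ((ν (T.tgt f)).real (T.Sh f)) - Real.log ((ν' (φ (T.tgt f))).real (T.Sh f)) :=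
    ⟨fun f _ => _, fun _ _ => rfl⟩
  have hb' : b = fun f ω => S.xng (φ (T.src f)) (φ (T.tgt f)) ω := by
    funext f ω; exact hb f ω
  have hl' : l = fun f _ => T.ell f := by
    funext f ω; exact hl f ω
  have hbm : ∀ e, Measurable (b e) := fun e => by
    rw [hb']; exact hX.meas _ _
  have hlm : ∀ e, Measurable (l e) := fun e => by
    rw [hl']; exact measurable_const
  have hcm : ∀ e, Measurable (c0 e) := fun e => by
    rw [funext (hc0 e)]; exact measurable_const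
  have hbb : ∀ e, ∃ K : ℝ, ∀ ω ∈ T.Cyl e, |b e ω| ≤ K := fun e => by
    obtain ⟨K, hK⟩ := hX.bdd (φ (T.src e)) (φ (T.tgt e))
    exact ⟨K, fun ω _ => by rw [hb]; exact hK ω⟩
  have hlb : ∀ e, ∃ K : ℝ, ∀ ω ∈ T.Cyl e, |l e ω| ≤ K := fun e =>
    ⟨|T.ell e|, fun ω _ => by rw [hl]⟩
  have hcb : ∀ e, ∃ K : ℝ, ∀ ω ∈ T.Cyl e, |c0 e ω| ≤ K := fun e =>
    ⟨|Real.log ((ν (T.tgt e)).real (T.Sh e)) -
      Real.log ((ν' (φ (T.tgt e))).real (T.Sh e))|, fun ω _ => by rw [hc0]⟩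
  have hbi : ∀ (g : F N) (e : T.D) (ω : Bd N × Bd N), b (g • e) (g • ω.1, g • ω.2) = b e ω := by
    intro g e ω
    rw [hb, hb, src_smul, tgt_smul, hφ, hφ]
    exact hX.smul g _ _ ω
  have hli : ∀ (g : F N) (e : T.D) (ω : Bd N × Bd N), l (g • e) (g • ω.1, g • ω.2) = l e ω := by
    intro g e ω
    rw [hl, hl]
    exact T.len_smul g _ _
  have hsh : ∀ (g : F N) (e : T.D), {ξ : Bd N | g • ξ ∈ T.Sh (g • e)} = T.Sh e := by
    intro g e
    ext ξ
    exact hTB.smul g e ξ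
  have hci : ∀ (g : F N) (e : T.D) (ω : Bd N × Bd N),
      c0 (g • e) (g • ω.1, g • ω.2) = c0 e ω := by
    intro g e ω
    rw [hc0, hc0, tgt_smul, hφ]
    rw [Measure.real, Measure.real, hTD.equi g _ _ (hTB.meas _), hSD.equi g _ _ (hTB.meas _), hsh]
    rfl
  have hsb : ∀ n, T.flow μ (fun e ω => b ((T.nx ω.2)^[n] e) ω) = T.flow μ b :=
    hS N T μ hTW hTC hTB hN hI b hbm hbb hbi
  have hsl : ∀ n, T.flow μ (fun e ω => l ((T.nx ω.2)^[n] e) ω) = T.flow μ l :=
    hS N T μ hTW hTC hTB hN hI l hlm hlb hli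
  have hsc : ∀ n, T.flow μ (fun e ω => c0 ((T.nx ω.2)^[n] e) ω) = T.flow μ c0 :=
    hS N T μ hTW hTC hTB hN hI c0 hcm hcb hci
  have hbint := fun n e => integrable_iter hTC hTB hN hI hbm hbb n e
  have hlint := fun n e => integrable_iter hTC hTB hN hI hlm hlb n e
  have hcint := fun n e => integrable_iter hTC hTB hN hI hcm hcb n e
  -- the key inequality for each `n`
  have key : ∀ n : ℕ, 0 ≤ (n : ℝ) * (- h * T.flow μ l + h' * T.flow μ b)
      + h' * C * T.flow μ (fun _ _ => 1) := by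
    intro n
    have h1 : ∀ e : T.D, 0 ≤ - h * (∑ i ∈ Finset.range n, ∫ ω in T.Cyl e, l ((T.nx ω.2)^[i + 1] e) ω ∂μ)
        + h' * (∑ i ∈ Finset.range n, ∫ ω in T.Cyl e, b ((T.nx ω.2)^[i + 1] e) ω ∂μ)
        + h' * C * (∫ ω in T.Cyl e, (1 : ℝ) ∂μ)
        + (∫ ω in T.Cyl e, c0 ((T.nx ω.2)^[n] e) ω ∂μ) - ∫ ω in T.Cyl e, c0 e ω ∂μ := by
      intro e
      have hM1 : 0 ≤ ∫ ω in T.Cyl e, (- h * (∑ i ∈ Finset.range n, l ((T.nx ω.2)^[i + 1] e) ω)
          + h' * S.dist (φ (T.tgt e)) (φ (T.tgt ((T.nx ω.2)^[n] e)))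
          + c0 ((T.nx ω.2)^[n] e) ω - c0 e ω) ∂μ := by
        simp only [hl, hc0]
        exact hM N T S φ h h' ν ν' μ hφ hTW hTC hTB hN hSW hSC hSB hTD hTcur hI hSD hh' n e
      refine hM1.trans ?_
      have hcyl : MeasurableSet (T.Cyl e) := (hTB.meas _).prod (hTB.meas _)
      have hI1 : IntegrableOn (fun _ : Bd N × Bd N => (1 : ℝ)) (T.Cyl e) μ :=
        integrableOn_const (hI.fin e).ne
      have hIl : IntegrableOn (fun ω => ∑ i ∈ Finset.range n, l ((T.nx ω.2)^[i + 1] e) ω)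
          (T.Cyl e) μ := integrable_finsetSum _ fun i _ => hlint (i + 1) e
      have hIb : IntegrableOn (fun ω => ∑ i ∈ Finset.range n, b ((T.nx ω.2)^[i + 1] e) ω)
          (T.Cyl e) μ := integrable_finsetSum _ fun i _ => hbint (i + 1) e
      have hId : IntegrableOn (fun ω : Bd N × Bd N =>
          S.dist (φ (T.tgt e)) (φ (T.tgt ((T.nx ω.2)^[n] e)))) (T.Cyl e) μ :=
        integrable_iter hTC hTB hN hI
          (c := fun f _ => S.dist (φ (T.tgt e)) (φ (T.tgt f)))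
          (fun _ => measurable_const) (fun _ => ⟨_, fun ω _ => le_rfl⟩) n e
      have hIc : IntegrableOn (fun ω => c0 ((T.nx ω.2)^[n] e) ω) (T.Cyl e) μ := hcint n e
      have hIc0 : IntegrableOn (fun ω => c0 e ω) (T.Cyl e) μ := hcint 0 e
      have e1 : - h * (∑ i ∈ Finset.range n, ∫ ω in T.Cyl e, l ((T.nx ω.2)^[i + 1] e) ω ∂μ)
        + h' * (∑ i ∈ Finset.range n, ∫ ω in T.Cyl e, b ((T.nx ω.2)^[i + 1] e) ω ∂μ)
        + h' * C * (∫ ω in T.Cyl e, (1 : ℝ) ∂μ)
        + (∫ ω in T.Cyl e, c0 ((T.nx ω.2)^[n] e) ω ∂μ) - ∫ ω in T.Cyl e, c0 e ω ∂μ =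
        ∫ ω in T.Cyl e, (- h * (∑ i ∈ Finset.range n, l ((T.nx ω.2)^[i + 1] e) ω)
          + h' * (∑ i ∈ Finset.range n, b ((T.nx ω.2)^[i + 1] e) ω)
          + h' * C * 1 + c0 ((T.nx ω.2)^[n] e) ω - c0 e ω) ∂μ := by
        rw [integral_sub, integral_add, integral_add, integral_add, integral_const_mul,
          integral_const_mul, integral_const_mul, integral_finsetSum, integral_finsetSum]
        · exact fun i _ => hbint (i + 1) e
        · exact fun i _ => hlint (i + 1) e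
        · exact hIl.const_mul _
        · exact hIb.const_mul _
        · exact (hIl.const_mul _).add (hIb.const_mul _)
        · exact hI1.const_mul _
        · exact ((hIl.const_mul _).add (hIb.const_mul _)).add (hI1.const_mul _)
        · exact hIc
        · exact (((hIl.const_mul _).add (hIb.const_mul _)).add (hI1.const_mul _)).add hIc
        · exact hIc0
      rw [e1]
      refine setIntegral_mono_on ?_ ?_ hcyl ?_
      · exact (((hIl.const_mul _).add (hId.const_mul _)).add hIc).sub hIc0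
      · exact ((((hIl.const_mul _).add (hIb.const_mul _)).add (hI1.const_mul _)).add hIc).sub hIc0
      · intro ω hω
        have hd : S.dist (φ (T.tgt e)) (φ (T.tgt ((T.nx ω.2)^[n] e))) ≤
            (∑ i ∈ Finset.range n, b ((T.nx ω.2)^[i + 1] e) ω) + C := by
          have h2 := hC e ((T.nx ω.2)^[n] e) ω hω (hN.sh n e ω.2 hω.2) ?_ ?_
          · rw [xng_iter hX hN φ ω e hω n] at h2
            simp only [hb]
            exact h2
          · apply hN.sub n e ω.2 hω.2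
            exact ((hTW.cross ((T.nx ω.2)^[n] e) ((T.nx ω.2)^[n] e)).2 rfl).2
          · rcases hN.out n e ω.2 hω.2 with h0 | h0
            · left
              subst h0
              rfl
            · right
              exact h0
        have hd2 := mul_le_mul_of_nonneg_left hd hh'
        linarith
    have h2 := Finset.sum_nonneg (s := Finset.univ)
      fun (q : MulAction.orbitRel.Quotient (F N) T.D) _ => h1 q.out
    rw [Finset.sum_sub_distrib, Finset.sum_add_distrib, Finset.sum_add_distrib,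
      Finset.sum_add_distrib, ← Finset.mul_sum, ← Finset.mul_sum, ← Finset.mul_sum,
      Finset.sum_comm, Finset.sum_comm (f := fun (q : MulAction.orbitRel.Quotient (F N) T.D) i =>
        ∫ ω in T.Cyl q.out, b ((T.nx ω.2)^[i + 1] q.out) ω ∂μ)] at h2
    have h3 : ∀ i : ℕ, ∑ q : MulAction.orbitRel.Quotient (F N) T.D,
        ∫ ω in T.Cyl q.out, l ((T.nx ω.2)^[i + 1] q.out) ω ∂μ = T.flow μ l := fun i => by
      rw [← hsl (i + 1), flow_eq_sum]
    have h4 : ∀ i : ℕ, ∑ q : MulAction.orbitRel.Quotient (F N) T.D,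
        ∫ ω in T.Cyl q.out, b ((T.nx ω.2)^[i + 1] q.out) ω ∂μ = T.flow μ b := fun i => by
      rw [← hsb (i + 1), flow_eq_sum]
    have h5 : ∑ q : MulAction.orbitRel.Quotient (F N) T.D,
        ∫ ω in T.Cyl q.out, c0 ((T.nx ω.2)^[n] q.out) ω ∂μ = T.flow μ c0 := by
      rw [← hsc n, flow_eq_sum]
    have h6 : ∑ q : MulAction.orbitRel.Quotient (F N) T.D,
        ∫ ω in T.Cyl q.out, c0 q.out ω ∂μ = T.flow μ c0 := by
      rw [flow_eq_sum]
    have h7 : ∑ q : MulAction.orbitRel.Quotient (F N) T.D,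
        ∫ ω in T.Cyl q.out, (1 : ℝ) ∂μ = T.flow μ (fun _ _ => 1) := by
      rw [flow_eq_sum]
    rw [h5, h6, h7] at h2
    simp only [h3, h4, Finset.sum_const, Finset.card_range, nsmul_eq_mul] at h2
    linarith
  have hL : T.flow μ l = 2 * (T.inter μ).toReal := by
    rw [hl']; exact flow_ell hTC hI
  have hBf : T.flow μ b = 2 * (S.inter μ).toReal := by
    rw [hb']; exact hunf
  rw [hL, hBf] at key
  by_contra hcon
  push Not at hcon
  set δ := h * (T.inter μ).toReal - h' * (S.inter μ).toReal with hδ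
  have hδ0 : 0 < δ := by rw [hδ]; linarith
  obtain ⟨n, hn⟩ := exists_nat_gt (h' * C * T.flow μ (fun _ _ => 1) / (2 * δ))
  have h8 := key n
  rw [div_lt_iff₀ (by linarith)] at hn
  have h9 : (n : ℝ) * (- h * (2 * (T.inter μ).toReal) + h' * (2 * (S.inter μ).toReal)) =
    - (n * (2 * δ)) := by rw [hδ]; ring
  rw [h9] at h8
  linarith

end Pool.Agent.R685.PS.Main2
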