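import Pool.Agent.R685.PS.Stm2
import Pool.Agent.R685.PS.Main2

open MeasureTheory Filter Topology Set
open scoped ENNReal NNReal

namespace Pool.Agent.R685.PS.Klb

open Pool.Agent.R685.PS.Main2

variable {N : ℕ} {T S : CV N}

theorem pre_congr {ξ ζ : Bd N} {n : ℕ} (h : ∀ i < n, ζ.1 i = ξ.1 i) : pre ζ n = pre ξ n := by
  induction n with
  | zero => rfl
  | succ n ih =>
    show pre ζ n * lt (ζ.1 n) = pre ξ n * lt (ξ.1 n)
    rw [ih fun i hi => h i (by omega), h n (Nat.lt_succ_self n)]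

theorem sh_ne_zero (hTB : T.Bdry) {ζ : Bd N} {e : T.D} (hζ : ζ ∈ T.Sh e) {m : Measure (Bd N)}
    (hm : ∀ n : ℕ, m {ζ' | ∀ i < n, ζ'.1 i = ζ.1 i} ≠ 0) : m (T.Sh e) ≠ 0 := by
  obtain ⟨n0, hn0⟩ := hTB.stab e (T.tgt e)
  have h1 : pre ζ n0 • T.tgt e ∈ T.H e := by
    obtain ⟨n, hn1, hn2⟩ := ((hζ (T.tgt e)).and (eventually_ge_atTop n0)).exists
    exact (hn0 ζ n hn2).1 hn1
  intro h0
  refine hm n0 (measure_mono_null ?_ h0)
  intro ζ' hζ'
  apply hTB.base e (T.tgt e) ζ'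
  refine (eventually_atTop.2 ⟨n0, fun n hn => ?_⟩).frequently
  rw [hn0 ζ' n hn, pre_congr hζ']
  exact h1

theorem sh_real_pos (hTB : T.Bdry) {ζ : Bd N} {e : T.D} (hζ : ζ ∈ T.Sh e) {m : Measure (Bd N)}
    (hf : IsFiniteMeasure m) (hm : ∀ n : ℕ, m {ζ' | ∀ i < n, ζ'.1 i = ζ.1 i} ≠ 0) :
    0 < m.real (T.Sh e) :=
  ENNReal.toReal_pos (sh_ne_zero hTB hζ hm) (measure_ne_top m _)

theorem conf_iter {h : ℝ} {ν : T.V → Measure (Bd N)} (hTB : T.Bdry) (hN : NX T)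
    (hTD : T.Dens h ν) {ζ : Bd N} {e : T.D} (hζ : ζ ∈ T.Sh e) (n : ℕ) :
    ∀ A : Set (Bd N), MeasurableSet A → A ⊆ T.Sh ((T.nx ζ)^[n] e) →
      ν (T.tgt e) A = ENNReal.ofReal (Real.exp (-h * ∑ i ∈ Finset.range n,
        T.ell ((T.nx ζ)^[i + 1] e))) * ν (T.tgt ((T.nx ζ)^[n] e)) A := by
  induction n with
  | zero =>
    intro A _ _
    simp
  | succ n ih =>
    intro A hA hsub
    have hst := hN.step ((T.nx ζ)^[n] e) ζ (hN.sh n e ζ hζ)
    rw [← Function.iterate_succ_apply' (T.nx ζ) n e] at hst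
    have hsub' : A ⊆ T.Sh ((T.nx ζ)^[n] e) := hsub.trans (hTB.sub _ _ hst.1 hst.2)
    rw [ih A hA hsub', ← hst.1, hTD.conf _ A hA hsub, Finset.sum_range_succ, mul_add, Real.exp_add,
      ENNReal.ofReal_mul (Real.exp_pos _).le, mul_assoc]

/-- the pointwise inequality -/
theorem pointwise {φ : T.V → S.V} {h h' : ℝ} {ν : T.V → Measure (Bd N)}
    {ν' : S.V → Measure (Bd N)} (hTB : T.Bdry) (hN : NX T) (hTD : T.Dens h ν) (hSD : S.Dens h' ν')
    {ζ : Bd N} {e : T.D} (hζ : ζ ∈ T.Sh e) (n : ℕ) :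
    Lg T S φ ν ν' n e ζ ≤ - h * (∑ i ∈ Finset.range n, T.ell ((T.nx ζ)^[i + 1] e))
      + h' * S.dist (φ (T.tgt e)) (φ (T.tgt ((T.nx ζ)^[n] e)))
      + (Real.log ((ν (T.tgt ((T.nx ζ)^[n] e))).real (T.Sh ((T.nx ζ)^[n] e)))
        - Real.log ((ν' (φ (T.tgt ((T.nx ζ)^[n] e)))).real (T.Sh ((T.nx ζ)^[n] e)))) := by
  set f := (T.nx ζ)^[n] e with hf
  have hζf : ζ ∈ T.Sh f := hN.sh n e ζ hζ
  have hp1 : 0 < (ν (T.tgt f)).real (T.Sh f) :=
    sh_real_pos hTB hζf (hTD.fin _) fun n => hTD.pos _ ζ n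
  have hp2 : 0 < (ν' (φ (T.tgt f))).real (T.Sh f) :=
    sh_real_pos hTB hζf (hSD.fin _) fun n => hSD.pos _ ζ n
  have hp3 : 0 < (ν' (φ (T.tgt e))).real (T.Sh f) :=
    sh_real_pos hTB hζf (hSD.fin _) fun n => hSD.pos _ ζ n
  have e1 : (ν (T.tgt e)).real (T.Sh f) = Real.exp (-h * ∑ i ∈ Finset.range n,
      T.ell ((T.nx ζ)^[i + 1] e)) * (ν (T.tgt f)).real (T.Sh f) := by
    rw [Measure.real, conf_iter hTB hN hTD hζ n (T.Sh f) (hTB.meas _) Subset.rfl,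
      ENNReal.toReal_mul, ENNReal.toReal_ofReal (Real.exp_pos _).le]
    rfl
  have e2 : Real.exp (-h' * S.dist (φ (T.tgt e)) (φ (T.tgt f))) *
      (ν' (φ (T.tgt f))).real (T.Sh f) ≤ (ν' (φ (T.tgt e))).real (T.Sh f) := by
    have h1 := hSD.low (φ (T.tgt e)) (φ (T.tgt f)) (T.Sh f) (hTB.meas _)
    have := hSD.fin (φ (T.tgt e))
    have h2 := ENNReal.toReal_mono (measure_ne_top _ _) h1
    rwa [ENNReal.toReal_mul, ENNReal.toReal_ofReal (Real.exp_pos _).le] at h2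
  have e3 := Real.log_le_log (mul_pos (Real.exp_pos _) hp2) e2
  rw [Real.log_mul (Real.exp_pos _).ne' hp2.ne', Real.log_exp] at e3
  unfold Lg
  rw [← hf, e1, Real.log_mul (Real.exp_pos _).ne' hp1.ne', Real.log_exp]
  linarith

theorem main (hB : S_BBT) (hU : S_UNF) (hS : S_STAT) : S_KLB := by
  intro N T S φ h h' ν ν' μ hD heq
  classical
  have hφ := hD.phi
  have hTW := hD.TW
  have hTC := hD.TC
  have hTB := hD.TB
  have hN := hD.TN
  have hX := hD.SX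
  have hI := hD.TI
  have hTD := hD.TD
  have hSD := hD.SD
  have hh' := hD.hpos'.le
  obtain ⟨C, hC0, hC⟩ := hB N T S φ hφ hTW hTC hTB hD.SW hD.SC hD.SB
  obtain ⟨hfin, hunf⟩ := hU N T S φ μ hφ hTW hTC hTB hD.SW hD.SC hD.SB hI
  have := finiteQ hTC
  have := Fintype.ofFinite (MulAction.orbitRel.Quotient (F N) T.D)
  refine ⟨h' * C * T.flow μ (fun _ _ => 1), fun n => ?_⟩
  -- the three flow functions
  obtain ⟨b, hb⟩ : ∃ b : T.D → Bd N × Bd N → ℝ,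
      ∀ f ω, b f ω = S.xng (φ (T.src f)) (φ (T.tgt f)) ω := ⟨_, fun _ _ => rfl⟩
  obtain ⟨l, hl⟩ : ∃ l : T.D → Bd N × Bd N → ℝ, ∀ f ω, l f ω = T.ell f := ⟨_, fun _ _ => rfl⟩
  obtain ⟨c0, hc0⟩ : ∃ c0 : T.D → Bd N × Bd N → ℝ, ∀ f ω, c0 f ω =
    Real.log ((ν (T.tgt f)).real (T.Sh f)) - Real.log ((ν' (φ (T.tgt f))).real (T.Sh f)) :=
    ⟨fun f _ => _, fun _ _ => rfl⟩
  have hb' : b = fun f ω => S.xng (φ (T.src f)) (φ (T.tgt f)) ω := by
    funext f ω; exact hb f ω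
  have hl' : l = fun f _ => T.ell f := by
    funext f ω; exact hl f ω
  have hbm : ∀ e, Measurable (b e) := fun e => by
    rw [hb']; exact hX.meas _ _
  have hlm : ∀ e, Measurable (l e) := fun e => by
    rw [hl']; exact measurable_const
  have hcm : ∀ e, Measurable (c0 e) := fun e => by
    rw [funext (hc0 e)]; exact measurable_const
  have hbb : ∀ e, ∃ K : ℝ, ∀ ω ∈ T.Cyl e, |b e ω| ≤ K := fun e => by
    obtain ⟨K, hK⟩ := hX.bdd (φ (T.src e)) (φ (T.tgt e))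
    exact ⟨K, fun ω _ => by rw [hb]; exact hK ω⟩
  have hlb : ∀ e, ∃ K : ℝ, ∀ ω ∈ T.Cyl e, |l e ω| ≤ K := fun e =>
    ⟨|T.ell e|, fun ω _ => by rw [hl]⟩
  have hcb : ∀ e, ∃ K : ℝ, ∀ ω ∈ T.Cyl e, |c0 e ω| ≤ K := fun e =>
    ⟨|Real.log ((ν (T.tgt e)).real (T.Sh e)) -
      Real.log ((ν' (φ (T.tgt e))).real (T.Sh e))|, fun ω _ => by rw [hc0]⟩
  have hbi : ∀ (g : F N) (e : T.D) (ω : Bd N × Bd N), b (g • e) (g • ω.1, g • ω.2) = b e ω := by
    intro g e ω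
    rw [hb, hb, src_smul, tgt_smul, hφ, hφ]
    exact hX.smul g _ _ ω
  have hli : ∀ (g : F N) (e : T.D) (ω : Bd N × Bd N), l (g • e) (g • ω.1, g • ω.2) = l e ω := by
    intro g e ω
    rw [hl, hl]
    exact T.len_smul g _ _
  have hsh : ∀ (g : F N) (e : T.D), {ξ : Bd N | g • ξ ∈ T.Sh (g • e)} = T.Sh e := by
    intro g e
    ext ξ
    exact hTB.smul g e ξ
  have hci : ∀ (g : F N) (e : T.D) (ω : Bd N × Bd N),
      c0 (g • e) (g • ω.1, g • ω.2) = c0 e ω := by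
    intro g e ω
    rw [hc0, hc0, tgt_smul, hφ]
    rw [Measure.real, Measure.real, hTD.equi g _ _ (hTB.meas _), hSD.equi g _ _ (hTB.meas _), hsh]
    rfl
  have hsb : ∀ n, T.flow μ (fun e ω => b ((T.nx ω.2)^[n] e) ω) = T.flow μ b :=
    hS N T μ hTW hTC hTB hN hI b hbm hbb hbi
  have hsl : ∀ n, T.flow μ (fun e ω => l ((T.nx ω.2)^[n] e) ω) = T.flow μ l :=
    hS N T μ hTW hTC hTB hN hI l hlm hlb hli
  have hsc : ∀ n, T.flow μ (fun e ω => c0 ((T.nx ω.2)^[n] e) ω) = T.flow μ c0 :=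
    hS N T μ hTW hTC hTB hN hI c0 hcm hcb hci
  have hbint := fun n e => integrable_iter hTC hTB hN hI hbm hbb n e
  have hlint := fun n e => integrable_iter hTC hTB hN hI hlm hlb n e
  have hcint := fun n e => integrable_iter hTC hTB hN hI hcm hcb n e
  have h1 : ∀ e : T.D, ∫ ω in T.Cyl e, (Lg T S φ ν ν' n e ω.2 - Lg T S φ ν ν' 0 e ω.2) ∂μ ≤
      - h * (∑ i ∈ Finset.range n, ∫ ω in T.Cyl e, l ((T.nx ω.2)^[i + 1] e) ω ∂μ)
      + h' * (∑ i ∈ Finset.range n, ∫ ω in T.Cyl e, b ((T.nx ω.2)^[i + 1] e) ω ∂μ)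
      + h' * C * (∫ ω in T.Cyl e, (1 : ℝ) ∂μ)
      + (∫ ω in T.Cyl e, c0 ((T.nx ω.2)^[n] e) ω ∂μ) - ∫ ω in T.Cyl e, c0 e ω ∂μ := by
    intro e
    have hcyl : MeasurableSet (T.Cyl e) := (hTB.meas _).prod (hTB.meas _)
    have hI1 : IntegrableOn (fun _ : Bd N × Bd N => (1 : ℝ)) (T.Cyl e) μ :=
      integrableOn_const (hI.fin e).ne
    have hIl : IntegrableOn (fun ω => ∑ i ∈ Finset.range n, l ((T.nx ω.2)^[i + 1] e) ω)
        (T.Cyl e) μ := integrable_finsetSum _ fun i _ => hlint (i + 1) e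
    have hIb : IntegrableOn (fun ω => ∑ i ∈ Finset.range n, b ((T.nx ω.2)^[i + 1] e) ω)
        (T.Cyl e) μ := integrable_finsetSum _ fun i _ => hbint (i + 1) e
    have hIc : IntegrableOn (fun ω => c0 ((T.nx ω.2)^[n] e) ω) (T.Cyl e) μ := hcint n e
    have hIc0 : IntegrableOn (fun ω => c0 e ω) (T.Cyl e) μ := hcint 0 e
    have hIL : ∀ k : ℕ, IntegrableOn (fun ω : Bd N × Bd N => Lg T S φ ν ν' k e ω.2)
        (T.Cyl e) μ := fun k =>
      integrable_iter hTC hTB hN hI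
        (c := fun f _ => Real.log ((ν (T.tgt e)).real (T.Sh f)) -
          Real.log ((ν' (φ (T.tgt e))).real (T.Sh f)))
        (fun _ => measurable_const) (fun _ => ⟨_, fun ω _ => le_rfl⟩) k e
    have e1 : - h * (∑ i ∈ Finset.range n, ∫ ω in T.Cyl e, l ((T.nx ω.2)^[i + 1] e) ω ∂μ)
      + h' * (∑ i ∈ Finset.range n, ∫ ω in T.Cyl e, b ((T.nx ω.2)^[i + 1] e) ω ∂μ)
      + h' * C * (∫ ω in T.Cyl e, (1 : ℝ) ∂μ)
      + (∫ ω in T.Cyl e, c0 ((T.nx ω.2)^[n] e) ω ∂μ) - ∫ ω in T.Cyl e, c0 e ω ∂μ =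
      ∫ ω in T.Cyl e, (- h * (∑ i ∈ Finset.range n, l ((T.nx ω.2)^[i + 1] e) ω)
        + h' * (∑ i ∈ Finset.range n, b ((T.nx ω.2)^[i + 1] e) ω)
        + h' * C * 1 + c0 ((T.nx ω.2)^[n] e) ω - c0 e ω) ∂μ := by
      rw [integral_sub, integral_add, integral_add, integral_add, integral_const_mul,
        integral_const_mul, integral_const_mul, integral_finsetSum, integral_finsetSum]
      · exact fun i _ => hbint (i + 1) e
      · exact fun i _ => hlint (i + 1) e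
      · exact hIl.const_mul _
      · exact hIb.const_mul _
      · exact (hIl.const_mul _).add (hIb.const_mul _)
      · exact hI1.const_mul _
      · exact ((hIl.const_mul _).add (hIb.const_mul _)).add (hI1.const_mul _)
      · exact hIc
      · exact (((hIl.const_mul _).add (hIb.const_mul _)).add (hI1.const_mul _)).add hIc
      · exact hIc0
    rw [e1]
    refine setIntegral_mono_on ?_ ?_ hcyl ?_
    · exact (hIL n).sub (hIL 0)
    · exact ((((hIl.const_mul _).add (hIb.const_mul _)).add (hI1.const_mul _)).add hIc).sub hIc0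
    · intro ω hω
      have hd : S.dist (φ (T.tgt e)) (φ (T.tgt ((T.nx ω.2)^[n] e))) ≤
          (∑ i ∈ Finset.range n, b ((T.nx ω.2)^[i + 1] e) ω) + C := by
        have h2 := hC e ((T.nx ω.2)^[n] e) ω hω (hN.sh n e ω.2 hω.2) ?_ ?_
        · rw [xng_iter hX hN φ ω e hω n] at h2
          simp only [hb]
          exact h2
        · apply hN.sub n e ω.2 hω.2
          exact ((hTW.cross ((T.nx ω.2)^[n] e) ((T.nx ω.2)^[n] e)).2 rfl).2
        · rcases hN.out n e ω.2 hω.2 with h0 | h0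
          · left
            subst h0
            rfl
          · right
            exact h0
      have hd2 := mul_le_mul_of_nonneg_left hd hh'
      have hp := pointwise (φ := φ) hTB hN hTD hSD hω.2 n
      have h00 : Lg T S φ ν ν' 0 e ω.2 = c0 e ω := by
        rw [hc0]; rfl
      rw [h00]
      simp only [hl]
      rw [hc0 ((T.nx ω.2)^[n] e) ω]
      linarith
  have h2 := Finset.sum_le_sum (s := Finset.univ)
    fun (q : MulAction.orbitRel.Quotient (F N) T.D) _ => h1 q.out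
  rw [Finset.sum_sub_distrib, Finset.sum_add_distrib, Finset.sum_add_distrib,
    Finset.sum_add_distrib, ← Finset.mul_sum, ← Finset.mul_sum, ← Finset.mul_sum,
    Finset.sum_comm, Finset.sum_comm (f := fun (q : MulAction.orbitRel.Quotient (F N) T.D) i =>
      ∫ ω in T.Cyl q.out, b ((T.nx ω.2)^[i + 1] q.out) ω ∂μ)] at h2
  have h3 : ∀ i : ℕ, ∑ q : MulAction.orbitRel.Quotient (F N) T.D,
      ∫ ω in T.Cyl q.out, l ((T.nx ω.2)^[i + 1] q.out) ω ∂μ = T.flow μ l := fun i => by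
    rw [← hsl (i + 1), flow_eq_sum]
  have h4 : ∀ i : ℕ, ∑ q : MulAction.orbitRel.Quotient (F N) T.D,
      ∫ ω in T.Cyl q.out, b ((T.nx ω.2)^[i + 1] q.out) ω ∂μ = T.flow μ b := fun i => by
    rw [← hsb (i + 1), flow_eq_sum]
  have h5 : ∑ q : MulAction.orbitRel.Quotient (F N) T.D,
      ∫ ω in T.Cyl q.out, c0 ((T.nx ω.2)^[n] q.out) ω ∂μ = T.flow μ c0 := by
    rw [← hsc n, flow_eq_sum]
  have h6 : ∑ q : MulAction.orbitRel.Quotient (F N) T.D,
      ∫ ω in T.Cyl q.out, c0 q.out ω ∂μ = T.flow μ c0 := by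
    rw [flow_eq_sum]
  have h7 : ∑ q : MulAction.orbitRel.Quotient (F N) T.D,
      ∫ ω in T.Cyl q.out, (1 : ℝ) ∂μ = T.flow μ (fun _ _ => 1) := by
    rw [flow_eq_sum]
  rw [h5, h6, h7] at h2
  simp only [h3, h4, Finset.sum_const, Finset.card_range, nsmul_eq_mul] at h2
  have hL : T.flow μ l = 2 * (T.inter μ).toReal := by
    rw [hl']; exact flow_ell hTC hI
  have hBf : T.flow μ b = 2 * (S.inter μ).toReal := by
    rw [hb']; exact hunf
  rw [hL, hBf] at h2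
  rw [flow_eq_sum]
  refine h2.trans (le_of_eq ?_)
  linear_combination (-2 * (n : ℝ)) * heq

end Pool.Agent.R685.PS.Klb
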