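import Pool.Agent.R685.PS.Stm2
import Pool.Agent.R685.PS.Act
import Pool.Agent.R685.PS.BdryP

/-!
# MP_79396e_al, piece PSE-RED: facts on reduced trees
-/

set_option linter.unusedVariables false

open MeasureTheory Filter Topology Set

namespace Pool.Agent.R685.PS.RedP

variable {N : ℕ} {T : CV N}

/-! ### infinite reduced words with a given beginning -/

theorem linv_ne (a : Letter N) : a ≠ linv a := by
  intro h
  have := congrArg Prod.snd h
  simp [linv] at this

theorem exists_word (g : F N) (hg : g.toWord ≠ []) : ∃ ξ : Bd N, pre ξ g.toWord.length = g := by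
  set L := g.toWord with hL
  have hred : FreeGroup.IsReduced L := FreeGroup.isReduced_toWord
  have hpos : 0 < L.length := List.length_pos_of_ne_nil hg
  have hch : ∀ (i : ℕ) (hi : i + 1 < L.length),
      (L[i]'(by omega)).1 = (L[i + 1]'hi).1 → (L[i]'(by omega)).2 = (L[i + 1]'hi).2 := by
    intro i hi
    have := hred
    rw [FreeGroup.IsReduced, List.isChain_iff_getElem] at this
    exact this i hi
  set w : ℕ → Letter N := fun i => L[min i (L.length - 1)]'(by omega) with hw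
  have hwn : ∀ n, w (n + 1) ≠ linv (w n) := by
    intro n
    by_cases hn : n + 1 < L.length
    · have e1 : w (n + 1) = L[n + 1]'hn := by
        simp only [hw]
        congr 1
        omega
      have e2 : w n = L[n]'(by omega) := by
        simp only [hw]
        congr 1
        omega
      rw [e1, e2]
      intro h
      have h1 : (L[n]'(by omega)).1 = (L[n + 1]'hn).1 := by rw [h]; rfl
      have h2 := hch n hn h1
      rw [h] at h2
      simp [linv] at h2
    · have e : w (n + 1) = w n := by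
        simp only [hw]
        congr 1
        omega
      rw [e]
      exact linv_ne _
  have e : (List.ofFn fun i : Fin L.length => w i.1) = L := by
    have e' : (fun i : Fin L.length => w i.1) = fun i : Fin L.length => L[i.1]'i.2 := by
      funext i
      simp only [hw]
      congr 1
      have := i.2
      omega
    rw [e']
    exact List.ofFn_getElem
  have key0 : FreeGroup.mk (List.ofFn fun i : Fin L.length => w i.1) = g := by
    rw [e, hL, FreeGroup.mk_toWord]
  have key : ∀ ξ : Bd N, ξ.1 = w → pre ξ L.length = g := by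
    intro ξ hξ
    rw [Act.pre_ofFn, hξ]
    exact key0
  exact ⟨⟨w, hwn⟩, key _ rfl⟩

theorem finite_short (n : ℕ) : {g : F N | g.toWord.length < n}.Finite := by
  have h := List.finite_length_lt (Letter N) n
  exact h.preimage (FreeGroup.toWord_injective.injOn)

/-! ### half trees -/

theorem src_notMem (W : T.Walls) (e : T.D) : T.src e ∉ T.H e := ((W.cross e e).2 rfl).1

theorem tgt_mem (W : T.Walls) (e : T.D) : T.tgt e ∈ T.H e := ((W.cross e e).2 rfl).2

theorem disj (W : T.Walls) {f f' : T.D} (hs : T.src f = T.src f') (hne : f ≠ f') (w : T.V)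
    (hw : w ∈ T.H f) : w ∉ T.H f' := by
  intro hw'
  have h1 : T.tgt f' ∉ T.H f := by
    intro h
    have := (W.cross f' f).1 ⟨by rw [← hs]; exact src_notMem W f, h⟩
    exact hne this
  have h2 := W.convex f f' (T.tgt f') w (tgt_mem W f') hw' h1 hw
  rw [hs] at h2
  exact src_notMem W f' h2.1

theorem src_rev (e : T.D) : T.src (T.rev e) = T.tgt e := rfl

theorem sub_next (W : T.Walls) {e f : T.D} (hs : T.src f = T.tgt e) (hne : f ≠ T.rev e) :
    T.H f ⊆ T.H e := by
  intro w hw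
  have h := disj W (f := f) (f' := T.rev e) (by rw [hs, src_rev]) hne w hw
  rw [W.compl] at h
  exact not_not.1 h

theorem exists_two (R : T.Reduced) (e : T.D) : ∃ d1 d2 : T.D, d1 ≠ d2 ∧ T.src d1 = T.tgt e ∧
    T.src d2 = T.tgt e ∧ d1 ≠ T.rev e ∧ d2 ≠ T.rev e := by
  obtain ⟨a, b, c, ha, hb, hc, hab, hac, hbc⟩ := R (T.tgt e)
  have key : ∀ (x : T.V) (hx : T.G.Adj (T.tgt e) x), x ≠ T.src e →
      (⟨(T.tgt e, x), hx⟩ : T.D) ≠ T.rev e := by
    intro x hx hne h
    apply hne
    have := congrArg (fun d : T.D => d.1.2) h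
    exact this
  have key2 : ∀ (x y : T.V) (hx : T.G.Adj (T.tgt e) x) (hy : T.G.Adj (T.tgt e) y), x ≠ y →
      (⟨(T.tgt e, x), hx⟩ : T.D) ≠ ⟨(T.tgt e, y), hy⟩ := by
    intro x y hx hy hne h
    apply hne
    exact congrArg (fun d : T.D => d.1.2) h
  by_cases h1 : a = T.src e
  · exact ⟨⟨(T.tgt e, b), hb⟩, ⟨(T.tgt e, c), hc⟩, key2 b c hb hc hbc, rfl, rfl,
      key b hb (fun h => hab (h1.trans h.symm)), key c hc (fun h => hac (h1.trans h.symm))⟩
  · by_cases h2 : b = T.src e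
    · exact ⟨⟨(T.tgt e, a), ha⟩, ⟨(T.tgt e, c), hc⟩, key2 a c ha hc hac, rfl, rfl,
        key a ha h1, key c hc (fun h => hbc (h2.trans h.symm))⟩
    · exact ⟨⟨(T.tgt e, a), ha⟩, ⟨(T.tgt e, b), hb⟩, key2 a b ha hb hab, rfl, rfl,
        key a ha h1, key b hb h2⟩

theorem H_infinite (W : T.Walls) (R : T.Reduced) (e : T.D) : (T.H e).Infinite := by
  intro hfin
  have h1 : ∀ f : T.D, ∃ f' : T.D, T.src f' = T.tgt f ∧ f' ≠ T.rev f := by
    intro f
    obtain ⟨d1, d2, -, h1, -, h2, -⟩ := exists_two R f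
    exact ⟨d1, h1, h2⟩
  choose nxt hn1 hn2 using h1
  have hsub : ∀ j, T.H (nxt^[j] e) ⊆ T.H e := by
    intro j
    induction j with
    | zero => exact subset_rfl
    | succ j ih =>
      rw [Function.iterate_succ_apply']
      exact (sub_next W (hn1 _) (hn2 _)).trans ih
  have hcard : ∀ j, (T.H (nxt^[j] e)).ncard + j ≤ (T.H e).ncard := by
    intro j
    induction j with
    | zero => simp
    | succ j ih =>
      rw [Function.iterate_succ_apply']
      have h3 : T.H (nxt (nxt^[j] e)) ⊂ T.H (nxt^[j] e) := by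
        refine ⟨sub_next W (hn1 _) (hn2 _), fun h => ?_⟩
        have h4 := h (tgt_mem W (nxt^[j] e))
        rw [← hn1] at h4
        exact src_notMem W _ h4
      have h5 := Set.ncard_lt_ncard h3 (hfin.subset (hsub j))
      omega
  have h6 := hcard ((T.H e).ncard + 1)
  omega

/-! ### the shadows are nonempty -/

theorem sh_nonempty (W : T.Walls) (C : T.Cofin) (B : T.Bdry) (R : T.Reduced) (e : T.D) :
    (T.Sh e).Nonempty := by
  obtain ⟨s, hs, hs2⟩ := C.vert
  have h1 : ∃ w ∈ s, {g : F N | g • w ∈ T.H e}.Infinite := by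
    by_contra hcon
    push Not at hcon
    apply H_infinite W R e
    have h2 : T.H e ⊆ ⋃ w ∈ s, (fun g : F N => g • w) '' {g : F N | g • w ∈ T.H e} := by
      intro v hv
      obtain ⟨g, w, hw, rfl⟩ := hs2 v
      exact Set.mem_biUnion hw ⟨g, hv, rfl⟩
    refine Set.Finite.subset ?_ h2
    exact hs.biUnion fun w hw => (hcon w hw).image _
  obtain ⟨w, -, hinf⟩ := h1
  obtain ⟨n0, hn0⟩ := B.stab e w
  obtain ⟨g, hg1, hg2⟩ := (hinf.sdiff (finite_short (N := N) (max n0 1))).nonempty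
  have hlen : max n0 1 ≤ g.toWord.length := not_lt.1 hg2
  have hne : g.toWord ≠ [] := by
    intro h
    rw [h] at hlen
    simp at hlen
  obtain ⟨ξ, hξ⟩ := exists_word g hne
  have h3 := (hn0 ξ _ ((le_max_left _ _).trans hlen))
  rw [hξ] at h3
  have h4 : pre ξ n0 • w ∈ T.H e := h3.1 hg1
  refine ⟨ξ, B.base e w ξ ?_⟩
  apply Filter.Eventually.frequently
  filter_upwards [eventually_ge_atTop n0] with n hn
  exact (hn0 ξ n hn).2 h4

theorem ev_of_notMem (W : T.Walls) (B : T.Bdry) {e : T.D} {ξ : Bd N} (h : ξ ∉ T.Sh e) (x : T.V) :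
    ∀ᶠ n in atTop, pre ξ n • x ∉ T.H e := by
  have h1 := (B.compl e ξ).2 h
  filter_upwards [h1 x] with n hn
  exact (W.compl e _).1 hn

/-- four points in the four quadrants of two walls do not exist -/
theorem nest_v (W : T.Walls) (e f : T.D) (a b c d : T.V) (ha1 : a ∉ T.H e) (ha2 : a ∉ T.H f)
    (hb1 : b ∈ T.H e) (hb2 : b ∉ T.H f) (hc1 : c ∉ T.H e) (hc2 : c ∈ T.H f) (hd1 : d ∈ T.H e)
    (hd2 : d ∈ T.H f) : False := by
  have h1 := W.convex e f c d hc2 hd2 hc1 hd1
  have h2 := W.convex e (T.rev f) a b ((W.compl f a).2 ha2) ((W.compl f b).2 hb2) ha1 hb1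
  exact (W.compl f _).1 h2.1 h1.1

theorem nest (W : T.Walls) (B : T.Bdry) (x : T.V) (e f : T.D) (a b c d : Bd N)
    (ha1 : a ∉ T.Sh e) (ha2 : a ∉ T.Sh f)
    (hb1 : b ∈ T.Sh e) (hb2 : b ∉ T.Sh f) (hc1 : c ∉ T.Sh e) (hc2 : c ∈ T.Sh f)
    (hd1 : d ∈ T.Sh e) (hd2 : d ∈ T.Sh f) : False := by
  obtain ⟨m1, h1, h1'⟩ := ((ev_of_notMem W B ha1 x).and (ev_of_notMem W B ha2 x)).exists
  obtain ⟨m2, h2, h2'⟩ := ((hb1 x).and (ev_of_notMem W B hb2 x)).exists
  obtain ⟨m3, h3, h3'⟩ := ((ev_of_notMem W B hc1 x).and (hc2 x)).exists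
  obtain ⟨m4, h4, h4'⟩ := ((hd1 x).and (hd2 x)).exists
  exact nest_v W e f _ _ _ _ h1 h1' h2 h2' h3 h3' h4 h4'

theorem not_disj (B : T.Bdry) (x : T.V) {e f : T.D} {ξ : Bd N} (h1 : ξ ∈ T.Sh e)
    (h2 : ξ ∈ T.Sh f) : ∃ w, w ∈ T.H e ∧ w ∈ T.H f := by
  obtain ⟨m, h, h'⟩ := ((h1 x).and (h2 x)).exists
  exact ⟨_, h, h'⟩

theorem sub (W : T.Walls) (C : T.Cofin) (B : T.Bdry) (R : T.Reduced) (e f : T.D)
    (hsub : T.Sh e ⊆ T.Sh f) : T.H e ⊆ T.H f := by
  by_contra hcon
  obtain ⟨w, hw1, hw2⟩ := Set.not_subset.1 hcon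
  set x := T.src e
  -- `H e ∩ H f` is not empty
  obtain ⟨ξ, hξ⟩ := sh_nonempty W C B R e
  obtain ⟨d, hd1, hd2⟩ := not_disj B x hξ (hsub hξ)
  -- there is a point outside both
  have hout : ∃ a, a ∉ T.H e ∧ a ∉ T.H f := by
    by_contra hno
    push Not at hno
    obtain ⟨η, hη⟩ := sh_nonempty W C B R (T.rev f)
    have h1 : η ∉ T.Sh f := (B.compl f η).1 hη
    apply h1
    apply hsub
    apply B.base e x η
    apply Filter.Eventually.frequently
    filter_upwards [ev_of_notMem W B h1 x] with n hn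
    by_contra h2
    exact hn (hno _ h2)
  obtain ⟨a, ha1, ha2⟩ := hout
  -- so `H f ⊆ H e`
  have hfe : T.H f ⊆ T.H e := by
    intro c hc
    by_contra hc'
    exact nest_v W e f a w c d ha1 ha2 hw1 hw2 hc' hc hd1 hd2
  have hne : f ≠ e := by
    rintro rfl
    exact hw2 hw1
  have htgt : T.tgt e ∉ T.H f := by
    intro h
    exact hne ((W.cross e f).1 ⟨fun h' => src_notMem W e (hfe h'), h⟩)
  obtain ⟨d1, d2, hd12, hs1, hs2, hr1, hr2⟩ := exists_two R e
  have key : ∀ d' : T.D, T.src d' = T.tgt e → d' ≠ T.rev e → ∃ v, v ∈ T.H d' ∧ v ∈ T.H f := by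
    intro d' hs hr
    obtain ⟨η, hη⟩ := sh_nonempty W C B R d'
    have h1 : η ∈ T.Sh e := B.sub e d' hs hr hη
    exact not_disj B x hη (hsub h1)
  obtain ⟨v1, hv1, hv1'⟩ := key d1 hs1 hr1
  obtain ⟨v2, hv2, hv2'⟩ := key d2 hs2 hr2
  have hv12 : v1 ∉ T.H d2 := disj W (hs1.trans hs2.symm) hd12 v1 hv1
  have h3 := W.convex d2 f v1 v2 hv1' hv2' hv12 hv2
  rw [hs2] at h3
  exact htgt h3.1

theorem inj (W : T.Walls) (C : T.Cofin) (B : T.Bdry) (R : T.Reduced) (e f : T.D)
    (h : T.Sh e = T.Sh f) : e = f := by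
  have h1 : T.H e = T.H f := (sub W C B R e f h.subset).antisymm (sub W C B R f e h.symm.subset)
  refine ((W.cross e f).1 ⟨?_, ?_⟩).symm
  · rw [← h1]
    exact src_notMem W e
  · rw [← h1]
    exact tgt_mem W e

theorem red (T : CV N) (W : T.Walls) (C : T.Cofin) (B : T.Bdry) (R : T.Reduced) : T.Red where
  ne := sh_nonempty W C B R
  sub := sub W C B R
  inj := inj W C B R
  nest := fun e f a b c d => nest W B (T.src e) e f a b c d

theorem main (hA : S_ACT) (hT : S_TEL) : S_RED := fun _ T _ W C B R => red T W C B R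

end Pool.Agent.R685.PS.RedP
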