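import Pool.Agent.R685.PS.RigBase

open MeasureTheory Filter Topology Set
open scoped ENNReal NNReal

namespace Pool.Agent.R685.PS.Rig1

open RigBase

variable {N : ℕ} {T S : CV N} {φ : T.V → S.V} {h h' : ℝ} {ν : T.V → Measure (Bd N)}
  {ν' : S.V → Measure (Bd N)} {μ : Measure (Bd N × Bd N)}

/-- a function of two iterates is measurable -/
theorem meas_two (d : Dat T S φ h h' ν ν' μ) (i : ℕ) (f : T.D) (G : T.D → T.D → ℝ) :
    Measurable fun ω : Bd N × Bd N => G (T.nx ω.2 f) ((T.nx ω.1)^[i] (T.rev f)) := by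
  have : Countable T.D := Main2.countableD d.TC
  let _ : MeasurableSpace T.D := ⊤
  have h1 : Measurable fun ζ : Bd N => T.nx ζ f := by
    refine measurable_to_countable' fun k => ?_
    exact d.TN.meas 1 f k
  have h2 : Measurable fun ζ : Bd N => (T.nx ζ)^[i] (T.rev f) := by
    refine measurable_to_countable' fun k => ?_
    exact d.TN.meas i (T.rev f) k
  have h3 : Measurable fun p : T.D × T.D => G p.1 p.2 :=
    measurable_from_prod_countable_right fun _ => measurable_from_top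
  exact h3.comp ((h1.comp measurable_snd).prodMk (h2.comp measurable_fst))

theorem bdd_two (d : Dat T S φ h h' ν ν' μ) (i : ℕ) (f : T.D) (G : T.D → T.D → ℝ) :
    ∃ K : ℝ, ∀ ω ∈ T.Cyl f, |G (T.nx ω.2 f) ((T.nx ω.1)^[i] (T.rev f))| ≤ K := by
  have hfin := ((d.TN.fin 1 f).prod (d.TN.fin i (T.rev f))).image (fun p => |G p.1 p.2|)
  obtain ⟨K, hK⟩ := hfin.bddAbove
  refine ⟨K, fun ω hω => hK ?_⟩
  exact ⟨(T.nx ω.2 f, (T.nx ω.1)^[i] (T.rev f)), ⟨⟨ω.2, hω.2, rfl⟩, ⟨ω.1, hω.1, rfl⟩⟩, rfl⟩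

/-- the function under `Kc` -/
noncomputable def G (T S : CV N) (φ : T.V → S.V) (ν : T.V → Measure (Bd N))
    (ν' : S.V → Measure (Bd N)) (f a b : T.D) : ℝ :=
  (Real.log ((ν (T.tgt f)).real (T.Sh a)) - Real.log ((ν (T.tgt f)).real (T.Sh f)))
    - (Real.log ((ν' (φ (T.src b))).real (T.Sh a))
      - Real.log ((ν' (φ (T.src b))).real (T.Sh f)))

theorem Kc_eq (i : ℕ) (f : T.D) (ω : Bd N × Bd N) : Kc T S φ ν ν' i f ω =
    G T S φ ν ν' f (T.nx ω.2 f) ((T.nx ω.1)^[i] (T.rev f)) := rfl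

theorem real_smulT (d : Dat T S φ h h' ν ν' μ) (g : F N) (x : T.V) (e : T.D) :
    (ν (g • x)).real (T.Sh (g • e)) = (ν x).real (T.Sh e) := by
  rw [Measure.real, d.TD.equi g _ _ (d.TB.meas _)]
  have : {ξ : Bd N | g • ξ ∈ T.Sh (g • e)} = T.Sh e := by
    ext ξ
    exact d.TB.smul g e ξ
  rw [this]
  rfl

theorem real_smulS (d : Dat T S φ h h' ν ν' μ) (g : F N) (x : T.V) (e : T.D) :
    (ν' (φ (g • x))).real (T.Sh (g • e)) = (ν' (φ x)).real (T.Sh e) := by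
  rw [d.phi, Measure.real, d.SD.equi g _ _ (d.TB.meas _)]
  have : {ξ : Bd N | g • ξ ∈ T.Sh (g • e)} = T.Sh e := by
    ext ξ
    exact d.TB.smul g e ξ
  rw [this]
  rfl

theorem Kc_smul (d : Dat T S φ h h' ν ν' μ) (i : ℕ) (g : F N) (f : T.D) (ω : Bd N × Bd N) :
    Kc T S φ ν ν' i (g • f) (g • ω.1, g • ω.2) = Kc T S φ ν ν' i f ω := by
  unfold Kc
  simp only
  rw [d.TN.smul, Main2.tgt_smul, Stat.rev_smul, Stat.iter_smul d.TN, Stat.src_smul, real_smulT d,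
    real_smulT d, real_smulS d, real_smulS d]

theorem flow_Kc (hS : S_STAT) (hB : S_NXB) (d : Dat T S φ h h' ν ν' μ) (i : ℕ) :
    T.flow μ (Kc T S φ ν ν' i) =
      T.flow μ (fun e ω => Lg T S φ ν ν' (i + 1) e ω.2 - Lg T S φ ν ν' i e ω.2) := by
  have h1 := hS N T μ d.TW d.TC d.TB d.TN d.TI (Kc T S φ ν ν' i)
    (fun e => meas_two d i e (G T S φ ν ν' e)) (fun e => bdd_two d i e (G T S φ ν ν' e))
    (fun g e ω => Kc_smul d i g e ω) i
  rw [← h1]
  unfold CV.flow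
  congr 1
  funext q
  refine setIntegral_congr_fun ((d.TB.meas _).prod (d.TB.meas _)) fun ω hω => ?_
  exact R1 hB d i q.out ω hω

theorem flow_deep (hB : S_NXB) (d : Dat T S φ h h' ν ν' μ) (i0 : ℕ) (hD : Deep T S φ i0) (i : ℕ)
    (hi : i0 ≤ i) : T.flow μ (Kc T S φ ν ν' i) = T.flow μ (Kc T S φ ν ν' i0) := by
  unfold CV.flow
  congr 1
  funext q
  refine setIntegral_congr_fun ((d.TB.meas _).prod (d.TB.meas _)) fun ω hω => ?_
  exact R3 hB d i0 hD i hi q.out ω hω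

theorem int_Lg (d : Dat T S φ h h' ν ν' μ) (n : ℕ) (e : T.D) :
    IntegrableOn (fun ω : Bd N × Bd N => Lg T S φ ν ν' n e ω.2) (T.Cyl e) μ :=
  Main2.integrable_iter d.TC d.TB d.TN d.TI
    (c := fun f _ => Real.log ((ν (T.tgt e)).real (T.Sh f))
      - Real.log ((ν' (φ (T.tgt e))).real (T.Sh f)))
    (fun _ => measurable_const) (fun _ => ⟨_, fun ω _ => le_rfl⟩) n e

theorem sum_Lg (d : Dat T S φ h h' ν ν' μ) (n : ℕ) :
    T.flow μ (fun e ω => Lg T S φ ν ν' n e ω.2 - Lg T S φ ν ν' 0 e ω.2) =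
      ∑ i ∈ Finset.range n,
        T.flow μ (fun e ω => Lg T S φ ν ν' (i + 1) e ω.2 - Lg T S φ ν ν' i e ω.2) := by
  have := Main2.finiteQ d.TC
  have := Fintype.ofFinite (MulAction.orbitRel.Quotient (F N) T.D)
  simp only [Main2.flow_eq_sum]
  rw [Finset.sum_comm]
  refine Finset.sum_congr rfl fun q _ => ?_
  rw [← integral_finsetSum]
  · congr 1
    funext ω
    rw [Finset.sum_range_sub (fun i => Lg T S φ ν ν' i q.out ω.2)]
  · intro i _
    exact (int_Lg d (i + 1) q.out).sub (int_Lg d i q.out)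

theorem main (hS : S_STAT) (hB : S_NXB) : S_RIG1 := by
  intro N T S φ h h' ν ν' μ d i0 hD hK
  obtain ⟨K, hK⟩ := hK
  by_contra hcon
  push Not at hcon
  set κ := T.flow μ (Kc T S φ ν ν' i0) with hκ
  have hsum : ∀ m : ℕ, T.flow μ (fun e ω => Lg T S φ ν ν' (i0 + m) e ω.2
      - Lg T S φ ν ν' 0 e ω.2) = (∑ i ∈ Finset.range i0,
        T.flow μ (fun e ω => Lg T S φ ν ν' (i + 1) e ω.2 - Lg T S φ ν ν' i e ω.2)) + m * κ := by
    intro m
    rw [sum_Lg d, Finset.sum_range_add]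
    congr 1
    rw [← nsmul_eq_mul, ← Finset.card_range m, ← Finset.sum_const]
    refine Finset.sum_congr (by rw [Finset.card_range]) fun i _ => ?_
    rw [hκ, ← flow_deep hB d i0 hD (i0 + i) (Nat.le_add_right _ _), flow_Kc hS hB d]
  set A0 := ∑ i ∈ Finset.range i0,
        T.flow μ (fun e ω => Lg T S φ ν ν' (i + 1) e ω.2 - Lg T S φ ν ν' i e ω.2) with hA0
  obtain ⟨m, hm⟩ := exists_nat_gt ((K - A0) / κ)
  have h1 := hK (i0 + m)
  rw [hsum m] at h1
  rw [div_lt_iff₀ hcon] at hm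
  linarith

end Pool.Agent.R685.PS.Rig1
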