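import Pool.Agent.R685.PS.Klb

/-! Piece RIG2 of project PSE (helper91): vanishing of the increments. -/

set_option autoImplicit false

open MeasureTheory Filter Topology Set
open scoped ENNReal NNReal

namespace Pool.Agent.R685.PS.Rig2

open Pool.Agent.R685.PS.Main2 Pool.Agent.R685.PS.Klb

variable {N : ℕ} {T S : CV N}

/-- the increment with a fixed base vertex `v` -/
noncomputable def GG (T S : CV N) (φ : T.V → S.V) (ν : T.V → Measure (Bd N))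
    (ν' : S.V → Measure (Bd N)) (v : T.V) (f : T.D) (ζ : Bd N) : ℝ :=
  (Real.log ((ν (T.tgt f)).real (T.Sh (T.nx ζ f))) - Real.log ((ν (T.tgt f)).real (T.Sh f)))
    - (Real.log ((ν' (φ v)).real (T.Sh (T.nx ζ f))) - Real.log ((ν' (φ v)).real (T.Sh f)))

theorem Kc_eq (φ : T.V → S.V) (ν : T.V → Measure (Bd N)) (ν' : S.V → Measure (Bd N)) (i : ℕ) (f : T.D)
    (ω : Bd N × Bd N) :
    Kc T S φ ν ν' i f ω = GG T S φ ν ν' (T.src ((T.nx ω.1)^[i] (T.rev f))) f ω.2 := rfl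

theorem cell1 (hN : NX T) {f : T.D} {ζ : Bd N} (hζ : ζ ∈ T.Sh f) :
    T.Sh f ∩ {ζ' | T.nx ζ' f = T.nx ζ f} = T.Sh (T.nx ζ f) := by
  have := hN.cell 1 f ζ hζ
  simpa using this

section one

variable {φ : T.V → S.V} {h h' : ℝ} {ν : T.V → Measure (Bd N)} {ν' : S.V → Measure (Bd N)}
  {μ : Measure (Bd N × Bd N)}

theorem pos1 (D : Dat T S φ h h' ν ν' μ) (x : T.V) (f : T.D) : 0 < (ν x).real (T.Sh f) := by
  obtain ⟨ζ, hζ⟩ := D.ne f
  exact sh_real_pos D.TB hζ (D.TD.fin _) fun n => D.TD.pos _ ζ n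

theorem pos2 (D : Dat T S φ h h' ν ν' μ) (x : S.V) (f : T.D) : 0 < (ν' x).real (T.Sh f) := by
  obtain ⟨ζ, hζ⟩ := D.ne f
  exact sh_real_pos D.TB hζ (D.SD.fin _) fun n => D.SD.pos _ ζ n

/-- the integrand of the Gibbs inequality -/
theorem integrand_eq (D : Dat T S φ h h' ν ν' μ) (v : T.V) (f : T.D) {ζ : Bd N} (hζ : ζ ∈ T.Sh f) :
    Real.log ((ν (T.tgt f)).real (T.Sh f ∩ {ζ' | T.nx ζ' f = T.nx ζ f}))
      - Real.log ((ν (T.tgt f)).real (T.Sh f))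
      - Real.log ((ν' (φ v)).real (T.Sh f ∩ {ζ' | T.nx ζ' f = T.nx ζ f}))
      + Real.log ((ν' (φ v)).real (T.Sh f)) = GG T S φ ν ν' v f ζ := by
  rw [cell1 D.TN hζ, GG]
  ring

theorem J_nonneg (hG : S_GIBBS) (D : Dat T S φ h h' ν ν' μ) (v : T.V) (f : T.D) :
    0 ≤ ∫ ζ in T.Sh f, GG T S φ ν ν' v f ζ ∂(ν (T.tgt f)) := by
  have := D.TD.fin (T.tgt f)
  have := D.SD.fin (φ v)
  have h1 := hG (Bd N) T.D (ν (T.tgt f)) (ν' (φ v)) (T.Sh f) (D.TB.meas f) (fun ζ => T.nx ζ f)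
    (by have := D.TN.fin 1 f; simpa using this)
    (fun d => (D.TB.meas f).inter (by have := D.TN.meas 1 f d; simpa using this))
    (fun ζ hζ => by
      rw [cell1 D.TN hζ]
      exact pos2 D _ _)
  refine h1.trans (le_of_eq ?_)
  refine setIntegral_congr_fun (D.TB.meas f) fun ζ hζ => ?_
  exact integrand_eq D v f hζ

theorem G_zero (hE : S_GEQ) (D : Dat T S φ h h' ν ν' μ) (v : T.V) (f : T.D)
    (hJ : ∫ ζ in T.Sh f, GG T S φ ν ν' v f ζ ∂(ν (T.tgt f)) ≤ 0) {ζ : Bd N} (hζ : ζ ∈ T.Sh f) :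
    GG T S φ ν ν' v f ζ = 0 := by
  have := D.TD.fin (T.tgt f)
  have := D.SD.fin (φ v)
  have h1 := hE (Bd N) T.D (ν (T.tgt f)) (ν' (φ v)) (T.Sh f) (D.TB.meas f) (fun ζ => T.nx ζ f)
    (by have := D.TN.fin 1 f; simpa using this)
    (fun d => (D.TB.meas f).inter (by have := D.TN.meas 1 f d; simpa using this))
    (fun ζ hζ => by
      rw [cell1 D.TN hζ]
      exact pos2 D _ _)
    (fun ζ hζ => by
      rw [cell1 D.TN hζ]
      exact pos1 D _ _)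
    (by
      refine le_trans (le_of_eq ?_) hJ
      refine setIntegral_congr_fun (D.TB.meas f) fun ζ hζ => ?_
      exact integrand_eq D v f hζ) ζ hζ
  rw [integrand_eq D v f hζ] at h1
  exact h1

theorem meas_Kc (D : Dat T S φ h h' ν ν' μ) (i : ℕ) (f : T.D) : Measurable (Kc T S φ ν ν' i f) := by
  have hc := countableD D.TC
  let _ : MeasurableSpace T.D := ⊤
  have _ : DiscreteMeasurableSpace T.D := ⟨fun _ => trivial⟩
  have m1 : Measurable (fun ω : Bd N × Bd N => (T.nx ω.1)^[i] (T.rev f)) :=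
    measurable_to_countable' fun d => measurable_fst (D.TN.meas i (T.rev f) d)
  have m2 : Measurable (fun ω : Bd N × Bd N => T.nx ω.2 f) :=
    measurable_to_countable' fun d => by
      have h := D.TN.meas 1 f d
      simp only [Function.iterate_one] at h
      exact measurable_snd h
  obtain ⟨K, hK⟩ : ∃ K : T.D × T.D → ℝ, ∀ ω : Bd N × Bd N,
      Kc T S φ ν ν' i f ω = K ((T.nx ω.1)^[i] (T.rev f), T.nx ω.2 f) :=
    ⟨fun p => (Real.log ((ν (T.tgt f)).real (T.Sh p.2)) - Real.log ((ν (T.tgt f)).real (T.Sh f)))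
      - (Real.log ((ν' (φ (T.src p.1))).real (T.Sh p.2))
        - Real.log ((ν' (φ (T.src p.1))).real (T.Sh f))), fun _ => rfl⟩
  rw [funext hK]
  have hKm : Measurable K := Measurable.of_discrete
  exact hKm.comp (m1.prodMk m2)

theorem bdd_Kc (D : Dat T S φ h h' ν ν' μ) (i : ℕ) (f : T.D) :
    ∃ M : ℝ, ∀ ω ∈ T.Cyl f, |Kc T S φ ν ν' i f ω| ≤ M := by
  classical
  obtain ⟨K, hK⟩ : ∃ K : T.D × T.D → ℝ, ∀ ω : Bd N × Bd N,
      Kc T S φ ν ν' i f ω = K ((T.nx ω.1)^[i] (T.rev f), T.nx ω.2 f) :=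
    ⟨fun p => (Real.log ((ν (T.tgt f)).real (T.Sh p.2)) - Real.log ((ν (T.tgt f)).real (T.Sh f)))
      - (Real.log ((ν' (φ (T.src p.1))).real (T.Sh p.2))
        - Real.log ((ν' (φ (T.src p.1))).real (T.Sh f))), fun _ => rfl⟩
  obtain ⟨Z, hZ⟩ : ∃ Z : Finset (T.D × T.D), ∀ ω ∈ T.Cyl f,
      ((T.nx ω.1)^[i] (T.rev f), T.nx ω.2 f) ∈ Z := by
    refine ⟨(D.TN.fin i (T.rev f)).toFinset ×ˢ (D.TN.fin 1 f).toFinset, fun ω hω => ?_⟩
    rw [Finset.mem_product, Set.Finite.mem_toFinset, Set.Finite.mem_toFinset]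
    exact ⟨⟨ω.1, hω.1, rfl⟩, ⟨ω.2, hω.2, rfl⟩⟩
  refine ⟨∑ p ∈ Z, |K p|, fun ω hω => ?_⟩
  rw [hK]
  exact Finset.single_le_sum (f := fun p => |K p|) (fun p _ => abs_nonneg _) (hZ ω hω)

theorem int_Kc (D : Dat T S φ h h' ν ν' μ) (i : ℕ) (f : T.D) :
    IntegrableOn (Kc T S φ ν ν' i f) (T.Cyl f) μ := by
  obtain ⟨M, hM⟩ := bdd_Kc D i f
  have hcm : MeasurableSet (T.Cyl f) := (D.TB.meas _).prod (D.TB.meas _)
  refine Measure.integrableOn_of_bounded (M := M) (D.TI.fin f).ne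
    (meas_Kc D i f).aestronglyMeasurable ?_
  filter_upwards [ae_restrict_mem hcm] with ω hω
  rw [Real.norm_eq_abs]
  exact hM ω hω

/-- Fubini -/
theorem fubini (D : Dat T S φ h h' ν ν' μ) {c : ℝ≥0} (hc0 : c ≠ 0)
    (hc : ∀ e : T.D, μ.restrict (T.Cyl e) = (c : ℝ≥0∞) •
      (((ν (T.tgt e)).restrict (T.Sh (T.rev e))).prod ((ν (T.tgt e)).restrict (T.Sh e)))) (i : ℕ) (f : T.D) :
    IntegrableOn (fun ξ => ∫ ζ in T.Sh f, GG T S φ ν ν' (T.src ((T.nx ξ)^[i] (T.rev f))) f ζ ∂(ν (T.tgt f)))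
      (T.Sh (T.rev f)) (ν (T.tgt f)) ∧
    ∫ ω in T.Cyl f, Kc T S φ ν ν' i f ω ∂μ = (c : ℝ) *
      ∫ ξ in T.Sh (T.rev f), (∫ ζ in T.Sh f, GG T S φ ν ν' (T.src ((T.nx ξ)^[i] (T.rev f))) f ζ ∂(ν (T.tgt f)))
        ∂(ν (T.tgt f)) := by
  have := D.TD.fin (T.tgt f)
  have h1 := int_Kc D i f
  rw [IntegrableOn, hc f, integrable_smul_measure (by simpa using hc0) (by simp)] at h1
  refine ⟨h1.integral_prod_left, ?_⟩
  rw [hc f, integral_smul_measure, integral_prod _ h1]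
  rfl

theorem J_zero (hG : S_GIBBS) (D : Dat T S φ h h' ν ν' μ) (i : ℕ) (f : T.D)
    (hint : IntegrableOn (fun ξ => ∫ ζ in T.Sh f,
      GG T S φ ν ν' (T.src ((T.nx ξ)^[i] (T.rev f))) f ζ ∂(ν (T.tgt f))) (T.Sh (T.rev f)) (ν (T.tgt f)))
    (h0 : ∫ ξ in T.Sh (T.rev f), (∫ ζ in T.Sh f,
      GG T S φ ν ν' (T.src ((T.nx ξ)^[i] (T.rev f))) f ζ ∂(ν (T.tgt f))) ∂(ν (T.tgt f)) ≤ 0)
    {ξ0 : Bd N} (hξ0 : ξ0 ∈ T.Sh (T.rev f)) :
    ∫ ζ in T.Sh f, GG T S φ ν ν' (T.src ((T.nx ξ0)^[i] (T.rev f))) f ζ ∂(ν (T.tgt f)) ≤ 0 := by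
  set d := (T.nx ξ0)^[i] (T.rev f) with hd
  set J := ∫ ζ in T.Sh f, GG T S φ ν ν' (T.src d) f ζ ∂(ν (T.tgt f)) with hJ
  have hcell := D.TN.cell i (T.rev f) ξ0 hξ0
  have hsub : T.Sh d ⊆ T.Sh (T.rev f) := by
    rw [hd, ← hcell]; exact Set.inter_subset_left
  have h1 : ∫ ξ in T.Sh d, (∫ ζ in T.Sh f,
      GG T S φ ν ν' (T.src ((T.nx ξ)^[i] (T.rev f))) f ζ ∂(ν (T.tgt f))) ∂(ν (T.tgt f))
      = (ν (T.tgt f)).real (T.Sh d) * J := by
    have h2 : ∫ ξ in T.Sh d, (∫ ζ in T.Sh f,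
      GG T S φ ν ν' (T.src ((T.nx ξ)^[i] (T.rev f))) f ζ ∂(ν (T.tgt f))) ∂(ν (T.tgt f))
      = ∫ ξ in T.Sh d, J ∂(ν (T.tgt f)) := by
      refine setIntegral_congr_fun (D.TB.meas d) fun ξ hξ => ?_
      have h3 : (T.nx ξ)^[i] (T.rev f) = d := by
        rw [hd, ← hcell] at hξ
        exact hξ.2
      simp only [h3, hJ]
    rw [h2, setIntegral_const, smul_eq_mul]
  have h4 := setIntegral_mono_set hint
    (ae_of_all _ fun ξ => J_nonneg hG D _ f) (LE.le.eventuallyLE hsub)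
  rw [h1] at h4
  have h5 := pos1 D (T.tgt f) d
  have h6 := h4.trans h0
  by_contra hcon
  push Not at hcon
  exact absurd h6 (not_le.2 (mul_pos h5 hcon))

theorem c_ne (D : Dat T S φ h h' ν ν' μ) {c : ℝ≥0}
    (hc : ∀ e : T.D, μ.restrict (T.Cyl e) = (c : ℝ≥0∞) •
      (((ν (T.tgt e)).restrict (T.Sh (T.rev e))).prod ((ν (T.tgt e)).restrict (T.Sh e)))) : c ≠ 0 := by
  rintro rfl
  have h1 : ∀ e : T.D, μ (T.Cyl e) = 0 := by
    intro e
    have h2 := hc e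
    rw [ENNReal.coe_zero, zero_smul, Measure.restrict_eq_zero] at h2
    exact h2
  have h3 := D.nrm
  rw [CV.inter] at h3
  simp only [h1, mul_zero, tsum_zero, ENNReal.zero_div] at h3
  exact zero_ne_one h3

theorem zero_out (hG : S_GIBBS) (hE : S_GEQ) (D : Dat T S φ h h' ν ν' μ) (i : ℕ)
    (hflow : T.flow μ (Kc T S φ ν ν' i) ≤ 0) (q : MulAction.orbitRel.Quotient (F N) T.D)
    {ω : Bd N × Bd N} (hω : ω ∈ T.Cyl q.out) : Kc T S φ ν ν' i q.out ω = 0 := by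
  obtain ⟨c, hc⟩ := D.TCu.prod
  have hc0 := c_ne D hc
  have hcpos : (0 : ℝ) < c := by positivity
  have := finiteQ D.TC
  have := Fintype.ofFinite (MulAction.orbitRel.Quotient (F N) T.D)
  rw [flow_eq_sum] at hflow
  have hnn : ∀ q : MulAction.orbitRel.Quotient (F N) T.D,
      0 ≤ ∫ ω in T.Cyl q.out, Kc T S φ ν ν' i q.out ω ∂μ := by
    intro q
    rw [(fubini D hc0 hc i q.out).2]
    exact mul_nonneg hcpos.le (integral_nonneg fun ξ => J_nonneg hG D _ _)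
  have hz : ∫ ω in T.Cyl q.out, Kc T S φ ν ν' i q.out ω ∂μ ≤ 0 :=
    (Finset.single_le_sum (f := fun q : MulAction.orbitRel.Quotient (F N) T.D =>
      ∫ ω in T.Cyl q.out, Kc T S φ ν ν' i q.out ω ∂μ) (fun q _ => hnn q) (Finset.mem_univ q)).trans hflow
  rw [(fubini D hc0 hc i q.out).2] at hz
  have hz' : ∫ ξ in T.Sh (T.rev q.out), (∫ ζ in T.Sh q.out,
      GG T S φ ν ν' (T.src ((T.nx ξ)^[i] (T.rev q.out))) q.out ζ ∂(ν (T.tgt q.out)))
        ∂(ν (T.tgt q.out)) ≤ 0 := by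
    by_contra hcon
    push Not at hcon
    exact absurd hz (not_le.2 (mul_pos hcpos hcon))
  rw [Kc_eq]
  exact G_zero hE D _ _ (J_zero hG D i q.out (fubini D hc0 hc i q.out).1 hz' hω.1) hω.2

theorem sh_smul_set (hTB : T.Bdry) (g : F N) (e : T.D) : {ξ : Bd N | g • ξ ∈ T.Sh (g • e)} = T.Sh e := by
  ext ξ
  exact hTB.smul g e ξ

theorem nu_smul (D : Dat T S φ h h' ν ν' μ) (g : F N) (x : T.V) (e : T.D) :
    (ν (g • x)).real (T.Sh (g • e)) = (ν x).real (T.Sh e) := by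
  rw [Measure.real, Measure.real, D.TD.equi g x _ (D.TB.meas _), sh_smul_set D.TB]

theorem nu'_smul (D : Dat T S φ h h' ν ν' μ) (g : F N) (x : T.V) (e : T.D) :
    (ν' (φ (g • x))).real (T.Sh (g • e)) = (ν' (φ x)).real (T.Sh e) := by
  rw [Measure.real, Measure.real, D.phi, D.SD.equi g _ _ (D.TB.meas _), sh_smul_set D.TB]

theorem iter_smul (hN : NX T) (n : ℕ) (g : F N) (ζ : Bd N) (e : T.D) :
    (T.nx (g • ζ))^[n] (g • e) = g • (T.nx ζ)^[n] e := by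
  induction n with
  | zero => rfl
  | succ n ih => rw [Function.iterate_succ_apply', Function.iterate_succ_apply', ih, hN.smul]

theorem Kc_smul (D : Dat T S φ h h' ν ν' μ) (i : ℕ) (g : F N) (f : T.D) (ω : Bd N × Bd N) :
    Kc T S φ ν ν' i (g • f) (g • ω.1, g • ω.2) = Kc T S φ ν ν' i f ω := by
  have h1 : T.rev (g • f) = g • T.rev f := rfl
  have h2 : T.tgt (g • f) = g • T.tgt f := rfl
  have h3 : T.src (g • (T.nx ω.1)^[i] (T.rev f)) = g • T.src ((T.nx ω.1)^[i] (T.rev f)) := rfl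
  unfold Kc
  simp only
  rw [h1, h2, iter_smul D.TN, D.TN.smul, h3, nu_smul D, nu_smul D, nu'_smul D, nu'_smul D]

theorem zero_all (hG : S_GIBBS) (hE : S_GEQ) (D : Dat T S φ h h' ν ν' μ) (i : ℕ)
    (hflow : T.flow μ (Kc T S φ ν ν' i) ≤ 0) (e : T.D) {ω : Bd N × Bd N} (hω : ω ∈ T.Cyl e) :
    Kc T S φ ν ν' i e ω = 0 := by
  set q : MulAction.orbitRel.Quotient (F N) T.D := Quotient.mk _ e with hq
  have h1 : (MulAction.orbitRel (F N) T.D) q.out e := Quotient.exact (Quotient.out_eq q)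
  obtain ⟨g, hg⟩ := h1
  simp only at hg
  rw [← Kc_smul D i g e ω, hg]
  refine zero_out hG hE D i hflow q ?_
  have h2 : g • ω.1 ∈ T.Sh (g • T.rev e) := (D.TB.smul g _ _).2 hω.1
  have h3 : g • ω.2 ∈ T.Sh (g • e) := (D.TB.smul g _ _).2 hω.2
  rw [← hg]
  exact ⟨h2, h3⟩

end one

theorem main (_hA : S_ACT) (hG : S_GIBBS) (hE : S_GEQ) (hB : S_NXB) : S_RIG2 := by
  intro N T S φ h h' ν ν' μ D i0 hflow e ζ hζ
  obtain ⟨ξ, hξ⟩ := D.ne (T.rev e)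
  set ω : Bd N × Bd N := (ξ, ζ) with hω
  have hωe : ω ∈ T.Cyl e := ⟨hξ, hζ⟩
  set f := (T.nx ζ)^[i0] e with hf
  have hωf : ω ∈ T.Cyl f := D.TN.cyl i0 e ω hωe
  have hζf : ζ ∈ T.Sh f := hωf.2
  have h0 := zero_all hG hE D i0 hflow f hωf
  have hback : (T.nx ξ)^[i0] (T.rev f) = T.rev e := hB N T D.TW D.TC D.TB D.TN i0 e ω hωe
  have hst := D.TN.step f ζ hζf
  have hsub : T.Sh (T.nx ζ f) ⊆ T.Sh f := D.TB.sub _ _ hst.1 hst.2
  set E := Real.exp (-h * ∑ i ∈ Finset.range i0, T.ell ((T.nx ζ)^[i + 1] e)) with hE'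
  have hEpos : 0 < E := Real.exp_pos _
  have c1 : ∀ A : Set (Bd N), MeasurableSet A → A ⊆ T.Sh f →
      (ν (T.tgt e)).real A = E * (ν (T.tgt f)).real A := by
    intro A hA hAf
    rw [Measure.real, conf_iter D.TB D.TN D.TD hζ i0 A hA hAf, ENNReal.toReal_mul,
      ENNReal.toReal_ofReal hEpos.le]
    rfl
  have e1 := c1 _ (D.TB.meas _) hsub
  have e2 := c1 _ (D.TB.meas _) (Subset.refl (T.Sh f))
  have p1 := pos1 D (T.tgt f) (T.nx ζ f)
  have p2 := pos1 D (T.tgt f) f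
  unfold Kc at h0
  rw [hback] at h0
  have h5 : T.src (T.rev e) = T.tgt e := rfl
  rw [h5] at h0
  unfold Lg
  rw [Function.iterate_succ_apply', ← hf, e1, e2, Real.log_mul hEpos.ne' p1.ne',
    Real.log_mul hEpos.ne' p2.ne']
  simp only [hω] at h0
  linarith

end Pool.Agent.R685.PS.Rig2
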