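import Pool.Agent.R685.PS.RigBase

open MeasureTheory Filter Topology Set
open scoped ENNReal NNReal

namespace Pool.Agent.R685.PS.Rig3

open RigBase

theorem main (hB : S_NXB) : S_RIG3 := by
  intro N T S φ h h' ν ν' μ d i0 hD h0 i hi e ζ hζ
  obtain ⟨ξ, hξ⟩ := d.ne (T.rev e)
  have hω : ((ξ, ζ) : Bd N × Bd N) ∈ T.Cyl e := ⟨hξ, hζ⟩
  have hf := d.TN.cyl i e (ξ, ζ) hω
  have h1 := R1 hB d i e (ξ, ζ) hω
  rw [R3 hB d i0 hD i hi _ _ hf] at h1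
  have hω2 := d.TN.cyl (i - i0) e (ξ, ζ) hω
  have h2 := R1 hB d i0 _ (ξ, ζ) hω2
  rw [← Function.iterate_add_apply, Nat.add_sub_cancel' hi] at h2
  have h3 := h0 _ ζ (d.TN.sh (i - i0) e ζ hζ)
  simp only at h1 h2
  linarith

end Pool.Agent.R685.PS.Rig3
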