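import Pool.Agent.R685.PS.Stm2
import Pool.Agent.R685.PS.Act

/-!
# MP_79396e_al, piece PSE-SMALL: S_DENS2, S_VOL, S_IFI
-/

set_option autoImplicit false

open MeasureTheory Filter Topology Set
open scoped ENNReal NNReal

namespace Pool.Agent.R685.PS.Small

theorem dens2 : S_DENS2 := by
  intro N T ν hν
  refine ⟨fun x y A t hA ht => ?_⟩
  rw [hν.conformal x y, withDensity_apply _ hA, ← setLIntegral_const]
  apply setLIntegral_congr_fun hA
  intro ξ hξ
  simp only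
  rw [ht ξ hξ]

variable {N : ℕ} {T S : CV N}

/-- the map on darts -/
def dmap (ψ : T.V ≃ S.V) (hadj : ∀ u v : T.V, S.G.Adj (ψ u) (ψ v) ↔ T.G.Adj u v) :
    T.D ≃ S.D where
  toFun e := ⟨(ψ e.1.1, ψ e.1.2), (hadj _ _).2 e.2⟩
  invFun k := ⟨(ψ.symm k.1.1, ψ.symm k.1.2), by
    rw [← hadj]
    simpa using k.2⟩
  left_inv e := by
    apply Subtype.ext
    simp
  right_inv k := by
    apply Subtype.ext
    simp

lemma dmap_smul (ψ : T.V ≃ S.V) (hadj : ∀ u v : T.V, S.G.Adj (ψ u) (ψ v) ↔ T.G.Adj u v)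
    (hsm : ∀ (g : F N) (x : T.V), ψ (g • x) = g • ψ x) (g : F N) (e : T.D) :
    dmap ψ hadj (g • e) = g • dmap ψ hadj e := by
  apply Subtype.ext
  change (ψ (g • e.1.1), ψ (g • e.1.2)) = (g • ψ e.1.1, g • ψ e.1.2)
  rw [hsm, hsm]

lemma reindex (Ψ : T.D ≃ S.D) (hΨ : ∀ (g : F N) (e : T.D), Ψ (g • e) = g • Ψ e)
    (c : S.D → ℝ≥0∞) (hc : ∀ (g : F N) (k : S.D), c (g • k) = c k) :
    ∑' q : MulAction.orbitRel.Quotient (F N) S.D, c q.out =
      ∑' q : MulAction.orbitRel.Quotient (F N) T.D, c (Ψ q.out) := by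
  have hrel : ∀ a b : T.D, (MulAction.orbitRel (F N) T.D) a b ↔
      (MulAction.orbitRel (F N) S.D) (Ψ a) (Ψ b) := by
    intro a b
    rw [MulAction.orbitRel_apply, MulAction.orbitRel_apply]
    constructor
    · rintro ⟨g, hg⟩
      refine ⟨g, ?_⟩
      change g • b = a at hg
      change g • Ψ b = Ψ a
      rw [← hΨ, hg]
    · rintro ⟨g, hg⟩
      refine ⟨g, ?_⟩
      change g • Ψ b = Ψ a at hg
      change g • b = a
      rw [← hΨ] at hg
      exact Ψ.injective hg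
  let E : MulAction.orbitRel.Quotient (F N) T.D ≃ MulAction.orbitRel.Quotient (F N) S.D :=
    Quotient.congr Ψ hrel
  rw [← E.tsum_eq]
  refine tsum_congr fun q => ?_
  have h1 : E q = Quotient.mk (MulAction.orbitRel (F N) S.D) (Ψ q.out) := by
    conv_lhs => rw [← Quotient.out_eq q]
    rfl
  have h2 : (MulAction.orbitRel (F N) S.D) (E q).out (Ψ q.out) := by
    apply Quotient.exact
    rw [Quotient.out_eq, h1]
  rw [MulAction.orbitRel_apply] at h2
  obtain ⟨g, hg⟩ := h2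
  change g • Ψ q.out = (E q).out at hg
  rw [← hg, hc]

theorem vol : S_VOL := by
  intro N T S h h' hh hh' _ _ hT hS ⟨ψ, hsm, hadj, hlen⟩
  have h1 : S.vol = ENNReal.ofReal (h / h') * T.vol := by
    unfold CV.vol
    rw [reindex (dmap ψ hadj) (dmap_smul ψ hadj hsm) (fun k => ENNReal.ofReal (S.ell k))
      (fun g k => by beta_reduce; unfold CV.ell; exact congrArg _ (S.len_smul g _ _)),
      ← mul_div_assoc, ← ENNReal.tsum_mul_left]
    congr 1
    refine tsum_congr fun q => ?_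
    rw [← ENNReal.ofReal_mul (by positivity)]
    congr 1
    have h2 : h' * S.ell (dmap ψ hadj q.out) = h * T.ell q.out := hlen _ _ q.out.2
    field_simp
    linarith
  rw [hT, hS, mul_one] at h1
  have h3 : h / h' = 1 := by
    have := congrArg ENNReal.toReal h1
    rw [ENNReal.toReal_one, ENNReal.toReal_ofReal (by positivity)] at this
    exact this.symm
  field_simp at h3
  exact h3

lemma H_iff (ψ : T.V ≃ S.V) (hadj : ∀ u v : T.V, S.G.Adj (ψ u) (ψ v) ↔ T.G.Adj u v)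
    (e : T.D) (w : T.V) : ψ w ∈ S.H (dmap ψ hadj e) ↔ w ∈ T.H e := by
  let I : (T.G.deleteEdges {s(e.1.1, e.1.2)}) ≃g
      (S.G.deleteEdges {s(ψ e.1.1, ψ e.1.2)}) :=
    { toEquiv := ψ
      map_rel_iff' := by
        intro a b
        rw [SimpleGraph.deleteEdges_adj, SimpleGraph.deleteEdges_adj, hadj, mem_singleton_iff,
          mem_singleton_iff]
        simp only [Sym2.eq_iff, ψ.injective.eq_iff] }
  exact I.reachable_iff (u := e.1.2) (v := w)

lemma Sh_eq (ψ : T.V ≃ S.V) (hadj : ∀ u v : T.V, S.G.Adj (ψ u) (ψ v) ↔ T.G.Adj u v)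
    (hsm : ∀ (g : F N) (x : T.V), ψ (g • x) = g • ψ x) (e : T.D) :
    S.Sh (dmap ψ hadj e) = T.Sh e := by
  ext ξ
  constructor
  · intro h x
    filter_upwards [h (ψ x)] with n hn
    rwa [← hsm, H_iff ψ hadj] at hn
  · intro h x
    obtain ⟨y, rfl⟩ := ψ.surjective x
    filter_upwards [h y] with n hn
    rwa [← hsm, H_iff ψ hadj]

lemma Cyl_eq (ψ : T.V ≃ S.V) (hadj : ∀ u v : T.V, S.G.Adj (ψ u) (ψ v) ↔ T.G.Adj u v)
    (hsm : ∀ (g : F N) (x : T.V), ψ (g • x) = g • ψ x) (e : T.D) :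
    S.Cyl (dmap ψ hadj e) = T.Cyl e := by
  unfold CV.Cyl
  have h1 : S.rev (dmap ψ hadj e) = dmap ψ hadj (T.rev e) := rfl
  rw [h1, Sh_eq ψ hadj hsm, Sh_eq ψ hadj hsm]

lemma Cyl_inv {μ : Measure (Bd N × Bd N)} (hμ : T.Inv μ) (g : F N) (e : T.D) :
    μ (T.Cyl (g • e)) = μ (T.Cyl e) := by
  have h1 := congrArg (fun m : Measure (Bd N × Bd N) => m univ) (hμ.inv g e)
  beta_reduce at h1
  rw [Measure.map_apply _ MeasurableSet.univ, preimage_univ, Measure.restrict_apply_univ,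
    Measure.restrict_apply_univ] at h1
  · exact h1.symm
  · exact ((Act.meas_smul g).comp measurable_fst).prodMk ((Act.meas_smul g).comp measurable_snd)

theorem ifi : S_IFI := by
  intro N T S ⟨ψ, hsm, hadj, hlen⟩ μ hμ
  have h0 : ∀ e : T.D, ENNReal.ofReal (S.ell (dmap ψ hadj e)) * μ (S.Cyl (dmap ψ hadj e)) =
      ENNReal.ofReal (T.ell e) * μ (T.Cyl e) := by
    intro e
    rw [Cyl_eq ψ hadj hsm]
    have h1 : S.ell (dmap ψ hadj e) = T.ell e := hlen _ _ e.2
    rw [h1]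
  unfold CV.inter
  rw [reindex (dmap ψ hadj) (dmap_smul ψ hadj hsm)
    (fun k => ENNReal.ofReal (S.ell k) * μ (S.Cyl k)) (fun g k => by
      obtain ⟨e, rfl⟩ := (dmap ψ hadj).surjective k
      beta_reduce
      rw [← dmap_smul ψ hadj hsm, h0, h0, Cyl_inv hμ]
      congr 2
      exact T.len_smul g _ _)]
  congr 1
  exact tsum_congr fun q => h0 q.out

end Pool.Agent.R685.PS.Small
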