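import Pool.Agent.R685.PS.Stm2

/-!
# PSE-UD (MP_79396e_al): the logarithm of the ratio of the two densities
-/

open MeasureTheory Filter Topology Set
open scoped ENNReal NNReal

namespace Pool.Agent.R685.PS.Ud

open Pool.Agent.R685.PS

variable {N : ℕ} {T S : CV N}

theorem pre_congr {ξ ζ : Bd N} {n : ℕ} (h : ∀ i < n, ζ.1 i = ξ.1 i) : pre ζ n = pre ξ n := by
  induction n with
  | zero => rfl
  | succ n ih =>
    show pre ζ n * lt (ζ.1 n) = pre ξ n * lt (ξ.1 n)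
    rw [ih fun i hi => h i (by omega), h n (Nat.lt_succ_self n)]

theorem sh_ne_zero (hTB : T.Bdry) {ζ : Bd N} {e : T.D} (hζ : ζ ∈ T.Sh e) {m : Measure (Bd N)}
    (hm : ∀ n : ℕ, m {ζ' | ∀ i < n, ζ'.1 i = ζ.1 i} ≠ 0) : m (T.Sh e) ≠ 0 := by
  obtain ⟨n0, hn0⟩ := hTB.stab e (T.tgt e)
  have h1 : pre ζ n0 • T.tgt e ∈ T.H e := by
    obtain ⟨n, hn1, hn2⟩ := ((hζ (T.tgt e)).and (eventually_ge_atTop n0)).exists
    exact (hn0 ζ n hn2).1 hn1
  intro h0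
  refine hm n0 (measure_mono_null ?_ h0)
  intro ζ' hζ'
  apply hTB.base e (T.tgt e) ζ'
  refine (eventually_atTop.2 ⟨n0, fun n hn => ?_⟩).frequently
  rw [hn0 ζ' n hn, pre_congr hζ']
  exact h1

theorem sh_real_pos (hTB : T.Bdry) {ζ : Bd N} {e : T.D} (hζ : ζ ∈ T.Sh e) {m : Measure (Bd N)}
    (hf : IsFiniteMeasure m) (hm : ∀ n : ℕ, m {ζ' | ∀ i < n, ζ'.1 i = ζ.1 i} ≠ 0) :
    0 < m.real (T.Sh e) :=
  ENNReal.toReal_pos (sh_ne_zero hTB hζ hm) (measure_ne_top m _)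

/-- the dart at `x` in the direction of `ξ` exists -/
theorem exA (hB : T.Bdry) (hR : T.Reduced) (x : T.V) (ξ : Bd N) :
    ∃ a : T.D, T.src a = x ∧ ξ ∈ T.Sh a := by
  obtain ⟨p, _, _, hp, _⟩ := hR x
  by_cases h : ξ ∈ T.Sh (⟨(x, p), hp⟩ : T.D)
  · exact ⟨⟨(x, p), hp⟩, rfl, h⟩
  · have h2 : ξ ∈ T.Sh (T.rev (⟨(x, p), hp⟩ : T.D)) := (hB.compl _ ξ).2 h
    obtain ⟨f, ⟨hf1, _, hf3⟩, _⟩ := hB.next _ ξ h2
    exact ⟨f, hf1, hf3⟩

/-- and is unique -/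
theorem unA (hB : T.Bdry) {a b : T.D} {ξ : Bd N} (h : T.src a = T.src b) (ha : ξ ∈ T.Sh a)
    (hb : ξ ∈ T.Sh b) : a = b := by
  by_contra hne
  have h1 : T.Sh a ⊆ T.Sh (T.rev b) := hB.sub (T.rev b) a h hne
  exact (hB.compl b ξ).1 (h1 ha) hb

theorem nx_spec (hB : T.Bdry) {ζ : Bd N} {e : T.D} (h : ζ ∈ T.Sh e) :
    T.src (T.nx ζ e) = T.tgt e ∧ T.nx ζ e ≠ T.rev e ∧ ζ ∈ T.Sh (T.nx ζ e) := by
  obtain ⟨f, hf, -⟩ := hB.next e ζ h
  have hex : ∃ f : T.D, T.src f = T.tgt e ∧ f ≠ T.rev e ∧ ζ ∈ T.Sh f := ⟨f, hf⟩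
  unfold CV.nx
  rw [dif_pos hex]
  exact hex.choose_spec

/-- there is a dart leading to the source of `a` whose next dart is `a` -/
theorem exPrev (hB : T.Bdry) (hR : T.Reduced) {a : T.D} {ξ : Bd N} (ha : ξ ∈ T.Sh a) :
    ∃ e : T.D, T.tgt e = T.src a ∧ ξ ∈ T.Sh e ∧ T.nx ξ e = a := by
  obtain ⟨p, q, _, hp, hq, _, hpq, _⟩ := hR (T.src a)
  have key : ∀ r : T.V, T.G.Adj (T.src a) r → r ≠ T.tgt a →
      ∃ e : T.D, T.tgt e = T.src a ∧ ξ ∈ T.Sh e ∧ T.nx ξ e = a := by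
    intro r hr hra
    have h1 : ξ ∉ T.Sh (⟨(T.src a, r), hr⟩ : T.D) := by
      intro h
      have := unA hB (a := ⟨(T.src a, r), hr⟩) (b := a) rfl h ha
      exact hra (congrArg T.tgt this)
    have h2 : ξ ∈ T.Sh (T.rev (⟨(T.src a, r), hr⟩ : T.D)) := (hB.compl _ ξ).2 h1
    refine ⟨T.rev (⟨(T.src a, r), hr⟩ : T.D), rfl, h2, ?_⟩
    obtain ⟨h3, _, h5⟩ := nx_spec hB h2
    exact unA hB h3 h5 ha
  by_cases h : p = T.tgt a
  · exact key q hq (fun hc => hpq (h.trans hc.symm))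
  · exact key p hp h

theorem iter_smul (hN : NX T) (n : ℕ) (g : F N) (ζ : Bd N) (e : T.D) :
    (T.nx (g • ζ))^[n] (g • e) = g • (T.nx ζ)^[n] e := by
  induction n with
  | zero => rfl
  | succ n ih => rw [Function.iterate_succ_apply', Function.iterate_succ_apply', ih, hN.smul]

/-- the log-ratio seen from the source of `a`, `i` steps after `a` -/
noncomputable def G (T S : CV N) (φ : T.V → S.V) (ν : T.V → Measure (Bd N))
    (ν' : S.V → Measure (Bd N)) (i : ℕ) (x : T.V) (a : T.D) (ξ : Bd N) : ℝ :=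
  Real.log ((ν' (φ x)).real (T.Sh ((T.nx ξ)^[i] a))) -
    Real.log ((ν x).real (T.Sh ((T.nx ξ)^[i] a)))

section main

variable {φ : T.V → S.V} {h h' : ℝ} {ν : T.V → Measure (Bd N)} {ν' : S.V → Measure (Bd N)}
  {μ : Measure (Bd N × Bd N)}

theorem G_succ (hD : Dat T S φ h h' ν ν' μ) (hR : T.Reduced) {i0 : ℕ}
    (hL : ∀ i : ℕ, i0 ≤ i → ∀ (e : T.D) (ζ : Bd N), ζ ∈ T.Sh e →
      Lg T S φ ν ν' (i + 1) e ζ = Lg T S φ ν ν' i e ζ) {i : ℕ} (hi : i0 ≤ i) {a : T.D} {ξ : Bd N}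
    (ha : ξ ∈ T.Sh a) : G T S φ ν ν' (i + 1) (T.src a) a ξ = G T S φ ν ν' i (T.src a) a ξ := by
  obtain ⟨e, he, heξ, hea⟩ := exPrev hD.TB hR ha
  have h1 := hL (i + 1) (by omega) e ξ heξ
  unfold Lg at h1
  rw [he, Function.iterate_succ_apply (T.nx ξ) (i + 1) e, Function.iterate_succ_apply (T.nx ξ) i e,
    hea] at h1
  unfold G
  linarith

theorem G_const (hD : Dat T S φ h h' ν ν' μ) (hR : T.Reduced) {i0 : ℕ}
    (hL : ∀ i : ℕ, i0 ≤ i → ∀ (e : T.D) (ζ : Bd N), ζ ∈ T.Sh e →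
      Lg T S φ ν ν' (i + 1) e ζ = Lg T S φ ν ν' i e ζ) {i : ℕ} (hi : i0 ≤ i) {a : T.D} {ξ : Bd N}
    (ha : ξ ∈ T.Sh a) : G T S φ ν ν' i (T.src a) a ξ = G T S φ ν ν' i0 (T.src a) a ξ := by
  induction i, hi using Nat.le_induction with
  | base => rfl
  | succ i hi ih => rw [G_succ hD hR hL hi ha, ih]

end main

theorem main (_hA : S_ACT) (hDeep : S_DEEP) : S_UD := by
  intro N T S φ h h' ν ν' μ hD hR i0 hL
  obtain ⟨i1, hi1⟩ := hDeep N T S φ hD.phi hD.TW hD.TC hD.TB hD.TN hD.SW hD.SC hD.SB hD.SH2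
  have hB := hD.TB
  choose A hA1 hA2 using exA hB hR
  have hAu : ∀ (a : T.D) (ξ : Bd N), ξ ∈ T.Sh a → A (T.src a) ξ = a := fun a ξ ha =>
    unA hB (hA1 _ _) (hA2 _ _) ha
  have hsub : ∀ (i : ℕ) (a : T.D) (ξ : Bd N), ξ ∈ T.Sh a → T.Sh ((T.nx ξ)^[i] a) ⊆ T.Sh a := by
    intro i a ξ ha
    rw [← hD.TN.cell i a ξ ha]
    exact inter_subset_left
  -- adjacent vertices, forward direction
  have hadj : ∀ (e : T.D) (ξ : Bd N), ξ ∈ T.Sh e →
      G T S φ ν ν' i0 (T.src e) (A (T.src e) ξ) ξ - G T S φ ν ν' i0 (T.tgt e) (A (T.tgt e) ξ) ξ =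
        h * T.busemann ξ (T.src e) (T.tgt e) -
          h' * S.busemann ξ (φ (T.src e)) (φ (T.tgt e)) := by
    intro e ξ he
    obtain ⟨h1, _, h3⟩ := nx_spec hB he
    have e1 : A (T.src e) ξ = e := hAu e ξ he
    have e2 : A (T.tgt e) ξ = T.nx ξ e := by
      rw [← h1]
      exact hAu _ ξ h3
    rw [e1, e2]
    set j : ℕ := max i0 i1 with hj
    have g1 : G T S φ ν ν' (j + 1) (T.src e) e ξ = G T S φ ν ν' i0 (T.src e) e ξ :=
      G_const hD hR hL (by omega) he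
    have g2 : G T S φ ν ν' j (T.tgt e) (T.nx ξ e) ξ = G T S φ ν ν' i0 (T.tgt e) (T.nx ξ e) ξ := by
      rw [← h1]
      exact G_const hD hR hL (by omega) h3
    rw [← g1, ← g2]
    unfold G
    rw [Function.iterate_succ_apply (T.nx ξ) j e]
    set f : T.D := (T.nx ξ)^[j] (T.nx ξ e) with hf
    have hff : f = (T.nx ξ)^[j + 1] e := (Function.iterate_succ_apply (T.nx ξ) j e).symm
    have hξf : ξ ∈ T.Sh f := by
      rw [hff]
      exact hD.TN.sh (j + 1) e ξ he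
    have hfe : T.Sh f ⊆ T.Sh e := by
      rw [hff]
      exact hsub (j + 1) e ξ he
    have p1 : 0 < (ν (T.tgt e)).real (T.Sh f) :=
      sh_real_pos hB hξf (hD.TD.fin _) fun n => hD.TD.pos _ ξ n
    have p2 : 0 < (ν' (φ (T.tgt e))).real (T.Sh f) :=
      sh_real_pos hB hξf (hD.SD.fin _) fun n => hD.SD.pos _ ξ n
    have c1 : (ν (T.src e)).real (T.Sh f) =
        Real.exp (-h * T.ell e) * (ν (T.tgt e)).real (T.Sh f) := by
      rw [Measure.real, hD.TD.conf e (T.Sh f) (hB.meas f) hfe, ENNReal.toReal_mul,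
        ENNReal.toReal_ofReal (Real.exp_pos _).le]
      rfl
    have c2 : (ν' (φ (T.src e))).real (T.Sh f) =
        Real.exp (-h' * S.busemann ξ (φ (T.src e)) (φ (T.tgt e))) *
          (ν' (φ (T.tgt e))).real (T.Sh f) := by
      rw [Measure.real, hD.SD2.bus (φ (T.src e)) (φ (T.tgt e)) (T.Sh f)
        (S.busemann ξ (φ (T.src e)) (φ (T.tgt e))) (hB.meas f) ?_, ENNReal.toReal_mul,
        ENNReal.toReal_ofReal (Real.exp_pos _).le]
      · rfl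
      · intro ζ hζ
        rw [hff] at hζ hξf
        exact hi1 e ξ he (j + 1) (by omega) (T.src e) ((hD.TW.cross e e).2 rfl).1 ζ ξ hζ hξf
    rw [c1, c2, Real.log_mul (Real.exp_pos _).ne' p1.ne', Real.log_mul (Real.exp_pos _).ne' p2.ne',
      Real.log_exp, Real.log_exp, hD.TH.ell e ξ he]
    ring
  have bT0 : ∀ (ξ : Bd N) (x : T.V), T.busemann ξ x x = 0 := by
    intro ξ x
    have := hD.TH.add ξ x x x
    linarith
  have bS0 : ∀ (ξ : Bd N) (x : S.V), S.busemann ξ x x = 0 := by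
    intro ξ x
    have := hD.SH.add ξ x x x
    linarith
  have hadj2 : ∀ (x y : T.V), T.G.Adj x y → ∀ ξ : Bd N,
      G T S φ ν ν' i0 x (A x ξ) ξ - G T S φ ν ν' i0 y (A y ξ) ξ =
        h * T.busemann ξ x y - h' * S.busemann ξ (φ x) (φ y) := by
    intro x y hxy ξ
    by_cases hξ : ξ ∈ T.Sh (⟨(x, y), hxy⟩ : T.D)
    · exact hadj ⟨(x, y), hxy⟩ ξ hξ
    · have h2 : ξ ∈ T.Sh (T.rev (⟨(x, y), hxy⟩ : T.D)) := (hB.compl _ ξ).2 hξ
      have h3 := hadj _ ξ h2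
      have h4 : G T S φ ν ν' i0 y (A y ξ) ξ - G T S φ ν ν' i0 x (A x ξ) ξ =
          h * T.busemann ξ y x - h' * S.busemann ξ (φ y) (φ x) := h3
      have h5 := hD.TH.add ξ x y x
      have h6 := hD.SH.add ξ (φ x) (φ y) (φ x)
      rw [bT0] at h5
      rw [bS0] at h6
      have h7 : T.busemann ξ y x = - T.busemann ξ x y := by linarith
      have h8 : S.busemann ξ (φ y) (φ x) = - S.busemann ξ (φ x) (φ y) := by linarith
      rw [h7, h8] at h4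
      linarith
  refine ⟨fun x ξ => G T S φ ν ν' i0 x (A x ξ) ξ, ?_, ?_, ?_⟩
  · intro g x ξ
    have e1 : A (g • x) (g • ξ) = g • A x ξ := by
      have h1 : T.src (g • A x ξ) = g • x := by
        show g • T.src (A x ξ) = g • x
        rw [hA1]
      rw [← h1]
      exact hAu _ _ ((hB.smul g _ ξ).2 (hA2 x ξ))
    show G T S φ ν ν' i0 (g • x) (A (g • x) (g • ξ)) (g • ξ) = G T S φ ν ν' i0 x (A x ξ) ξ
    rw [e1]
    unfold G
    rw [iter_smul hD.TN, hD.phi]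
    set f : T.D := (T.nx ξ)^[i0] (A x ξ) with hf
    have hset : {ζ : Bd N | g • ζ ∈ T.Sh (g • f)} = T.Sh f := by
      ext ζ
      exact hB.smul g f ζ
    have c1 : (ν (g • x)).real (T.Sh (g • f)) = (ν x).real (T.Sh f) := by
      rw [Measure.real, hD.TD.equi g x _ (hB.meas _), hset]
      rfl
    have c2 : (ν' (g • φ x)).real (T.Sh (g • f)) = (ν' (φ x)).real (T.Sh f) := by
      rw [Measure.real, hD.SD.equi g (φ x) _ (hB.meas _), hset]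
      rfl
    rw [c1, c2]
  · intro x ξ
    obtain ⟨n, hn⟩ := hD.TH2.opn ((T.nx ξ)^[i0] (A x ξ))
    refine ⟨n, fun ζ hζ => ?_⟩
    have h1 : ξ ∈ T.Sh ((T.nx ξ)^[i0] (A x ξ)) := hD.TN.sh _ _ _ (hA2 x ξ)
    have h2 : ζ ∈ T.Sh ((T.nx ξ)^[i0] (A x ξ)) := (hn ξ ζ hζ).2 h1
    rw [← hD.TN.cell i0 (A x ξ) ξ (hA2 x ξ)] at h2
    obtain ⟨h3, h4⟩ := h2
    have h4' : (T.nx ζ)^[i0] (A x ξ) = (T.nx ξ)^[i0] (A x ξ) := h4
    have h5 : A x ζ = A x ξ := by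
      have := hAu (A x ξ) ζ h3
      rwa [hA1] at this
    show G T S φ ν ν' i0 x (A x ζ) ζ = G T S φ ν ν' i0 x (A x ξ) ξ
    unfold G
    rw [h5, h4']
  · intro x y ξ
    show G T S φ ν ν' i0 x (A x ξ) ξ - G T S φ ν ν' i0 y (A y ξ) ξ = _
    obtain ⟨p⟩ := T.isTree.connected.preconnected x y
    induction p with
    | nil => rw [bT0, bS0]; ring
    | cons hxz p ih =>
      have h1 := hadj2 _ _ hxz ξ
      rw [hD.TH.add ξ _ _ _ , hD.SH.add ξ _ _ _]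
      linarith [h1, ih]

end Pool.Agent.R685.PS.Ud
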