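import Pool.Agent.R685.PS.Stm2

/-!
# PSE-WB: the walls of the two trees correspond
-/

open MeasureTheory Filter Topology Set
open scoped ENNReal NNReal

namespace Pool.Agent.R685.PS.Wb

variable {N : ℕ}

/-- the family of the walls separating `{ξ, η}` from `{ζ, θ}` -/
def X (T : CV N) (ξ η ζ θ : Bd N) : Set T.D :=
  {e : T.D | ξ ∉ T.Sh e ∧ η ∉ T.Sh e ∧ ζ ∈ T.Sh e ∧ θ ∈ T.Sh e}

theorem ell_pos (T : CV N) (e : T.D) : 0 < T.ell e := T.len_pos _ _ e.2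

theorem rev_rev (T : CV N) (e : T.D) : T.rev (T.rev e) = e := rfl

theorem ell_rev (T : CV N) (e : T.D) : T.ell (T.rev e) = T.ell e := T.len_symm _ _

theorem finite_X (T : CV N) (hB : T.Bdry) (hW : T.Walls) (hH : T.Horo2) {ξ η ζ θ : Bd N}
    (h1 : ξ ≠ η) (h2 : ζ ≠ θ) : (X T ξ η ζ θ).Finite := by
  obtain ⟨v⟩ : Nonempty T.V := T.isTree.1.nonempty
  have f1 := (hH.grof v ζ θ h2).1
  have f2 := (hH.grof v ξ η h1).1
  refine (f1.union (f2.image T.rev)).subset ?_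
  rintro e ⟨a1, a2, a3, a4⟩
  by_cases hv : v ∈ T.H e
  · right
    refine ⟨T.rev e, ⟨?_, (hB.compl e ξ).2 a1, (hB.compl e η).2 a2⟩, rfl⟩
    rw [hW.compl]
    exact not_not.2 hv
  · left
    exact ⟨hv, a3, a4⟩

theorem W_eq (T : CV N) {ξ η ζ θ : Bd N} (hf : (X T ξ η ζ θ).Finite) :
    T.W ξ η ζ θ = ∑ e ∈ hf.toFinset, T.ell e := by
  unfold CV.W
  exact finsum_mem_eq_finite_toFinset_sum _ hf

/-- a dart `g` with the source of `a` behind it and with a common shadow point -/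
theorem sub_of (T : CV N) (hW : T.Walls) {a g : T.D} {ξ : Bd N} (hs : T.src a ∉ T.H g)
    (ha : ξ ∈ T.Sh a) (hg : ξ ∈ T.Sh g) : T.Sh g ⊆ T.Sh a := by
  have hH : T.H g ⊆ T.H a := by
    intro p hp
    by_contra hpa
    obtain ⟨n, h1, h2⟩ := ((ha p).and (hg p)).exists
    exact hs (hW.convex a g p _ hp h2 hpa h1).1
  intro κ hκ x
  exact (hκ x).mono fun n hn => hH hn

/-- two different darts with the same source have disjoint shadows -/
theorem disj (T : CV N) (hB : T.Bdry) {a b : T.D} (hab : a ≠ b) (hs : T.src a = T.src b)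
    {ξ : Bd N} (ha : ξ ∈ T.Sh a) (hb : ξ ∈ T.Sh b) : False := by
  have h := hB.sub (T.rev a) b hs.symm (fun h => hab h.symm)
  exact (hB.compl a ξ).1 (h hb) ha

/-- the configuration around a dart -/
structure Conf (T : CV N) (e a b c d : T.D) (ξ η ζ θ : Bd N) : Prop where
  sa : T.src a = T.src e
  sb : T.src b = T.src e
  ae : a ≠ e
  be : b ≠ e
  ab : a ≠ b
  sc : T.src c = T.tgt e
  sd : T.src d = T.tgt e
  ce : c ≠ T.rev e
  de : d ≠ T.rev e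
  cd : c ≠ d
  pa : ξ ∈ T.Sh a
  pb : η ∈ T.Sh b
  pc : ζ ∈ T.Sh c
  pd : θ ∈ T.Sh d

theorem Conf.rev {T : CV N} {e a b c d : T.D} {ξ η ζ θ : Bd N} (h : Conf T e a b c d ξ η ζ θ) :
    Conf T (T.rev e) c d a b ζ θ ξ η :=
  ⟨h.sc, h.sd, h.ce, h.de, h.cd, h.sa, h.sb, h.ae, h.be, h.ab, h.pc, h.pd, h.pa, h.pb⟩

theorem Conf.mem {T : CV N} (hB : T.Bdry) {e a b c d : T.D} {ξ η ζ θ : Bd N}
    (h : Conf T e a b c d ξ η ζ θ) : e ∈ X T ξ η ζ θ :=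
  ⟨(hB.compl e ξ).1 (hB.sub (T.rev e) a h.sa h.ae h.pa),
   (hB.compl e η).1 (hB.sub (T.rev e) b h.sb h.be h.pb),
   hB.sub e c h.sc h.ce h.pc, hB.sub e d h.sd h.de h.pd⟩

theorem Conf.dist {T : CV N} (hB : T.Bdry) {e a b c d : T.D} {ξ η ζ θ : Bd N}
    (h : Conf T e a b c d ξ η ζ θ) : Dist4 ξ η ζ θ := by
  obtain ⟨m1, m2, m3, m4⟩ := h.mem hB
  refine ⟨?_, ?_, ?_, ?_, ?_, ?_⟩
  · rintro rfl
    exact disj T hB h.ab (h.sa.trans h.sb.symm) h.pa h.pb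
  · rintro rfl
    exact m1 m3
  · rintro rfl
    exact m1 m4
  · rintro rfl
    exact m2 m3
  · rintro rfl
    exact m2 m4
  · rintro rfl
    exact disj T hB h.cd (h.sc.trans h.sd.symm) h.pc h.pd

theorem Conf.X_eq {T : CV N} (hB : T.Bdry) (hW : T.Walls) {e a b c d : T.D} {ξ η ζ θ : Bd N}
    (h : Conf T e a b c d ξ η ζ θ) : X T ξ η ζ θ = {e} := by
  apply Set.eq_singleton_iff_unique_mem.2
  refine ⟨h.mem hB, ?_⟩
  rintro f ⟨m1, m2, m3, m4⟩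
  by_contra hfe
  by_cases hs : T.src e ∈ T.H f
  · have hs' : T.src e ∉ T.H (T.rev f) := by
      rw [hW.compl]
      exact not_not.2 hs
    have r1 : ξ ∈ T.Sh (T.rev f) := (hB.compl f ξ).2 m1
    have r2 : η ∈ T.Sh (T.rev f) := (hB.compl f η).2 m2
    have t1 := sub_of T hW (a := a) (g := T.rev f) (by rw [h.sa]; exact hs') h.pa r1
    have t2 := sub_of T hW (a := b) (g := T.rev f) (by rw [h.sb]; exact hs') h.pb r2
    exact disj T hB h.ab (h.sa.trans h.sb.symm) (t1 r1) (t2 r1)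
  · have ht : T.tgt e ∉ T.H f := by
      intro ht
      exact hfe ((hW.cross e f).1 ⟨hs, ht⟩)
    have t1 := sub_of T hW (a := c) (g := f) (by rw [h.sc]; exact ht) h.pc m3
    have t2 := sub_of T hW (a := d) (g := f) (by rw [h.sd]; exact ht) h.pd m4
    exact disj T hB h.cd (h.sc.trans h.sd.symm) (t1 m3) (t2 m3)

theorem Conf.W_eq {T : CV N} (hB : T.Bdry) (hW : T.Walls) {e a b c d : T.D} {ξ η ζ θ : Bd N}
    (h : Conf T e a b c d ξ η ζ θ) : T.W ξ η ζ θ = T.ell e := by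
  have := h.X_eq hB hW
  unfold CV.W
  rw [show {e : T.D | ξ ∉ T.Sh e ∧ η ∉ T.Sh e ∧ ζ ∈ T.Sh e ∧ θ ∈ T.Sh e} = {e} from this]
  exact finsum_mem_singleton

/-- two neighbours different from a given one -/
theorem two_nbr (T : CV N) (hR : T.Reduced) (v w : T.V) :
    ∃ a b : T.V, T.G.Adj v a ∧ T.G.Adj v b ∧ a ≠ w ∧ b ≠ w ∧ a ≠ b := by
  obtain ⟨a, b, c, ha, hb, hc, hab, hac, hbc⟩ := hR v
  by_cases h1 : a = w
  · subst h1
    exact ⟨b, c, hb, hc, hab.symm, hac.symm, hbc⟩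
  · by_cases h2 : b = w
    · subst h2
      exact ⟨a, c, ha, hc, h1, hbc.symm, hac⟩
    · exact ⟨a, b, ha, hb, h1, h2, hab⟩

theorem exists_conf (T : CV N) (hR : T.Reduced) (hRed : T.Red) (e : T.D) :
    ∃ (a b c d : T.D) (ξ η ζ θ : Bd N), Conf T e a b c d ξ η ζ θ := by
  obtain ⟨a, b, ha, hb, ha', hb', hab⟩ := two_nbr T hR (T.src e) (T.tgt e)
  obtain ⟨c, d, hc, hd, hc', hd', hcd⟩ := two_nbr T hR (T.tgt e) (T.src e)
  obtain ⟨ξ, hξ⟩ := hRed.ne ⟨(T.src e, a), ha⟩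
  obtain ⟨η, hη⟩ := hRed.ne ⟨(T.src e, b), hb⟩
  obtain ⟨ζ, hζ⟩ := hRed.ne ⟨(T.tgt e, c), hc⟩
  obtain ⟨θ, hθ⟩ := hRed.ne ⟨(T.tgt e, d), hd⟩
  refine ⟨⟨(T.src e, a), ha⟩, ⟨(T.src e, b), hb⟩, ⟨(T.tgt e, c), hc⟩, ⟨(T.tgt e, d), hd⟩,
    ξ, η, ζ, θ, rfl, rfl, ?_, ?_, ?_, rfl, rfl, ?_, ?_, ?_, hξ, hη, hζ, hθ⟩
  · intro h
    exact ha' (congrArg T.tgt h)
  · intro h
    exact hb' (congrArg T.tgt h)
  · intro h
    exact hab (congrArg T.tgt h)
  · intro h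
    exact hc' (congrArg T.tgt h)
  · intro h
    exact hd' (congrArg T.tgt h)
  · intro h
    exact hcd (congrArg T.tgt h)

/-- the shadow of `e` is contained in the shadow of a separating wall `k` of `S` -/
theorem sh_sub (T S : CV N) (h h' : ℝ) (hh : 0 < h) (hh' : 0 < h') (hTB : T.Bdry) (hTW : T.Walls)
    (hTH : T.Horo2) (hSB : S.Bdry) (hSW : S.Walls) (hSH : S.Horo2) (hSR : S.Red)
    (hW : ∀ ξ η ζ θ : Bd N, Dist4 ξ η ζ θ → h * T.W ξ η ζ θ = h' * S.W ξ η ζ θ)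
    {e a b c d : T.D} {ξ η ζ θ : Bd N} (hc : Conf T e a b c d ξ η ζ θ) {k : S.D}
    (hk : k ∈ X S ξ η ζ θ) : T.Sh e ⊆ S.Sh k := by
  intro κ hκ
  by_contra hκk
  obtain ⟨k1, k2, k3, k4⟩ := hk
  obtain ⟨m1, m2, m3, m4⟩ := hc.mem hTB
  obtain ⟨d1, d2, d3, d4, d5, d6⟩ := hc.dist hTB
  have hζκ : ζ ≠ κ := by
    rintro rfl
    exact hκk k3
  have hdist : Dist4 ξ η ζ κ := by
    refine ⟨d1, d2, ?_, d4, ?_, hζκ⟩
    · rintro rfl
      exact m1 hκ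
    · rintro rfl
      exact m2 hκ
  -- compare the sums
  have fT := finite_X T hTB hTW hTH d1 hζκ
  have fS := finite_X S hSB hSW hSH d1 hζκ
  have fS' := finite_X S hSB hSW hSH d1 d6
  have w1 : T.ell e ≤ T.W ξ η ζ κ := by
    rw [W_eq T fT]
    refine Finset.single_le_sum (f := fun e => T.ell e) (fun j _ => (ell_pos T j).le) ?_
    rw [Set.Finite.mem_toFinset]
    exact ⟨m1, m2, m3, hκ⟩
  have w2 : h * T.ell e = h' * S.W ξ η ζ θ := by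
    rw [← hc.W_eq hTB hTW]
    exact hW _ _ _ _ (hc.dist hTB)
  have w3 := hW _ _ _ _ hdist
  have w4 : S.W ξ η ζ θ ≤ S.W ξ η ζ κ := by
    have : h' * S.W ξ η ζ θ ≤ h' * S.W ξ η ζ κ := by
      rw [← w2, ← w3]
      exact mul_le_mul_of_nonneg_left w1 hh.le
    exact le_of_mul_le_mul_left this hh'
  by_cases hsub : X S ξ η ζ κ ⊆ X S ξ η ζ θ
  · rw [W_eq S fS, W_eq S fS'] at w4
    have : ∑ e ∈ fS.toFinset, S.ell e < ∑ e ∈ fS'.toFinset, S.ell e := by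
      refine Finset.sum_lt_sum_of_subset (i := k) ?_ ?_ ?_ (ell_pos S k)
        (fun j _ _ => (ell_pos S j).le)
      · exact Set.Finite.toFinset_subset_toFinset.2 hsub
      · rw [Set.Finite.mem_toFinset]
        exact ⟨k1, k2, k3, k4⟩
      · rw [Set.Finite.mem_toFinset]
        rintro ⟨-, -, -, h4⟩
        exact hκk h4
    exact absurd w4 (not_le.2 this)
  · rw [Set.not_subset] at hsub
    obtain ⟨k', ⟨n1, n2, n3, n4⟩, hk'⟩ := hsub
    have n5 : θ ∉ S.Sh k' := fun h5 => hk' ⟨n1, n2, n3, h5⟩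
    exact hSR.nest k k' ξ θ κ ζ k1 n1 k4 n5 hκk n4 k3 n3

theorem main : S_WB := by
  intro N T S h h' _ hh hh' hTW _ hTB hTH hTR hTRed hSW _ hSB hSH _ hSRed hW e
  obtain ⟨a, b, c, d, ξ, η, ζ, θ, hc⟩ := exists_conf T hTR hTRed e
  have hd := hc.dist hTB
  have hWe := hW _ _ _ _ hd
  rw [hc.W_eq hTB hTW] at hWe
  have hpos : 0 < S.W ξ η ζ θ := by
    have h1 : 0 < h' * S.W ξ η ζ θ := by
      rw [← hWe]
      exact mul_pos hh (ell_pos T e)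
    exact (mul_pos_iff_of_pos_left hh').1 h1
  have fS := finite_X S hSB hSW hSH hd.1 hd.2.2.2.2.2
  have hsame : ∀ k ∈ X S ξ η ζ θ, S.Sh k = T.Sh e := by
    intro k hk
    have s1 := sh_sub T S h h' hh hh' hTB hTW hTH hSB hSW hSH hSRed hW hc hk
    have hk' : S.rev k ∈ X S ζ θ ξ η := by
      obtain ⟨k1, k2, k3, k4⟩ := hk
      refine ⟨fun h5 => (hSB.compl k ζ).1 h5 k3, fun h5 => (hSB.compl k θ).1 h5 k4,
        (hSB.compl k ξ).2 k1, (hSB.compl k η).2 k2⟩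
    have s2 := sh_sub T S h h' hh hh' hTB hTW hTH hSB hSW hSH hSRed hW hc.rev hk'
    apply Set.Subset.antisymm _ s1
    intro κ hκ
    by_contra hne
    exact (hSB.compl k κ).1 (s2 ((hTB.compl e κ).2 hne)) hκ
  obtain ⟨k, hk⟩ : (X S ξ η ζ θ).Nonempty := by
    rw [Set.nonempty_iff_ne_empty]
    intro hemp
    rw [W_eq S fS] at hpos
    have : fS.toFinset = ∅ := by
      rw [← Finset.coe_eq_empty, Set.Finite.coe_toFinset]
      exact hemp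
    rw [this, Finset.sum_empty] at hpos
    exact lt_irrefl _ hpos
  refine ⟨k, hsame k hk, ?_⟩
  have hXk : X S ξ η ζ θ = {k} := by
    apply Set.eq_singleton_iff_unique_mem.2
    refine ⟨hk, fun k' hk' => hSRed.inj _ _ ?_⟩
    rw [hsame k' hk', hsame k hk]
  have hWk : S.W ξ η ζ θ = S.ell k := by
    unfold CV.W
    rw [show {e : S.D | ξ ∉ S.Sh e ∧ η ∉ S.Sh e ∧ ζ ∈ S.Sh e ∧ θ ∈ S.Sh e} = {k} from hXk]
    exact finsum_mem_singleton
  rw [hWe, hWk]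

end Pool.Agent.R685.PS.Wb
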