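import Pool.Agent.R685.PS.All
import Pool.Agent.R685.PS.Final2
import Pool.Agent.R685.PS.RedP
import Pool.Agent.R685.PS.Horo2a
import Pool.Agent.R685.PS.Horo2P
import Pool.Agent.R685.PS.Small
import Pool.Agent.R685.PS.Deep
import Pool.Agent.R685.PS.Klb
import Pool.Agent.R685.PS.Rig1
import Pool.Agent.R685.PS.Geq
import Pool.Agent.R685.PS.Rig2
import Pool.Agent.R685.PS.Rig3
import Pool.Agent.R685.PS.Ud
import Pool.Agent.R685.PS.ConstP
import Pool.Agent.R685.PS.Crt
import Pool.Agent.R685.PS.Wb
import Pool.Agent.R685.PS.Iso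

namespace Pool.Agent.R685.PS.All2

theorem all : S_EQ := by
  have hA := Act.main
  have hW := WallsP.main
  have hT := Tel.main
  have hD := DistP.main
  have hC : S_COF := Cof.main
  have hB := BdryP.main hA hT
  have hH := HoroP.main hD
  have hP := Pos.main hA
  have hHp := Pos.hpos hA
  have hDe := DensP.main hA hP
  have hCu := CurrP.main hA
  have hI : S_INV := CurrP.inv hA
  have hMT := MT.main
  have hNX := NXP.main hA
  have hSt := Stat.main hA hMT
  have hX := XngP.main
  have hPh := XngP.phi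
  have hBb := BBT.main hT hD
  have hU := Unf.main hA hT hMT
  have hG := Gibbs.main
  have hM1 := Main1.main hG
  have hM2 := Main2.main hPh hBb hU hSt hM1
  have hDeep : S_DEEP := Deep.main hA hT
  exact Final2.finalEq hW hC hB hH hHp hDe hCu hI hNX hX hM2 hPh
    (Horo2P.main hD (Horo2a.main hA hT)) Small.dens2 (RedP.main hA hT)
    (Klb.main hBb hU hSt) hDeep (Rig1.main hSt Deep.nxb)
    (Rig2.main hA hG Geq.main Deep.nxb) (Rig3.main Deep.nxb) (Ud.main hA hDeep)
    (ConstP.main hA) Crt.main Wb.main Iso.main Small.vol Small.ifi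

end Pool.Agent.R685.PS.All2
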