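import Mathlib

/-!
# Patterson-Sullivan currents on Outer space: definitions (MP_fee052_al)
-/

open MeasureTheory Filter Topology Set
open scoped ENNReal NNReal

namespace Pool.Agent.R685.PS

/-- The free group `F_N` of rank `N`. -/
abbrev F (N : ℕ) := FreeGroup (Fin N)

/-- Letters: `(i, true)` is the `i`-th generator, `(i, false)` is its inverse. -/
abbrev Letter (N : ℕ) := Fin N × Bool

/-- The inverse letter. -/
def linv {N : ℕ} (a : Letter N) : Letter N := (a.1, !a.2)

/-- A letter as an element of the free group. -/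
def lt {N : ℕ} (a : Letter N) : F N := FreeGroup.mk [a]

/-- The Gromov boundary `∂F_N`: the space of infinite reduced words. -/
def Bd (N : ℕ) : Type := {ξ : ℕ → Letter N // ∀ n, ξ (n + 1) ≠ linv (ξ n)}

/-- The Borel structure of `∂F_N` (product structure on infinite words). -/
instance instMeasurableSpaceBd (N : ℕ) : MeasurableSpace (Bd N) :=
  inferInstanceAs (MeasurableSpace {ξ : ℕ → Letter N // ∀ n, ξ (n + 1) ≠ linv (ξ n)})

theorem linv_linv {N : ℕ} (a : Letter N) : linv (linv a) = a := by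
  rcases a with ⟨i, b⟩
  simp [linv]

/-- The infinite word without its first letter. -/
def Bd.tail {N : ℕ} (ξ : Bd N) : Bd N := ⟨fun n => ξ.1 (n + 1), fun n => ξ.2 (n + 1)⟩

/-- Put the letter `a` in front of `ξ`, when no cancellation occurs. -/
def Bd.cons {N : ℕ} (a : Letter N) (ξ : Bd N) (h : ξ.1 0 ≠ linv a) : Bd N :=
  ⟨fun n => Nat.casesOn n a (fun k => ξ.1 k), fun n => by
    cases n with
    | zero => exact h
    | succ k => exact ξ.2 k⟩

/-- Left multiplication of an infinite reduced word by a letter. -/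
def lmul {N : ℕ} (a : Letter N) (ξ : Bd N) : Bd N :=
  if h : ξ.1 0 = linv a then ξ.tail else Bd.cons a ξ h

theorem lmul_lmul {N : ℕ} (a : Letter N) (ξ : Bd N) : lmul (linv a) (lmul a ξ) = ξ := by
  unfold lmul
  by_cases h : ξ.1 0 = linv a
  · rw [dif_pos h]
    have h2 : ¬ (ξ.tail).1 0 = linv (linv a) := by
      rw [← h]
      exact ξ.2 0
    rw [dif_neg h2]
    apply Subtype.ext
    funext n
    cases n with
    | zero => exact h.symm
    | succ k => rfl
  · rw [dif_neg h]
    have h2 : (Bd.cons a ξ h).1 0 = linv (linv a) := by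
      rw [linv_linv]
      rfl
    rw [dif_pos h2]
    apply Subtype.ext
    funext n
    rfl

/-- The `i`-th generator acts on the boundary. -/
def letterPerm {N : ℕ} (i : Fin N) : Equiv.Perm (Bd N) where
  toFun := lmul (i, true)
  invFun := lmul (i, false)
  left_inv := fun ξ => lmul_lmul (i, true) ξ
  right_inv := fun ξ => lmul_lmul (i, false) ξ

/-- The action of `F_N` on its boundary, as a homomorphism. -/
def actHom (N : ℕ) : F N →* Equiv.Perm (Bd N) := FreeGroup.lift letterPerm

/-- The action of `F_N` on its boundary. -/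
instance instMulActionBd (N : ℕ) : MulAction (F N) (Bd N) where
  smul g ξ := actHom N g ξ
  one_smul ξ := by
    change actHom N 1 ξ = ξ
    rw [map_one]; rfl
  mul_smul g h ξ := by
    change actHom N (g * h) ξ = actHom N g (actHom N h ξ)
    rw [map_mul]; rfl

/-- The prefix of length `n` of an infinite reduced word, as an element of `F_N`. -/
def pre {N : ℕ} (ξ : Bd N) : ℕ → F N
  | 0 => 1
  | n + 1 => pre ξ n * lt (ξ.1 n)

/-- A point of (unprojectivised) Outer space `cv_N`: a minimal free isometric action of `F_N` on a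
metric simplicial tree.  `V`, `G` are the vertex set and the underlying combinatorial tree, and
`len u v` is the length of the edge `{u, v}`.  (Since `F_N` is torsion free, freeness on the
vertices is the same as freeness on the tree.) -/
structure CV (N : ℕ) where
  /-- the vertices -/
  V : Type
  /-- the action of the free group on the vertices -/
  act : MulAction (F N) V
  /-- the underlying graph -/
  G : SimpleGraph V
  /-- the graph is a tree -/
  isTree : G.IsTree
  /-- the group acts by graph automorphisms -/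
  adj_smul : ∀ (g : F N) (u v : V), G.Adj u v → G.Adj (g • u) (g • v)
  /-- the action is free -/
  free : ∀ (g : F N) (v : V), g • v = v → g = 1
  /-- the action is minimal: there is no proper invariant subtree -/
  minimal : ∀ W : Set V, (∀ (g : F N), ∀ w ∈ W, g • w ∈ W) → (G.induce W).Connected → W = univ
  /-- the edge lengths -/
  len : V → V → ℝ
  len_pos : ∀ u v : V, G.Adj u v → 0 < len u v
  len_symm : ∀ u v : V, len u v = len v u
  /-- the action is isometric -/
  len_smul : ∀ (g : F N) (u v : V), len (g • u) (g • v) = len u v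

namespace CV

variable {N : ℕ} (T : CV N)

instance instMulActionV : MulAction (F N) T.V := T.act

/-- The oriented edges of the tree. -/
def D : Type := {p : T.V × T.V // T.G.Adj p.1 p.2}

/-- The action of `F_N` on the oriented edges. -/
instance instMulActionD : MulAction (F N) T.D where
  smul g e := ⟨(g • e.1.1, g • e.1.2), T.adj_smul g _ _ e.2⟩
  one_smul e := by
    apply Subtype.ext
    change ((1 : F N) • e.1.1, (1 : F N) • e.1.2) = e.1
    simp
  mul_smul g h e := by
    apply Subtype.ext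
    change ((g * h) • e.1.1, (g * h) • e.1.2) = (g • h • e.1.1, g • h • e.1.2)
    simp [mul_smul]

/-- The source of an oriented edge. -/
def src (e : T.D) : T.V := e.1.1

/-- The target of an oriented edge. -/
def tgt (e : T.D) : T.V := e.1.2

/-- The same edge with the opposite orientation. -/
def rev (e : T.D) : T.D := ⟨(e.1.2, e.1.1), e.2.symm⟩

/-- The length of an oriented edge. -/
def ell (e : T.D) : ℝ := T.len e.1.1 e.1.2

/-- The half tree beyond the oriented edge `e = (u, v)`: the vertices in the component of `v` after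
the edge is removed. -/
def H (e : T.D) : Set T.V :=
  {w | (T.G.deleteEdges {s(e.1.1, e.1.2)}).Reachable e.1.2 w}

/-- The length metric of the tree (on vertices): infimum of the lengths of the edge paths. -/
noncomputable def dist (x y : T.V) : ℝ :=
  ⨅ p : T.G.Walk x y, (p.darts.map fun d => T.len d.fst d.snd).sum

/-- The shadow of `e`: the points of `∂F_N = ∂T` which are ends of the half tree beyond `e`. -/
def Sh (e : T.D) : Set (Bd N) := {ξ | ∀ x : T.V, ∀ᶠ n in atTop, pre ξ n • x ∈ T.H e}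

/-- The cylinder of `e`: the pairs `(ξ, ζ)` such that the geodesic line of `T` from `ξ` to `ζ`
crosses the edge `e` in the direction of `e`. -/
def Cyl (e : T.D) : Set (Bd N × Bd N) := T.Sh (T.rev e) ×ˢ T.Sh e

/-- The intersection form `⟨T, μ⟩`: the sum over the (unoriented) edges of the quotient graph of
`length(e) * μ(Cyl(e))`; here we sum over the oriented edges of the quotient and divide by two. -/
noncomputable def inter (μ : Measure (Bd N × Bd N)) : ℝ≥0∞ :=
  (∑' q : MulAction.orbitRel.Quotient (F N) T.D,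
    ENNReal.ofReal (T.ell q.out) * μ (T.Cyl q.out)) / 2

/-- The volume entropy (critical exponent) `h_T`. -/
noncomputable def critExp : ℝ :=
  sInf {s : ℝ | ∀ x y : T.V, Summable fun g : F N => Real.exp (-s * T.dist x (g • y))}

/-- The Busemann cocycle `β_ξ(x, y) = lim_{z → ξ} d(x, z) - d(y, z)`. -/
noncomputable def busemann (ξ : Bd N) (x y : T.V) : ℝ :=
  limUnder atTop fun n : ℕ => T.dist x (pre ξ n • x) - T.dist y (pre ξ n • x)

/-- The Gromov product `(ξ | ζ)_x` of two boundary points. -/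
noncomputable def gromov (x : T.V) (ξ ζ : Bd N) : ℝ :=
  limUnder atTop fun n : ℕ =>
    (T.dist x (pre ξ n • x) + T.dist x (pre ζ n • x) - T.dist (pre ξ n • x) (pre ζ n • x)) / 2

/-- `(ν_x)` is a family of Patterson-Sullivan measures of `T`: a nonzero finite `F_N`-equivariant
conformal density whose dimension is the critical exponent of the action. -/
structure IsPSDensity (ν : T.V → Measure (Bd N)) : Prop where
  finite : ∀ x, IsFiniteMeasure (ν x)
  nonzero : ∀ x, ν x ≠ 0
  equivariant : ∀ (g : F N) (x : T.V), ν (g • x) = (ν x).map fun ξ => g • ξ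
  conformal : ∀ x y : T.V, ν x =
    (ν y).withDensity fun ξ => ENNReal.ofReal (Real.exp (-T.critExp * T.busemann ξ x y))

/-- `μ` is the Patterson-Sullivan current of `T`, normalised by `⟨T, μ⟩ = 1`: up to a scalar,
`dμ(ξ, ζ) = exp(2 h_T (ξ | ζ)_x) dν_x(ξ) dν_x(ζ)` off the diagonal. -/
def IsPSCurrent (μ : Measure (Bd N × Bd N)) : Prop :=
  (∃ (ν : T.V → Measure (Bd N)) (x : T.V) (c : ℝ≥0), T.IsPSDensity ν ∧
    μ = (c : ℝ≥0∞) • ((((ν x).prod (ν x)).restrict {p | p.1 ≠ p.2}).withDensity
      fun p => ENNReal.ofReal (Real.exp (2 * T.critExp * T.gromov x p.1 p.2)))) ∧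
  T.inter μ = 1

/-! ## Auxiliary definitions used in the proof -/

/-- The oriented edges separating `x` from `y` (pointing to `y`). -/
def sep (x y : T.V) : Set T.D := {e | x ∉ T.H e ∧ y ∈ T.H e}

open Classical in
/-- The next oriented edge after `e` in the direction of the boundary point `ζ`. -/
noncomputable def nx (ζ : Bd N) (e : T.D) : T.D :=
  if h : ∃ f : T.D, T.src f = T.tgt e ∧ f ≠ T.rev e ∧ ζ ∈ T.Sh f then h.choose else e

/-- `flow μ c` is the integral of `c` over the unit tangent space `{(e, ω) : ω ∈ Cyl e} / F_N`. -/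
noncomputable def flow (μ : Measure (Bd N × Bd N)) (c : T.D → Bd N × Bd N → ℝ) : ℝ :=
  ∑ᶠ q : MulAction.orbitRel.Quotient (F N) T.D, ∫ ω in T.Cyl q.out, c q.out ω ∂μ

/-- Signed length of the part of the geodesic line `ω = (ξ, ζ)` of `T` between `a` and `b`. -/
noncomputable def xng (a b : T.V) (ω : Bd N × Bd N) : ℝ :=
  ∑ᶠ g : T.D, T.ell g * (T.Cyl g).indicator 1 ω *
    ((T.H g).indicator (1 : T.V → ℝ) b - (T.H g).indicator (1 : T.V → ℝ) a)

/-- The wall structure of a tree. -/
structure Walls : Prop where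
  compl : ∀ (e : T.D) (w : T.V), w ∈ T.H (T.rev e) ↔ w ∉ T.H e
  cross : ∀ e f : T.D, (T.src e ∉ T.H f ∧ T.tgt e ∈ T.H f) ↔ f = e
  convex : ∀ (e f : T.D) (p q : T.V), p ∈ T.H f → q ∈ T.H f → p ∉ T.H e → q ∈ T.H e →
    T.src e ∈ T.H f ∧ T.tgt e ∈ T.H f
  finite : ∀ x y : T.V, (T.sep x y).Finite
  smul : ∀ (g : F N) (e : T.D) (w : T.V), g • w ∈ T.H (g • e) ↔ w ∈ T.H e

/-- The action is cocompact. -/
structure Cofin : Prop where
  vert : ∃ s : Set T.V, s.Finite ∧ ∀ v, ∃ g : F N, ∃ w ∈ s, g • w = v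
  edge : ∃ s : Set T.D, s.Finite ∧ ∀ e, ∃ g : F N, ∃ f ∈ s, g • f = e

/-- Basic facts on shadows. -/
structure Bdry : Prop where
  stab : ∀ (e : T.D) (x : T.V), ∃ n0 : ℕ, ∀ (ξ : Bd N) (n : ℕ), n0 ≤ n →
    (pre ξ n • x ∈ T.H e ↔ pre ξ n0 • x ∈ T.H e)
  base : ∀ (e : T.D) (x : T.V) (ξ : Bd N), (∃ᶠ n in atTop, pre ξ n • x ∈ T.H e) → ξ ∈ T.Sh e
  compl : ∀ (e : T.D) (ξ : Bd N), ξ ∈ T.Sh (T.rev e) ↔ ξ ∉ T.Sh e
  meas : ∀ e : T.D, MeasurableSet (T.Sh e)
  smul : ∀ (g : F N) (e : T.D) (ξ : Bd N), g • ξ ∈ T.Sh (g • e) ↔ ξ ∈ T.Sh e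
  next : ∀ (e : T.D) (ξ : Bd N), ξ ∈ T.Sh e →
    ∃! f : T.D, T.src f = T.tgt e ∧ f ≠ T.rev e ∧ ξ ∈ T.Sh f
  sub : ∀ e f : T.D, T.src f = T.tgt e → f ≠ T.rev e → T.Sh f ⊆ T.Sh e

/-- Basic facts on Busemann functions and Gromov products. -/
structure Horo : Prop where
  ell : ∀ (e : T.D) (ξ : Bd N), ξ ∈ T.Sh e → T.busemann ξ (T.src e) (T.tgt e) = T.ell e
  add : ∀ (ξ : Bd N) (x y z : T.V), T.busemann ξ x z = T.busemann ξ x y + T.busemann ξ y z
  le : ∀ (ξ : Bd N) (x y : T.V), T.busemann ξ x y ≤ T.dist x y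
  meas : ∀ x y : T.V, Measurable fun ξ : Bd N => T.busemann ξ x y
  gro : ∀ (e : T.D) (ξ ζ : Bd N) (x : T.V), ξ ∈ T.Sh (T.rev e) → ζ ∈ T.Sh e →
    2 * T.gromov x ξ ζ = T.busemann ξ x (T.tgt e) + T.busemann ζ x (T.tgt e)

/-- What the proof uses about a conformal density of dimension `h`. -/
structure Dens (h : ℝ) (ν : T.V → Measure (Bd N)) : Prop where
  fin : ∀ x, IsFiniteMeasure (ν x)
  low : ∀ (x y : T.V) (A : Set (Bd N)), MeasurableSet A →
    ENNReal.ofReal (Real.exp (-h * T.dist x y)) * ν y A ≤ ν x A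
  conf : ∀ (e : T.D) (A : Set (Bd N)), MeasurableSet A → A ⊆ T.Sh e →
    ν (T.src e) A = ENNReal.ofReal (Real.exp (-h * T.ell e)) * ν (T.tgt e) A
  equi : ∀ (g : F N) (x : T.V) (A : Set (Bd N)), MeasurableSet A →
    ν (g • x) A = ν x {ξ | g • ξ ∈ A}
  pos : ∀ (x : T.V) (ξ : Bd N) (n : ℕ), ν x {ζ | ∀ i < n, ζ.1 i = ξ.1 i} ≠ 0

/-- What the proof uses about the current. -/
structure Curr (ν : T.V → Measure (Bd N)) (μ : Measure (Bd N × Bd N)) : Prop where
  prod : ∃ c : ℝ≥0, ∀ e : T.D, μ.restrict (T.Cyl e) =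
    (c : ℝ≥0∞) • (((ν (T.tgt e)).restrict (T.Sh (T.rev e))).prod ((ν (T.tgt e)).restrict (T.Sh e)))

/-- `μ` is invariant and finite on the cylinders of `T`. -/
structure Inv (μ : Measure (Bd N × Bd N)) : Prop where
  fin : ∀ e : T.D, μ (T.Cyl e) < ∞
  inv : ∀ (g : F N) (e : T.D),
    (μ.restrict (T.Cyl e)).map (fun p => (g • p.1, g • p.2)) = μ.restrict (T.Cyl (g • e))

end CV

end Pool.Agent.R685.PS
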