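import Pool.Agent.R685.PS.Main2

open MeasureTheory Filter Topology Set
open scoped ENNReal NNReal

namespace Pool.Agent.R685.PS.Final

theorem final0 (hW : S_WALLS) (hCof : S_COF) (hBdry : S_BDRY) (hHoro : S_HORO) (hHpos : S_HPOS)
    (hDens : S_DENS) (hCurr : S_CURR) (hInv : S_INV) (hNX : S_NX) (hXng : S_XNG)
    (hM2 : S_MAIN2) :
    ∀ (N : ℕ), 2 ≤ N → ∀ (T S : CV N) (μT μS : Measure (Bd N × Bd N)),
      T.IsPSCurrent μT → S.IsPSCurrent μS → 1 ≤ S.inter μT * T.inter μS ∧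
      ENNReal.ofReal T.critExp ≤ ENNReal.ofReal S.critExp * S.inter μT := by
  have one : ∀ (N : ℕ), 2 ≤ N → ∀ (T S : CV N) (μT : Measure (Bd N × Bd N)),
      T.IsPSCurrent μT → 0 < S.critExp → (∃ ν' : S.V → Measure (Bd N), S.IsPSDensity ν') →
      0 < T.critExp ∧ S.inter μT < ∞ ∧ T.critExp ≤ S.critExp * (S.inter μT).toReal := by
    intro N hN2 T S μ hμ hSpos hν'
    obtain ⟨⟨ν, x, c, hν, hμe⟩, hnorm⟩ := hμ
    obtain ⟨ν', hν'⟩ := hν'
    have hTW := hW N T
    have hSW := hW N S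
    have hTC := hCof N T hTW
    have hSC := hCof N S hSW
    have hTB := hBdry N T hTW hTC
    have hSB := hBdry N S hSW hSC
    have hTH := hHoro N T hTW hTC hTB
    have hSH := hHoro N S hSW hSC hSB
    have hTpos := hHpos N T ν hN2 hν
    have hTD := hDens N T ν hN2 hTW hTC hTB hTH hTpos hν
    have hSD := hDens N S ν' hN2 hSW hSC hSB hSH hSpos hν'
    have hTcur := hCurr N T ν x c μ hTW hTC hTB hTH hν hμe
    have hTI := hInv N T T.critExp ν μ hTW hTC hTB hTD hTcur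
    have h := hM2 N T S T.critExp S.critExp ν ν' μ hTW hTC hTB (hNX N T hTW hTC hTB) hSW hSC hSB
      (hXng N S hSW hSC hSB) hTD hTcur hTI hSD hSpos.le
    rw [hnorm] at h
    simp only [ENNReal.toReal_one, mul_one] at h
    exact ⟨hTpos, h⟩
  intro N hN2 T S μT μS hT hS
  obtain ⟨⟨νT, xT, cT, hνT, hμT⟩, hnT⟩ := id hT
  obtain ⟨⟨νS, xS, cS, hνS, hμS⟩, hnS⟩ := id hS
  have hTpos := hHpos N T νT hN2 hνT
  have hSpos := hHpos N S νS hN2 hνS
  obtain ⟨-, hf1, h1⟩ := one N hN2 T S μT hT hSpos ⟨νS, hνS⟩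
  obtain ⟨-, hf2, h2⟩ := one N hN2 S T μS hS hTpos ⟨νT, hνT⟩
  have h3 : T.critExp * S.critExp ≤ (T.critExp * S.critExp) *
      ((S.inter μT).toReal * (T.inter μS).toReal) := by
    have h4 := mul_le_mul h1 h2 hSpos.le (hTpos.le.trans h1)
    calc T.critExp * S.critExp ≤ S.critExp * (S.inter μT).toReal *
        (T.critExp * (T.inter μS).toReal) := h4
      _ = _ := by ring
  have h5 : 0 < T.critExp * S.critExp := mul_pos hTpos hSpos
  have h6 : 1 ≤ (S.inter μT).toReal * (T.inter μS).toReal := by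
    by_contra hcon
    push Not at hcon
    have := mul_lt_mul_of_pos_left hcon h5
    linarith
  constructor
  · rw [← ENNReal.ofReal_toReal hf1.ne, ← ENNReal.ofReal_toReal hf2.ne,
      ← ENNReal.ofReal_mul ENNReal.toReal_nonneg, ← ENNReal.ofReal_one]
    exact ENNReal.ofReal_le_ofReal h6
  · rw [← ENNReal.ofReal_toReal hf1.ne, ← ENNReal.ofReal_mul hSpos.le]
    exact ENNReal.ofReal_le_ofReal h1

end Pool.Agent.R685.PS.Final
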