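import Pool.Agent.R685.PS.Stm2
import Pool.Agent.R685.PS.WallsP

/-!
# PSE-ISO: from the walls to the trees (helper743)
-/

set_option autoImplicit false

open MeasureTheory Filter Topology Set

namespace Pool.Agent.R685.PS.Iso

open WallsP

variable {N : ℕ} (T : CV N)

theorem src_rev (d : T.D) : T.src (T.rev d) = T.tgt d := rfl

theorem tgt_rev (d : T.D) : T.tgt (T.rev d) = T.src d := rfl

theorem rev_rev (d : T.D) : T.rev (T.rev d) = d := rfl

theorem src_ne_tgt (d : T.D) : T.src d ≠ T.tgt d := T.G.ne_of_adj d.2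

/-- the first dart of the way from `v` to `u` -/
theorem first (v u : T.V) : u = v ∨ ∃ d : T.D, T.src d = v ∧ u ∈ T.H d := by
  have h := (SimpleGraph.reachable_iff_reflTransGen _ _).1 (T.isTree.connected.preconnected v u)
  induction h with
  | refl => left; rfl
  | @tail b c _ hbc ih =>
    rcases ih with rfl | ⟨d, hd, hb⟩
    · right; exact ⟨⟨(b, c), hbc⟩, rfl, tgt_mem T _⟩
    · by_cases hc : c ∈ T.H d
      · right; exact ⟨d, hd, hc⟩
      · left
        have := cross' T d c b hbc.symm hc hb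
        rw [← hd, this]; rfl

theorem Sh_mono (e f : T.D) (h : T.H e ⊆ T.H f) : T.Sh e ⊆ T.Sh f := fun _ hξ x =>
  (hξ x).mono fun _ hn => h hn

/-- `f` and `e` start at the same vertex, in terms of shadows -/
def Cov (e f : T.D) : Prop := T.Sh e ⊆ T.Sh (T.rev f) ∧ e ≠ T.rev f ∧
  ∀ w : T.D, T.Sh e ⊆ T.Sh w → T.Sh w ⊆ T.Sh (T.rev f) → w = e ∨ w = T.rev f

theorem cov_of (hR : T.Red) (e f : T.D) (hv : T.src e = T.src f) (hne : e ≠ f) : Cov T e f := by
  refine ⟨Sh_mono T _ _ ?_, ?_, ?_⟩
  · intro p hp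
    rw [compl]
    intro hpf
    have h1 : T.tgt e ∉ T.H f := by
      intro h2
      exact hne ((cross T e f).1 ⟨by rw [hv]; exact src_not T f, h2⟩).symm
    have h3 := convex T f e (T.tgt e) p (tgt_mem T e) hp h1 hpf
    apply src_not T e
    rw [hv]
    exact h3.1
  · intro h
    have h1 : T.src e = T.tgt f := by rw [h]; rfl
    exact src_ne_tgt T f (hv.symm.trans h1)
  · intro w hw1 hw2
    have h1 := hR.sub _ _ hw1
    have h2 := hR.sub _ _ hw2
    by_cases h3 : T.src e ∈ T.H w
    · right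
      refine (cross T (T.rev f) w).1 ⟨fun h4 => src_not T (T.rev f) (h2 h4), ?_⟩
      rw [tgt_rev, ← hv]
      exact h3
    · left
      exact (cross T e w).1 ⟨h3, h1 (tgt_mem T e)⟩

theorem src_of_cov (hR : T.Red) (e f : T.D) (hc : Cov T e f) : T.src e = T.src f := by
  obtain ⟨hc1, hc2, hc3⟩ := hc
  by_contra hne
  have hHe := hR.sub _ _ hc1
  rcases first T (T.src e) (T.src f) with h | ⟨d, hd, hu⟩
  · exact hne h.symm
  have hv : T.src e ∈ T.H (T.rev f) := by
    by_contra h
    exact hc2 ((cross T e (T.rev f)).1 ⟨h, hHe (tgt_mem T e)⟩).symm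
  have hvf : T.src e ∉ T.H f := (compl T f _).1 hv
  have hue : T.src f ∉ T.H e := by
    intro h
    exact hc2 ((cross T (T.rev f) e).1 ⟨fun h4 => src_not T (T.rev f) (hHe h4), h⟩)
  have hde : e ≠ d := by
    rintro rfl
    exact hue hu
  have h1 : T.H e ⊆ T.H (T.rev d) := by
    intro p hp
    rw [compl]
    intro hpd
    have h2 : T.tgt d ∉ T.H e := by
      intro h3
      exact hde ((cross T d e).1 ⟨by rw [hd]; exact src_not T e, h3⟩)
    have h4 := convex T e d (T.tgt d) p (tgt_mem T d) hpd h2 hp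
    apply src_not T d
    rw [hd]
    exact h4.1
  have h2 : T.H (T.rev d) ⊆ T.H (T.rev f) := by
    intro p hp
    rw [compl] at hp ⊢
    intro hpf
    have h3 : T.tgt f ∈ T.H d := by
      by_contra h4
      have h5 := (cross T (T.rev f) d).1 ⟨h4, hu⟩
      apply hvf
      rw [← hd, h5]
      exact tgt_mem T f
    have h4 := convex T d f p (T.tgt f) hpf (tgt_mem T f) hp h3
    apply hvf
    rw [← hd]
    exact h4.1
  rcases hc3 (T.rev d) (Sh_mono T _ _ h1) (Sh_mono T _ _ h2) with h3 | h3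
  · have h4 : T.tgt d = T.src e := by rw [← h3]; rfl
    exact src_ne_tgt T d (hd.trans h4.symm)
  · have h4 : d = f := by
      rw [← rev_rev T d, h3, rev_rev]
    rw [h4] at hd
    exact hne hd.symm

theorem src_iff (hR : T.Red) (e f : T.D) : T.src e = T.src f ↔ e = f ∨ Cov T e f := by
  constructor
  · intro h
    by_cases hne : e = f
    · exact Or.inl hne
    · exact Or.inr (cov_of T hR e f h hne)
  · rintro (rfl | h)
    · rfl
    · exact src_of_cov T hR e f h

/-- PSE-ISO -/
theorem main : S_ISO := by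
  intro N T S h h' hN _ _ TB TRe TR _ _ SB SRe SR hTS hST
  choose P hP using hTS
  have hPS : ∀ e, S.Sh (P e) = T.Sh e := fun e => (hP e).1
  have hinj : ∀ e f, P e = P f → e = f := by
    intro e f hef
    apply TR.inj
    rw [← hPS e, ← hPS f, hef]
  have hsurj : ∀ k : S.D, ∃ e : T.D, P e = k := by
    intro k
    obtain ⟨e, he, _⟩ := hST k
    refine ⟨e, SR.inj _ _ ?_⟩
    rw [hPS e, he]
  have hequi : ∀ (g : F N) (e : T.D), P (g • e) = g • P e := by
    intro g e
    apply SR.inj
    rw [hPS]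
    ext ξ
    have h1 : ξ = g • (g⁻¹ • ξ) := by rw [smul_inv_smul]
    rw [h1, TB.smul g e, SB.smul g (P e), hPS]
  have hrev : ∀ e : T.D, P (T.rev e) = S.rev (P e) := by
    intro e
    apply SR.inj
    rw [hPS]
    ext ξ
    rw [TB.compl, SB.compl, hPS]
  have hcov : ∀ e f : T.D, Cov T e f ↔ Cov S (P e) (P f) := by
    intro e f
    unfold Cov
    rw [← hrev f, hPS, hPS]
    refine and_congr Iff.rfl (and_congr ?_ ?_)
    · constructor
      · intro h1 h2
        exact h1 (hinj _ _ h2)
      · intro h1 h2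
        exact h1 (by rw [h2])
    · constructor
      · intro h1 k hk1 hk2
        obtain ⟨w, rfl⟩ := hsurj k
        rw [hPS] at hk1 hk2
        rcases h1 w hk1 hk2 with h2 | h2
        · left; rw [h2]
        · right; rw [h2]
      · intro h1 w hw1 hw2
        have h2 := h1 (P w) (by rw [hPS]; exact hw1) (by rw [hPS]; exact hw2)
        rcases h2 with h3 | h3
        · left; exact hinj _ _ h3
        · right; exact hinj _ _ h3
  have hsrc : ∀ e f : T.D, T.src e = T.src f ↔ S.src (P e) = S.src (P f) := by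
    intro e f
    rw [src_iff T TR, src_iff S SR, hcov e f]
    constructor
    · rintro (h1 | h1)
      · left; rw [h1]
      · exact Or.inr h1
    · rintro (h1 | h1)
      · left; exact hinj _ _ h1
      · exact Or.inr h1
  have hex : ∀ v : T.V, ∃ e : T.D, T.src e = v := by
    intro v
    obtain ⟨a, _, _, ha, _⟩ := TRe v
    exact ⟨⟨(v, a), ha⟩, rfl⟩
  have hexS : ∀ v : S.V, ∃ e : S.D, S.src e = v := by
    intro v
    obtain ⟨a, _, _, ha, _⟩ := SRe v
    exact ⟨⟨(v, a), ha⟩, rfl⟩
  choose E hE using hex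
  have hψ : ∀ e : T.D, S.src (P (E (T.src e))) = S.src (P e) := by
    intro e
    rw [← hsrc, hE]
  have hbij : Function.Bijective (fun v : T.V => S.src (P (E v))) := by
    constructor
    · intro u v huv
      have h1 : S.src (P (E u)) = S.src (P (E v)) := huv
      rw [← hsrc, hE, hE] at h1
      exact h1
    · intro y
      obtain ⟨k, hk⟩ := hexS y
      obtain ⟨e, he⟩ := hsurj k
      refine ⟨T.src e, ?_⟩
      change S.src (P (E (T.src e))) = y
      rw [hψ, he, hk]
  let ψ : T.V ≃ S.V := Equiv.ofBijective _ hbij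
  have hψs : ∀ e : T.D, ψ (T.src e) = S.src (P e) := hψ
  have hψt : ∀ e : T.D, ψ (T.tgt e) = S.tgt (P e) := by
    intro e
    have h1 := hψs (T.rev e)
    rw [hrev] at h1
    exact h1
  refine ⟨ψ, ?_, ?_, ?_⟩
  · intro g x
    have h1 := hψs (g • E x)
    have h2 : T.src (g • E x) = g • x := by
      have h3 : T.src (g • E x) = g • T.src (E x) := rfl
      rw [h3, hE]
    rw [h2, hequi] at h1
    have h4 : S.src (g • P (E x)) = g • S.src (P (E x)) := rfl
    rw [h1, h4]
    have h5 := hψs (E x)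
    rw [hE] at h5
    rw [h5]
  · intro u v
    constructor
    · intro huv
      obtain ⟨e, he⟩ := hsurj ⟨(ψ u, ψ v), huv⟩
      have h1 : ψ (T.src e) = ψ u := by rw [hψs, he]; rfl
      have h2 : ψ (T.tgt e) = ψ v := by rw [hψt, he]; rfl
      have h3 := ψ.injective h1
      have h4 := ψ.injective h2
      rw [← h3, ← h4]
      exact e.2
    · intro huv
      have h1 := hψs ⟨(u, v), huv⟩
      have h2 := hψt ⟨(u, v), huv⟩
      have h3 : ψ u = S.src (P ⟨(u, v), huv⟩) := h1
      have h4 : ψ v = S.tgt (P ⟨(u, v), huv⟩) := h2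
      rw [h3, h4]
      exact (P ⟨(u, v), huv⟩).2
  · intro u v huv
    have h1 : ψ u = S.src (P ⟨(u, v), huv⟩) := hψs ⟨(u, v), huv⟩
    have h2 : ψ v = S.tgt (P ⟨(u, v), huv⟩) := hψt ⟨(u, v), huv⟩
    rw [h1, h2]
    exact (hP ⟨(u, v), huv⟩).2

end Pool.Agent.R685.PS.Iso
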