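import Pool.Agent.R685.PS.Stm2
import Pool.Agent.R685.PS.Main2
import Pool.Agent.R685.PS.Stat

open MeasureTheory Filter Topology Set
open scoped ENNReal NNReal

namespace Pool.Agent.R685.PS.RigBase

variable {N : ℕ} {T S : CV N} {φ : T.V → S.V} {h h' : ℝ} {ν : T.V → Measure (Bd N)}
  {ν' : S.V → Measure (Bd N)} {μ : Measure (Bd N × Bd N)}

theorem log_diff {m1 m2 : Measure (Bd N)} [IsFiniteMeasure m1] [IsFiniteMeasure m2] {a : ℝ}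
    {A B : Set (Bd N)} (h1 : m1 A = ENNReal.ofReal (Real.exp a) * m2 A)
    (h2 : m1 B = ENNReal.ofReal (Real.exp a) * m2 B) (hA : 0 < m2.real A) (hB : 0 < m2.real B) :
    Real.log (m1.real A) - Real.log (m1.real B) = Real.log (m2.real A) - Real.log (m2.real B) := by
  have e1 : m1.real A = Real.exp a * m2.real A := by
    rw [Measure.real, h1, ENNReal.toReal_mul, ENNReal.toReal_ofReal (Real.exp_pos _).le]
    rfl
  have e2 : m1.real B = Real.exp a * m2.real B := by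
    rw [Measure.real, h2, ENNReal.toReal_mul, ENNReal.toReal_ofReal (Real.exp_pos _).le]
    rfl
  rw [e1, e2, Real.log_mul (Real.exp_pos _).ne' hA.ne', Real.log_mul (Real.exp_pos _).ne' hB.ne']
  ring

theorem real_pos' (hH : T.Horo2) {m : Measure (Bd N)} [IsFiniteMeasure m]
    (hm : ∀ (ξ : Bd N) (n : ℕ), m {ζ | ∀ i < n, ζ.1 i = ξ.1 i} ≠ 0) (e : T.D)
    (hne : (T.Sh e).Nonempty) : 0 < m.real (T.Sh e) := by
  obtain ⟨n, hn⟩ := hH.opn e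
  obtain ⟨ξ, hξ⟩ := hne
  have hsub : {ζ : Bd N | ∀ i < n, ζ.1 i = ξ.1 i} ⊆ T.Sh e := fun ζ hζ => (hn ξ ζ hζ).2 hξ
  have h1 : m (T.Sh e) ≠ 0 := fun h0 => hm ξ n (measure_mono_null hsub h0)
  exact ENNReal.toReal_pos h1 (measure_ne_top _ _)

theorem posT (d : Dat T S φ h h' ν ν' μ) (x : T.V) (e : T.D) : 0 < (ν x).real (T.Sh e) := by
  have := d.TD.fin x
  exact real_pos' d.TH2 (fun ξ n => d.TD.pos x ξ n) e (d.ne e)

theorem posS (d : Dat T S φ h h' ν ν' μ) (x : S.V) (e : T.D) : 0 < (ν' x).real (T.Sh e) := by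
  have := d.SD.fin x
  exact real_pos' d.TH2 (fun ξ n => d.SD.pos x ξ n) e (d.ne e)

theorem sh_sub_iter (d : Dat T S φ h h' ν ν' μ) (n : ℕ) (e : T.D) (ζ : Bd N) (hζ : ζ ∈ T.Sh e) :
    T.Sh (T.nx ζ ((T.nx ζ)^[n] e)) ⊆ T.Sh ((T.nx ζ)^[n] e) := by
  have h1 := d.TN.sh n e ζ hζ
  obtain ⟨h2, h3⟩ := d.TN.step _ _ h1
  exact d.TB.sub _ _ h2 h3

theorem conf_iter (d : Dat T S φ h h' ν ν' μ) (n : ℕ) (e : T.D) (ζ : Bd N) (hζ : ζ ∈ T.Sh e) :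
    ∃ s : ℝ, ∀ A : Set (Bd N), MeasurableSet A → A ⊆ T.Sh ((T.nx ζ)^[n] e) →
      ν (T.tgt e) A = ENNReal.ofReal (Real.exp s) * ν (T.tgt ((T.nx ζ)^[n] e)) A := by
  induction n with
  | zero =>
    refine ⟨0, fun A _ _ => ?_⟩
    simp
  | succ n ih =>
    obtain ⟨s, hs⟩ := ih
    have h1 := d.TN.sh n e ζ hζ
    obtain ⟨h2, h3⟩ := d.TN.step _ _ h1
    refine ⟨s + (-h * T.ell (T.nx ζ ((T.nx ζ)^[n] e))), fun A hA hsub => ?_⟩
    rw [Function.iterate_succ_apply'] at hsub ⊢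
    rw [hs A hA (hsub.trans (sh_sub_iter d n e ζ hζ)), ← h2, d.TD.conf _ A hA hsub, Real.exp_add,
      ENNReal.ofReal_mul (Real.exp_pos _).le, mul_assoc]

/-- R1 -/
theorem R1 (hB : S_NXB) (d : Dat T S φ h h' ν ν' μ) (i : ℕ) (e : T.D) (ω : Bd N × Bd N)
    (hω : ω ∈ T.Cyl e) : Kc T S φ ν ν' i ((T.nx ω.2)^[i] e) ω =
      Lg T S φ ν ν' (i + 1) e ω.2 - Lg T S φ ν ν' i e ω.2 := by
  have hb := hB N T d.TW d.TC d.TB d.TN i e ω hω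
  unfold Kc Lg
  rw [hb]
  rw [Function.iterate_succ_apply']
  have h0 : T.src (T.rev e) = T.tgt e := rfl
  rw [h0]
  obtain ⟨s, hs⟩ := conf_iter d i e ω.2 hω.2
  have := d.TD.fin (T.tgt e)
  have := d.TD.fin (T.tgt ((T.nx ω.2)^[i] e))
  have h1 := log_diff (hs _ (d.TB.meas _) (sh_sub_iter d i e ω.2 hω.2))
    (hs _ (d.TB.meas _) (Set.Subset.refl _)) (posT d _ _) (posT d _ _)
  linarith

theorem R3 (hB : S_NXB) (d : Dat T S φ h h' ν ν' μ) (i0 : ℕ) (hD : Deep T S φ i0) (i : ℕ)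
    (hi : i0 ≤ i) (f : T.D) (ω : Bd N × Bd N) (hω : ω ∈ T.Cyl f) :
    Kc T S φ ν ν' i f ω = Kc T S φ ν ν' i0 f ω := by
  rcases hi.eq_or_lt with rfl | hlt
  · rfl
  have hω' : ((ω.2, ω.1) : Bd N × Bd N) ∈ T.Cyl (T.rev f) := ⟨hω.2, hω.1⟩
  have hb : (T.nx ω.2)^[i0] (T.rev ((T.nx ω.1)^[i0] (T.rev f))) = f :=
    hB N T d.TW d.TC d.TB d.TN i0 (T.rev f) (ω.2, ω.1) hω'
  have hc := d.TN.cyl i0 (T.rev f) (ω.2, ω.1) hω'
  have hg : ω.1 ∈ T.Sh ((T.nx ω.1)^[i0] (T.rev f)) := hc.2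
  have he : ω.2 ∈ T.Sh (T.rev ((T.nx ω.1)^[i0] (T.rev f))) := hc.1
  have hsrc : T.src ((T.nx ω.1)^[i] (T.rev f)) ∈ T.H ((T.nx ω.1)^[i0] (T.rev f)) := by
    obtain ⟨k, rfl⟩ : ∃ k, i = k + 1 + i0 := ⟨i - i0 - 1, by omega⟩
    rw [Function.iterate_add_apply, Function.iterate_succ_apply']
    have h1 := d.TN.sh k _ _ hg
    rw [(d.TN.step _ _ h1).1]
    apply d.TN.sub k _ _ hg
    exact ((d.TW.cross _ _).2 rfl).2
  have hx : T.src ((T.nx ω.1)^[i] (T.rev f)) ∉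
      T.H (T.rev ((T.nx ω.1)^[i0] (T.rev f))) := by
    rw [d.TW.compl]
    exact not_not_intro hsrc
  have hdeep := hD _ ω.2 he i0 le_rfl _ hx
  rw [hb] at hdeep
  have ht : T.tgt (T.rev ((T.nx ω.1)^[i0] (T.rev f))) = T.src ((T.nx ω.1)^[i0] (T.rev f)) := rfl
  rw [ht] at hdeep
  have hf : ω.2 ∈ T.Sh f := hω.2
  have hbus := fun (A : Set (Bd N)) (hA : MeasurableSet A) (hsub : A ⊆ T.Sh f) =>
    d.SD2.bus (φ (T.src ((T.nx ω.1)^[i] (T.rev f)))) (φ (T.src ((T.nx ω.1)^[i0] (T.rev f)))) A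
      (S.busemann ω.2 (φ (T.src ((T.nx ω.1)^[i] (T.rev f))))
        (φ (T.src ((T.nx ω.1)^[i0] (T.rev f))))) hA (fun ξ hξ => hdeep ξ ω.2 (hsub hξ) hf)
  have := d.SD.fin (φ (T.src ((T.nx ω.1)^[i] (T.rev f))))
  have := d.SD.fin (φ (T.src ((T.nx ω.1)^[i0] (T.rev f))))
  have h2 := log_diff (hbus _ (d.TB.meas _) (sh_sub_iter d 0 f ω.2 hf))
    (hbus _ (d.TB.meas _) (Set.Subset.refl _)) (posS d _ _) (posS d _ _)
  unfold Kc
  simp only [Function.iterate_zero, id_eq] at h2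
  rw [h2]

end Pool.Agent.R685.PS.RigBase
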